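import Pool.Agent.Lib.MP_0becda_co.Coset.AltMain

/-!
Steps on which the larger subgroup acts by affine maps.
-/

set_option linter.unusedSectionVars false

open Finset Pool.Agent.Lib.MP_0becda_co.PSL

namespace Pool.Agent.Lib.MP_0becda_co.Coset

variable {G : Type} [Group G] [Fintype G]

theorem sum_reps {X : Type} [AddCommGroup X] [Fintype X] (J : AddSubgroup X) [Fintype (X ⧸ J)]
    (F : X → ℕ) (h : ∀ j ∈ J, ∀ c, F (c + j) = F c) :
    ∑ c, F c = Nat.card J * ∑ q : X ⧸ J, F q.out := by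
  classical
  rw [← Finset.sum_fiberwise univ (fun c : X => (c : X ⧸ J)), mul_sum]
  refine sum_congr rfl fun q _ => ?_
  rw [sum_congr rfl (g := fun _ => F q.out) fun c hc => ?_, sum_const, smul_eq_mul]
  · congr 1
    rw [← Fintype.card_subtype, ← Nat.card_eq_fintype_card]
    refine Nat.card_congr ⟨fun c => ⟨-q.out + c.1, QuotientAddGroup.eq.1 (by rw [c.2]; simp)⟩,
      fun j => ⟨q.out + j, by simp⟩, fun c => by simp, fun j => by simp⟩
  · have h1 : -q.out + c ∈ J := QuotientAddGroup.eq.1 (by rw [(mem_filter.1 hc).2]; simp)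
    rw [← h _ h1 q.out, add_neg_cancel_left]

namespace TV

variable {H K : Subgroup G} {X : Type} [Fintype X] [AddCommGroup X] (T : TV H K X)

/-- `k` acts on the fibre as the translation by `a` -/
def Tr (k : G) (a : X) : Prop := k ∈ K ∧ ∀ x, (T.t (x + a))⁻¹ * k * T.t x ∈ H

variable {T}

theorem Tr.one : T.Tr 1 0 := ⟨one_mem _, fun x => by simp [one_mem]⟩

theorem Tr.mul {k k' : G} {a a' : X} (h : T.Tr k a) (h' : T.Tr k' a') : T.Tr (k * k') (a + a') :=
  ⟨mul_mem h.1 h'.1, fun x => by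
    have := mul_mem (h.2 (x + a')) (h'.2 x)
    rwa [add_assoc, add_comm a', show (T.t (x + (a + a')))⁻¹ * k * T.t (x + a') *
      ((T.t (x + a'))⁻¹ * k' * T.t x) = (T.t (x + (a + a')))⁻¹ * (k * k') * T.t x by group] at this⟩

theorem Tr.inv {k : G} {a : X} (h : T.Tr k a) : T.Tr k⁻¹ (-a) :=
  ⟨inv_mem h.1, fun x => by
    have := inv_mem (h.2 (x + -a))
    rwa [neg_add_cancel_right, mul_inv_rev, mul_inv_rev, inv_inv, ← mul_assoc] at this⟩

theorem Tr.uniq {k : G} {a a' : X} (h : T.Tr k a) (h' : T.Tr k a') : a = a' := by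
  have := T.uniq _ _ (by simpa [mul_assoc] using mul_mem (h.2 0) (inv_mem (h'.2 0)))
  simpa using this

variable (T)

theorem bal_affine (p : ℕ) [Fact p.Prime] [Module (ZMod p) X] {Γ : Subgroup (Equiv.Perm X)}
    (hΓ : ∀ (μ : X ≃ₗ[ZMod p] X) c, μ.toEquiv.trans (Equiv.addRight c) ∈ Γ)
    (hμ : ∀ ρ : X →ₗ[ZMod p] X, ∃ μ : X ≃ₗ[ZMod p] X, ∀ a, μ a = ρ a → a = 0)
    {A : Type} [Group A] [Finite A] (hA : (Nat.card A).Coprime p) (χ : K →* A)
    (hχ : ∀ k : K, χ k = 1 → ∃ a, T.Tr k a) {d : G} {N : ℕ} (hN : N * kk K d d = 2 * cd K) :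
    T.Bal Γ d N := by
  classical
  let ψ : St K d →* A × A := MonoidHom.prod (χ.comp (Subgroup.inclusion inf_le_left))
    (χ.comp (((MulAut.conj d⁻¹).toMonoidHom.comp (St K d).subtype).codRestrict K
      fun s => by simpa using (mem_St.1 s.2).2))
  have hψ : ∀ s : ψ.ker, ∃ a b, T.Tr s a ∧ T.Tr (d⁻¹ * s * d) b := fun s => by
    have h1 := Prod.ext_iff.1 (MonoidHom.mem_ker.1 s.2)
    obtain ⟨a, ha⟩ := hχ _ h1.1
    obtain ⟨b, hb⟩ := hχ _ h1.2
    exact ⟨a, b, ha, by simpa using hb⟩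
  choose τ τ' hτ hτ' using hψ
  let I : Submodule (ZMod p) (X × X) := AddSubgroup.toZModSubmodule p
    { carrier := {z | ∃ s : ψ.ker, T.Tr s z.1 ∧ T.Tr (d⁻¹ * s * d) z.2}
      zero_mem' := ⟨1, Tr.one, by simpa using Tr.one⟩
      add_mem' := fun ⟨s, h1, h2⟩ ⟨s', h3, h4⟩ => ⟨s * s', h1.mul h3, by
        simpa [mul_assoc] using h2.mul h4⟩
      neg_mem' := fun ⟨s, h1, h2⟩ => ⟨s⁻¹, h1.inv, by simpa [mul_assoc] using h2.inv⟩ }
  let π := (LinearMap.fst (ZMod p) X X).comp I.subtype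
  obtain ⟨σ, hσ⟩ := π.rangeRestrict.exists_rightInverse_of_surjective π.range_rangeRestrict
  obtain ⟨ρ, hρ⟩ := ((LinearMap.snd (ZMod p) X X).comp (I.subtype.comp σ)).exists_extend
  have hI : ∀ a ∈ π.range, ∃ s : ψ.ker, T.Tr s a ∧ T.Tr (d⁻¹ * s * d) (ρ a) := fun a ha => by
    obtain ⟨s, h1, h2⟩ := (σ ⟨a, ha⟩).2
    have h3 : (σ ⟨a, ha⟩).1.1 = a := congrArg Subtype.val (LinearMap.congr_fun hσ ⟨a, ha⟩)
    have h4 : ρ a = (σ ⟨a, ha⟩).1.2 := LinearMap.congr_fun hρ ⟨a, ha⟩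
    exact ⟨s, h3 ▸ h1, h4 ▸ h2⟩
  obtain ⟨μ, hμ⟩ := hμ ρ
  have hinj : Function.Injective (ρ - μ.toLinearMap) :=
    (injective_iff_map_eq_zero _).2 fun a h => hμ a (sub_eq_zero.1 h).symm
  let J := (π.range.map (ρ - μ.toLinearMap)).toAddSubgroup
  have hJ : Nat.card J = Nat.card π.range :=
    (Nat.card_congr (π.range.equivMapOfInjective _ hinj).toEquiv).symm
  have hm : Fintype.card (X ⧸ J) * Nat.card J = Fintype.card X := by
    rw [← Nat.card_eq_fintype_card, ← Nat.card_eq_fintype_card,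
      ← AddSubgroup.card_eq_card_quotient_mul_card_addSubgroup]
  have hB : T.Bal Γ d (Fintype.card (X ⧸ J)) := by
    refine ⟨univ.val.map fun q : X ⧸ J => μ.toEquiv.trans (Equiv.addRight q.out), by simp,
      fun θ h => ?_, fun g => ?_⟩
    · obtain ⟨q, -, rfl⟩ := Multiset.mem_map.1 h
      exact hΓ _ _
    have h1 := sum_reps J (fun c => ∑ x, kk H ((T.t x)⁻¹ * d * T.t (μ x + c)) g) fun j hj c => by
      obtain ⟨a, ha, rfl⟩ := hj
      obtain ⟨s, h1, h2⟩ := hI a ha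
      rw [← (AddGroup.addRight_bijective a).sum_comp]
      refine sum_congr rfl fun x _ => ?_
      rw [← T.kk_move (h1.2 x) (h2.2 (μ x + c)) g]
      congr 3
      simp only [map_add, LinearMap.sub_apply, LinearEquiv.coe_coe]
      abel
    rw [Multiset.map_map, ← hm, mul_assoc, ← T.sum_kk]
    congr 1
    refine h1.symm.trans (sum_comm.trans (sum_congr rfl fun x _ => ?_))
    exact (AddGroup.addLeft_bijective (μ x)).sum_comp fun y => kk H ((T.t x)⁻¹ * d * T.t y) g
  obtain ⟨j, rfl⟩ : Fintype.card (X ⧸ J) ∣ N := by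
    refine dvd_of_count hN ?_
    let τh : ψ.ker →* Multiplicative π.range := MonoidHom.mk'
      (fun s => Multiplicative.ofAdd ⟨τ s, ⟨(τ s, τ' s), s, hτ s, hτ' s⟩, rfl⟩)
      fun s s' => Subtype.ext ((hτ (s * s')).uniq ((hτ s).mul (hτ s')))
    have h1 : Function.Surjective τh := fun ⟨a, ha⟩ => by
      obtain ⟨s, h1, -⟩ := hI a ha
      exact ⟨s, Subtype.ext ((hτ s).uniq h1)⟩
    have h2 : Nat.card τh.ker ∣ cd H := by
      rw [cd_eq]
      refine Subgroup.card_dvd_of_injective ((((MulAut.conj (T.t 0)⁻¹).toMonoidHom.comp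
        (St K d).subtype).comp (ψ.ker.subtype.comp τh.ker.subtype)).codRestrict H fun s => ?_)
        fun s s' hs => Subtype.ext (Subtype.ext (Subtype.ext
          ((MulAut.conj (T.t 0)⁻¹).injective (congrArg Subtype.val hs))))
      have h3 : τ s = 0 := congrArg (fun z : Multiplicative π.range => (z.toAdd : X))
        (MonoidHom.mem_ker.1 s.2)
      simpa [h3] using (hτ s).2 0
    have h3 := Subgroup.card_mul_index τh.ker
    rw [Subgroup.index_ker, MonoidHom.range_eq_top.2 h1, Subgroup.card_top,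
      Nat.card_congr Multiplicative.toAdd, ← hJ] at h3
    have h4 := Subgroup.card_mul_index ψ.ker
    rw [Subgroup.index_ker, ← cd_eq (St K d)] at h4
    have h5 : (Fintype.card (X ⧸ J)).Coprime (Nat.card ψ.range) := by
      have h6 : (Nat.card ψ.range).Coprime p := Nat.Coprime.coprime_dvd_left
        ψ.range.card_subgroup_dvd_card (by rw [Nat.card_prod]; exact hA.mul_left hA)
      refine Nat.Coprime.coprime_dvd_left ⟨_, hm.symm⟩ ?_
      rw [Module.card_eq_pow_finrank (K := ZMod p), ZMod.card]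
      exact h6.symm.pow_left _
    have h7 : cd (St K d) ∣ cd K := by
      rw [cd_eq, cd_eq]; exact Subgroup.card_dvd_of_le inf_le_left
    have h8 : Nat.card ψ.ker * Fintype.card (X ⧸ J) ∣ cd K := by
      rw [← T.card_mul, ← hm, ← h3, mul_comm, mul_assoc, mul_comm (Nat.card τh.ker)]
      exact Nat.mul_dvd_mul_left _ (Nat.mul_dvd_mul_left _ h2)
    obtain ⟨k, hk⟩ := (Dvd.intro _ rfl).trans h8
    have h9 : 0 < Nat.card ψ.ker := Nat.card_pos
    rw [← h4, hk] at h7
    rw [hk] at h8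
    rw [← h4, hk, mul_left_comm]
    exact Nat.mul_dvd_mul_left _ (h5.mul_dvd_of_dvd_of_dvd (Nat.dvd_of_mul_dvd_mul_left h9 h8)
      (Nat.dvd_of_mul_dvd_mul_left h9 h7))
  rw [mul_comm]
  exact hB.mul j

end TV

theorem kap_ker {H K : Subgroup G} {A : Type} [Group A] (ψ : K →* A)
    (hψ : ∀ k : K, ψ k = 1 ↔ (k : G) ∈ H) (hle : H ≤ K) (z : K) (g : G) :
    kap H z g = cd H * ind (∃ h : g ∈ K, ψ z = ψ ⟨g, h⟩) := by
  rw [kap, cd, sum_mul]
  refine sum_congr rfl fun a _ => ?_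
  rw [← ind_and, ← sum_ind_and ((a * g)⁻¹ * z)]
  refine sum_congr rfl fun b _ => ind_congr ⟨?_, ?_⟩
  · rintro ⟨h1, h2, h3⟩
    have hg : g ∈ K := (K.mul_mem_cancel_left (hle h1)).1
      ((K.mul_mem_cancel_right (hle h2)).1 (h3 ▸ z.2))
    refine ⟨by rw [h3]; group, h1, hg, ?_⟩
    rw [show z = ⟨a, hle h1⟩ * ⟨g, hg⟩ * ⟨b, hle h2⟩ from Subtype.ext h3, map_mul, map_mul,
      (hψ ⟨a, _⟩).2 h1, (hψ ⟨b, _⟩).2 h2, one_mul, mul_one]
  · rintro ⟨rfl, h1, hg, h2⟩
    refine ⟨h1, (hψ ((⟨a, hle h1⟩ * ⟨g, hg⟩)⁻¹ * z)).1 ?_, by group⟩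
    rw [map_mul, map_inv, map_mul, (hψ _).2 h1, one_mul, h2, inv_mul_cancel]

/-- A normal step of odd prime index. -/
theorem ct_prime {H K : Subgroup G} (p : ℕ) [hp : Fact p.Prime] (hodd : Odd p)
    (ψ : K →* Multiplicative (ZMod p)) (hs : Function.Surjective ψ)
    (hψ : ∀ k : K, ψ k = 1 ↔ (k : G) ∈ H) (hle : H ≤ K) (h : CT K) : CT H := by
  classical
  choose t ht using fun x : ZMod p => hs (Multiplicative.ofAdd x)
  have hm : ∀ (k : K) x y, (((t y)⁻¹ * k * t x : K) : G) ∈ H ↔ y = x + (ψ k).toAdd := fun k x y => by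
    rw [← hψ, map_mul, map_mul, map_inv, ht, ht, mul_assoc, inv_mul_eq_one, mul_comm]
    rfl
  let T : TV H K (ZMod p) :=
    { t := fun x => t x
      le := hle
      mem := fun x => (t x).2
      ex := fun g hg => ⟨(ψ ⟨g, hg⟩).toAdd, (hψ ((t _)⁻¹ * ⟨g, hg⟩)).1 (by simp [ht])⟩
      uniq := fun x y h => by simpa using (hm 1 y x).1 (by simpa using h) }
  let Γ : Subgroup (Equiv.Perm (ZMod p)) :=
    { carrier := {Φ | ∃ m, m ≠ 0 ∧ ∀ x y, Φ y - Φ x = m * (y - x)}
      one_mem' := ⟨1, one_ne_zero, by simp⟩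
      mul_mem' := fun ⟨m, h1, h2⟩ ⟨m', h3, h4⟩ => ⟨m * m', mul_ne_zero h1 h3, fun x y => by
        rw [Equiv.Perm.mul_apply, Equiv.Perm.mul_apply, h2, h4, mul_assoc]⟩
      inv_mem' := fun {Φ} ⟨m, h1, h2⟩ => ⟨m⁻¹, inv_ne_zero h1, fun x y => by
        rw [eq_inv_mul_iff_mul_eq₀ h1, ← h2, pinv', pinv']⟩ }
  have h3 : 3 ≤ p := by
    have := hp.out.two_le
    rcases hodd with ⟨k, rfl⟩
    omega
  refine T.step (Γ := Γ) (fun k hk => ⟨Equiv.addRight (ψ ⟨k, hk⟩).toAdd, ⟨1, one_ne_zero, by simp⟩,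
    fun x => (hm ⟨k, hk⟩ x _).2 rfl⟩) (fun d _ N hN => T.bal_affine p (Γ := Γ)
      (fun μ c => Exists.intro (μ 1) ⟨by simp, fun x y => ?_⟩) (fun ρ => ?_) (A := Unit) (by simp) 1
      (fun k _ => ⟨(ψ k).toAdd, k.2, fun x => (hm k x _).2 rfl⟩) hN)
    (fun Φ ⟨m, hm0, hΦ⟩ a b Vx Ex hP => ?_) h
  · have h1 : ∀ x, μ x = μ 1 * x := fun x => by rw [mul_comm, ← smul_eq_mul, ← map_smul]; simp
    simp only [Equiv.trans_apply, LinearEquiv.coe_toEquiv, Equiv.coe_addRight]
    rw [h1 x, h1 y]; ring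
  · obtain ⟨m, h1, h2⟩ := exists_third (M := ZMod p) (by rwa [Nat.card_zmod]) 0 (ρ 1)
    refine ⟨LinearEquiv.smulOfNeZero _ _ m h1, fun a ha => ?_⟩
    have h4 : ρ a = ρ 1 * a := by rw [mul_comm, ← smul_eq_mul, ← map_smul]; simp
    rw [h4] at ha
    exact (mul_eq_zero.1 (show (m - ρ 1) * a = 0 by
      rw [sub_mul, ← ha]; simp)).resolve_left (sub_ne_zero.2 h2)
  obtain ⟨V, E0, E1, x0, x1, hA, hV, h0, h1⟩ := st_odd _ (Multiplicative (ZMod p)) rfl
    (by simpa using hodd)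
  obtain rfl := eq_univ_of_C (X := ZMod p) hV
  refine ⟨_, _, _, hA.weave (X := ZMod p) Vx Ex _ _ hP, fun g => ?_⟩
  have key : ∀ (c : G) (Ψ : ZMod p → ZMod p) (m : ZMod p), m ≠ 0 →
      (∀ x y, Ψ y - Ψ x = m * (y - x)) → ∀ E : Multiset (Sym2 (Multiplicative (ZMod p))),
      (∀ z, W E z = ind (z ≠ 1)) →
      KE H (E.map (Sym2.map fun x : ZMod p => c * T.t (Ψ x))) g = cd H * ind (g ∈ K ∧ g ∉ H) := by
    intro c Ψ m hm0 hΨ E hE
    have hk : ∀ x y : ZMod p, kap H ((c * T.t (Ψ x))⁻¹ * (c * T.t (Ψ y))) g =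
        cd H * ind (∃ h : g ∈ K, y - x = m⁻¹ * (ψ ⟨g, h⟩).toAdd) := fun x y => by
      rw [show (c * T.t (Ψ x))⁻¹ * (c * T.t (Ψ y)) = ((t (Ψ x))⁻¹ * t (Ψ y) : K) by simp [T],
        kap_ker ψ hψ hle]
      congr 1
      refine ind_congr (exists_congr fun h => ?_)
      rw [map_mul, map_inv, ht, ht, eq_inv_mul_iff_mul_eq₀ hm0, ← hΨ, sub_eq_neg_add]
      rfl
    by_cases hg : g ∈ K
    · have h2 : ∀ E : Multiset (Sym2 (Multiplicative (ZMod p))),
          KE H (E.map (Sym2.map fun x : ZMod p => c * T.t (Ψ x))) g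
            = cd H * W E (Multiplicative.ofAdd (m⁻¹ * (ψ ⟨g, hg⟩).toAdd)) := fun E => by
        induction E using Multiset.induction_on with
        | empty => exact (KE_zero H g).trans (by simp)
        | cons e E ih =>
          erw [Multiset.map_cons]
          rw [KE_cons, W_cons, mul_add, ih]
          congr 1
          induction e using Sym2.ind with
          | _ u v =>
            refine (congrArg₂ (· + ·) (hk u v) (hk v u)).trans ((mul_add _ _ _).symm.trans ?_)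
            simp only [hg, exists_true_left]
            exact congrArg (cd H * ·) (congrArg₂ (· + ·)
              (ind_congr (by erw [sub_eq_neg_add]; rfl)) (ind_congr (by erw [sub_eq_neg_add]; rfl)))
      rw [h2, hE]
      congr 1
      refine ind_congr ?_
      rw [← hψ ⟨g, hg⟩]
      simp [hg, hm0]
    · rw [ind_neg fun h => hg h.1, mul_zero]
      refine Multiset.sum_eq_zero fun n hn => ?_
      obtain ⟨e, he, rfl⟩ := Multiset.mem_map.1 hn
      obtain ⟨e, -, rfl⟩ := Multiset.mem_map.1 he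
      induction e using Sym2.ind with
      | _ u v => exact (congrArg₂ (· + ·) (hk u v) (hk v u)).trans (by simp [hg, ind_neg])
  rw [KE_add, key b Φ m hm0 hΦ E0 h0, key a (fun x => x) 1 one_ne_zero (by simp) E1 h1,
    mul_assoc, two_mul]

/-- Descent through a solvable section of odd order. -/
theorem ct_odd {Z : Subgroup G} (n : ℕ) : ∀ K : Subgroup G, Nat.card K = n → Odd (Z.relIndex K) → Z ≤ K →
    (∀ L, Z < L → L ≤ K → Z ⊔ ⁅L, L⁆ < L) → CT K → CT Z := by
  induction n using Nat.strong_induction_on with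
  | _ n ih =>
    intro K hn hodd hle hL h
    rcases hle.eq_or_lt with rfl | hlt
    · exact h
    have h1 := hL K hlt le_rfl
    obtain ⟨C, hC, h3⟩ := (eq_top_or_exists_le_coatom ((Z ⊔ ⁅K, K⁆).subgroupOf K)).resolve_left
      fun h => h1.not_ge (Subgroup.subgroupOf_eq_top.1 h)
    have h4 : commutator K ≤ C := Subgroup.commutator_le.2 fun a _ b _ =>
      h3 (Subgroup.mem_sup_right (S := Z) (Subgroup.commutator_mem_commutator a.2 b.2))
    have hN : C.Normal := Subgroup.Normal.of_commutator_le _ h4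
    let _ : CommGroup (K ⧸ C) :=
      { (inferInstance : Group (K ⧸ C)) with
        mul_comm := (Subgroup.Normal.quotient_commutative_iff_commutator_le.2 h4).is_comm.comm }
    have hS : IsSimpleGroup (K ⧸ C) :=
      { toNontrivial := QuotientGroup.nontrivial_iff.2 hC.1
        eq_bot_or_eq_top_of_normal := fun J _ => by
          rw [← Subgroup.map_comap_eq_self_of_surjective (QuotientGroup.mk'_surjective C) J]
          rcases (QuotientGroup.le_comap_mk' C J).eq_or_lt with h | h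
          · exact Or.inl (by rw [← h, QuotientGroup.map_mk'_self])
          · exact Or.inr (by
              rw [hC.2 _ h, Subgroup.map_top_of_surjective _ (QuotientGroup.mk'_surjective C)]) }
    have hp : Fact (Nat.card (K ⧸ C)).Prime := ⟨IsSimpleGroup.prime_card⟩
    have h5 := Subgroup.card_eq_card_quotient_mul_card_subgroup C
    have h6 : Nat.card (C.map K.subtype) = Nat.card C :=
      Subgroup.card_map_of_injective K.subtype_injective
    let e : K ⧸ C ≃* Multiplicative (ZMod (Nat.card (K ⧸ C))) :=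
      mulEquivOfPrimeCardEq rfl (by simp)
    have h7 : 0 < Nat.card C := Nat.card_pos
    have h8 : Z ≤ C.map K.subtype := fun z hz => ⟨⟨z, hle hz⟩, h3 (Subgroup.mem_sup_left hz), rfl⟩
    have h9 := Subgroup.relIndex_mul_relIndex _ _ _ h8 (Subgroup.map_subtype_le C)
    have h10 : (C.map K.subtype).relIndex K = Nat.card (K ⧸ C) :=
      congrArg Subgroup.index (Subgroup.comap_map_eq_self_of_injective K.subtype_injective C)
    refine ih _ ?_ (C.map K.subtype) h6 (hodd.of_dvd_nat ⟨_, h9.symm⟩) h8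
      (fun L k1 k2 => hL L k1 (k2.trans (Subgroup.map_subtype_le C)))
      (ct_prime _ (hodd.of_dvd_nat ⟨_, by rw [← h9, h10, mul_comm]⟩)
        (e.toMonoidHom.comp (QuotientGroup.mk' C))
        (e.surjective.comp (QuotientGroup.mk'_surjective C)) (fun k => by simp)
        (Subgroup.map_subtype_le C) h)
    rw [← hn, h5]
    exact (Nat.lt_mul_iff_one_lt_left h7).2 hp.out.one_lt

end Pool.Agent.Lib.MP_0becda_co.Coset
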