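import Pool.Agent.Lib.MP_0becda_co.Coset.Free

/-!
Normal subgroups that act as groups generated by three-cycles.
-/

set_option linter.unusedSectionVars false

open Finset Equiv Pool.Agent.Lib.MP_0becda_co.PSL

namespace Pool.Agent.Lib.MP_0becda_co.Coset

section perm
variable {Ω : Type} [DecidableEq Ω]

/-- the three-cycle `a ↦ b ↦ c ↦ a` -/
def c3 (a b c : Ω) : Perm Ω := swap a b * swap b c

theorem c3_spec {a b c : Ω} (h1 : a ≠ b) (h2 : a ≠ c) (h3 : b ≠ c) : c3 a b c a = b ∧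
    c3 a b c b = c ∧ c3 a b c c = a ∧ ∀ x, x ≠ a → x ≠ b → x ≠ c → c3 a b c x = x := by
  refine ⟨?_, ?_, ?_, fun x h4 h5 h6 => ?_⟩ <;> simp [c3, swap_apply_def, *, h2.symm, h3.symm]

theorem c3_conj (g : Perm Ω) (a b c : Ω) : c3 (g a) (g b) (g c) = g * c3 a b c * g⁻¹ := by
  rw [c3, c3, swap_apply_apply, swap_apply_apply]; group

theorem c3_rot {a b c : Ω} (h1 : a ≠ b) (h2 : a ≠ c) (h3 : b ≠ c) : c3 b c a = c3 a b c := by
  obtain ⟨e1, e2, e3, -⟩ := c3_spec h1 h2 h3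
  have := c3_conj (c3 a b c) a b c
  rwa [e1, e2, e3, mul_inv_cancel_right] at this

theorem c3_inv (a b c : Ω) : c3 c b a = (c3 a b c)⁻¹ := by
  rw [c3, c3, mul_inv_rev, swap_inv, swap_inv, swap_comm c, swap_comm b a]

/-- the three-cycle lies in `P` -/
def T3 (P : Subgroup (Perm Ω)) (a b c : Ω) : Prop := a ≠ b ∧ a ≠ c ∧ b ≠ c ∧ c3 a b c ∈ P

variable {P : Subgroup (Perm Ω)}

theorem T3.rot {a b c : Ω} (h : T3 P a b c) : T3 P b c a :=
  ⟨h.2.2.1, h.1.symm, h.2.1.symm, (c3_rot h.1 h.2.1 h.2.2.1).symm ▸ h.2.2.2⟩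

theorem T3.rev {a b c : Ω} (h : T3 P a b c) : T3 P c b a :=
  ⟨h.2.2.1.symm, h.2.1.symm, h.1.symm, (c3_inv a b c).symm ▸ inv_mem h.2.2.2⟩

theorem T3.conj {a b c : Ω} (h : T3 P a b c) {g : Perm Ω} (hg : ∀ σ ∈ P, g * σ * g⁻¹ ∈ P) :
    T3 P (g a) (g b) (g c) :=
  ⟨g.injective.ne h.1, g.injective.ne h.2.1, g.injective.ne h.2.2.1,
    (c3_conj g a b c).symm ▸ hg _ h.2.2.2⟩

theorem T3.conj' {a b c : Ω} (h : T3 P a b c) {g : Perm Ω} (hg : g ∈ P) :
    T3 P (g a) (g b) (g c) := h.conj fun _ hσ => mul_mem (mul_mem hg hσ) (inv_mem hg)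

/-- points moved by a common three-cycle of `P` -/
def R3 (P : Subgroup (Perm Ω)) (x y : Ω) : Prop := x = y ∨ ∃ z, T3 P x y z

theorem T3.move {a b c d : Ω} (h : T3 P a b c) (hd : R3 P c d) (h1 : d ≠ a) (h2 : d ≠ b) :
    T3 P a b d := by
  rcases hd with rfl | ⟨e, he⟩
  · exact h
  obtain ⟨e1, e2, e3, e4⟩ := c3_spec he.1 he.2.1 he.2.2.1
  by_cases ha : a = e
  · subst ha
    have h3 := he.rev
    obtain ⟨f1, f2, f3, f4⟩ := c3_spec h3.1 h3.2.1 h3.2.2.1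
    have := h.conj' h3.2.2.2
    rw [f1, f3, f4 b h.1.symm h2.symm h.2.2.1] at this
    exact this.rev
  by_cases hb : b = e
  · subst hb
    have h3 := he.rev
    obtain ⟨f1, f2, f3, f4⟩ := c3_spec h3.1 h3.2.1 h3.2.2.1
    have := h.conj' h3.2.2.2
    rw [f1, f3, f4 a h.1 h1.symm h.2.1] at this
    exact this.rev.rot.rot
  · have := h.conj' he.2.2.2
    rwa [e1, e4 a h.2.1 h1.symm ha, e4 b h.2.2.1 h2.symm hb] at this

theorem R3.refl (x : Ω) : R3 P x x := Or.inl rfl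

theorem R3.symm {x y : Ω} (h : R3 P x y) : R3 P y x :=
  h.imp Eq.symm fun ⟨z, hz⟩ => ⟨z, hz.rev.rot⟩

theorem R3.trans {x y z : Ω} (h : R3 P x y) (h' : R3 P y z) : R3 P x z := by
  rcases h with rfl | ⟨w, hw⟩
  · exact h'
  by_cases h1 : z = x
  · exact Or.inl h1.symm
  by_cases h2 : z = w
  · exact Or.inr ⟨y, h2 ▸ hw.rev.rot.rot⟩
  · exact Or.inr ⟨w, (hw.rev.rot.rot.move h' h1 h2).rev.rot.rot⟩

theorem R3.t3 {x y z : Ω} (h : R3 P x y) (h' : R3 P x z) (h1 : x ≠ y) (h2 : x ≠ z) (h3 : y ≠ z) :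
    T3 P x y z := by
  obtain ⟨w, hw⟩ := h.resolve_left h1
  exact hw.move ((R3.symm (Or.inr ⟨y, hw.rev.rot.rot⟩)).trans h') h2.symm h3.symm

variable [Fintype Ω]

theorem r3_of_gen {σ : Perm Ω} (hσ : σ ∈ P) (h : σ.IsThreeCycle) (x : Ω) : R3 P x (σ x) := by
  by_cases hx : x ∈ σ.support
  · have h1 := h.nodup_iff_mem_support.2 hx
    simp only [List.nodup_cons, List.mem_cons, not_or, List.not_mem_nil] at h1
    refine Or.inr ⟨_, h1.1.1, h1.1.2.1, h1.2.1.1, ?_⟩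
    rwa [c3, ← h.eq_swap_mul_swap_iff_mem_support.2 hx]
  · exact Or.inl (Perm.notMem_support.1 hx).symm

open Classical in
theorem gen_spec (hP : P ≤ Subgroup.closure {σ | σ ∈ P ∧ σ.IsThreeCycle}) {σ : Perm Ω}
    (hσ : σ ∈ P) : (∀ x, R3 P x (σ x)) ∧ ∀ x (h : ∀ y, R3 P x (σ y) ↔ R3 P x y),
      Perm.sign (σ.subtypePerm h) = 1 := by
  have hi : ∀ {σ : Perm Ω}, (∀ x, R3 P x (σ x)) → ∀ x y, R3 P x (σ y) ↔ R3 P x y :=
    fun h x y => ⟨fun h1 => h1.trans (h y).symm, fun h1 => h1.trans (h y)⟩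
  refine Subgroup.closure_induction (p := fun σ _ => (∀ x, R3 P x (σ x)) ∧
    ∀ x (h : ∀ y, R3 P x (σ y) ↔ R3 P x y), Perm.sign (σ.subtypePerm h) = 1)
    (fun σ h => ⟨r3_of_gen h.1 h.2, fun x hx => ?_⟩) ⟨R3.refl, fun _ _ => map_one Perm.sign⟩
    (fun σ τ _ _ h1 h2 => ⟨fun x => (h2.1 x).trans (h1.1 _), fun x _ => ?_⟩)
    (fun σ _ h1 => ⟨fun x => ?_, fun x _ => ?_⟩) (hP hσ)
  · have h3 : σ.subtypePerm hx ^ 3 = 1 := by
      rw [Perm.subtypePerm_pow]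
      ext y
      simp [← h.2.orderOf]
    have h4 := congrArg Perm.sign h3
    rwa [map_pow, map_one, pow_succ, Int.units_sq, one_mul] at h4
  · rw [← Perm.subtypePerm_mul _ _ (hi h1.1 x) (hi h2.1 x), map_mul, h1.2, h2.2, one_mul]
  · have := (h1.1 (σ⁻¹ x)).symm
    rwa [pinv'] at this
  · rw [Perm.subtypePerm_inv, map_inv, h1.2, inv_one]

end perm

theorem hom_alt {X : Type} [Fintype X] [DecidableEq X] (h3 : 3 ≤ Fintype.card X) (f : X → X → ℕ)
    (hs : ∀ x y, f x y = f y x) (hf : ∀ a b c, a ≠ b → a ≠ c → b ≠ c → ∀ x y,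
      f (c3 a b c x) (c3 a b c y) = f x y) {x y x' y' : X} (h1 : x ≠ y) (h2 : x' ≠ y') :
    f x y = f x' y' := by
  have k1 : ∀ x y y', x ≠ y → x ≠ y' → f x y = f x y' := fun x y y' h1 h2 => by
    by_cases hy : y = y'
    · rw [hy]
    · obtain ⟨e1, e2, e3, -⟩ := c3_spec h1 h2 hy
      rw [← hf x y y' h1 h2 hy x y, e1, e2, ← hf x y y' h1 h2 hy y y', e2, e3, hs]
  obtain ⟨w, h4, h5⟩ := exists_third (M := X) (by rwa [Nat.card_eq_fintype_card]) x x'
  rw [k1 x y w h1 h4.symm, hs, k1 w x x' h4 h5, hs, k1 x' w y' h5.symm h2]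

variable {G : Type} [Group G] [Fintype G] {Ω : Type} [Fintype Ω] [DecidableEq Ω]
variable (φ : G →* Perm Ω) (M : Subgroup G)

/-- elements of `M` that fix every point outside `F` -/
def HF (F : Finset Ω) : Subgroup G where
  carrier := {g | g ∈ M ∧ ∀ y, y ∉ F → φ g y = y}
  one_mem' := ⟨one_mem _, fun _ _ => by simp⟩
  mul_mem' := fun h1 h2 => ⟨mul_mem h1.1 h2.1, fun y hy => by
    rw [map_mul, Perm.mul_apply, h2.2 y hy, h1.2 y hy]⟩
  inv_mem' := fun h1 => ⟨inv_mem h1.1, fun y hy => by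
    rw [map_inv, Perm.inv_eq_iff_eq, h1.2 y hy]⟩

variable {φ M}

theorem mem_HF {F : Finset Ω} {g : G} : g ∈ HF φ M F ↔ g ∈ M ∧ ∀ y, y ∉ F → φ g y = y := Iff.rfl

theorem mem_erase_HF {F : Finset Ω} {x : Ω} {g : G} :
    g ∈ HF φ M (F.erase x) ↔ g ∈ HF φ M F ∧ φ g x = x :=
  ⟨fun h => ⟨⟨h.1, fun y hy => h.2 y fun h1 => hy (mem_of_mem_erase h1)⟩,
    h.2 x (notMem_erase _ _)⟩, fun h => ⟨h.1.1, fun y hy => by
      by_cases h1 : y = x
      · rw [h1, h.2]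
      · exact h.1.2 y fun h2 => hy (mem_erase.2 ⟨h1, h2⟩)⟩⟩

theorem HF_maps {F : Finset Ω} {g : G} (hg : g ∈ HF φ M F) {y : Ω} (hy : y ∈ F) : φ g y ∈ F := by
  by_contra h
  exact h (((φ g).injective (hg.2 _ h)).symm ▸ hy)

theorem r3_conj [hM : M.Normal] (g : G) {x y : Ω} (h : R3 (M.map φ) x y) :
    R3 (M.map φ) (φ g x) (φ g y) :=
  h.imp (congrArg _) fun ⟨_, hz⟩ => ⟨_, hz.conj fun _ ⟨s, hs, h⟩ =>
    ⟨g * s * g⁻¹, hM.conj_mem s hs g, by rw [← h, map_mul, map_mul, map_inv]⟩⟩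

theorem exists_c3 {F : Finset Ω} {a b c : Ω} (h : T3 (M.map φ) a b c) (ha : a ∈ F) (hb : b ∈ F)
    (hc : c ∈ F) : ∃ s ∈ HF φ M F, φ s = c3 a b c := by
  obtain ⟨s, hs, h1⟩ := h.2.2.2
  exact ⟨s, ⟨hs, fun y hy => by
    rw [h1]
    exact (c3_spec h.1 h.2.1 h.2.2.1).2.2.2 y (fun h => hy (h ▸ ha)) (fun h => hy (h ▸ hb))
      fun h => hy (h ▸ hc)⟩, h1⟩

theorem c3_coe {p : Ω → Prop} [DecidablePred p] {a b c : Subtype p} (h1 : a ≠ b) (h2 : a ≠ c)
    (h3 : b ≠ c) (y : Subtype p) : ((c3 a b c y : Subtype p) : Ω) = c3 (a : Ω) b c y := by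
  obtain ⟨e1, e2, e3, e4⟩ := c3_spec h1 h2 h3
  obtain ⟨f1, f2, f3, f4⟩ := c3_spec (Subtype.val_injective.ne h1) (Subtype.val_injective.ne h2)
    (Subtype.val_injective.ne h3)
  by_cases k1 : y = a
  · rw [k1, e1, f1]
  by_cases k2 : y = b
  · rw [k2, e2, f2]
  by_cases k3 : y = c
  · rw [k3, e3, f3]
  rw [e4 y k1 k2 k3, f4 y (Subtype.val_injective.ne k1) (Subtype.val_injective.ne k2)
    (Subtype.val_injective.ne k3)]

variable (hP : M.map φ ≤ Subgroup.closure {σ | σ ∈ M.map φ ∧ σ.IsThreeCycle})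
include hP

theorem r3_mem {g : G} (hg : g ∈ M) (x : Ω) : R3 (M.map φ) x (φ g x) :=
  (gen_spec hP ⟨g, hg, rfl⟩).1 x

theorem erase_small {F : Finset Ω} {x : Ω}
    (h : ∀ y z, y ∈ F → z ∈ F → R3 (M.map φ) x y → R3 (M.map φ) x z → x = y ∨ x = z ∨ y = z)
    (hx : x ∈ F) : HF φ M (F.erase x) = HF φ M F := by
  classical
  ext g
  rw [mem_erase_HF, and_iff_left_iff_imp]
  intro hg
  by_contra h1
  have h2 := r3_mem hP hg.1
  have h3 : ∀ y, R3 (M.map φ) x (φ g y) ↔ R3 (M.map φ) x y :=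
    fun y => ⟨fun h1 => h1.trans (h2 y).symm, fun h1 => h1.trans (h2 y)⟩
  have h4 := (gen_spec hP ⟨g, hg.1, rfl⟩).2 x h3
  have h5 : (φ g).subtypePerm h3 = swap ⟨x, R3.refl x⟩ ⟨φ g x, h2 x⟩ := by
    ext ⟨y, hy⟩
    rw [Perm.subtypePerm_apply]
    by_cases k1 : y = x
    · subst k1; rw [swap_apply_left]
    by_cases k2 : y = φ g x
    · subst k2
      rw [swap_apply_right]
      rcases h _ _ (HF_maps hg hx) (HF_maps hg (HF_maps hg hx)) hy ((h3 _).2 hy) with h | h | h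
      · exact absurd h.symm h1
      · exact h.symm
      · exact absurd ((φ g).injective h).symm h1
    · rw [swap_apply_of_ne_of_ne (by simpa using k1) (by simpa using k2)]
      refine hg.2 y fun hF => ?_
      rcases h _ _ (HF_maps hg hx) hF (h2 x) hy with h | h | h
      · exact h1 h.symm
      · exact k1 h.symm
      · exact k2 h.symm
  rw [h5, Perm.sign_swap (by simpa using Ne.symm h1)] at h4
  exact absurd h4 (by decide)

theorem ct_erase [hM : M.Normal] {F : Finset Ω} {x : Ω} (hx : x ∈ F) (h : CT (HF φ M F)) :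
    CT (HF φ M (F.erase x)) := by
  classical
  by_cases hs : ∀ y z, y ∈ F → z ∈ F → R3 (M.map φ) x y → R3 (M.map φ) x z →
      x = y ∨ x = z ∨ y = z
  · rwa [erase_small hP hs hx]
  let X := {y // y ∈ F ∧ R3 (M.map φ) x y}
  have h3 : 3 ≤ Fintype.card X := by
    simp only [not_forall, not_or] at hs
    obtain ⟨y, z, h1, h2, h4, h5, h6, h7, h8⟩ := hs
    exact Fintype.two_lt_card_iff.2 ⟨⟨x, hx, R3.refl x⟩, ⟨y, h1, h4⟩, ⟨z, h2, h5⟩,
      fun h => h6 (congrArg Subtype.val h), fun h => h7 (congrArg Subtype.val h),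
      fun h => h8 (congrArg Subtype.val h)⟩
  have hc : ∀ a b c : X, a ≠ b → a ≠ c → b ≠ c → ∃ s ∈ HF φ M F, φ s = c3 (a : Ω) b c :=
    fun a b c h1 h2 h4 => exists_c3 ((a.2.2.symm.trans b.2.2).t3 (a.2.2.symm.trans c.2.2)
      (Subtype.val_injective.ne h1) (Subtype.val_injective.ne h2) (Subtype.val_injective.ne h4))
      a.2.1 b.2.1 c.2.1
  have ht : ∀ y : X, ∃ s ∈ HF φ M F, φ s x = y := fun y => by
    by_cases hy : (⟨x, hx, R3.refl x⟩ : X) = y
    · exact ⟨1, one_mem _, by rw [← hy]; simp⟩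
    · obtain ⟨w, h1, h2⟩ := exists_third (M := X) (by rwa [Nat.card_eq_fintype_card])
        ⟨x, hx, R3.refl x⟩ y
      obtain ⟨s, h4, h5⟩ := hc _ _ _ hy h1.symm h2.symm
      exact ⟨s, h4, by
        rw [h5]
        exact (c3_spec (Subtype.val_injective.ne hy) (Subtype.val_injective.ne h1.symm)
          (Subtype.val_injective.ne h2.symm)).1⟩
  choose t ht1 ht2 using ht
  have hmv : ∀ k ∈ HF φ M F, ∀ y y' : X, φ k y = y' →
      (t y')⁻¹ * k * t y ∈ HF φ M (F.erase x) := fun k hk y y' h =>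
    mem_erase_HF.2 ⟨mul_mem (mul_mem (inv_mem (ht1 _)) hk) (ht1 _), by
      rw [map_mul, map_mul, map_inv, Perm.mul_apply, Perm.mul_apply, ht2, h, ← ht2, pinv]⟩
  let T : TV (HF φ M (F.erase x)) (HF φ M F) X :=
    { t := t
      le := fun g hg => (mem_erase_HF.1 hg).1
      mem := ht1
      ex := fun g hg => ⟨⟨φ g x, HF_maps hg hx, r3_mem hP hg.1 x⟩, mem_erase_HF.2
        ⟨mul_mem (inv_mem (ht1 _)) hg, by
          rw [map_mul, map_inv, Perm.mul_apply, Perm.inv_eq_iff_eq, ht2]⟩⟩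
      uniq := fun y z h => Subtype.ext (by
        have := (mem_erase_HF.1 h).2
        rw [map_mul, map_inv, Perm.mul_apply, Perm.inv_eq_iff_eq, ht2, ht2] at this
        exact this.symm) }
  refine T.step_free (fun y z y' z' h1 h2 g => ?_) (fun d hd N hN => ?_) h
  · refine hom_alt h3 (fun y z => kk _ ((T.t y)⁻¹ * T.t z) g)
      (fun y z => by rw [← kk_inv, mul_inv_rev, inv_inv]) (fun a b c k1 k2 k3 y z => ?_) h1 h2
    obtain ⟨s, h4, h5⟩ := hc a b c k1 k2 k3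
    have := T.kk_move (d := 1) (s := s) (hmv s h4 y _ (by rw [h5, c3_coe k1 k2 k3]))
      (by simpa using hmv s h4 z _ (by rw [h5, c3_coe k1 k2 k3])) g
    simpa using this
  by_cases k1 : ∃ y : X, φ d⁻¹ y ∉ F
  · obtain ⟨y, hy⟩ := k1
    refine T.bal_fix (t y) (fun s hs => hmv s (mem_St.1 hs).1 y y ?_) hN
    have := (mem_St.1 hs).2.2 _ hy
    rw [map_mul, map_mul, map_inv, Perm.mul_apply, Perm.mul_apply, pinv'] at this
    exact (φ d)⁻¹.injective this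
  by_cases k2 : ∃ y : X, φ d y ∉ F
  · obtain ⟨y, hy⟩ := k2
    refine T.bal_fix (d * t y) (fun s hs => ?_) hN
    have := hmv _ (mem_St.1 hs).2 y y (by
      rw [map_mul, map_mul, map_inv, Perm.mul_apply, Perm.mul_apply, (mem_St.1 hs).1.2 _ hy, pinv])
    rwa [mul_inv_rev, mul_assoc _ d⁻¹, ← mul_assoc _ d, mul_assoc _ _ d]
  simp only [not_exists, not_not] at k1 k2
  have hc' : ∀ a b c : X, a ≠ b → a ≠ c → b ≠ c → ∃ s ∈ HF φ M F, φ s = c3 (a : Ω) b c ∧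
      d⁻¹ * s * d ∈ HF φ M F := fun a b c h1 h2 h4 => by
    obtain ⟨s, h5, h6⟩ := hc a b c h1 h2 h4
    refine ⟨s, h5, h6, by simpa using hM.conj_mem s h5.1 d⁻¹, fun y hy => ?_⟩
    have h7 : ∀ e : X, φ d y ≠ e := fun e he => hy (by
      have := k1 e
      rwa [← he, map_inv, pinv] at this)
    rw [map_mul, map_mul, map_inv, Perm.mul_apply, Perm.mul_apply, h6,
      (c3_spec (Subtype.val_injective.ne h1) (Subtype.val_injective.ne h2)
        (Subtype.val_injective.ne h4)).2.2.2 _ (h7 a) (h7 b) (h7 c), pinv]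
  by_cases k3 : R3 (M.map φ) x (φ d x)
  · have k4 : R3 (M.map φ) x (φ d⁻¹ x) := by
      have := (r3_conj d⁻¹ k3).symm
      rwa [map_inv, pinv, ← map_inv] at this
    let l0 : X → X := fun y => ⟨φ d⁻¹ y, k1 y, k4.trans (r3_conj _ y.2.2)⟩
    have hl : Function.Injective l0 := fun y z h =>
      Subtype.ext ((φ d⁻¹).injective (congrArg Subtype.val h))
    obtain ⟨σ, hσ⟩ := bal_alt h3
    refine T.bal_one (θ := Equiv.ofBijective l0 hl.bijective_of_finite * σ) (Subgroup.mem_top _)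
      (fun g => ?_) N
    rw [← sum_congr rfl fun y _ => hl.bijective_of_finite.sum_comp
      fun z => kk _ ((T.t y)⁻¹ * d * T.t z) g]
    refine hσ (fun y z => kk _ ((T.t y)⁻¹ * d * T.t (l0 z)) g) fun a b c h1 h2 h4 y z => ?_
    obtain ⟨s, h5, h6, h7⟩ := hc' a b c h1 h2 h4
    refine T.kk_move (hmv s h5 y _ (by rw [h6]; exact (c3_coe h1 h2 h4 y).symm))
      (hmv _ h7 _ _ ?_) g
    rw [map_mul, map_mul, Perm.mul_apply, Perm.mul_apply, h6]
    simp only [l0, map_inv, pinv']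
    exact congrArg _ (c3_coe h1 h2 h4 z).symm
  · refine T.bal_left (fun y y' z g => ?_) N
    by_cases hy : y' = y
    · rw [hy]
    obtain ⟨w, h1, h2⟩ := exists_third (M := X) (by rwa [Nat.card_eq_fintype_card]) y' y
    obtain ⟨s, h5, h6, h7⟩ := hc' _ _ _ hy h1.symm h2.symm
    obtain ⟨e1, -, -, e4⟩ := c3_spec (Subtype.val_injective.ne hy)
      (Subtype.val_injective.ne h1.symm) (Subtype.val_injective.ne h2.symm)
    have h8 : ∀ e : X, φ d z ≠ e := fun e he =>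
      k3 (e.2.2.trans (he ▸ (r3_conj d z.2.2).symm))
    refine T.kk_move (hmv s h5 _ _ (by rw [h6, e1])) (hmv _ h7 _ _ ?_) g
    rw [map_mul, map_mul, map_inv, Perm.mul_apply, Perm.mul_apply, h6,
      e4 _ (h8 _) (h8 _) (h8 _), pinv]

theorem ct_ker [M.Normal] (F : Finset Ω) : CT (HF φ M F) → CT (M ⊓ φ.ker) := by
  induction F using Finset.induction_on with
  | empty =>
    intro h
    rwa [show HF φ M ∅ = M ⊓ φ.ker from Subgroup.ext fun g =>
      and_congr_right fun _ => by simp [Equiv.ext_iff]] at h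
  | insert a S ha ih =>
    intro h
    exact ih (erase_insert ha ▸ ct_erase hP (mem_insert_self a S) h)

theorem comm_of_small (h : ∀ x, Nat.card {y // R3 (M.map φ) x y} ≤ 3) : ⁅M, M⁆ ≤ φ.ker := by
  classical
  refine Subgroup.commutator_le.2 fun a ha b hb => ?_
  rw [MonoidHom.mem_ker, map_commutatorElement, commutatorElement_eq_one_iff_mul_comm]
  ext x
  have h1 : ∀ g ∈ M, ∀ y, R3 (M.map φ) x (φ g y) ↔ R3 (M.map φ) x y := fun g hg y =>
    ⟨fun h1 => h1.trans (r3_mem hP hg y).symm, fun h1 => h1.trans (r3_mem hP hg y)⟩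
  have h2 := (alternatingGroup.isMulCommutative_of_card_le_three (h x)).is_comm.comm
    ⟨_, Perm.mem_alternatingGroup.2 ((gen_spec hP ⟨a, ha, rfl⟩).2 x (h1 a ha))⟩
    ⟨_, Perm.mem_alternatingGroup.2 ((gen_spec hP ⟨b, hb, rfl⟩).2 x (h1 b hb))⟩
  exact congrArg Subtype.val (Equiv.congr_fun (congrArg Subtype.val h2) ⟨x, R3.refl x⟩)

theorem ct_of_top [hM : M.Normal] {x : Ω} {n : ℕ} (hn : Nat.card {y // R3 (M.map φ) x y} = n)
    (h4 : 4 ≤ n) (hL : Ter (Multiplicative (ZMod n) × (G ⧸ M))) :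
    CT (HF φ M (univ.erase x)) := by
  classical
  have : NeZero n := ⟨by omega⟩
  have hcard : ∀ g : G, Nat.card {y // R3 (M.map φ) (φ g x) y} = n := fun g => by
    rw [← hn]
    refine (Nat.card_congr ((φ g).subtypeEquiv fun y => ⟨r3_conj g, fun h => ?_⟩)).symm
    have := r3_conj g⁻¹ h
    rwa [map_inv, pinv, pinv] at this
  obtain ⟨lab, hl1, hl2⟩ : ∃ lab : Ω → Multiplicative (ZMod n),
      (∀ (g : G) y z, R3 (M.map φ) (φ g x) y → R3 (M.map φ) (φ g x) z → lab y = lab z → y = z) ∧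
      ∀ (g : G) k, ∃ y, R3 (M.map φ) (φ g x) y ∧ lab y = k := by
    have h1 : ∀ p : Ω → Prop, ∃ f : Ω → Multiplicative (ZMod n), Nat.card {y // p y} = n →
        Function.Bijective fun y : {y // p y} => f y := fun p => by
      by_cases h : Nat.card {y // p y} = n
      · obtain ⟨e⟩ : Nonempty ({y // p y} ≃ Multiplicative (ZMod n)) :=
          Finite.card_eq.1 (by simpa using h)
        refine ⟨fun y => if hy : p y then e ⟨y, hy⟩ else 1, fun _ => ?_⟩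
        rw [show (fun y : {y // p y} => if hy : p y then e ⟨y, hy⟩ else 1) = e from
          funext fun y => dif_pos y.2]
        exact e.bijective
      · exact ⟨1, fun h1 => absurd h1 h⟩
    choose f hf using h1
    have h2 : ∀ y z, R3 (M.map φ) y z → R3 (M.map φ) z = R3 (M.map φ) y := fun y z h =>
      funext fun w => propext ⟨h.trans, h.symm.trans⟩
    refine ⟨fun y => f (R3 (M.map φ) y) y, fun g y z hy hz h => ?_, fun g k => ?_⟩
    · simp only [h2 _ _ hy, h2 _ _ hz] at h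
      exact congrArg Subtype.val ((hf _ (hcard g)).1 (a₁ := ⟨y, hy⟩) (a₂ := ⟨z, hz⟩) h)
    · obtain ⟨⟨y, hy⟩, h⟩ := (hf _ (hcard g)).2 k
      exact ⟨y, hy, by simpa only [h2 _ _ hy] using h⟩
  have hmv : ∀ (g : G) y v, R3 (M.map φ) (φ g x) y → ∃ s ∈ M, φ s (φ g x) = y ∧
      (v ≠ φ g x → v ≠ y → φ s v = v) := fun g y v hy => by
    by_cases h : φ g x = y
    · exact ⟨1, one_mem _, by simpa using h, by simp⟩
    obtain ⟨w, h1, h2⟩ : ∃ w, R3 (M.map φ) (φ g x) w ∧ w ∉ ({φ g x, y, v} : Finset Ω) := by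
      by_contra h1
      simp only [not_exists, not_and, not_not] at h1
      have h2 := Nat.card_le_card_of_injective (β := ({φ g x, y, v} : Finset Ω))
        (fun w : {w // R3 (M.map φ) (φ g x) w} => ⟨w, h1 _ w.2⟩)
        fun a b h => Subtype.ext (Subtype.mk.inj h)
      rw [hcard, Nat.card_eq_fintype_card, Fintype.card_coe] at h2
      have := h2.trans card_le_three
      omega
    simp only [mem_insert, mem_singleton, not_or] at h2
    obtain ⟨s, h3, h5⟩ := (hy.t3 h1 h (Ne.symm h2.1) (Ne.symm h2.2.1)).2.2.2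
    obtain ⟨e1, -, -, e2⟩ := c3_spec h (Ne.symm h2.1) (Ne.symm h2.2.1)
    exact ⟨s, h3, by rw [h5, e1], fun k1 k2 => by rw [h5, e2 v k1 k2 (Ne.symm h2.2.2)]⟩
  have hmem : ∀ g, g ∈ HF φ M (univ.erase x) ↔ g ∈ M ∧ φ g x = x := fun g => by
    simp [mem_HF]
  have hr : ∀ u v : G, u⁻¹ * v ∈ M → R3 (M.map φ) (φ u x) (φ v x) := fun u v h => by
    have := r3_conj u (r3_mem hP h x)
    rwa [← Perm.mul_apply, ← map_mul, mul_inv_cancel_left] at this
  have hfix : ∀ u v : G, φ (u⁻¹ * v) x = x ↔ φ v x = φ u x := fun u v => by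
    rw [map_mul, map_inv, Perm.mul_apply, Perm.inv_eq_iff_eq]
  have ht : ∀ l : Multiplicative (ZMod n) × (G ⧸ M), ∃ u : G,
      (u : G ⧸ M) = l.2 ∧ lab (φ u x) = l.1 := fun ⟨k, q⟩ => by
    obtain ⟨g, rfl⟩ := QuotientGroup.mk_surjective q
    obtain ⟨y, h1, rfl⟩ := hl2 g k
    obtain ⟨s, h2, h3, -⟩ := hmv g y y h1
    exact ⟨s * g, by rw [QuotientGroup.mk_mul, (QuotientGroup.eq_one_iff s).2 h2, one_mul],
      by rw [map_mul, Perm.mul_apply, h3]⟩
  choose t ht1 ht2 using ht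
  let T : TV (HF φ M (univ.erase x)) ⊤ (Multiplicative (ZMod n) × (G ⧸ M)) :=
    { t := t
      le := le_top
      mem := fun _ => Subgroup.mem_top _
      ex := fun g _ => ⟨(lab (φ g x), g), (hmem _).2 ⟨QuotientGroup.eq.1 (ht1 _), (hfix _ _).2
        (hl1 _ _ _ (hr _ _ (QuotientGroup.eq.1 (ht1 _))) (R3.refl _)
          (ht2 (lab (φ g x), g)).symm)⟩⟩
      uniq := fun l l' h => Prod.ext (by rw [← ht2, ← ht2, (hfix _ _).1 ((hmem _).1 h).2])
        (by rw [← ht1, ← ht1, QuotientGroup.eq.2 ((hmem _).1 h).1]) }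
  have key : ∀ z z' : G, z⁻¹ * z' ∈ M → (φ z x = x ↔ φ z' x = x) → ∀ g,
      kk (HF φ M (univ.erase x)) z g = kk (HF φ M (univ.erase x)) z' g := fun z z' h1 h2 g => by
    obtain ⟨s, h3, h5, h6⟩ : ∃ s ∈ M, φ s (φ z x) = φ z' x ∧ φ s x = x := by
      by_cases h : φ z x = x
      · exact ⟨1, one_mem _, by simp [h, h2.1 h], by simp⟩
      · obtain ⟨s, h3, h5, h6⟩ := hmv z _ x (hr _ _ h1)
        exact ⟨s, h3, h5, h6 (Ne.symm h) fun h7 => h (h2.2 h7.symm)⟩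
    rw [← kk_mul ((hmem s).2 ⟨h3, h6⟩) ((hmem ((s * z)⁻¹ * z')).2 ⟨?_, (hfix _ _).2 ?_⟩) z,
      mul_inv_cancel_left]
    · rw [show (s * z)⁻¹ * z' = z⁻¹ * s⁻¹ * z⁻¹⁻¹ * (z⁻¹ * z') by group]
      exact mul_mem (hM.conj_mem _ (inv_mem h3) _) h1
    · rw [map_mul, Perm.mul_apply, h5]
  refine T.top hL fun l l' => ?_
  have h1 : ((t l)⁻¹ * t l')⁻¹ * ((t 1)⁻¹ * t (l⁻¹ * l')) ∈ M := QuotientGroup.eq.1 (by
    simp [ht1])
  have h2 : ∀ u v : G, φ v x = φ u x ↔ R3 (M.map φ) x (φ (u⁻¹ * v) x) ∧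
      lab (φ v x) = lab (φ u x) := fun u v => ⟨fun h => ⟨Or.inl ((hfix _ _).2 h).symm, by rw [h]⟩,
    fun h => hl1 u _ _ (by
      have := r3_conj u h.1
      rwa [← Perm.mul_apply, ← map_mul, mul_inv_cancel_left] at this) (R3.refl _) h.2⟩
  refine key _ _ h1 ?_
  rw [hfix, hfix, h2, h2, ht2, ht2, ht2, ht2]
  refine and_congr ⟨fun h => h.trans (hr _ _ h1), fun h => h.trans (hr _ _ h1).symm⟩ ?_
  rw [Prod.fst_mul, Prod.fst_inv, Prod.fst_one, inv_mul_eq_one, eq_comm]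

end Pool.Agent.Lib.MP_0becda_co.Coset
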