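import Pool.Agent.Lib.MP_0becda_co.Coset.Alt

/-!
Groups that are solvable modulo the three-cycles of a permutation representation.
-/

open Finset Equiv

namespace Pool.Agent.Lib.MP_0becda_co.Coset

theorem ter_of_ct {G : Type} [Group G] [Fintype G] (N : Subgroup G) [hN : N.Normal] (h : CT N) :
    Ter (G ⧸ N) := by
  obtain ⟨V, E, a, b, hp, hV, hE⟩ := h
  refine ⟨_, _, _, _, hp.map QuotientGroup.mk, fun q => ?_, fun q => ?_⟩
  · obtain ⟨g, rfl⟩ := QuotientGroup.mk_surjective q
    rw [← hV g, C, CV, Multiset.map_map]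
    congr 1
    exact Multiset.map_congr rfl fun v _ => ind_congr QuotientGroup.eq
  · obtain ⟨g, rfl⟩ := QuotientGroup.mk_surjective q
    have h1 : ∀ z : G, kap N z g = cd N * ind ((z : G ⧸ N) = g) := fun z => by
      rw [kap, cd, sum_mul]
      refine sum_congr rfl fun a _ => ?_
      rw [← PSL.ind_and, ← PSL.sum_ind_and ((a * g)⁻¹ * z)]
      refine sum_congr rfl fun b _ => ind_congr ⟨?_, ?_⟩
      · rintro ⟨h1, h2, rfl⟩
        exact ⟨by group, h1, by simp [(QuotientGroup.eq_one_iff _).2 h1,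
          (QuotientGroup.eq_one_iff _).2 h2]⟩
      · rintro ⟨rfl, h1, h2⟩
        exact ⟨h1, (QuotientGroup.eq_one_iff _).1 (by simp [(QuotientGroup.eq_one_iff _).2 h1, h2]),
          by group⟩
    have h2 : ∀ E : Multiset (Sym2 G),
        KE N E g = cd N * W (E.map (Sym2.map QuotientGroup.mk)) (g : G ⧸ N) := fun E => by
      induction E using Multiset.induction_on with
      | empty => simp [KE]
      | cons e E ih =>
        rw [KE_cons, Multiset.map_cons, W_cons, mul_add, ih]
        congr 1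
        induction e using Sym2.ind with
        | _ u v =>
          rw [ke_mk, kk, h1, h1, Sym2.map_mk, wt_mk, mul_add, QuotientGroup.mk_inv,
            ind_congr (inv_eq_iff_eq_inv (b := (g : G ⧸ N)))]
          rfl
    have h3 := hE g
    rw [h2, mul_comm 2, mul_assoc] at h3
    rw [Nat.eq_of_mul_eq_mul_left (cd_pos N) h3, ind_congr (QuotientGroup.eq_one_iff g).not]

theorem ter_odd_kernel (n : ℕ) : ∀ {G : Type} [Group G] [Finite G] (R : Subgroup G) [R.Normal]
    [Group.IsSolvable R], Nat.card R = n → Odd n → Ter (G ⧸ R) → Ter G := by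
  induction n using Nat.strong_induction_on with
  | _ n ih =>
    intro G _ _ R hR _ hn hodd h
    by_cases h1 : R = ⊥
    · subst h1
      obtain ⟨V, E, a, b, hp, hV, hE⟩ := h
      let e : G ⧸ (⊥ : Subgroup G) ≃* G := QuotientGroup.quotientBot
      refine ⟨_, _, _, _, hp.map e, fun g => ?_, fun g => ?_⟩
      · rw [← e.apply_symm_apply g, C_map_inj _ e.injective, hV]
      · rw [← e.apply_symm_apply g]
        exact (W_map_hom e.toMonoidHom e.injective E _).trans
          ((hE _).trans (by rw [ind_congr (map_ne_one_iff e e.injective)]))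
    obtain ⟨D, ⟨hD, hDR, hD1⟩, hmin⟩ := Set.exists_min_image
      {D : Subgroup G | D.Normal ∧ D ≤ R ∧ D ≠ ⊥} (fun D => Nat.card D)
      (Set.toFinite _) ⟨R, hR, le_rfl, h1⟩
    have : Group.IsSolvable D := Group.isSolvable_of_isSolvable_injective (Subgroup.inclusion_injective hDR)
    have hodd' : Odd (Nat.card D) := (hn ▸ hodd).of_dvd_nat (Subgroup.card_dvd_of_le hDR)
    have hbot : ⁅D, D⁆ = ⊥ := by
      by_contra h2
      have h3 := Subgroup.eq_of_le_of_card_ge (Subgroup.commutator_le_left D D)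
        (hmin _ ⟨inferInstance, (Subgroup.commutator_le_left D D).trans hDR, h2⟩)
      have : Nontrivial D := (Subgroup.nontrivial_iff_ne_bot D).2 hD1
      have h4 := Group.IsSolvable.commutator_lt_top_of_nontrivial D
      refine h4.ne (Subgroup.map_injective D.subtype_injective ?_)
      rw [Subgroup.map_subtype_commutator, h3, ← MonoidHom.range_eq_map, Subgroup.range_subtype]
    have hc : ∀ x ∈ D, ∀ y ∈ D, x * y = y * x := fun x hx y hy =>
      (Subgroup.commutator_eq_bot_iff_le_centralizer.1 hbot hy x hx)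
    have hk : Odd (Nat.card (QuotientGroup.mk' D).ker) := by rwa [card_ker_mk']
    have : Group.IsSolvable (QuotientGroup.mk' D).ker :=
      Group.isSolvable_of_comm (ker_comm D hc)
    refine Ter.ext_odd _ (QuotientGroup.mk'_surjective D) (ker_comm D hc)
      (sq_eq_one_of_odd_card hk) (st_odd _ _ rfl hk) ?_
    have : Group.IsSolvable (R.map (QuotientGroup.mk' D)) :=
      Group.isSolvable_of_surjective ((QuotientGroup.mk' D).subgroupMap_surjective R)
    have hmul : Nat.card (R.map (QuotientGroup.mk' D)) * Nat.card D = n := by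
      have h2 := Subgroup.card_mul_index ((QuotientGroup.mk' D).subgroupMap R).ker
      rw [Subgroup.index_ker, MonoidHom.range_eq_top.2
        ((QuotientGroup.mk' D).subgroupMap_surjective R), Subgroup.card_top,
        Subgroup.ker_subgroupMap, QuotientGroup.ker_mk',
        Nat.card_congr (Subgroup.subgroupOfEquivOfLe hDR).toEquiv, hn, mul_comm] at h2
      exact h2
    have h2 : 1 < Nat.card D := (Subgroup.one_lt_card_iff_ne_bot D).2 hD1
    have h3 : 0 < Nat.card (R.map (QuotientGroup.mk' D)) := Nat.card_pos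
    refine ih _ (by rw [← hmul]; exact (Nat.lt_mul_iff_one_lt_right h3).2 h2)
      (R.map (QuotientGroup.mk' D)) rfl (hodd.of_dvd_nat ⟨_, hmul.symm⟩) ?_
    obtain ⟨V, E, a, b, hp, hV, hE⟩ := h
    let e := (QuotientGroup.quotientQuotientEquivQuotient D R hDR).symm
    refine ⟨_, _, _, _, hp.map e, fun g => ?_, fun g => ?_⟩
    · rw [← e.apply_symm_apply g, C_map_inj _ e.injective, hV]
    · rw [← e.apply_symm_apply g]
      exact (W_map_hom e.toMonoidHom e.injective E _).trans
        ((hE _).trans (by rw [ind_congr (map_ne_one_iff e e.injective)]))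

theorem ter_three_cycles {G : Type} [Group G] [Fintype G] {Ω : Type} [Fintype Ω] [DecidableEq Ω]
    (φ : G →* Perm Ω) (hodd : Odd (Nat.card φ.ker)) [Group.IsSolvable φ.ker] {k : ℕ}
    (hk : (derivedSeries G k).map φ ≤ Subgroup.closure {σ | σ ∈ φ.range ∧ σ.IsThreeCycle})
    (hne : ¬ ((∀ g : G, g * g = 1) ∧ 4 ≤ Nat.card G)) : Ter G := by
  classical
  let M := (Subgroup.closure {σ | σ ∈ φ.range ∧ σ.IsThreeCycle}).comap φ
  have hM : M.Normal := ⟨fun m hm g => by
    rw [Subgroup.mem_comap, map_mul, map_mul, map_inv]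
    refine Subgroup.closure_induction (p := fun σ _ => φ g * σ * (φ g)⁻¹ ∈
      Subgroup.closure {σ | σ ∈ φ.range ∧ σ.IsThreeCycle}) (fun σ h => Subgroup.subset_closure
        ⟨mul_mem (mul_mem ⟨g, rfl⟩ h.1) (inv_mem ⟨g, rfl⟩), ?_⟩) (by simp)
      (fun σ τ _ _ h1 h2 => ?_) (fun σ _ h1 => ?_) hm
    · exact (Perm.cycleType_conj).trans h.2
    · simpa [mul_assoc] using mul_mem h1 h2
    · simpa [mul_assoc] using inv_mem h1⟩
  have hP : M.map φ ≤ Subgroup.closure {σ | σ ∈ M.map φ ∧ σ.IsThreeCycle} :=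
    (Subgroup.map_comap_le _ _).trans (Subgroup.closure_mono fun σ ⟨⟨g, hg⟩, h⟩ =>
      ⟨⟨g, Subgroup.subset_closure ⟨⟨g, rfl⟩, hg ▸ h⟩, hg⟩, h⟩)
  have hker : φ.ker ≤ M := fun g hg => by
    rw [Subgroup.mem_comap, MonoidHom.mem_ker.1 hg]; exact one_mem _
  have hQ : Group.IsSolvable (G ⧸ M) := ⟨k, by
    rw [← map_derivedSeries_eq (QuotientGroup.mk'_surjective M), Subgroup.map_eq_bot_iff,
      QuotientGroup.ker_mk']
    exact Subgroup.map_le_iff_le_comap.1 hk⟩
  by_cases h : ∀ x, Nat.card {y // R3 (M.map φ) x y} ≤ 3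
  · have h1 := comm_of_small hP h
    have : Group.IsSolvable (M.map φ) := Group.isSolvable_of_comm fun ⟨_, a, ha, rfl⟩ ⟨_, b, hb, rfl⟩ =>
      Subtype.ext (by
        have := h1 (Subgroup.commutator_mem_commutator ha hb)
        rwa [MonoidHom.mem_ker, map_commutatorElement, commutatorElement_eq_one_iff_mul_comm]
          at this)
    have : Group.IsSolvable M := Group.isSolvable_of_ker_le_range (Subgroup.inclusion hker)
      (φ.subgroupMap M) fun m hm => ⟨⟨m, congrArg Subtype.val hm⟩, rfl⟩
    have : Group.IsSolvable G := Group.isSolvable_of_ker_le_range M.subtype (QuotientGroup.mk' M)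
      (by simp)
    exact ter_solvable _ G rfl hne
  · simp only [not_forall, not_le] at h
    obtain ⟨x, hx⟩ := h
    have : NeZero (Nat.card {y // R3 (M.map φ) x y}) := ⟨by omega⟩
    have h1 := ct_ker hP _ (ct_of_top hP (x := x) rfl hx (ter_solvable _ _ rfl fun h => ?_))
    · rw [inf_eq_right.2 hker] at h1
      exact ter_odd_kernel _ φ.ker rfl hodd (ter_of_ct _ h1)
    · have h2 : ((2 : ℕ) : ZMod (Nat.card {y // R3 (M.map φ) x y})) = 0 := by
        have := congrArg (fun z => z.1.toAdd) (h.1 (Multiplicative.ofAdd 1, 1))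
        simpa [one_add_one_eq_two] using this
      have := Nat.le_of_dvd two_pos ((ZMod.natCast_eq_zero_iff _ _).1 h2)
      omega

end Pool.Agent.Lib.MP_0becda_co.Coset
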