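import Pool.Agent.Lib.MP_0becda_co.PSL.Base

/-!
Terraces of coset spaces and their lifting along a chain of subgroups.
-/

set_option linter.unusedSectionVars false

open Finset Pool.Agent.Lib.MP_0becda_co.PSL

namespace Pool.Agent.Lib.MP_0becda_co.Coset

theorem pinv {X : Type} (θ : Equiv.Perm X) (x : X) : θ⁻¹ (θ x) = x := θ.symm_apply_apply x
theorem pinv' {X : Type} (θ : Equiv.Perm X) (x : X) : θ (θ⁻¹ x) = x := θ.apply_symm_apply x

variable {G : Type} [Group G] [Fintype G]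

/-- order of a subgroup as a sum -/
noncomputable def cd (H : Subgroup G) : ℕ := ∑ a, ind (a ∈ H)

/-- number of ways to write `z` as `a * g * b` with `a`, `b` in `H` -/
noncomputable def kap (H : Subgroup G) (z g : G) : ℕ :=
  ∑ a, ∑ b, ind (a ∈ H ∧ b ∈ H ∧ z = a * g * b)

/-- symmetrised version -/
noncomputable def kk (H : Subgroup G) (z g : G) : ℕ := kap H z g + kap H z⁻¹ g

/-- weight of an edge -/
noncomputable def ke (H : Subgroup G) (e : Sym2 G) (g : G) : ℕ :=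
  Sym2.lift ⟨fun u v => kap H (u⁻¹ * v) g + kap H (v⁻¹ * u) g, fun _ _ => add_comm _ _⟩ e

/-- total weight -/
noncomputable def KE (H : Subgroup G) (E : Multiset (Sym2 G)) (g : G) : ℕ :=
  (E.map fun e => ke H e g).sum

/-- number of vertices in a coset -/
noncomputable def CV (H : Subgroup G) (V : Multiset G) (g : G) : ℕ :=
  (V.map fun v => ind (v⁻¹ * g ∈ H)).sum

/-- terraces of the coset space -/
def CT (H : Subgroup G) : Prop :=
  ∃ (V : Multiset G) (E : Multiset (Sym2 G)) (a b : G), Path V E a b ∧ (∀ g, CV H V g = 1) ∧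
    ∀ g, KE H E g = 2 * cd H * ind (g ∉ H)

theorem cd_eq (H : Subgroup G) : cd H = Nat.card H := by
  classical
  rw [Nat.card_eq_fintype_card, Fintype.card_subtype, card_filter]
  refine sum_congr rfl fun a _ => ?_
  by_cases h : a ∈ H
  · rw [ind_pos h, if_pos h]
  · rw [ind_neg h, if_neg h]

theorem cd_pos (H : Subgroup G) : 0 < cd H := by rw [cd_eq]; exact Nat.card_pos

theorem ke_mk (H : Subgroup G) (u v g : G) : ke H s(u, v) g = kk H (u⁻¹ * v) g := by
  rw [kk, mul_inv_rev, inv_inv]; rfl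

theorem KE_zero (H : Subgroup G) (g : G) : KE H 0 g = 0 := by simp [KE]
theorem KE_cons (H : Subgroup G) (e : Sym2 G) (E : Multiset (Sym2 G)) (g : G) :
    KE H (e ::ₘ E) g = ke H e g + KE H E g := by simp [KE]
theorem KE_add (H : Subgroup G) (E E' : Multiset (Sym2 G)) (g : G) :
    KE H (E + E') g = KE H E g + KE H E' g := by simp [KE]
theorem KE_sum {X : Type} (H : Subgroup G) (S : Finset X) (f : X → Sym2 G) (g : G) :
    KE H (∑ x ∈ S, {f x}) g = ∑ x ∈ S, ke H (f x) g := by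
  classical
  induction S using Finset.induction_on with
  | empty => simp [KE]
  | insert a s ha ih => rw [sum_insert ha, sum_insert ha, Multiset.singleton_add, KE_cons, ih]

theorem CV_sum {X : Type} (H : Subgroup G) (S : Finset X) (f : X → G) (g : G) :
    CV H (∑ x ∈ S, {f x}) g = ∑ x ∈ S, ind ((f x)⁻¹ * g ∈ H) := by
  classical
  induction S using Finset.induction_on with
  | empty => simp [CV]
  | insert a s ha ih => rw [sum_insert ha, sum_insert ha, ← ih]; simp [CV]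

theorem kap_mul {H : Subgroup G} {a b : G} (ha : a ∈ H) (hb : b ∈ H) (z g : G) :
    kap H (a * z * b) g = kap H z g := by
  rw [kap, kap, ← (Group.mulLeft_bijective a).sum_comp]
  refine sum_congr rfl fun x _ => ?_
  rw [← (Group.mulRight_bijective b).sum_comp]
  refine sum_congr rfl fun y _ => ind_congr ?_
  rw [H.mul_mem_cancel_left ha, H.mul_mem_cancel_right hb, mul_assoc a x, ← mul_assoc _ y,
    mul_left_inj, mul_assoc a, mul_right_inj]

theorem kk_mul {H : Subgroup G} {a b : G} (ha : a ∈ H) (hb : b ∈ H) (z g : G) :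
    kk H (a * z * b) g = kk H z g := by
  rw [kk, kk, kap_mul ha hb, mul_inv_rev, mul_inv_rev, ← mul_assoc,
    kap_mul (inv_mem hb) (inv_mem ha)]

theorem kk_inv (H : Subgroup G) (z g : G) : kk H z⁻¹ g = kk H z g := by
  rw [kk, kk, inv_inv, add_comm]

theorem kap_pos {H : Subgroup G} {z g : G} (h : kap H z g ≠ 0) :
    ∃ a ∈ H, ∃ b ∈ H, z = a * g * b := by
  by_contra h1
  exact h (sum_eq_zero fun a _ => sum_eq_zero fun b _ => ind_neg fun h2 =>
    h1 ⟨a, h2.1, b, h2.2.1, h2.2.2⟩)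

theorem kap_one (H : Subgroup G) (g : G) : kap H 1 g = cd H * ind (g ∈ H) := by
  rw [kap, cd, sum_mul]
  refine sum_congr rfl fun a _ => ?_
  rw [← ind_and, ← sum_ind_and (a * g)⁻¹]
  refine sum_congr rfl fun b _ => ind_congr ⟨fun h => ?_, ?_⟩
  · have h1 : b = (a * g)⁻¹ := eq_inv_of_mul_eq_one_right h.2.2.symm
    exact ⟨h1, h.1, (H.mul_mem_cancel_left h.1).1 (inv_mem_iff.1 (h1 ▸ h.2.1))⟩
  · rintro ⟨rfl, h1, h2⟩
    exact ⟨h1, inv_mem (mul_mem h1 h2), by simp⟩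

theorem kap_bot (z g : G) : kap ⊥ z g = ind (z = g) := by
  simp only [kap, Subgroup.mem_bot]
  rw [← sum_ind_and (1 : G) (z = g)]
  refine sum_congr rfl fun a _ => ?_
  rw [← sum_ind_and (1 : G) (a = 1 ∧ z = g)]
  refine sum_congr rfl fun b _ => ind_congr ⟨?_, ?_⟩
  · rintro ⟨rfl, rfl, h⟩; simpa using h
  · rintro ⟨rfl, rfl, h⟩; simpa using h

theorem CT.ter (h : CT (⊥ : Subgroup G)) : Ter G := by
  obtain ⟨V, E, a, b, hp, hV, hE⟩ := h
  refine ⟨V, E, a, b, hp, fun g => ?_, fun g => ?_⟩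
  · rw [← hV g, C, CV]
    congr 1
    exact Multiset.map_congr rfl fun v _ => ind_congr (by rw [Subgroup.mem_bot, inv_mul_eq_one])
  · have h1 := hE g
    rw [cd_eq, Subgroup.card_bot, mul_one, Subgroup.mem_bot] at h1
    rw [← h1, W, KE]
    congr 1
    refine Multiset.map_congr rfl fun e _ => ?_
    induction e using Sym2.ind with
    | _ u v => rw [ke_mk, wt_mk, kk, kap_bot, kap_bot, ind_congr (inv_eq_iff_eq_inv (a := u⁻¹ * v))]

theorem ct_top : CT (⊤ : Subgroup G) :=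
  ⟨_, _, 1, 1, Path.single 1, fun g => by simp [CV, ind_pos], fun g => by simp [KE, ind_neg]⟩

/-- a transversal of `H` in `K` -/
structure TV (H K : Subgroup G) (X : Type) where
  t : X → G
  le : H ≤ K
  mem : ∀ x, t x ∈ K
  ex : ∀ g ∈ K, ∃ x, (t x)⁻¹ * g ∈ H
  uniq : ∀ x y, (t x)⁻¹ * t y ∈ H → x = y

namespace TV

variable {H K : Subgroup G} {X : Type} [Fintype X] (T : TV H K X)

theorem sum_ind (g : G) : ∑ x, ind ((T.t x)⁻¹ * g ∈ H) = ind (g ∈ K) := by
  by_cases hg : g ∈ K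
  · obtain ⟨x, hx⟩ := T.ex g hg
    rw [ind_pos hg, ← sum_ind_eq x]
    refine sum_congr rfl fun y _ => ind_congr ⟨fun h => T.uniq _ _ ?_, fun h => h ▸ hx⟩
    have := mul_mem h (inv_mem hx)
    rwa [mul_inv_rev, inv_inv, mul_assoc, mul_inv_cancel_left] at this
  · rw [ind_neg hg]
    exact sum_eq_zero fun x _ => ind_neg fun h =>
      hg ((K.mul_mem_cancel_left (inv_mem (T.mem x))).1 (T.le h))

include T in
theorem card_mul : Fintype.card X * cd H = cd K := by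
  rw [cd, cd, ← sum_congr rfl fun g _ => T.sum_ind g, sum_comm, ← smul_eq_mul, ← card_univ,
    ← sum_const]
  exact sum_congr rfl fun x _ => ((Group.mulLeft_bijective (T.t x)⁻¹).sum_comp
    fun a => ind (a ∈ H)).symm

theorem sum_kap (z g : G) : ∑ x, ∑ y, kap H ((T.t x)⁻¹ * z * T.t y) g = kap K z g := by
  have h1 : ∀ x y, kap H ((T.t x)⁻¹ * z * T.t y) g
      = ∑ a, ∑ b, ind ((T.t x)⁻¹ * a ∈ H) * ind ((T.t y)⁻¹ * b⁻¹ ∈ H) * ind (z = a * g * b) := by
    intro x y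
    rw [kap, ← (Group.mulLeft_bijective (T.t x)⁻¹).sum_comp]
    refine sum_congr rfl fun a _ => ?_
    rw [← (Group.mulRight_bijective (T.t y)).sum_comp]
    refine sum_congr rfl fun b _ => ?_
    rw [← ind_and, ← ind_and]
    refine ind_congr ?_
    rw [← mul_inv_rev, inv_mem_iff, and_assoc, ← mul_assoc _ b, mul_left_inj, mul_assoc _ a,
      mul_assoc _ _ b, mul_right_inj]
  simp only [h1]
  rw [kap, sum_comm]
  simp only [sum_comm (γ := X) (α := G)]
  refine sum_congr rfl fun a _ => sum_congr rfl fun b _ => ?_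
  simp only [← sum_mul, ← mul_sum, T.sum_ind]
  rw [ind_and, ind_and, mul_assoc, ind_congr (inv_mem_iff (x := b))]

theorem sum_kk (z g : G) : ∑ x, ∑ y, kk H ((T.t x)⁻¹ * z * T.t y) g = kk K z g := by
  simp only [kk, sum_add_distrib, mul_inv_rev, inv_inv, ← mul_assoc]
  rw [T.sum_kap, sum_comm, T.sum_kap]

theorem sum_fibre (x : X) (g : G) :
    ∑ y, kk H ((T.t x)⁻¹ * T.t y) g = 2 * cd H * ind ((g ∈ K)) := by
  have h1 : ∀ z, kap H z g = ∑ a, ind (a ∈ H) * ind (z⁻¹ * (a * g) ∈ H) := fun z => by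
    refine sum_congr rfl fun a _ => ?_
    rw [← ind_and, ← sum_ind_and (z⁻¹ * (a * g))⁻¹]
    refine sum_congr rfl fun b _ => ind_congr ⟨fun h => ?_, ?_⟩
    · have h2 : b = (z⁻¹ * (a * g))⁻¹ := by rw [h.2.2]; group
      exact ⟨h2, h.1, inv_mem_iff.1 (h2 ▸ h.2.1)⟩
    · rintro ⟨rfl, h2, h3⟩
      exact ⟨h2, inv_mem h3, by group⟩
  have h2 : ∀ z, kap H z⁻¹ g = ∑ b, ind (b ∈ H) * ind (z⁻¹ * (g * b)⁻¹ ∈ H) := fun z => by
    rw [kap, sum_comm]
    refine sum_congr rfl fun b _ => ?_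
    rw [← ind_and, ← sum_ind_and (z⁻¹ * (g * b)⁻¹)]
    refine sum_congr rfl fun a _ => ind_congr ⟨fun h => ?_, ?_⟩
    · have h2 : a = z⁻¹ * (g * b)⁻¹ := by rw [h.2.2]; group
      exact ⟨h2, h.2.1, h2 ▸ h.1⟩
    · rintro ⟨rfl, h2, h3⟩
      exact ⟨h3, h2, by group⟩
  have h3 : ∀ w : G → G, (∀ a ∈ H, (w a ∈ K ↔ g ∈ K)) →
      ∑ y, ∑ a, ind (a ∈ H) * ind (((T.t x)⁻¹ * T.t y)⁻¹ * w a ∈ H) = cd H * ind (g ∈ K) := by
    intro w hw
    rw [sum_comm, cd, sum_mul]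
    refine sum_congr rfl fun a _ => ?_
    simp only [mul_inv_rev, inv_inv, mul_assoc]
    rw [← mul_sum, T.sum_ind]
    by_cases ha : a ∈ H
    · rw [ind_congr ((K.mul_mem_cancel_left (T.mem x)).trans (hw a ha))]
    · rw [ind_neg ha, zero_mul, zero_mul]
  simp only [kk, sum_add_distrib, h2]
  simp only [h1]
  rw [h3 _ fun a ha => K.mul_mem_cancel_left (T.le ha),
    h3 _ fun a ha => inv_mem_iff.trans (K.mul_mem_cancel_right (T.le ha)), mul_assoc, two_mul]

theorem exists_act {h : G} (hh : h ∈ K) :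
    ∃ α : Equiv.Perm X, ∀ x, (T.t (α x))⁻¹ * h * T.t x ∈ H := by
  choose f hf using fun x => T.ex (h * T.t x) (mul_mem hh (T.mem x))
  have hi : Function.Injective f := fun x y hxy => T.uniq _ _ (by
    have := mul_mem (inv_mem (hf x)) (hf y)
    rwa [hxy, show ((T.t (f y))⁻¹ * (h * T.t x))⁻¹ * ((T.t (f y))⁻¹ * (h * T.t y))
      = (T.t x)⁻¹ * T.t y by group] at this)
  exact ⟨Equiv.ofBijective f hi.bijective_of_finite, fun x => by
    rw [mul_assoc]; exact hf x⟩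

/-- a perfect matching between two fibres -/
def IsLift (Γ : Subgroup (Equiv.Perm X)) (e : Sym2 G) (R : Multiset (Sym2 G)) : Prop :=
  ∃ u v, e = s(u, v) ∧ ∃ θ ∈ Γ, R = ∑ x, {s(u * T.t x, v * T.t (θ x))}

theorem IsLift.mk {T : TV H K X} {Γ : Subgroup (Equiv.Perm X)} {a b : G} {R : Multiset (Sym2 G)}
    (h : T.IsLift Γ s(a, b) R) : ∃ θ ∈ Γ, R = ∑ x, {s(a * T.t x, b * T.t (θ x))} := by
  obtain ⟨u, v, h1, θ, hθ, rfl⟩ := h
  rcases Sym2.eq_iff.1 h1 with ⟨rfl, rfl⟩ | ⟨rfl, rfl⟩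
  · exact ⟨θ, hθ, rfl⟩
  · refine ⟨θ⁻¹, inv_mem hθ, ?_⟩
    rw [← θ.bijective.sum_comp fun x => ({s(a * T.t x, b * T.t (θ⁻¹ x))} : Multiset (Sym2 G))]
    exact sum_congr rfl fun x _ => by rw [pinv, Sym2.eq_swap]

theorem strands (Γ : Subgroup (Equiv.Perm X)) {V : Multiset G} {E : Multiset (Sym2 G)} {a b : G}
    (hp : Path V E a b) : ∀ F : Multiset (Multiset (Sym2 G)), Multiset.Rel (T.IsLift Γ) E F →
    ∃ Φ ∈ Γ, ∃ (Vx : X → Multiset G) (Ex : X → Multiset (Sym2 G)),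
      (∀ x, Path (Vx x) (Ex x) (a * T.t x) (b * T.t (Φ x))) ∧
      (∀ g, CV H (∑ x, Vx x) g = CV K V g) ∧ ∑ x, Ex x = F.sum := by
  have hfib : ∀ a g, CV H (∑ x, {a * T.t x}) g = ind (a⁻¹ * g ∈ K) := fun a g => by
    rw [← T.sum_ind, CV_sum]
    simp [mul_assoc]
  induction hp with
  | single a =>
    intro F hF
    rw [Multiset.rel_zero_left.1 hF]
    exact ⟨1, one_mem _, fun x => {a * T.t x}, fun _ => 0, fun x => Path.single _,
      fun g => by rw [hfib]; simp [CV], by simp⟩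
  | cons a b c V E _ ih =>
    intro F hF
    obtain ⟨R, F', hR, hF', rfl⟩ := Multiset.rel_cons_left.1 hF
    obtain ⟨θ, hθ, rfl⟩ := hR.mk
    obtain ⟨Φ, hΦ, Vx, Ex, h1, h2, h3⟩ := ih F' hF'
    refine ⟨Φ * θ, mul_mem hΦ hθ, fun x => a * T.t x ::ₘ Vx (θ x),
      fun x => s(a * T.t x, b * T.t (θ x)) ::ₘ Ex (θ x), fun x => Path.cons _ _ _ _ _ (h1 _),
      fun g => ?_, ?_⟩
    · have h4 := hfib a g
      have h5 := h2 g
      simp only [← Multiset.singleton_add, sum_add_distrib]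
      rw [θ.bijective.sum_comp Vx]
      simp only [CV, Multiset.map_add, Multiset.sum_add] at h4 h5 ⊢
      rw [h4, h5]; simp
    · simp only [← Multiset.singleton_add, sum_add_distrib]
      rw [θ.bijective.sum_comp Ex, h3]; simp

/-- balanced families of matchings for the double coset of `d` -/
def Bal (Γ : Subgroup (Equiv.Perm X)) (d : G) (N : ℕ) : Prop :=
  ∃ Θ : Multiset (Equiv.Perm X), Multiset.card Θ = N ∧ (∀ θ ∈ Θ, θ ∈ Γ) ∧ ∀ g,
    Fintype.card X * (Θ.map fun θ => ∑ x, kk H ((T.t x)⁻¹ * d * T.t (θ x)) g).sum = N * kk K d g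

theorem Bal.mul {T : TV H K X} {Γ : Subgroup (Equiv.Perm X)} {d : G} {N : ℕ} (h : T.Bal Γ d N)
    (k : ℕ) : T.Bal Γ d (k * N) := by
  obtain ⟨Θ, h1, h2, h3⟩ := h
  refine ⟨k • Θ, by rw [Multiset.card_nsmul, h1], fun θ hθ => h2 θ (Multiset.mem_of_mem_nsmul hθ),
    fun g => ?_⟩
  rw [Multiset.map_nsmul, Multiset.sum_nsmul, smul_eq_mul, mul_left_comm, h3, mul_assoc]

/-- edges in the class of `d` -/
def Cls (K : Subgroup G) (d : G) (e : Sym2 G) : Prop :=
  ∃ u v, e = s(u, v) ∧ ∃ a ∈ K, ∃ b ∈ K, u⁻¹ * v = a * d * b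

theorem lift_class {Γ : Subgroup (Equiv.Perm X)}
    (hact : ∀ h ∈ K, ∃ α ∈ Γ, ∀ x, (T.t (α x))⁻¹ * h * T.t x ∈ H) (d : G)
    (E : Multiset (Sym2 G)) : (∀ e ∈ E, Cls K d e) → ∀ Θ : Multiset (Equiv.Perm X),
      Multiset.card Θ = Multiset.card E → (∀ θ ∈ Θ, θ ∈ Γ) →
      ∃ F, Multiset.Rel (T.IsLift Γ) E F ∧ ∀ g, KE H F.sum g
        = (Θ.map fun θ => ∑ x, kk H ((T.t x)⁻¹ * d * T.t (θ x)) g).sum := by
  induction E using Multiset.induction_on with
  | empty =>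
    intro _ Θ h _
    rw [Multiset.card_zero, Multiset.card_eq_zero] at h
    exact ⟨0, Multiset.Rel.zero, fun g => by simp [h, KE]⟩
  | cons e E ih =>
    intro hE Θ h hΘ
    rw [Multiset.card_cons] at h
    obtain ⟨θ, hθ⟩ := Multiset.card_pos_iff_exists_mem.1 (show 0 < Multiset.card Θ by omega)
    obtain ⟨Θ', rfl⟩ := Multiset.exists_cons_of_mem hθ
    obtain ⟨F, hF, h1⟩ := ih (fun e he => hE e (Multiset.mem_cons_of_mem he)) Θ'
      (by simpa using h) fun θ h => hΘ θ (Multiset.mem_cons_of_mem h)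
    obtain ⟨u, v, rfl, a, ha, b, hb, huv⟩ := hE e (Multiset.mem_cons_self _ _)
    obtain ⟨α, hα, h2⟩ := hact a ha
    obtain ⟨β, hβ, h3⟩ := hact b⁻¹ (inv_mem hb)
    refine ⟨_ ::ₘ F, Multiset.Rel.cons ⟨u, v, rfl, β * θ * α⁻¹,
      mul_mem (mul_mem hβ (hΘ θ hθ)) (inv_mem hα), rfl⟩ hF, fun g => ?_⟩
    rw [Multiset.sum_cons, KE_add, h1, Multiset.map_cons, Multiset.sum_cons, KE_sum,
      ← α.bijective.sum_comp]
    congr 1
    refine sum_congr rfl fun x _ => ?_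
    rw [ke_mk, ← kk_mul (h2 x) (inv_mem (h3 (θ x))) ((T.t x)⁻¹ * d * T.t (θ x))]
    congr 1
    simp only [Equiv.Perm.mul_apply, pinv]
    rw [mul_inv_rev u, mul_assoc, ← mul_assoc u⁻¹, huv]; group

omit [Fintype X] in
theorem ke_cls {d : G} {e : Sym2 G} (h : Cls K d e) (g : G) : ke K e g = kk K d g := by
  obtain ⟨u, v, rfl, a, ha, b, hb, huv⟩ := h
  rw [ke_mk, huv, kk_mul ha hb]

omit [Fintype X] in
theorem cls_of_ke {d : G} {e : Sym2 G} (h : ke K e d ≠ 0) : Cls K d e := by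
  induction e using Sym2.ind with
  | _ u v =>
    rw [ke_mk, kk] at h
    by_cases h1 : kap K (u⁻¹ * v) d = 0
    · refine ⟨v, u, Sym2.eq_swap, ?_⟩
      rw [h1, zero_add, mul_inv_rev, inv_inv] at h
      exact kap_pos h
    · exact ⟨u, v, rfl, kap_pos h1⟩

omit [Fintype X] in
theorem kk_self_pos (K : Subgroup G) (d : G) : 0 < kk K d d := by
  refine Nat.add_pos_left (Nat.pos_of_ne_zero fun h => ?_) _
  have h1 := sum_eq_zero_iff.1 (sum_eq_zero_iff.1 h 1 (mem_univ _)) 1 (mem_univ _)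
  rw [ind_pos ⟨one_mem _, one_mem _, by simp⟩] at h1
  omega

omit [Fintype X] in
theorem KE_cls {d : G} {E : Multiset (Sym2 G)} (h : ∀ e ∈ E, Cls K d e) (g : G) :
    KE K E g = Multiset.card E * kk K d g := by
  rw [KE, Multiset.map_congr rfl fun e he => ke_cls (h e he) g]
  simp

theorem lift_all {Γ : Subgroup (Equiv.Perm X)}
    (hact : ∀ h ∈ K, ∃ α ∈ Γ, ∀ x, (T.t (α x))⁻¹ * h * T.t x ∈ H)
    (hbal : ∀ d, d ∉ K → ∀ N, N * kk K d d = 2 * cd K → T.Bal Γ d N) (n : ℕ) :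
    ∀ E : Multiset (Sym2 G), Multiset.card E = n →
      (∀ d, KE K E d = 0 ∨ (d ∉ K ∧ KE K E d = 2 * cd K)) →
      ∃ F, Multiset.Rel (T.IsLift Γ) E F ∧ ∀ g, Fintype.card X * KE H F.sum g = KE K E g := by
  classical
  induction n using Nat.strong_induction_on with
  | _ n ih =>
    intro E hn hE
    rcases E.empty_or_exists_mem with rfl | ⟨e, he⟩
    · exact ⟨0, Multiset.Rel.zero, fun g => by simp [KE]⟩
    induction e using Sym2.ind with
    | _ u v =>
      have hc : Cls K (u⁻¹ * v) s(u, v) := ⟨u, v, rfl, 1, one_mem _, 1, one_mem _, by simp⟩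
      generalize u⁻¹ * v = d at hc
      have hsp := Multiset.filter_add_not (Cls K d) E
      have h1 : ∀ e ∈ E.filter (Cls K d), Cls K d e := fun e h => (Multiset.mem_filter.1 h).2
      have h0 : 0 < Multiset.card (E.filter (Cls K d)) :=
        Multiset.card_pos_iff_exists_mem.2 ⟨_, Multiset.mem_filter.2 ⟨he, hc⟩⟩
      have h2 : ∀ g, kk K d g ≠ 0 → KE K (E.filter fun e => ¬ Cls K d e) g = 0 := fun g hg =>
        Multiset.sum_eq_zero fun m hm => by
          obtain ⟨e, h3, rfl⟩ := Multiset.mem_map.1 hm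
          by_contra h4
          refine (Multiset.mem_filter.1 h3).2 (cls_of_ke ?_)
          have h5 : Cls K g s(1, d) := cls_of_ke (by rwa [ke_mk, inv_one, one_mul])
          rw [ke_cls (cls_of_ke h4), ← ke_cls h5, ke_mk, inv_one, one_mul]
          exact (kk_self_pos K d).ne'
      have h3 : ∀ g, KE K E g = Multiset.card (E.filter (Cls K d)) * kk K d g
          + KE K (E.filter fun e => ¬ Cls K d e) g := fun g => by
        rw [← KE_cls h1, ← KE_add, hsp]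
      have h4 := h3 d
      rw [h2 d (kk_self_pos K d).ne', add_zero] at h4
      obtain ⟨hd, h5⟩ := (hE d).resolve_left (h4 ▸ (Nat.mul_pos h0 (kk_self_pos K d)).ne')
      obtain ⟨Θ, h6, h7, h8⟩ := hbal d hd _ (h4 ▸ h5)
      obtain ⟨F1, h9, h10⟩ := T.lift_class hact d _ h1 Θ h6 h7
      have h11 := congrArg Multiset.card hsp
      rw [Multiset.card_add] at h11
      obtain ⟨F2, h12, h13⟩ := ih _ (by omega) (E.filter fun e => ¬ Cls K d e) rfl fun g => by
        by_cases hg : kk K d g = 0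
        · have := h3 g
          rw [hg, mul_zero, zero_add] at this
          exact this ▸ hE g
        · exact Or.inl (h2 g hg)
      refine ⟨F1 + F2, hsp ▸ h9.add h12, fun g => ?_⟩
      rw [Multiset.sum_add, KE_add, mul_add, h13, h10, h8, h3]

/-- The lifting step. -/
theorem step {Γ : Subgroup (Equiv.Perm X)}
    (hact : ∀ h ∈ K, ∃ α ∈ Γ, ∀ x, (T.t (α x))⁻¹ * h * T.t x ∈ H)
    (hbal : ∀ d, d ∉ K → ∀ N, N * kk K d d = 2 * cd K → T.Bal Γ d N)
    (hjoin : ∀ Φ ∈ Γ, ∀ (a b : G) (Vx : X → Multiset G) (Ex : X → Multiset (Sym2 G)),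
      (∀ x, Path (Vx x) (Ex x) (a * T.t x) (b * T.t (Φ x))) → ∃ J p q,
        Path (∑ x, Vx x) (∑ x, Ex x + J) p q ∧ ∀ g, KE H J g = 2 * cd H * ind (g ∈ K ∧ g ∉ H))
    (h : CT K) : CT H := by
  obtain ⟨V, E, a, b, hp, hV, hE⟩ := h
  obtain ⟨F, hF, h1⟩ := T.lift_all hact hbal _ E rfl fun d => by
    by_cases hd : d ∈ K
    · exact Or.inl (by rw [hE, ind_neg (not_not.2 hd), mul_zero])
    · exact Or.inr ⟨hd, by rw [hE, ind_pos hd, mul_one]⟩
  obtain ⟨Φ, hΦ, Vx, Ex, h2, h3, h4⟩ := T.strands Γ hp F hF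
  obtain ⟨J, p, q, h5, h6⟩ := hjoin Φ hΦ a b Vx Ex h2
  refine ⟨_, _, p, q, h5, fun g => by rw [h3, hV], fun g => ?_⟩
  have h7 := h1 g
  obtain ⟨x, -⟩ := T.ex 1 (one_mem _)
  have h8 : 0 < Fintype.card X := Fintype.card_pos_iff.2 ⟨x⟩
  rw [hE, ← T.card_mul, mul_left_comm, mul_assoc] at h7
  rw [KE_add, h4, Nat.eq_of_mul_eq_mul_left h8 h7, h6, ← mul_add]
  congr 1
  by_cases hg : g ∈ K
  · rw [ind_neg (not_not.2 hg), zero_add]; exact ind_congr (by simp [hg])
  · rw [ind_pos hg, ind_neg fun h => hg h.1, ind_pos fun h => hg (T.le h)]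

end TV

end Pool.Agent.Lib.MP_0becda_co.Coset
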