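import Pool.Agent.Lib.MP_0becda_co.Coset.Affine

/-!
Stabilisers of flags in linear groups.
-/

set_option linter.unusedSectionVars false

open Finset Matrix Pool.Agent.Lib.MP_0becda_co.PSL

namespace Pool.Agent.Lib.MP_0becda_co.Coset

/-- Every endomorphism of a space of dimension at least two differs from some automorphism by an
injective map. -/
theorem exists_diff {k X : Type} [Field k] [AddCommGroup X] [Module k X] [Module.Finite k X]
    (h2 : 2 ≤ Module.finrank k X) (ρ : X →ₗ[k] X) :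
    ∃ μ : X ≃ₗ[k] X, ∀ a, μ a = ρ a → a = 0 := by
  classical
  obtain ⟨m, hm⟩ : ∃ m, Module.finrank k X = m + 2 := ⟨_, (Nat.sub_add_cancel h2).symm⟩
  let b := Module.finBasisOfFinrankEq k X hm
  obtain ⟨L, L', D, hD⟩ :=
    Pivot.exists_list_transvec_mul_diagonal_mul_list_transvec (LinearMap.toMatrix b b ρ)
  have key : ∀ x : Fin (m + 2) → k, (∃ i, x i = 0) →
      ((of fun a l => if l = a + 1 then 1 else 0) + diagonal x).det ≠ 0 := by
    rintro x ⟨i, hi⟩ h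
    obtain ⟨v, hv, h0⟩ := exists_mulVec_eq_zero_iff.2 h
    have h1 : ∀ a, v (a + 1) + x a * v a = 0 := fun a => by
      simpa [add_mulVec, mulVec_diagonal, mulVec, dotProduct, add_mul, sum_add_distrib,
        diagonal_apply] using congrFun h0 a
    have h3 : ∀ j : ℕ, v (i + 1 + Fin.ofNat _ j) = 0 := fun j => by
      induction j with
      | zero => simpa [hi] using h1 i
      | succ j ih =>
        have := h1 (i + 1 + Fin.ofNat _ j)
        rw [ih, mul_zero, add_zero] at this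
        rw [← this, add_assoc (i + 1)]
        congr 2
        exact Fin.ext (by simp [Fin.val_add])
    refine hv (funext fun a => ?_)
    simpa using h3 (a - (i + 1)).val
  let P := (L.map TransvectionStruct.toMatrix).prod
  let Q := (L'.map TransvectionStruct.toMatrix).prod
  let S : Matrix (Fin (m + 2)) (Fin (m + 2)) k := of fun a l => if l = a + 1 then 1 else 0
  let x : Fin (m + 2) → k := Pi.single 1 (D 1)
  have hdet : ∀ M : Matrix (Fin (m + 2)) (Fin (m + 2)) k, (P * M * Q).det = M.det := fun M => by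
    rw [det_mul, det_mul, TransvectionStruct.det_toMatrix_prod, TransvectionStruct.det_toMatrix_prod,
      one_mul, mul_one]
  have h1 : (P * (S + diagonal x) * Q).det ≠ 0 := by
    rw [hdet]; exact key x ⟨0, by simp [x]⟩
  have h3 : (P * (S + diagonal (x - D)) * Q).det ≠ 0 := by
    rw [hdet]; exact key _ ⟨1, by simp [x]⟩
  refine ⟨Matrix.toLinearEquiv b _ (Ne.isUnit h1), fun a ha => ?_⟩
  refine (Matrix.toLinearEquiv b _ (Ne.isUnit h3)).map_eq_zero_iff.1 ?_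
  have h4 : P * (S + diagonal (x - D)) * Q = P * (S + diagonal x) * Q - LinearMap.toMatrix b b ρ := by
    rw [hD, ← Matrix.sub_mul, ← Matrix.mul_sub, add_sub_assoc, diagonal_sub]
    rfl
  rw [Matrix.toLinearEquiv_apply] at ha
  rw [Matrix.toLinearEquiv_apply, h4, map_sub, toLin_toMatrix, LinearMap.sub_apply, ha, sub_self]

theorem two_hom {X : Type} [Fintype X] (h3 : 3 ≤ Fintype.card X) (f : X → X → ℕ)
    (h : ∀ x y y', x ≠ y → x ≠ y' → f x y = f x y' ∧ f y x = f y' x ∧ f y y = f y' y') :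
    (∀ x y, f x x = f y y) ∧ ∀ x y x' y', x ≠ y → x' ≠ y' → f x y = f x' y' := by
  have h4 := exists_third (M := X) (by rwa [Nat.card_eq_fintype_card])
  refine ⟨fun x y => ?_, fun x y x' y' h1 h2 => ?_⟩
  · obtain ⟨w, h5, h6⟩ := h4 x y
    exact (h w x y h5 h6).2.2
  · obtain ⟨w, h5, h6⟩ := h4 x x'
    rw [(h x y w h1 h5.symm).1, (h w x x' h5 h6).2.1, (h x' w y' h6.symm h2).1]

variable {G : Type} [Group G] [Fintype G]

/-- a submonoid of a finite group -/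
def subOf (S : Submonoid G) : Subgroup G :=
  { S with
    inv_mem' := fun {g} hg => by
      have h : g⁻¹ = g ^ (orderOf g - 1) := inv_eq_of_mul_eq_one_right (by
        rw [← pow_succ', Nat.sub_add_cancel (orderOf_pos g), pow_orderOf_eq_one])
      exact h ▸ S.pow_mem hg _ }

/-- the transversal given by representatives of cosets -/
noncomputable def tvq {H K : Subgroup G} (hle : H ≤ K) : TV H K (K ⧸ H.subgroupOf K) where
  t x := x.out
  le := hle
  mem x := x.out.2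
  ex g hg := ⟨((⟨g, hg⟩ : K) : K ⧸ H.subgroupOf K),
    QuotientGroup.eq (s := H.subgroupOf K).1
      (QuotientGroup.out_eq' ((⟨g, hg⟩ : K) : K ⧸ H.subgroupOf K))⟩
  uniq x y h := by
    rw [← QuotientGroup.out_eq' x, ← QuotientGroup.out_eq' y]
    exact QuotientGroup.eq.2 h

variable {F : Type} [Field F] {n : ℕ} (ρ : G →* Matrix (Fin n) (Fin n) F)

/-- the span of the first `r` basis vectors -/
def Vr (F : Type) [Field F] (n r : ℕ) : Submodule F (Fin n → F) where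
  carrier := {v | ∀ a : Fin n, r ≤ a.val → v a = 0}
  zero_mem' := fun _ _ => rfl
  add_mem' := fun h1 h2 a ha => by rw [Pi.add_apply, h1 a ha, h2 a ha, add_zero]
  smul_mem' := fun c v h a ha => by rw [Pi.smul_apply, h a ha, smul_zero]

/-- the stabiliser of a subspace -/
def Stb (W : Submodule F (Fin n → F)) : Subgroup G := subOf
  { carrier := {g | ∀ v ∈ W, ρ g *ᵥ v ∈ W}
    one_mem' := fun v h => by rwa [map_one, one_mulVec]
    mul_mem' := fun h1 h2 v h => by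
      rw [map_mul, ← mulVec_mulVec]; exact h1 _ (h2 v h) }

/-- the stabiliser of the first part of the standard flag, with scalars in `C` -/
def Kr (D : Subgroup G) (C : Subgroup Fˣ) (r : ℕ) : Subgroup G := D ⊓ subOf
  { carrier := {g | ∀ i : Fin n, i.val < r → (∃ c ∈ C, ρ g i i = (c : F)) ∧
      ∀ a, i < a → ρ g a i = 0}
    one_mem' := fun i _ => ⟨⟨1, one_mem _, by simp⟩, fun a h => by rw [map_one, one_apply_ne h.ne']⟩
    mul_mem' := fun {g h} h1 h2 i hi => by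
      obtain ⟨⟨c, hc, h3⟩, -⟩ := h1 i hi
      obtain ⟨⟨c', hc', h4⟩, h5⟩ := h2 i hi
      refine ⟨⟨c * c', mul_mem hc hc', ?_⟩, fun a ha => ?_⟩
      · rw [map_mul, mul_apply, sum_eq_single i (fun l _ hl => ?_) (by simp), h3, h4, Units.val_mul]
        rcases hl.lt_or_gt with hl | hl
        · rw [(h1 l (lt_trans hl hi)).2 i hl, zero_mul]
        · rw [h5 l hl, mul_zero]
      · rw [map_mul, mul_apply]
        refine sum_eq_zero fun l _ => ?_
        rcases le_or_gt l i with hl | hl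
        · rw [(h1 l (lt_of_le_of_lt hl hi)).2 a (hl.trans_lt ha), zero_mul]
        · rw [h5 l hl, mul_zero] }

/-- proportional modulo a subspace, with a factor in `C` -/
def Rel (C : Subgroup Fˣ) (W : Submodule F (Fin n → F)) (a b : Fin n → F) : Prop :=
  ∃ c ∈ C, a - (c : F) • b ∈ W

variable {ρ} {D : Subgroup G} {C : Subgroup Fˣ} {W : Submodule F (Fin n → F)}

theorem Rel.refl (a : Fin n → F) : Rel C W a a := ⟨1, one_mem _, by simp⟩

theorem Rel.symm {a b : Fin n → F} (h : Rel C W a b) : Rel C W b a := by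
  obtain ⟨c, hc, h⟩ := h
  refine ⟨c⁻¹, inv_mem hc, ?_⟩
  have := W.smul_mem (-((c⁻¹ : Fˣ) : F)) h
  rwa [neg_smul, smul_sub, smul_smul, Units.inv_mul, one_smul, neg_sub] at this

theorem Rel.trans {a b c : Fin n → F} (h : Rel C W a b) (h' : Rel C W b c) : Rel C W a c := by
  obtain ⟨u, hu, h⟩ := h
  obtain ⟨v, hv, h'⟩ := h'
  refine ⟨u * v, mul_mem hu hv, ?_⟩
  have := W.add_mem h (W.smul_mem (u : F) h')
  rwa [smul_sub, sub_add_sub_cancel, smul_smul, ← Units.val_mul] at this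

theorem Rel.act {a b : Fin n → F} (h : Rel C W a b) {g : G} (hg : g ∈ Stb ρ W) :
    Rel C W (ρ g *ᵥ a) (ρ g *ᵥ b) := by
  obtain ⟨c, hc, h⟩ := h
  exact ⟨c, hc, by rw [← mulVec_smul, ← mulVec_sub]; exact hg _ h⟩

theorem inv_act (g : G) (a : Fin n → F) : ρ g⁻¹ *ᵥ (ρ g *ᵥ a) = a := by
  rw [mulVec_mulVec, ← map_mul, inv_mul_cancel, map_one, one_mulVec]

theorem act_mul (g h : G) (a : Fin n → F) : ρ (g * h) *ᵥ a = ρ g *ᵥ (ρ h *ᵥ a) := by
  rw [mulVec_mulVec, map_mul]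

theorem rel_act {a b : Fin n → F} {g : G} (hg : g ∈ Stb ρ W) :
    Rel C W (ρ g *ᵥ a) (ρ g *ᵥ b) ↔ Rel C W a b :=
  ⟨fun h => by simpa only [inv_act] using h.act (inv_mem hg), fun h => h.act hg⟩

theorem act_notMem {a : Fin n → F} {g : G} (hg : g ∈ Stb ρ W) (ha : a ∉ W) : ρ g *ᵥ a ∉ W :=
  fun h => ha (inv_act (ρ := ρ) g a ▸ inv_mem hg _ h)

theorem Rel.notMem {a b : Fin n → F} (h : Rel C W a b) (ha : a ∉ W) : b ∉ W := by
  obtain ⟨c, -, h⟩ := h
  exact fun hb => ha (by simpa using W.add_mem h (W.smul_mem (c : F) hb))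

theorem kr_le_stb {r s : ℕ} (h : s ≤ r) : Kr ρ D C r ≤ Stb ρ (Vr F n s) := fun g hg v hv a ha =>
  sum_eq_zero (s := univ) (f := fun l => ρ g a l * v l) fun l _ => by
    rcases le_or_gt s l.val with hl | hl
    · rw [hv l hl, mul_zero]
    · rw [(hg.2 l (hl.trans_le h)).2 a (hl.trans_le ha), zero_mul]

theorem kr_succ_le (r : ℕ) : Kr ρ D C (r + 1) ≤ Kr ρ D C r := fun _ h =>
  ⟨h.1, fun i hi => h.2 i (by omega)⟩

theorem rel_col (g : G) (i : Fin n) : Rel C (Vr F n i) (ρ g *ᵥ Pi.single i 1) (Pi.single i 1) ↔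
    (∃ c ∈ C, ρ g i i = (c : F)) ∧ ∀ a, i < a → ρ g a i = 0 := by
  rw [mulVec_single_one]
  refine ⟨fun ⟨c, hc, h⟩ => ⟨⟨c, hc, by simpa [sub_eq_zero] using h i le_rfl⟩, fun a ha => ?_⟩,
    fun ⟨⟨c, hc, h⟩, h'⟩ => ⟨c, hc, fun a ha => ?_⟩⟩
  · simpa [ha.ne'] using h a ha.le
  · rcases (show i ≤ a from ha).eq_or_lt with rfl | ha
    · simp [h]
    · simp [h' a ha, ha.ne']

theorem mem_kr_succ {i : Fin n} {u v : G} (hu : u ∈ Kr ρ D C i) (hv : v ∈ Kr ρ D C i) :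
    u⁻¹ * v ∈ Kr ρ D C (i + 1) ↔
      Rel C (Vr F n i) (ρ v *ᵥ Pi.single i 1) (ρ u *ᵥ Pi.single i 1) := by
  rw [← rel_act (inv_mem (kr_le_stb le_rfl hu)), inv_act, ← act_mul, rel_col]
  refine ⟨fun h => h.2 i (by omega), fun h => ⟨D.mul_mem (D.inv_mem hu.1) hv.1, fun j hj => ?_⟩⟩
  rcases (show j ≤ i from Nat.lt_succ_iff.1 hj).eq_or_lt with rfl | hj
  · exact h
  · exact (mul_mem (inv_mem hu) hv).2 j hj

theorem single_notMem (i : Fin n) : Pi.single i 1 ∉ Vr F n i := fun h => by simpa using h i le_rfl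

/-- transvections that fix a subspace pointwise -/
def Tv (ρ : G →* Matrix (Fin n) (Fin n) F) (D : Subgroup G) (W : Submodule F (Fin n → F))
    (s : G) : Prop :=
  s ∈ D ∧ ∃ (f : (Fin n → F) →ₗ[F] F) (u : Fin n → F), (∀ v ∈ W, f v = 0) ∧ f u = 0 ∧
    ∀ v, ρ s *ᵥ v = v + f v • u

/-- the pointwise stabiliser of a subspace -/
def Fx (ρ : G →* Matrix (Fin n) (Fin n) F) (D : Subgroup G) (W : Submodule F (Fin n → F)) :
    Subgroup G := D ⊓ subOf
  { carrier := {g | ∀ v ∈ W, ρ g *ᵥ v = v}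
    one_mem' := fun v _ => by rw [map_one, one_mulVec]
    mul_mem' := fun h1 h2 v h => by rw [act_mul, h2 v h, h1 v h] }

theorem Tv.fx {s : G} (h : Tv ρ D W s) : s ∈ Fx ρ D W := by
  obtain ⟨h0, f, u, h1, -, h2⟩ := h
  exact ⟨h0, fun v hv => by rw [h2, h1 v hv, zero_smul, add_zero]⟩

theorem Fx.fix {s : G} (h : s ∈ Fx ρ D W) {v : Fin n → F} (hv : v ∈ W) : ρ s *ᵥ v = v := h.2 v hv

theorem Fx.left {s : G} {W' : Submodule F (Fin n → F)} (h : s ∈ Fx ρ D (W ⊔ W')) : s ∈ Fx ρ D W :=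
  ⟨h.1, fun v hv => h.2 v (Submodule.mem_sup_left hv)⟩

theorem Fx.right {s : G} {a : Fin n → F} (h : s ∈ Fx ρ D (W ⊔ F ∙ a)) : ρ s *ᵥ a = a :=
  h.2 a (Submodule.mem_sup_right (Submodule.mem_span_singleton_self _))

theorem Fx.stb {s : G} (h : s ∈ Fx ρ D W) : s ∈ Stb ρ W := fun v hv => (h.2 v hv).symm ▸ hv

theorem mem_kr_of_fix {r : ℕ} {s : G} (h : s ∈ Fx ρ D (Vr F n r)) : s ∈ Kr ρ D C r :=
  ⟨h.1, fun i hi => (rel_col s i).1 (by
    rw [h.2 _ fun a ha => Pi.single_eq_of_ne (by rintro rfl; omega) _]; exact Rel.refl _)⟩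

theorem exists_tv (hSL : ∀ M : Matrix (Fin n) (Fin n) F, M.det = 1 → ∃ g ∈ D, ρ g = M)
    (f : (Fin n → F) →ₗ[F] F) (hf : ∀ v ∈ W, f v = 0) {b b' : Fin n → F} (hb : f b ≠ 0)
    (hb' : f b' ≠ 0) : ∃ s, Tv ρ D W s ∧ ρ s *ᵥ b = (f b / f b') • b' := by
  have h1 : ∀ v, (fun i => f fun j => if i = j then 1 else 0) ⬝ᵥ v = f v := fun v => by
    rw [LinearMap.pi_apply_eq_sum_univ f v]
    exact sum_congr rfl fun i _ => mul_comm _ _
  obtain ⟨s, hD, hs⟩ := hSL (1 + vecMulVec ((f b')⁻¹ • b' - (f b)⁻¹ • b)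
    fun i => f fun j => if i = j then 1 else 0) (by
      rw [vecMulVec_eq Unit, det_one_add_replicateCol_mul_replicateRow, h1]
      simp [hb, hb'])
  refine ⟨s, ⟨hD, f, (f b')⁻¹ • b' - (f b)⁻¹ • b, hf, by simp [hb, hb'], fun v => ?_⟩, ?_⟩
  · rw [hs, add_mulVec, one_mulVec, vecMulVec_mulVec, h1, op_smul_eq_smul]
  · rw [hs, add_mulVec, one_mulVec, vecMulVec_mulVec, h1, op_smul_eq_smul, smul_sub,
      smul_smul, smul_smul, mul_inv_cancel₀ hb, one_smul, div_eq_mul_inv, add_sub_cancel]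

theorem exists_dual {b b' : Fin n → F} (hb : b ∉ W) (hb' : b' ∉ W) :
    ∃ f : (Fin n → F) →ₗ[F] F, f b ≠ 0 ∧ f b' ≠ 0 ∧ ∀ v ∈ W, f v = 0 := by
  obtain ⟨f, h1, h2⟩ := Submodule.exists_le_ker_of_notMem hb
  obtain ⟨f', h3, h4⟩ := Submodule.exists_le_ker_of_notMem hb'
  by_cases h5 : f b' = 0
  · by_cases h6 : f' b = 0
    · exact ⟨f + f', by simpa [h6], by simpa [h5], fun v hv => by
        rw [LinearMap.add_apply, h2 hv, h4 hv, add_zero]⟩
    · exact ⟨f', h6, h3, h4⟩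
  · exact ⟨f, h1, h5, h2⟩

/-- If `d` moves the subspace, the joint stabiliser fixes a class of vectors. -/
theorem exists_fixed {r : ℕ} {d : G} (hd : d ∉ Stb ρ (Vr F n r)) : ∃ v ∉ Vr F n r,
    ∀ s ∈ St (Kr ρ D C r) d, Rel C (Vr F n r) (ρ s *ᵥ v) v := by
  classical
  have key : ∀ j : ℕ, j ≤ r → (∀ l : Fin n, l.val < j → ρ d *ᵥ Pi.single l 1 ∈ Vr F n r) →
      ∀ v ∈ Vr F n j, ρ d *ᵥ v ∈ Vr F n r := fun j _ h v hv a ha =>
      sum_eq_zero (s := univ) (f := fun l => ρ d a l * v l) fun l _ => by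
    rcases le_or_gt j l.val with hl | hl
    · rw [hv l hl, mul_zero]
    · have := h l hl a ha
      rw [mulVec_single_one, col_apply] at this
      rw [this, zero_mul]
  obtain ⟨j, ⟨h1, h2⟩, h3⟩ := (wellFounded_lt (α := Fin n)).has_min
    {l | l.val < r ∧ ρ d *ᵥ Pi.single l 1 ∉ Vr F n r} (by
      by_contra h
      exact hd (key r le_rfl fun l hl => by_contra fun h1 => h ⟨l, hl, h1⟩))
  refine ⟨_, h2, fun s hs => ?_⟩
  obtain ⟨c, hc, h4⟩ := (rel_col (C := C) (d⁻¹ * s * d) j).2 ((mem_St.1 hs).2.2 j h1)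
  refine ⟨c, hc, ?_⟩
  have h5 := key j h1.le (fun l hl => by_contra fun h => h3 l ⟨hl.trans h1, h⟩ hl) _ h4
  rwa [mulVec_sub, mulVec_smul, ← act_mul, ← mul_assoc, mul_inv_cancel_left, act_mul] at h5

theorem exists_out (h : Module.finrank F W + 1 < n) (a a' : Fin n → F) :
    ∃ b, b ∉ W ⊔ F ∙ a ∧ b ∉ W ⊔ F ∙ a' := by
  have h1 : ∀ a : Fin n → F, ∃ b, b ∉ W ⊔ F ∙ a := fun a => by
    by_contra h2
    have h3 := Submodule.finrank_add_le_finrank_add_finrank W (F ∙ a)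
    have h4 := finrank_span_le_card (R := F) ({a} : Set (Fin n → F))
    rw [Submodule.eq_top_iff'.2 fun b => by_contra fun h => h2 ⟨b, h⟩, finrank_top,
      Module.finrank_fin_fun] at h3
    rw [Set.toFinset_singleton, card_singleton] at h4
    omega
  obtain ⟨b, hb⟩ := h1 a
  obtain ⟨b', hb'⟩ := h1 a'
  by_cases h2 : b ∈ W ⊔ F ∙ a'
  · by_cases h3 : b' ∈ W ⊔ F ∙ a
    · exact ⟨b + b', fun h => hb ((Submodule.add_mem_iff_left _ h3).1 h),
        fun h => hb' ((Submodule.add_mem_iff_right _ h2).1 h)⟩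
    · exact ⟨b', h3, hb'⟩
  · exact ⟨b, hb, h2⟩

theorem finrank_vr (r : ℕ) : Module.finrank F (Vr F n r) ≤ r := by
  refine (LinearMap.finrank_le_finrank_of_injective (f := LinearMap.pi fun j : Fin r =>
    if h : j.val < n then (LinearMap.proj ⟨j, h⟩).comp (Vr F n r).subtype else 0)
    ((injective_iff_map_eq_zero _).2 fun v hv => Subtype.ext (funext fun a => ?_))).trans_eq
    (Module.finrank_fin_fun F)
  rcases le_or_gt r a.val with h | h
  · exact v.2 a h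
  · simpa using congrFun hv ⟨a, h⟩

theorem mem_sup_span {a b : Fin n → F} : b ∈ W ⊔ F ∙ a ↔ ∃ c : F, b - c • a ∈ W := by
  rw [Submodule.mem_sup]
  refine ⟨?_, fun ⟨c, h⟩ => ⟨_, h, c • a, Submodule.mem_span_singleton.2 ⟨c, rfl⟩, by simp⟩⟩
  rintro ⟨w, hw, _, h, rfl⟩
  obtain ⟨c, rfl⟩ := Submodule.mem_span_singleton.1 h
  exact ⟨c, by simpa using hw⟩

theorem exists_move (hSL : ∀ M : Matrix (Fin n) (Fin n) F, M.det = 1 → ∃ g ∈ D, ρ g = M)
    (h : Module.finrank F W + 1 < n) (Q : Subgroup G) (hQ : ∀ s, Tv ρ D W s → s ∈ Q)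
    {a a' : Fin n → F} (ha : a ∉ W) (ha' : a' ∉ W) : ∃ s ∈ Q, ρ s *ᵥ a = a' := by
  have key : ∀ a b : Fin n → F, a ∉ W → b ∉ W ⊔ F ∙ a →
      ∃ s ∈ Q, ρ s *ᵥ a = b := fun a b ha hb => by
    have h1 : a ∉ W ⊔ F ∙ (a - b) := fun h1 => by
      obtain ⟨c, h1⟩ := mem_sup_span.1 h1
      by_cases hc : c = 0
      · exact ha (by simpa [hc] using h1)
      · refine hb (mem_sup_span.2 ⟨1 - c⁻¹, ?_⟩)
        have := W.smul_mem c⁻¹ h1
        rwa [smul_sub, smul_smul, inv_mul_cancel₀ hc, one_smul, show c⁻¹ • a - (a - b)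
          = b - (1 - c⁻¹) • a by rw [sub_smul, one_smul]; abel] at this
    obtain ⟨f, h2, h3⟩ := Submodule.exists_le_ker_of_notMem h1
    have h4 : f a = f b := sub_eq_zero.1 ((map_sub f a b).symm.trans
      (h3 (Submodule.mem_sup_right (Submodule.mem_span_singleton_self _))))
    obtain ⟨s, h5, h6⟩ := exists_tv hSL f (fun v hv => h3 (Submodule.mem_sup_left hv)) h2 (h4 ▸ h2)
    exact ⟨s, hQ s h5, by rw [h6, ← h4, div_self h2, one_smul]⟩
  obtain ⟨b, h1, h2⟩ := exists_out h a a'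
  obtain ⟨s, h3, h4⟩ := key a b ha h1
  obtain ⟨s', h5, h6⟩ := key a' b ha' h2
  exact ⟨s'⁻¹ * s, mul_mem (inv_mem h5) h3, by rw [act_mul, h4, ← h6, inv_act]⟩

section flag

variable {X : Type} [Fintype X] {i : Fin n} (T : TV (Kr ρ D C (i + 1)) (Kr ρ D C i) X)

/-- the vector attached to a coset -/
def vec (x : X) : Fin n → F := ρ (T.t x) *ᵥ Pi.single i 1

theorem vec_iff {k : G} (hk : k ∈ Kr ρ D C i) (x y : X) :
    (T.t y)⁻¹ * k * T.t x ∈ Kr ρ D C (i + 1) ↔ Rel C (Vr F n i) (ρ k *ᵥ vec T x) (vec T y) := by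
  rw [mul_assoc, mem_kr_succ (T.mem y) (mul_mem hk (T.mem x)), act_mul]; rfl

theorem vec_notMem (x : X) : vec T x ∉ Vr F n i :=
  act_notMem (kr_le_stb le_rfl (T.mem x)) (single_notMem i)

theorem vec_inj {x y : X} (h : Rel C (Vr F n i) (vec T x) (vec T y)) : x = y :=
  (T.uniq _ _ ((mem_kr_succ (T.mem y) (T.mem x)).2 h)).symm

theorem vec_surj (hSL : ∀ M : Matrix (Fin n) (Fin n) F, M.det = 1 → ∃ g ∈ D, ρ g = M)
    (hi : i.val + 1 < n) {v : Fin n → F} (hv : v ∉ Vr F n i) :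
    ∃ x, Rel C (Vr F n i) v (vec T x) := by
  obtain ⟨s, h1, h2⟩ := exists_move hSL (lt_of_le_of_lt (Nat.succ_le_succ (finrank_vr _)) hi)
    _ (fun _ => Tv.fx) (single_notMem i) hv
  obtain ⟨x, hx⟩ := T.ex s (mem_kr_of_fix h1)
  exact ⟨x, h2 ▸ (mem_kr_succ (T.mem x) (mem_kr_of_fix h1)).1 hx⟩

/-- functions of pairs that are invariant under the maps fixing the subspace pointwise -/
def Inv (f : X → X → ℕ) : Prop := ∀ s ∈ Fx ρ D (Vr F n i), ∀ x x' y y',
  Rel C (Vr F n i) (ρ s *ᵥ vec T x) (vec T x') → Rel C (Vr F n i) (ρ s *ᵥ vec T y) (vec T y') →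
    f x' y' = f x y

theorem inv_kk {H K : Subgroup G} (T' : TV H K X) (hT : T'.t = T.t) (hH : Kr ρ D C (i + 1) ≤ H)
    (g : G) : Inv T fun x y => kk H ((T'.t x)⁻¹ * T'.t y) g :=
  fun s hs x x' y y' h1 h2 => by
    have := T'.kk_move (d := 1) (hT ▸ hH ((vec_iff T (mem_kr_of_fix hs) _ _).2 h1))
      (by simpa [hT] using hH ((vec_iff T (mem_kr_of_fix hs) _ _).2 h2)) g
    simpa using this

theorem bal_stb [hD : D.Normal] (hSL : ∀ M : Matrix (Fin n) (Fin n) F, M.det = 1 → ∃ g ∈ D, ρ g = M)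
    (hi : i.val + 1 < n) (σ : Equiv.Perm X)
    (hσ : ∀ f, Inv T f → Fintype.card X * ∑ x, f x (σ x) = ∑ x, ∑ y, f x y)
    {H K : Subgroup G} (T' : TV H K X) (hT : T'.t = T.t) (hH : Kr ρ D C (i + 1) ≤ H)
    {d : G} (hd : d ∈ Stb ρ (Vr F n i)) (N : ℕ) : T'.Bal ⊤ d N := by
  · choose δ hδ using fun y => vec_surj T hSL hi (act_notMem hd (vec_notMem T y))
    have h1 : Function.Injective δ := fun y y' h => vec_inj T ((rel_act hd).1
      ((hδ y).trans (h ▸ (hδ y').symm)))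
    let e := Equiv.ofBijective δ h1.bijective_of_finite
    have h2 : ∀ y, Rel C (Vr F n i) (ρ d *ᵥ vec T (e.symm y)) (vec T y) := fun y => by
      have := hδ (e.symm y)
      rwa [show δ (e.symm y) = y from e.apply_symm_apply y] at this
    refine T'.bal_one (θ := σ.trans e.symm) (Subgroup.mem_top _) (fun g => ?_) N
    refine (hσ (fun x y => kk H ((T'.t x)⁻¹ * d * T'.t (e.symm y)) g)
      fun s hs x x' y y' h3 h4 => ?_).trans (sum_congr rfl fun x _ => e.symm.bijective.sum_comp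
        fun y => kk H ((T'.t x)⁻¹ * d * T'.t y) g)
    have h5 : d⁻¹ * s * d ∈ Fx ρ D (Vr F n i) := ⟨hD.conj_mem' s hs.1 d, fun v hv => by
      rw [act_mul, act_mul, hs.2 _ (hd v hv), inv_act]⟩
    refine T'.kk_move (hT ▸ hH ((vec_iff T (mem_kr_of_fix hs) _ _).2 h3))
      (hT ▸ hH ((vec_iff T (mem_kr_of_fix h5) _ _).2 ((rel_act hd).1 ?_))) g
    rw [← act_mul, ← mul_assoc, mul_inv_cancel_left, act_mul]
    exact (((h2 y).act (Fx.stb hs)).trans h4).trans (h2 y').symm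

theorem bal_out (hSL : ∀ M : Matrix (Fin n) (Fin n) F, M.det = 1 → ∃ g ∈ D, ρ g = M)
    (hi : i.val + 1 < n) {d : G} (hd : d ∉ Stb ρ (Vr F n i)) {N : ℕ}
    (hN : N * kk (Kr ρ D C i) d d = 2 * cd (Kr ρ D C i)) : T.Bal ⊤ d N := by
  obtain ⟨v, hv, h1⟩ := exists_fixed (D := D) (C := C) hd
  obtain ⟨x, hx⟩ := vec_surj T hSL hi hv
  exact T.bal_fix (T.t x) (fun s hs => (vec_iff T (mem_St.1 hs).1 x x).2
    (((hx.symm.act (kr_le_stb le_rfl (mem_St.1 hs).1)).trans (h1 s hs)).trans hx)) hN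

end flag

theorem rel_top {a b : Fin n → F} (hb : b ∉ W) (h : b ∈ W ⊔ F ∙ a) : Rel ⊤ W b a := by
  obtain ⟨c, h⟩ := mem_sup_span.1 h
  exact ⟨Units.mk0 c fun hc => hb (by simpa [hc] using h), Subgroup.mem_top _, h⟩

/-- the step from a flag to a longer one -/
theorem ct_flag' [D.Normal] (hSL : ∀ M : Matrix (Fin n) (Fin n) F, M.det = 1 → ∃ g ∈ D, ρ g = M)
    {i : Fin n} (hi : i.val + 1 < n) {X : Type} [Fintype X]
    (T : TV (Kr ρ D ⊤ (i + 1)) (Kr ρ D ⊤ i) X) {H K : Subgroup G}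
    (T' : TV H K X) (hT : T'.t = T.t) (hH : Kr ρ D ⊤ (i + 1) ≤ H)
    (hbal : ∀ d ∉ K, d ∉ Stb ρ (Vr F n i) → ∀ N, N * kk K d d = 2 * cd K → T'.Bal ⊤ d N)
    (h : CT K) : CT H := by
  classical
  have h3 : 3 ≤ Fintype.card X := by
    obtain ⟨b, hb, -⟩ := exists_out (lt_of_le_of_lt (Nat.succ_le_succ (finrank_vr (F := F) i)) hi)
      (Pi.single i 1) 0
    have hb' : b + Pi.single i 1 ∉ Vr F n i ⊔ F ∙ Pi.single i 1 := fun h => hb
      ((Submodule.add_mem_iff_left _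
        (Submodule.mem_sup_right (Submodule.mem_span_singleton_self _))).1 h)
    obtain ⟨x, hx⟩ := vec_surj T hSL hi (single_notMem i)
    obtain ⟨y, hy⟩ := vec_surj T hSL hi fun h => hb (Submodule.mem_sup_left h)
    obtain ⟨z, hz⟩ := vec_surj T hSL hi fun h => hb' (Submodule.mem_sup_left h)
    refine Fintype.two_lt_card_iff.2 ⟨x, y, z, ?_, ?_, ?_⟩ <;> rintro rfl
    · obtain ⟨c, -, h⟩ := hy.trans hx.symm
      exact hb (mem_sup_span.2 ⟨c, h⟩)
    · obtain ⟨c, -, h⟩ := hz.trans hx.symm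
      exact hb' (mem_sup_span.2 ⟨c, h⟩)
    · obtain ⟨c, -, h⟩ := hz.trans hy.symm
      by_cases hc : (c : F) = 1
      · exact single_notMem i (by simpa [hc] using h)
      · refine hb (mem_sup_span.2 ⟨(c - 1 : F)⁻¹, ?_⟩)
        have := Submodule.smul_mem _ (-(c - 1 : F)⁻¹) h
        rwa [show b + Pi.single i 1 - (c : F) • b = Pi.single i 1 - (c - 1 : F) • b by
          rw [sub_smul, one_smul]; abel, neg_smul, smul_sub, smul_smul,
          inv_mul_cancel₀ (sub_ne_zero.2 hc), one_smul, neg_sub] at this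
  have key : ∀ f, Inv T f → (∀ x y, f x x = f y y) ∧
      ∀ x y x' y', x ≠ y → x' ≠ y' → f x y = f x' y' := fun f hf => two_hom h3 f
    fun x y y' h1 h2 => by
      obtain ⟨φ, h4, h5, h6⟩ := exists_dual (W := Vr F n i ⊔ F ∙ vec T x)
        (fun h => h1 (vec_inj T (rel_top (vec_notMem T y) h)).symm)
        (fun h => h2 (vec_inj T (rel_top (vec_notMem T y') h)).symm)
      obtain ⟨s, h7, h8⟩ := exists_tv hSL φ h6 h4 h5
      have h9 := Fx.left h7.fx
      have k1 : Rel ⊤ (Vr F n i) (ρ s *ᵥ vec T x) (vec T x) := by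
        rw [Fx.right h7.fx]
        exact Rel.refl _
      have k2 : Rel ⊤ (Vr F n i) (ρ s *ᵥ vec T y) (vec T y') :=
        ⟨Units.mk0 _ (div_ne_zero h4 h5), Subgroup.mem_top _, by simp [h8]⟩
      exact ⟨(hf s h9 _ _ _ _ k1 k2).symm, (hf s h9 _ _ _ _ k2 k1).symm,
        (hf s h9 _ _ _ _ k2 k2).symm⟩
  obtain ⟨σ, hσ⟩ := bal_two h3
  refine T'.step_free (fun x y x' y' h1 h2 g => (key _ (inv_kk T T' hT hH g)).2 _ _ _ _ h1 h2)
    (fun d hd N hN => ?_) h
  by_cases hd' : d ∈ Stb ρ (Vr F n i)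
  · exact bal_stb T hSL hi σ (fun f hf => hσ f (key f hf).1 (key f hf).2) T' hT hH hd' N
  · exact hbal d hd hd' N hN

theorem ct_flag [D.Normal] (hSL : ∀ M : Matrix (Fin n) (Fin n) F, M.det = 1 → ∃ g ∈ D, ρ g = M)
    (i : Fin n) (hi : i.val + 1 < n) (h : CT (Kr ρ D ⊤ i)) : CT (Kr ρ D ⊤ (i + 1)) :=
  let _ := Fintype.ofFinite (Kr ρ D ⊤ i ⧸ (Kr ρ D ⊤ (i + 1)).subgroupOf (Kr ρ D ⊤ i))
  let T := tvq (kr_succ_le (ρ := ρ) (D := D) (C := ⊤) i)
  ct_flag' hSL hi T T rfl le_rfl (fun _ _ hd _ => bal_out T hSL hi hd) h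

end Pool.Agent.Lib.MP_0becda_co.Coset
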