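import Pool.Agent.Lib.MP_0becda_co.Coset.Rank3
import Pool.Agent.Lib.MP_0becda_co.Coset.Lin

/-!
Subgroups with a large double coset.
-/

set_option linter.unusedSectionVars false

open Finset Pool.Agent.Lib.MP_0becda_co.PSL

namespace Pool.Agent.Lib.MP_0becda_co.Coset

theorem match_typed {X I : Type} [Fintype X] [DecidableEq X] [DecidableEq I] (Q : I → X → X → Prop)
    (hi : ∀ i x y, Q i x y → x ≠ y) (R : Finset X) (S : Finset I) :
    (∀ i ∈ S, ∀ W : Finset X, W.card + 2 ≤ R.card + 2 * S.card → ∃ x ∉ W, ∃ y ∉ W, Q i x y) →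
    ∃ (μ : X → X) (W : Finset X), (∀ x, μ (μ x) = x) ∧ W.card = 2 * S.card ∧ Disjoint R W ∧
      (∀ x ∉ W, μ x = x) ∧ (∀ x ∈ W, μ x ≠ x) ∧ ∀ (F : X → X → ℕ) (c : I → ℕ),
        (∀ i x y, Q i x y → F x y = c i ∧ F y x = c i) → ∑ x ∈ W, F x (μ x) = 2 * ∑ i ∈ S, c i := by
  induction S using Finset.induction_on with
  | empty => exact fun _ => ⟨id, ∅, fun _ => rfl, rfl, by simp, fun _ _ => rfl, by simp, by simp⟩
  | insert i S hS ih =>
    intro h
    rw [card_insert_of_notMem hS] at h ⊢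
    obtain ⟨μ, W, h1, h2, h3, h5, h4, h9⟩ := ih fun j hj W k => h j (mem_insert_of_mem hj) W (by omega)
    obtain ⟨x, hx, y, hy, h6⟩ := h i (mem_insert_self _ _) (R ∪ W)
      (by rw [card_union_of_disjoint h3]; omega)
    rw [mem_union, not_or] at hx hy
    have h7 : x ≠ y := hi _ _ _ h6
    have h8 : ∀ z, z ≠ x → z ≠ y → μ z ≠ x ∧ μ z ≠ y := fun z k1 k2 =>
      ⟨fun h => k1 (by rw [← h1 z, h, h5 x hx.2]), fun h => k2 (by rw [← h1 z, h, h5 y hy.2])⟩
    have k0 : x ∉ insert y W := by simp [h7, hx.2]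
    refine ⟨fun z => if z = x then y else if z = y then x else μ z, insert x (insert y W),
      fun z => ?_, by rw [card_insert_of_notMem k0, card_insert_of_notMem hy.2]; omega,
      by simp [hx.1, hy.1, h3], fun z hz => ?_, fun z hz => ?_, fun F c hF => ?_⟩
    · by_cases k1 : z = x
      · simp [k1, h7.symm]
      by_cases k2 : z = y
      · simp [k2, h7.symm]
      simp [k1, k2, h8 z k1 k2, h1]
    · simp only [mem_insert, not_or] at hz
      simp [hz.1, hz.2.1, h5 z hz.2.2]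
    · by_cases k1 : z = x
      · simp [k1, h7.symm]
      by_cases k2 : z = y
      · simp [k2, h7.symm, h7]
      simpa [k1, k2] using h4 z (by simpa [k1, k2] using hz)
    · rw [sum_insert k0, sum_insert hy.2, sum_insert hS, mul_add, ← h9 F c hF,
        sum_congr rfl (g := fun z => F z (μ z)) fun z hz => by
          simp only [if_neg fun h : z = x => hx.2 (h ▸ hz), if_neg fun h : z = y => hy.2 (h ▸ hz)]]
      simp only [if_neg h7.symm, if_true, (hF _ _ _ h6).1, (hF _ _ _ h6).2]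
      ring

variable {G : Type} [Group G] [Fintype G]

theorem sum_shift (H : Subgroup G) (a b : G) : ∑ g, ind (a * g * b ∈ H) = cd H :=
  ((Group.mulRight_bijective b).comp (Group.mulLeft_bijective a)).sum_comp fun g => ind (g ∈ H)

theorem ct_big (H : Subgroup G) (w : G) (ho : Odd H.index)
    (hw : 3 * Nat.card G < 4 * Nat.card {g : G // ∃ a ∈ H, ∃ b ∈ H, g = a * w * b}) : CT H := by
  classical
  obtain ⟨X, _, ⟨T⟩⟩ : ∃ (X : Type) (_ : Fintype X), Nonempty (TV H ⊤ X) :=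
    ⟨_, Fintype.ofFinite _, ⟨tvq le_top⟩⟩
  let Dd : G → Prop := fun g => ∃ a ∈ H, ∃ b ∈ H, g = a * w * b
  have h0 := cd_pos H
  have h1 : Fintype.card X * cd H = Nat.card G := by rw [T.card_mul, cd_eq, Subgroup.card_top]
  have h2 : Fintype.card X = H.index := Nat.eq_of_mul_eq_mul_right h0 (by
    rw [h1, cd_eq, mul_comm, Subgroup.card_mul_index])
  rw [Nat.card_eq_fintype_card (α := Subtype _), Fintype.card_subtype, ← sum_ind_card] at hw
  have d1 : ∀ g, ∀ a ∈ H, ∀ b ∈ H, Dd g → Dd (a * g * b) := fun g a ha b hb ⟨c, hc, e, he, h⟩ =>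
    ⟨_, mul_mem ha hc, _, mul_mem he hb, by rw [h]; group⟩
  have d2 : ∀ g, Dd g → Dd g⁻¹ := by
    obtain ⟨g, -, h3⟩ := exists_not_of_lt (S := univ) (p := fun g => ¬ Dd g ∨ ¬ Dd g⁻¹) (by
      have k1 : ∑ g, (ind (Dd g) + ind (Dd g⁻¹) + ind (¬ Dd g ∨ ¬ Dd g⁻¹)) ≤ ∑ _g : G, 2 := by
        refine sum_le_sum fun g _ => ?_
        by_cases e : Dd g <;> by_cases e' : Dd g⁻¹ <;> simp [e, e', ind_pos, ind_neg]
      have k2 : ∑ g, ind (¬ Dd g ∨ ¬ Dd g⁻¹) ≤ ∑ g, (ind (¬ Dd g) + ind (¬ Dd g⁻¹)) := by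
        refine sum_le_sum fun g _ => ?_
        by_cases e : Dd g <;> by_cases e' : Dd g⁻¹ <;> simp [e, e', ind_pos, ind_neg]
      have k3 : ∑ g, (ind (Dd g) + ind (¬ Dd g)) = ∑ _g : G, 1 := by
        refine sum_congr rfl fun g _ => ?_
        by_cases e : Dd g <;> simp [e, ind_pos, ind_neg]
      rw [sum_add_distrib, show ∑ g, ind (¬ Dd g⁻¹) = ∑ g, ind (¬ Dd g) from
        Equiv.sum_comp (Equiv.inv G) fun g => ind (¬ Dd g)] at k2
      rw [sum_add_distrib, sum_const, smul_eq_mul, mul_one] at k3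
      rw [Nat.card_eq_fintype_card, ← card_univ] at hw
      change _ < 4 * ∑ g, ind (Dd g) at hw
      omega)
    simp only [not_or, not_not] at h3
    obtain ⟨⟨a, ha, b, hb, rfl⟩, h4⟩ := h3
    rintro _ ⟨c, hc, e, he, rfl⟩
    have := d1 _ _ (mul_mem (inv_mem he) hb) _ (mul_mem ha (inv_mem hc)) h4
    rwa [show e⁻¹ * b * (a * w * b)⁻¹ * (a * c⁻¹) = (c * w * e)⁻¹ by group] at this
  have d3 : ∀ x, (∑ y, ind (Dd ((T.t x)⁻¹ * T.t y))) * cd H = ∑ g, ind (Dd g) := fun x => by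
    rw [← (Group.mulLeft_bijective (T.t x)⁻¹).sum_comp, sum_mul,
      sum_congr rfl (g := fun g => ∑ y, ind ((T.t y)⁻¹ * g * 1 ∈ H) * ind (Dd ((T.t x)⁻¹ * g)))
        fun g _ => by simp only [mul_one]; rw [← sum_mul, T.sum_ind, ind_pos (Subgroup.mem_top g),
          one_mul], sum_comm]
    refine sum_congr rfl fun y _ => ?_
    rw [← sum_shift H (T.t y)⁻¹ 1, mul_sum]
    refine sum_congr rfl fun g _ => ?_
    by_cases e : (T.t y)⁻¹ * g * 1 ∈ H
    · rw [mul_comm]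
      congr 1
      refine ind_congr ⟨fun h => ?_, fun h => ?_⟩
      · simpa [mul_assoc] using d1 _ 1 (one_mem _) _ e h
      · simpa [mul_assoc] using d1 _ 1 (one_mem _) _ (inv_mem e) h
    · rw [ind_neg e, mul_zero, zero_mul]
  obtain ⟨x0⟩ := Fintype.card_pos_iff.1 T.card_pos
  obtain ⟨l, hl⟩ : ∃ l, ∀ x, ∑ y, ind (Dd ((T.t x)⁻¹ * T.t y)) = l :=
    ⟨_, fun x => Nat.eq_of_mul_eq_mul_right h0 ((d3 x).trans (d3 x0).symm)⟩
  have h3 : 3 * Fintype.card X < 4 * l := Nat.lt_of_mul_lt_mul_right (a := cd H) (by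
    rw [mul_assoc, mul_assoc, h1, ← hl x0, d3]; exact hw)
  by_cases hd : Dd 1
  · have k1 : l ≤ 1 := by
      rw [← hl x0, ← sum_ind_eq x0]
      refine sum_le_sum fun y _ => ?_
      by_cases e : Dd ((T.t x0)⁻¹ * T.t y)
      · rw [ind_pos e]
        obtain ⟨a, ha, b, hb, k1⟩ := hd
        obtain ⟨c, hc, e', he, k2⟩ := e
        rw [T.uniq x0 y (by
          rw [k2, show w = a⁻¹ * (a * w * b) * b⁻¹ by group, ← k1]
          exact mul_mem (mul_mem hc (mul_mem (mul_mem (inv_mem ha) (one_mem _)) (inv_mem hb))) he),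
          ind_pos rfl]
      · simp [e, ind_neg]
    have := T.card_pos
    rw [Subgroup.index_eq_one.1 (by omega : H.index = 1)]
    exact ct_top
  let P : X → X → Prop := fun x y => x ≠ y ∧ ¬ Dd ((T.t x)⁻¹ * T.t y)
  have hs : ∀ x y, P x y → P y x := fun x y h => ⟨h.1.symm, fun h' => h.2 (by simpa using d2 _ h')⟩
  have hi : ∀ x, ¬ P x x := fun x h => h.1 rfl
  have h4 : ∀ x, ∑ y, ind (P x y) + l + 1 = Fintype.card X := fun x => by
    rw [← hl x, ← sum_ind_eq x, ← sum_add_distrib, ← sum_add_distrib, ← card_univ, card_eq_sum_ones]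
    refine sum_congr rfl fun y _ => ?_
    by_cases e : y = x
    · simp [P, e, hd, ind_pos, ind_neg]
    · by_cases e' : Dd ((T.t x)⁻¹ * T.t y) <;> simp [P, e, e', Ne.symm e, ind_pos, ind_neg]
  obtain ⟨k, hk⟩ : ∃ k, ∀ x, ∑ y, ind (P x y) = k := ⟨_, fun x => by
    exact Nat.add_right_cancel (Nat.succ_injective ((h4 x).trans (h4 x0).symm))⟩
  have h5 := h4 x0
  rw [hk] at h5
  obtain ⟨m, hm⟩ := h2 ▸ ho
  have h6 : (univ.filter (P x0)).card = k := by rw [← sum_ind_card, hk]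
  obtain ⟨μ, W, m1, m2, m3, m4, m5, m6⟩ := match_typed
    (fun i x y => x ≠ y ∧ ∃ a ∈ H, ∃ b ∈ H, (T.t x)⁻¹ * T.t y = a * ((T.t x0)⁻¹ * T.t i) * b)
    (fun _ _ _ h => h.1) {x0} (univ.filter (P x0)) fun i hi' W hW => by
      have k1 : ∀ z, ∑ g, ind (∃ p ∈ W, (T.t p)⁻¹ * g * z ∈ H) ≤ W.card * cd H := fun z => by
        rw [← smul_eq_mul, ← sum_const, ← sum_congr rfl fun p _ => sum_shift H (T.t p)⁻¹ z, sum_comm]
        refine sum_le_sum fun g _ => ?_
        by_cases e : ∃ p ∈ W, (T.t p)⁻¹ * g * z ∈ H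
        · rw [ind_pos e]
          obtain ⟨p, e1, e2⟩ := e
          exact (ind_pos e2).ge.trans (single_le_sum (f := fun p => ind ((T.t p)⁻¹ * g * z ∈ H))
            (fun _ _ => Nat.zero_le _) e1)
        · rw [ind_neg e]; exact Nat.zero_le _
      obtain ⟨g, -, k2⟩ := exists_not_of_lt (S := univ) (p := fun g =>
        (∃ p ∈ W, (T.t p)⁻¹ * g * T.t x0 ∈ H) ∨ ∃ p ∈ W, (T.t p)⁻¹ * g * T.t i ∈ H) (by
          refine lt_of_le_of_lt (sum_le_sum (g := fun g => ind (∃ p ∈ W, (T.t p)⁻¹ * g * T.t x0 ∈ H)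
            + ind (∃ p ∈ W, (T.t p)⁻¹ * g * T.t i ∈ H)) fun g _ => ?_) ?_
          · by_cases e : ∃ p ∈ W, (T.t p)⁻¹ * g * T.t x0 ∈ H <;>
              by_cases e' : ∃ p ∈ W, (T.t p)⁻¹ * g * T.t i ∈ H <;> simp only [e, e', ind_pos, ind_neg,
                or_true, true_or, or_self, not_false_eq_true] <;> omega
          · rw [sum_add_distrib, card_univ, ← Nat.card_eq_fintype_card, ← h1]
            refine lt_of_le_of_lt (add_le_add (k1 _) (k1 _)) ?_
            rw [← add_mul]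
            rw [h6, card_singleton] at hW
            exact Nat.mul_lt_mul_of_pos_right (by omega) h0)
      obtain ⟨α, hα⟩ := T.exists_act (Subgroup.mem_top g)
      rw [not_or] at k2
      exact ⟨α x0, fun h => k2.1 ⟨_, h, hα x0⟩, α i, fun h => k2.2 ⟨_, h, hα i⟩,
        α.injective.ne (mem_filter.1 hi').2.1, _, hα x0, _, inv_mem (hα i), by group⟩
  rw [h6] at m2
  have h8 : (insert x0 W)ᶜ.card = 2 * (m - k) := by
    rw [card_compl, card_insert_of_notMem (by simpa using m3)]; omega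
  obtain ⟨ν, n1, n2, n3⟩ := match_out hs hi (fun x => (hk x).le) (insert x0 W)ᶜ ⟨m - k, by omega⟩
    (by omega)
  simp only [mem_compl, not_not, mem_insert] at n2
  have k4 : ∀ x ∈ W, μ x ∈ W := fun x hx => by_contra fun h => h (by rwa [← m4 _ h, m1])
  have k5 : ∀ x ∉ W, ν x ∉ W := fun x hx h => hx (by rwa [← n1 x, (n2 _).2 (Or.inr h)])
  have k6 : x0 ∉ W := by simpa using m3
  obtain ⟨η, hη⟩ : ∃ η : X → X, ∀ x, η x = if x ∈ W then μ x else ν x := ⟨_, fun _ => rfl⟩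
  have e1 : ∀ x, η (η x) = x := fun x => by
    by_cases h : x ∈ W
    · simp [hη, h, k4 x h, m1]
    · simp [hη, h, k5 x h, n1]
  have e2 : ∀ x, η x = x ↔ x = x0 := fun x => by
    by_cases h : x ∈ W
    · simp only [hη, if_pos h]
      exact ⟨fun h9 => absurd h9 (m5 x h), fun h9 => absurd (h9 ▸ h) k6⟩
    · simp [hη, h, n2]
  have f2 : ∀ g x y, x ≠ y → ¬ P x y → kk H ((T.t x)⁻¹ * T.t y) g = kk H w g := fun g x y k1 k2 => by
    obtain ⟨a, ha, b, hb, h⟩ := not_not.1 fun h => k2 ⟨k1, h⟩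
    rw [h, kk_mul ha hb]
  obtain ⟨L, l3, l4, l5⟩ := exists_chain (P := fun x y => y = x ∨ P x y) (κ := k + 1)
    (fun x y h => h.imp Eq.symm (hs _ _)) (fun x => by
      rw [← hk x, ← sum_ind_eq x, ← sum_add_distrib]
      refine sum_le_sum fun y _ => ?_
      by_cases e : y = x <;> by_cases e' : P x y <;> simp [e, e', ind_pos, ind_neg])
    e1 e2 (by omega) m hm.ge
  have cov : ∀ {M : Type} [AddCommMonoid M] (F : X → M),
      ∑ x, F x = F x0 + (L.map fun x => F x + F (η x)).sum := fun F => by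
    rw [← eq_univ_of_card (⟨_, l5⟩ : Finset X) (by simp; omega)]
    simp [Finset.sum, List.sum_map_add, Function.comp_def]
  obtain ⟨J, q, l6, l7⟩ := link_list H T.t η (fun x => {T.t x} + {T.t (η x)})
    (fun x => {s(T.t x, T.t (η x))}) (k := kk H w)
    (fun x => by simpa using (Path.single (T.t x)).append (Path.single (T.t (η x))))
    (fun x y h g => by
      rw [not_or] at h
      rw [ke_mk, f2 g _ _ (Ne.symm h.1) h.2])
    L x0 _ _ _ ((Path.single (T.t x0)).congr rfl rfl rfl (by rw [(e2 x0).2 rfl])) l4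
  refine ⟨_, _, _, q, l6, fun g => ?_, fun g => ?_⟩
  · rw [← cov fun x => ({T.t x} : Multiset G), CV_sum, T.sum_ind, ind_pos (Subgroup.mem_top g)]
  have k3 : ∀ L : List X, 2 * KE H (L.map fun x =>
      ({s(T.t x, T.t (η x))} : Multiset (Sym2 G))).sum g = (L.map fun x =>
        kk H ((T.t x)⁻¹ * T.t (η x)) g + kk H ((T.t (η x))⁻¹ * T.t (η (η x))) g).sum := fun L => by
    induction L with
    | nil => simp [KE]
    | cons x L ih =>
      rw [List.map_cons, List.sum_cons, Multiset.singleton_add, KE_cons, mul_add, ih, List.map_cons,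
        List.sum_cons, ke_mk, e1, two_mul, ← kk_inv H ((T.t (η x))⁻¹ * _), mul_inv_rev, inv_inv]
  have k7 := cov fun x => kk H ((T.t x)⁻¹ * T.t (η x)) g
  rw [← k3, ← sum_add_sum_compl (insert x0 W), sum_insert k6, add_assoc, add_right_inj,
    sum_congr rfl (g := fun x => kk H ((T.t x)⁻¹ * T.t (μ x)) g) fun x hx => by rw [hη, if_pos hx],
    m6 (fun x y => kk H ((T.t x)⁻¹ * T.t y) g) (fun i => kk H ((T.t x0)⁻¹ * T.t i) g)
      fun i x y ⟨_, a, ha, b, hb, h⟩ => ⟨by rw [h, kk_mul ha hb], by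
        rw [← kk_inv, mul_inv_rev, inv_inv, h, kk_mul ha hb]⟩,
    sum_congr rfl (s₁ := (insert x0 W)ᶜ) (g := fun _ => kk H w g) fun x hx => by
      rw [mem_compl, mem_insert] at hx
      rw [hη, if_neg fun h => hx (Or.inr h)]
      exact f2 g _ _ (fun h => hx ((n2 x).1 h.symm)) (n3 x), sum_const, h8, smul_eq_mul] at k7
  have k8 := T.sum_erase x0 g
  have k9 : univ.filter (P x0) ⊆ univ.erase x0 := fun y hy =>
    mem_erase.2 ⟨(mem_filter.1 hy).2.1.symm, mem_univ _⟩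
  rw [← sum_sdiff k9, sum_congr rfl (g := fun _ => kk H w g) fun y hy => by
      rw [mem_sdiff, mem_erase, mem_filter] at hy
      exact f2 g _ _ hy.1.1.symm fun h => hy.2 ⟨mem_univ _, h⟩, sum_const, card_sdiff_of_subset k9,
    h6, card_erase_of_mem (mem_univ _), card_univ, hm, smul_eq_mul,
    ind_congr (and_iff_right (Subgroup.mem_top g))] at k8
  obtain ⟨r, rfl⟩ : ∃ r, m = k + r := ⟨m - k, by omega⟩
  rw [show 2 * (k + r) + 1 - 1 - k = k + 2 * r by omega] at k8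
  rw [Nat.add_sub_cancel_left] at k7
  rw [zero_add, KE_add, l7, l3]
  nlinarith

end Pool.Agent.Lib.MP_0becda_co.Coset
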