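import Pool.Agent.Lib.MP_0becda_co.Coset.Big

/-!
Descent through doubly transitive steps in a group with a normal Sylow subgroup.
-/

set_option linter.unusedSectionVars false

open Finset Pool.Agent.Lib.MP_0becda_co.PSL

namespace Pool.Agent.Lib.MP_0becda_co.Coset

variable {G : Type} [Group G] [Fintype G]

theorem ct_doubly {H K V : Subgroup G} (hle : H ≤ K) (hV : V ≤ K)
    (hn : ∀ k ∈ K, ∀ v ∈ V, k * v * k⁻¹ ∈ V) (h2 : IsPGroup 2 V) (ho : Odd (V.relIndex K))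
    (hi : H.relIndex K ≠ 2)
    (ht : ∀ x ∈ K, x ∉ H → ∀ y ∈ K, y ∉ H → ∃ a ∈ H, ∃ b ∈ H, y = a * x * b) (h : CT K) : CT H := by
  classical
  by_cases hK : K ≤ H
  · rwa [le_antisymm hle hK]
  have : (V.subgroupOf K).Normal := ⟨fun v hv k => hn k k.2 v hv⟩
  have mx : ∀ L : Subgroup G, H ≤ L → ∀ x ∈ K, x ∈ L → x ∉ H → K ≤ L := fun L h1 x h3 h4 h5 y hy => by
    by_cases h6 : y ∈ H
    · exact h1 h6
    · obtain ⟨a, ha, b, hb, rfl⟩ := ht x h3 h5 y hy h6
      exact mul_mem (mul_mem (h1 ha) h4) (h1 hb)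
  obtain ⟨v0, v1, v2⟩ : ∃ v ∈ V, v ∉ H := by
    by_contra h1
    obtain ⟨x, h3, h4⟩ := SetLike.not_le_iff_exists.1 hK
    obtain ⟨a, ha, b, hb, h5⟩ := ht x h3 h4 x⁻¹ (inv_mem h3) (mt inv_mem_iff.1 h4)
    obtain ⟨j, hj⟩ := ho
    have h6 : (x * a) ^ (2 * j + 1) ∈ V :=
      hj ▸ (V.subgroupOf K).pow_index_mem ⟨x * a, mul_mem h3 (hle ha)⟩
    have h7 : (x * a) ^ 2 ∈ H := by
      rw [show (x * a) ^ 2 = x * (a * x * b) * (b⁻¹ * a) by rw [pow_two]; group, ← h5,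
        mul_inv_cancel, one_mul]
      exact mul_mem (inv_mem hb) ha
    rw [pow_succ, pow_mul] at h6
    exact h4 ((H.mul_mem_cancel_right ha).1 ((H.mul_mem_cancel_left (pow_mem h7 j)).1
      (by_contra fun h8 => h1 ⟨_, h6, h8⟩)))
  have vh : ∀ g ∈ K, ∃ v ∈ V, v⁻¹ * g ∈ H := fun g hg => (mx (subOf
    { carrier := {g | g ∈ K ∧ ∃ v ∈ V, v⁻¹ * g ∈ H}
      one_mem' := ⟨one_mem _, 1, one_mem _, by simp [one_mem]⟩
      mul_mem' := fun {g g'} ⟨h1, v, h3, h4⟩ ⟨h5, v', h6, h7⟩ => ⟨mul_mem h1 h5,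
        v * (v⁻¹ * g * v' * (v⁻¹ * g)⁻¹), mul_mem h3 (hn _ (hle h4) _ h6), by
          rw [show (v * (v⁻¹ * g * v' * (v⁻¹ * g)⁻¹))⁻¹ * (g * g') = v⁻¹ * g * (v'⁻¹ * g') by group]
          exact mul_mem h4 h7⟩ })
    (fun g hg => ⟨hle hg, 1, one_mem _, by simpa using hg⟩) v0 (hV v1)
    ⟨hV v1, v0, v1, by simp [one_mem]⟩ v2 hg).2
  have hN : ∀ g ∈ K, ∀ s ∈ V, s ∈ H → g * s * g⁻¹ ∈ H := by
    have := h2.isNilpotent
    obtain ⟨u, u1, u2⟩ := SetLike.exists_of_lt (Group.normalizerCondition_of_isNilpotent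
      (H.subgroupOf V) (lt_top_iff_ne_top.2 fun h => v2 (Subgroup.subgroupOf_eq_top.1 h v1)))
    exact fun g hg => (mx (subOf
      { carrier := {g | g ∈ K ∧ ∀ s ∈ V, s ∈ H → g * s * g⁻¹ ∈ H}
        one_mem' := ⟨one_mem _, fun s _ h => by simpa using h⟩
        mul_mem' := fun {g g'} h1 h3 => ⟨mul_mem h1.1 h3.1, fun s h4 h5 => by
          simpa [mul_assoc] using h1.2 _ (hn _ h3.1 s h4) (h3.2 s h4 h5)⟩ })
      (fun g hg => ⟨hle hg, fun s _ h => mul_mem (mul_mem hg h) (inv_mem hg)⟩) u (hV u.2)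
      ⟨hV u.2, fun s h1 h3 => (Subgroup.mem_normalizer_iff.1 u1 ⟨s, h1⟩).1 h3⟩ u2 hg).2
  obtain ⟨u, u1, u2, u3⟩ : ∃ u ∈ V, u ∉ H ∧ u * u ∈ H := by
    obtain ⟨k, hk⟩ := h2 ⟨v0, v1⟩
    have h3 : v0 ^ 2 ^ k = 1 := congrArg Subtype.val hk
    clear hk
    induction k generalizing v0 with
    | zero => exact absurd ((by simpa using h3 : v0 = 1) ▸ one_mem H) v2
    | succ k ih =>
      by_cases h4 : v0 * v0 ∈ H
      · exact ⟨v0, v1, v2, h4⟩
      · exact ih _ (mul_mem v1 v1) h4 (by rwa [← pow_two, ← pow_mul, ← pow_succ'])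
  have sq : ∀ v ∈ V, v * v ∈ H := fun v hv => by
    by_cases h3 : v ∈ H
    · exact mul_mem h3 h3
    obtain ⟨a, ha, b, hb, rfl⟩ := ht u (hV u1) u2 v (hV hv) h3
    have h4 := hn a (hle ha) u u1
    have h5 : a * b ∈ V := by simpa [mul_assoc] using mul_mem (inv_mem h4) hv
    have := mul_mem (mul_mem (hN _ (hV h4) _ h5 (mul_mem ha hb))
      (mul_mem (mul_mem ha u3) (inv_mem ha))) (mul_mem ha hb)
    simpa [mul_assoc] using this
  have : (H.subgroupOf V).Normal := ⟨fun s hs g => hN g (hV g.2) s s.2 hs⟩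
  have q1 : ∀ q : V ⧸ H.subgroupOf V, q * q = 1 := fun q => by
    obtain ⟨v, rfl⟩ := QuotientGroup.mk_surjective q
    exact (QuotientGroup.eq_one_iff (v * v)).2 (sq v v.2)
  let _ : CommGroup (V ⧸ H.subgroupOf V) :=
    { (inferInstance : Group (V ⧸ H.subgroupOf V)) with mul_comm := comm_of_sq q1 }
  let _ : Module (ZMod 2) (Additive (V ⧸ H.subgroupOf V)) :=
    AddCommGroup.zmodModule fun x => (two_nsmul x).trans (q1 x.toMul)
  let _ := Fintype.ofFinite (Additive (V ⧸ H.subgroupOf V))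
  have key : ∀ u v : V, (u : G)⁻¹ * v ∈ H ↔ (u : V ⧸ H.subgroupOf V) = v :=
    fun u v => (QuotientGroup.eq (s := H.subgroupOf V)).symm
  let T : TV H K (Additive (V ⧸ H.subgroupOf V)) :=
    { t := fun x => (x.toMul.out : V)
      le := hle
      mem := fun x => hV (Subtype.prop _)
      ex := fun g hg => by
        obtain ⟨v, h3, h4⟩ := vh g hg
        refine ⟨Additive.ofMul ((⟨v, h3⟩ : V) : V ⧸ H.subgroupOf V), ?_⟩
        simpa [mul_assoc] using mul_mem ((key _ ⟨v, h3⟩).2 (QuotientGroup.out_eq' _)) h4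
      uniq := fun x y h => by
        have := (key _ _).1 h
        rwa [QuotientGroup.out_eq', QuotientGroup.out_eq'] at this }
  have h3 : Fintype.card (Additive (V ⧸ H.subgroupOf V)) = H.relIndex K :=
    Nat.eq_of_mul_eq_mul_right (cd_pos H) (by
      rw [T.card_mul, cd_eq, cd_eq, ← (H.subgroupOf K).card_mul_index, mul_comm,
        Nat.card_congr (Subgroup.subgroupOfEquivOfLe hle).toEquiv]
      rfl)
  have h7 : 2 ≤ Module.finrank (ZMod 2) (Additive (V ⧸ H.subgroupOf V)) := by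
    rw [Module.card_eq_pow_finrank (K := ZMod 2), ZMod.card] at h3
    by_contra h4
    have h5 := mt Subgroup.relIndex_eq_one.1 hK
    rw [← h3] at hi h5
    rcases (by omega : Module.finrank (ZMod 2) (Additive (V ⧸ H.subgroupOf V)) = 0 ∨
      Module.finrank (ZMod 2) (Additive (V ⧸ H.subgroupOf V)) = 1) with h | h <;> simp [h] at hi h5
  refine T.step_free (fun x y x' y' h8 h9 g => ?_) (fun d _ N hN => T.bal_affine 2
    (fun _ _ => Subgroup.mem_top _) (exists_diff h7) (Nat.coprime_two_right.2 ho)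
    (QuotientGroup.mk' (V.subgroupOf K)) (fun k hk => ?_) hN) h
  · obtain ⟨a, ha, b, hb, h⟩ := ht _ (mul_mem (inv_mem (T.mem x')) (T.mem y')) (mt (T.uniq _ _) h9)
      _ (mul_mem (inv_mem (T.mem x)) (T.mem y)) (mt (T.uniq _ _) h8)
    rw [h, kk_mul ha hb]
  · have h8 : (k : G) ∈ V := (QuotientGroup.eq_one_iff k).1 hk
    refine ⟨Additive.ofMul ((⟨k, h8⟩ : V) : V ⧸ H.subgroupOf V), k.2, fun x => ?_⟩
    rw [mul_assoc]
    refine (key _ (⟨k, h8⟩ * x.toMul.out)).2 ?_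
    rw [QuotientGroup.mk_mul, QuotientGroup.out_eq', QuotientGroup.out_eq']
    exact mul_comm _ _

theorem ter_big (r : ℕ) (K : ℕ → Subgroup G) (w : G) (ho : Odd (K 0).index)
    (hw : 3 * Nat.card G < 4 * Nat.card {g : G // ∃ a ∈ K 0, ∃ b ∈ K 0, g = a * w * b})
    (P : Sylow 2 (K 0)) (hP : (P : Subgroup (K 0)).Normal)
    (hs : ∀ i < r, K (i + 1) ≤ K i ∧ (K (i + 1)).relIndex (K i) ≠ 2 ∧ ∀ x ∈ K i, x ∉ K (i + 1) →
      ∀ y ∈ K i, y ∉ K (i + 1) → ∃ a ∈ K (i + 1), ∃ b ∈ K (i + 1), y = a * x * b)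
    (h1 : Odd (Nat.card (K r))) (h2 : Group.IsSolvable (K r)) : Ter G := by
  have key : ∀ i, i ≤ r → K i ≤ K 0 ∧ CT (K i) := fun i => by
    induction i with
    | zero => exact fun _ => ⟨le_rfl, ct_big _ w ho hw⟩
    | succ i ih =>
      intro hi
      obtain ⟨k1, k2⟩ := ih (by omega)
      obtain ⟨k3, k4, k5⟩ := hs i hi
      refine ⟨k3.trans k1, ct_doubly (V := (P : Subgroup (K 0)).map (K 0).subtype ⊓ K i) k3
        inf_le_right (fun k hk v hv => ⟨?_, (K i).mul_mem ((K i).mul_mem hk hv.2) ((K i).inv_mem hk)⟩)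
        ((P.isPGroup'.map _).to_le inf_le_left) ?_ k4 k5 k2⟩
      · obtain ⟨⟨u, hu, rfl⟩, -⟩ := hv
        exact ⟨_, hP.conj_mem u hu ⟨k, k1 hk⟩, rfl⟩
      · rw [Subgroup.inf_relIndex_right, ← Subgroup.relIndex_subgroupOf k1,
          show ((P : Subgroup (K 0)).map (K 0).subtype).subgroupOf (K 0) = P from
            Subgroup.comap_map_eq_self_of_injective (K 0).subtype_injective _]
        refine Odd.of_dvd_nat ?_ (Subgroup.relIndex_dvd_index_of_normal _ _)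
        exact Nat.not_even_iff_odd.1 (mt even_iff_two_dvd.1 P.not_dvd_index)
  refine (ct_odd _ (K r) rfl (by rwa [Subgroup.relIndex_bot_left]) bot_le (fun L k1 k2 => ?_)
    (key r le_rfl).2).ter
  have := Group.isSolvable_of_isSolvable_injective (f := Subgroup.inclusion k2)
    (Subgroup.inclusion_injective k2)
  have := (Subgroup.nontrivial_iff_ne_bot L).2 k1.ne'
  rw [bot_sup_eq, ← L.range_subtype, MonoidHom.range_eq_map, ← Subgroup.map_commutator,
    Subgroup.map_subtype_lt_map_subtype]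
  exact Group.IsSolvable.commutator_lt_top_of_nontrivial L

end Pool.Agent.Lib.MP_0becda_co.Coset
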