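import Pool.Agent.Lib.MP_0becda_co.Coset.Orient

/-!
Balanced families from regular bipartite multigraphs.
-/

set_option linter.unusedSectionVars false

open Finset Pool.Agent.Lib.MP_0becda_co.PSL

namespace Pool.Agent.Lib.MP_0becda_co.Coset

theorem sum_ind_mul' {X : Type} [Fintype X] (z : X) (F : X → ℕ) : ∑ c, ind (z = c) * F c = F z := by
  rw [sum_eq_single z (fun c _ h => by rw [ind_neg (Ne.symm h), zero_mul]) (by simp),
    ind_pos rfl, one_mul]

theorem exists_perms {X : Type} [Fintype X] (N : ℕ) : ∀ M : X → X → ℕ, (∀ x, ∑ y, M x y = N) →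
    (∀ y, ∑ x, M x y = N) → ∃ Θ : Multiset (Equiv.Perm X), Multiset.card Θ = N ∧
      ∀ F : X → X → ℕ, (Θ.map fun θ => ∑ x, F x (θ x)).sum = ∑ x, ∑ y, M x y * F x y := by
  classical
  induction N with
  | zero =>
    refine fun M h _ => ⟨0, rfl, fun F => ?_⟩
    simp [fun x y => sum_eq_zero_iff.1 (h x) y (mem_univ _)]
  | succ N ih =>
    intro M h1 h2
    obtain ⟨f, hf, h3⟩ := (all_card_le_biUnion_card_iff_exists_injective
      fun x => univ.filter fun y => M x y ≠ 0).1 fun s => by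
        refine Nat.le_of_mul_le_mul_right ?_ N.succ_pos
        rw [← smul_eq_mul, ← smul_eq_mul, ← sum_const, ← sum_const,
          ← sum_congr rfl fun x _ => h1 x, ← sum_congr rfl fun y _ => h2 y, sum_comm,
          ← sum_subset (subset_univ (s.biUnion fun x => univ.filter fun y => M x y ≠ 0))
            fun y _ hy => sum_eq_zero fun x hx => by_contra fun h =>
              hy (mem_biUnion.2 ⟨x, hx, mem_filter.2 ⟨mem_univ _, h⟩⟩)]
        exact sum_le_sum fun y _ => sum_le_sum_of_subset (subset_univ _)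
    let θ := Equiv.ofBijective f hf.bijective_of_finite
    have h4 : ∀ x y, M x y = ind (θ x = y) + (M x y - ind (θ x = y)) := fun x y => by
      by_cases h : θ x = y
      · have := (mem_filter.1 (h3 x)).2
        rw [show f x = y from h] at this
        rw [ind_pos h]; omega
      · rw [ind_neg h]; omega
    obtain ⟨Θ, h5, h6⟩ := ih (fun x y => M x y - ind (θ x = y)) (fun x => by
      have := h1 x
      rw [sum_congr rfl fun y _ => h4 x y, sum_add_distrib,
        sum_congr rfl fun y _ => ind_congr eq_comm, sum_ind_eq] at this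
      omega) fun y => by
      have := h2 y
      rw [sum_congr rfl fun x _ => h4 x y, sum_add_distrib,
        sum_congr rfl fun x _ => ind_congr θ.eq_symm_apply.symm, sum_ind_eq] at this
      omega
    refine ⟨θ ::ₘ Θ, by simp [h5], fun F => ?_⟩
    rw [Multiset.map_cons, Multiset.sum_cons, h6, ← sum_add_distrib]
    refine sum_congr rfl fun x _ => ?_
    rw [← sum_ind_mul' (θ x) (F x), ← sum_add_distrib]
    exact sum_congr rfl fun y _ => by rw [← add_mul, ← h4]

variable {G : Type} [Group G] [Fintype G]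

theorem TV.bal_fun {H K : Subgroup G} {X Y A : Type} [Fintype X] [Fintype Y] [Fintype A]
    (T : TV H K X) (e : Y × A ≃ X) (φ : Y → Y → A → A)
    (h1 : ∀ y b, ∑ x, ∑ a, ind (φ x y a = b) = Fintype.card Y) {d : G}
    (h2 : ∀ g, Fintype.card A * ∑ x, ∑ y, ∑ a, kk H ((T.t (e (x, a)))⁻¹ * d * T.t (e (y, φ x y a))) g
      = ∑ x, ∑ y, ∑ a, ∑ b, kk H ((T.t (e (x, a)))⁻¹ * d * T.t (e (y, b))) g) :
    T.Bal ⊤ d (Fintype.card Y) := by
  obtain ⟨Θ, h3, h4⟩ := exists_perms (Fintype.card Y)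
    (fun p q => ind (φ (e.symm p).1 (e.symm q).1 (e.symm p).2 = (e.symm q).2))
    (fun p => by
      rw [← e.sum_comp, Fintype.sum_prod_type]
      simp only [Equiv.symm_apply_apply, ind_congr eq_comm (q := _ = φ _ _ _), sum_ind_eq]
      simp)
    fun q => by
      rw [← e.sum_comp, Fintype.sum_prod_type]
      simp only [Equiv.symm_apply_apply, h1]
  refine ⟨Θ, h3, fun _ _ => Subgroup.mem_top _, fun g => ?_⟩
  rw [h4 fun x y => kk H ((T.t x)⁻¹ * d * T.t y) g, ← T.sum_kk, ← Fintype.card_congr e,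
    Fintype.card_prod, mul_assoc]
  congr 1
  simp only [← e.sum_comp, Fintype.sum_prod_type, Equiv.symm_apply_apply, sum_ind_mul']
  rw [sum_congr rfl fun x _ => sum_comm, h2]
  exact sum_congr rfl fun x _ => sum_comm

variable {h : ℕ} [NeZero h]

theorem sum_three {Y : Type} [Fintype Y] {S S' : Finset Y} (h1 : Disjoint S S')
    (h2 : S'.card = S.card) {w : Y → ℕ} {p q : ℕ} (h3 : ∀ x ∈ S, w x = p) (h4 : ∀ x ∈ S', w x = q)
    (h5 : ∀ x, x ∉ S → x ∉ S' → w x = 1) (h6 : p + q = 2) : ∑ x, w x = Fintype.card Y := by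
  classical
  have k7 := card_sdiff_add_card_eq_card (subset_univ (S ∪ S'))
  rw [card_union_of_disjoint h1, h2, card_univ] at k7
  rw [← sum_sdiff (subset_univ (S ∪ S')), sum_union h1, ← k7,
    sum_congr rfl (g := fun _ => 1) fun x hx => by
      rw [mem_sdiff, mem_union, not_or] at hx
      exact h5 x hx.2.1 hx.2.2, sum_congr rfl h3, sum_congr rfl h4]
  simp only [sum_const, smul_eq_mul, h2]
  rw [← mul_add, h6]
  ring

theorem TV.bal_special {H K : Subgroup G} {X Y : Type} [Fintype X] [Fintype Y]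
    (T : TV H K X) (e : Y × ZMod (2 * h) ≃ X) (L R : Y → Prop) (j : Y → Y)
    (hj : ∀ x, L x → ¬ L (j x)) (hj' : ∀ x x', L x → L x' → j x = j x' → x = x')
    (h0 : Even (Fintype.card Y) ∨ ∃ x, L x) {d : G}
    (h1 : ∀ x y a b g, L x → R y → kk H ((T.t (e (x, a)))⁻¹ * d * T.t (e (y, b))) g
      = kk H ((T.t (e (x, 0)))⁻¹ * d * T.t (e (y, a + b))) g)
    (h2 : ∀ x y a b g, (L x ↔ ¬ R y) → kk H ((T.t (e (x, a)))⁻¹ * d * T.t (e (y, b))) g
      = kk H ((T.t (e (x, 0)))⁻¹ * d * T.t (e (y, 0))) g)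
    (h3 : ∀ x y a b c g, ¬ L x → ¬ R y → kk H ((T.t (e (x, a)))⁻¹ * d * T.t (e (y, b))) g
      = kk H ((T.t (e (x, 0)))⁻¹ * d * T.t (e (y, a + b + 2 * c))) g) :
    T.Bal ⊤ d (Fintype.card Y) := by
  classical
  obtain ⟨π, hπ0, hπ⟩ := exists_near (h := h)
  let S := univ.filter L
  let φ : ZMod (2 * h) → ZMod (2 * h) := fun a => if a = 0 then h else π (-a)
  let ψ : ZMod (2 * h) → ZMod (2 * h) := fun a => if a = h then 0 else a
  have k1 : ∀ F : ZMod (2 * h) → ZMod (2 * h) → ℕ,
      ∑ a, F a (φ a) + F 0 0 = ∑ a, F a (π (-a)) + F 0 h := fun F => by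
    rw [← add_sum_erase _ _ (mem_univ 0), ← add_sum_erase _ (fun a => F a (π (-a))) (mem_univ 0),
      sum_congr rfl (g := fun a => F a (π (-a))) fun a ha => by simp [φ, (mem_erase.1 ha).1]]
    simp [φ, hπ0]; ring
  have k2 : ∀ F : ZMod (2 * h) → ℕ, ∑ a, F (ψ a) + F h = ∑ a, F a + F 0 := fun F => by
    rw [← add_sum_erase _ _ (mem_univ (h : ZMod (2 * h))),
      ← add_sum_erase _ F (mem_univ (h : ZMod (2 * h))),
      sum_congr rfl (g := F) fun a ha => by simp [ψ, (mem_erase.1 ha).1]]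
    simp [ψ]; ring
  obtain ⟨U, ⟨r, hr⟩, hU⟩ : ∃ U : Finset Y, Even U.card ∧ ∀ x ∉ U, L x := by
    by_cases h4 : Even (Fintype.card Y)
    · exact ⟨univ, h4, by simp⟩
    · obtain ⟨x, hx⟩ := h0.resolve_left h4
      refine ⟨univ.erase x, ?_, by simpa using hx⟩
      rw [card_erase_of_mem (mem_univ _)]
      exact Nat.Odd.sub_odd (Nat.not_even_iff_odd.1 h4) odd_one
  obtain ⟨S1, hS1, hc⟩ := exists_subset_card_eq (s := U) (n := r) (by omega)
  refine T.bal_fun e (fun x y => if R y then if x ∈ S then φ else if x ∈ S.image j then ψ else id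
    else if x ∈ S1 then fun a => 2 * a + 0 else if x ∈ U then fun a => 2 * a + 1 else id)
    (fun y b => ?_) fun g => ?_
  · by_cases hy : R y
    swap
    · have k3 : ∀ w, ∑ a : ZMod (2 * h), ind (2 * a + w = b)
          = 2 * ∑ j : ZMod h, ind (2 * lo j + w = b) := fun w => by
        rw [← sum_lo, mul_sum]
        exact sum_congr rfl fun j _ => by
          rw [mul_add, two_mul (h : ZMod (2 * h)), h_add_h, add_zero, two_mul (ind _)]
      have k4 := sum_two_mul (h := h) fun c => ind (c = b)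
      refine sum_three (S := S1) (S' := U \ S1) disjoint_sdiff
        (by rw [card_sdiff_of_subset hS1]; omega) (fun x hx => (by simp only [if_neg hy, if_pos hx] :
          _ = ∑ a, ind (2 * a + 0 = b))) (fun x hx => (by
            simp only [if_neg hy, if_neg (mem_sdiff.1 hx).2, if_pos (mem_sdiff.1 hx).1] :
          _ = ∑ a, ind (2 * a + 1 = b))) (fun x h4 h5 => ?_) ?_
      · have h6 : x ∉ U := fun h6 => h5 (mem_sdiff.2 ⟨h6, h4⟩)
        simp [hy, h4, h6, sum_ind_eq]
      · rw [k3, k3, ← mul_add]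
        simp only [add_zero]
        rw [k4, sum_ind_eq]
    have k3 := k1 fun _ c => ind (c = b)
    have k4 := k2 fun c => ind (c = b)
    rw [show ∑ a, ind (π (-a) = b) = ∑ c, ind (c = b) from
      Equiv.sum_comp ((Equiv.neg _).trans π) fun c => ind (c = b)] at k3
    rw [sum_ind_eq] at k3 k4
    have k5 : Disjoint S (S.image j) := disjoint_left.2 fun x hx hx' => by
      obtain ⟨x', h3, rfl⟩ := mem_image.1 hx'
      exact hj x' (mem_filter.1 h3).2 (mem_filter.1 hx).2
    exact sum_three k5 (card_image_of_injOn fun x hx x' hx' =>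
      hj' x x' (mem_filter.1 hx).2 (mem_filter.1 hx').2) (p := ∑ a, ind (φ a = b))
      (q := ∑ a, ind (ψ a = b)) (fun x hx => by simp [hy, hx]) (fun x hx => by
        simp only [if_pos hy, if_neg (disjoint_right.1 k5 hx), if_pos hx])
      (fun x h4 h5 => by simp [hy, h4, h5, sum_ind_eq]) (by omega)
  · rw [mul_sum]
    refine sum_congr rfl fun x _ => ?_
    rw [mul_sum]
    refine sum_congr rfl fun y _ => ?_
    by_cases hc : L x ↔ ¬ R y
    · obtain ⟨F, hF⟩ : ∃ F : ℕ, ∀ a b, kk H ((T.t (e (x, a)))⁻¹ * d * T.t (e (y, b))) g = F :=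
        ⟨_, fun a b => h2 x y a b g hc⟩
      simp [hF]
    have k6 : ∀ (F : ZMod (2 * h) → ℕ) a, ∑ c, F (a + c) = ∑ c, F c :=
      fun F a => Equiv.sum_comp (Equiv.addLeft a) F
    by_cases hy : R y
    · have hx : L x := by tauto
      obtain ⟨F, hF⟩ : ∃ F : ZMod (2 * h) → ℕ,
          ∀ a b, kk H ((T.t (e (x, a)))⁻¹ * d * T.t (e (y, b))) g = F (a + b) :=
        ⟨fun c => kk H ((T.t (e (x, 0)))⁻¹ * d * T.t (e (y, c))) g,
          fun a b => h1 x y a b g hx hy⟩
      have k3 := k1 fun a c => F (a + c)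
      have k4 := hπ F
      rw [← Equiv.sum_comp (Equiv.neg _)] at k4
      simp only [Equiv.neg_apply, sub_neg_eq_add, add_comm (π _)] at k4
      simp only [zero_add] at k3
      have k5 : x ∈ S := mem_filter.2 ⟨mem_univ x, hx⟩
      simp only [hF, if_pos hy, if_pos k5, k6]
      rw [sum_const, smul_eq_mul, card_univ]
      congr 1
      omega
    · have hx : ¬ L x := by tauto
      obtain ⟨F, hF⟩ : ∃ F : ZMod (2 * h) → ℕ, ∀ a b c,
          kk H ((T.t (e (x, a)))⁻¹ * d * T.t (e (y, b))) g = F (a + b + 2 * c) :=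
        ⟨fun c => kk H ((T.t (e (x, 0)))⁻¹ * d * T.t (e (y, c))) g,
          fun a b c => h3 x y a b c g hx hy⟩
      have k3 : ∀ w, ∑ a, kk H ((T.t (e (x, a)))⁻¹ * d * T.t (e (y, 2 * a + w))) g = ∑ c, F c :=
        fun w => (sum_congr rfl fun a _ => (hF a _ (-a)).trans (by congr 1; ring)).trans (k6 F w)
      have k5 : x ∈ U := by_contra fun h => hx (hU x h)
      rw [sum_congr rfl (g := fun _ => ∑ c, F c) (f := fun a => ∑ b, _) fun a _ =>
        (sum_congr rfl fun b _ => (hF a b 0).trans (by rw [mul_zero, add_zero])).trans (k6 F a),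
        sum_const, smul_eq_mul, card_univ]
      congr 1
      by_cases k4 : x ∈ S1
      · simp only [if_neg hy, if_pos k4, k3]
      · simp only [if_neg hy, if_neg k4, if_pos k5, k3]

end Pool.Agent.Lib.MP_0becda_co.Coset
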