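import Pool.Agent.Lib.MP_0becda_co.Coset.OddQ

/-!
The ends of the chain in odd characteristic.
-/

set_option linter.unusedSectionVars false

open Finset Matrix Pool.Agent.Lib.MP_0becda_co.PSL
open scoped commutatorElement

namespace Pool.Agent.Lib.MP_0becda_co.Coset

variable {G : Type} [Group G] [Fintype G] {F : Type} [Field F] {n : ℕ}
  {ρ : G →* Matrix (Fin n) (Fin n) F} {D : Subgroup G} {C : Subgroup Fˣ}

theorem pm_succ {m : ℕ} {g : G} (hg : g ∈ Pm ρ m)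
    (h : ∀ i j : Fin n, i < j → j.val * n + i.val = m → ρ g i j = 0) : g ∈ Pm ρ (m + 1) :=
  fun a b h1 => by
    by_cases h2 : a < b ∧ b.val * n + a.val = m
    · exact h a b h2.1 h2.2
    · exact hg a b (h1.imp_right fun h3 => ⟨h3.1, by have := not_and.1 h2 h3.1; omega⟩)

theorem pm_last (hρ : Function.Injective ρ) {g : G} (hg : g ∈ Pm ρ (n * n))
    (h : ∀ a, ρ g a a = 1) : g = 1 := hρ (by
  ext a b
  rw [map_one]
  rcases lt_trichotomy a b with h1 | rfl | h1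
  · have := Nat.mul_le_mul_right n (Nat.succ_le_of_lt b.2)
    rw [one_apply_ne h1.ne, hg a b (Or.inr ⟨h1, by
      rw [Nat.succ_mul] at this; have := a.2; omega⟩)]
  · rw [h, one_apply_eq]
  · rw [one_apply_ne h1.ne', hg a b (Or.inl h1)])

theorem ct_bottom (hρ : Function.Injective ρ) (h2 : (2 : F) ≠ 0) (hC : -1 ∉ C)
    (hdet : ∀ g ∈ D, ∃ c ∈ C, (ρ g).det = (c : F)) (Z : Subgroup G) (hZ : Z ≤ Subgroup.center G)
    (h : CT (Kr ρ D C (n - 1) ⊔ Z)) : CT Z := by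
  classical
  have hN : Z.Normal := ⟨fun z hz g => by
    rwa [Subgroup.mem_center_iff.1 (hZ hz) g, mul_inv_cancel_right]⟩
  have h0 : Kr ρ D C (n - 1) ≤ Pm ρ 0 := fun g hg => pm_zero (ρ := ρ) ▸ ⟨trivial,
    fun i hi => ⟨(hg.2 i hi).1.imp fun _ h => ⟨Subgroup.mem_top _, h.2⟩, (hg.2 i hi).2⟩⟩
  have h1 : ∀ g (hg : g ∈ Kr ρ D C (n - 1)), ∀ a, dg ρ 0 ⟨g, h0 hg⟩ a ∈ C := fun g hg a => by
    have h3 : ∀ b : Fin n, b.val < n - 1 → dg ρ 0 ⟨g, h0 hg⟩ b ∈ C := fun b hb => by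
      obtain ⟨c, hc, h3⟩ := (hg.2 b hb).1
      rwa [show dg ρ 0 ⟨g, h0 hg⟩ b = c from Units.ext h3]
    by_cases ha : a.val < n - 1
    · exact h3 a ha
    obtain ⟨c, hc, h4⟩ := hdet g hg.1
    have h5 : ∏ b, dg ρ 0 ⟨g, h0 hg⟩ b = c := Units.ext (by
      rw [← h4, det_of_isUpperTriangular fun a b h => h0 hg a b (Or.inl h), Units.coe_prod]; rfl)
    rw [← mul_prod_erase _ _ (mem_univ a)] at h5
    refine (C.mul_mem_cancel_right (prod_mem fun b hb => h3 b ?_)).1 (h5 ▸ hc)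
    have := b.2
    have := a.2
    have := Fin.val_ne_of_ne (mem_erase.1 hb).1
    omega
  have h3 : Odd (Nat.card (Kr ρ D C (n - 1))) := by
    rw [← Nat.not_even_iff_odd, even_iff_two_dvd]
    intro h3
    obtain ⟨⟨g, hg⟩, h4⟩ := exists_prime_orderOf_dvd_card' 2 h3
    have h5 : g * g = 1 := by
      have := congrArg Subtype.val (pow_orderOf_eq_one (⟨g, hg⟩ : Kr ρ D C (n - 1)))
      rwa [h4, pow_two] at this
    have h6 : ∀ a, ρ g a a = 1 := fun a => by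
      have h6 := Up.mul_diag (h0 hg) (h0 hg) a
      rw [← map_mul, h5, map_one, one_apply_eq] at h6
      refine (mul_self_eq_one_iff.1 h6.symm).resolve_right fun h7 => hC ?_
      exact (show dg ρ 0 ⟨g, h0 hg⟩ a = -1 from Units.ext h7) ▸ h1 g hg a
    have h7 : ∀ m, g ∈ Pm ρ m := fun m => by
      induction m with
      | zero => exact h0 hg
      | succ m ih =>
        refine pm_succ ih fun i j h7 h8 => ?_
        have h9 := Up.mul_entry ih ih h7 h8.le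
        rw [← map_mul, h5, map_one, one_apply_ne h7.ne, h6, h6, one_mul, mul_one, ← two_mul] at h9
        exact (mul_eq_zero.1 h9.symm).resolve_left h2
    obtain rfl := pm_last hρ (h7 _) h6
    rw [show (⟨1, hg⟩ : Kr ρ D C (n - 1)) = 1 from rfl, orderOf_one] at h4
    omega
  refine ct_odd _ _ rfl (h3.of_dvd_nat (by
    rw [Subgroup.relIndex_sup_right]; exact Subgroup.relIndex_dvd_card _ _)) le_sup_right
    (fun L k1 k2 => ?_) h
  refine lt_of_le_of_ne (sup_le k1.le (Subgroup.commutator_le_self L)) fun k3 => k1.not_ge ?_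
  have key : ∀ A B : Subgroup G, L ≤ A ⊔ Z → (∀ x ∈ A, ∀ y ∈ A, ⁅x, y⁆ ∈ B) → L ≤ B ⊔ Z :=
    fun A B k4 k5 => k3 ▸ sup_le le_sup_right (Subgroup.commutator_le.2 fun x hx y hy => by
      obtain ⟨a, ha, z, hz, rfl⟩ := Subgroup.mem_sup_of_normal_right.1 (k4 hx)
      obtain ⟨b, hb, w, hw, rfl⟩ := Subgroup.mem_sup_of_normal_right.1 (k4 hy)
      refine Subgroup.mem_sup_left (?_ : ⁅a * z, b * w⁆ ∈ B)
      have e1 := Subgroup.mem_center_iff.1 (hZ hz)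
      have e2 := Subgroup.mem_center_iff.1 (hZ hw)
      rw [show ⁅a * z, b * w⁆ = ⁅a, b⁆ by
        rw [commutatorElement_def, commutatorElement_def, mul_assoc a z, ← e1, ← mul_assoc,
          _root_.mul_inv_rev, _root_.mul_inv_rev, mul_assoc _ z, mul_inv_cancel_left,
          ← mul_assoc a, mul_assoc _ w, ← e2, ← mul_assoc, ← mul_assoc, mul_inv_cancel_right]]
      exact k5 a ha b hb)
  let U : ℕ → Subgroup G := fun m => (dg ρ m).ker.map (Pm ρ m).subtype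
  have hU : ∀ m g, g ∈ U m ↔ g ∈ Pm ρ m ∧ ∀ a, ρ g a a = 1 := fun m g =>
    ⟨fun ⟨k, h, e⟩ => e ▸ ⟨k.2, fun a => congrArg Units.val (congrFun h a)⟩,
      fun h => ⟨⟨g, h.1⟩, funext fun a => Units.ext (h.2 a), rfl⟩⟩
  have k4 : ∀ m, L ≤ U m ⊔ Z := fun m => by
    induction m with
    | zero =>
      refine key _ _ k2 fun x hx y hy => ⟨⁅(⟨x, h0 hx⟩ : Pm ρ 0), (⟨y, h0 hy⟩ : Pm ρ 0)⁆, ?_, rfl⟩
      rw [SetLike.mem_coe, MonoidHom.mem_ker, map_commutatorElement,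
        commutatorElement_eq_one_iff_mul_comm, mul_comm]
    | succ m ih =>
      refine key _ _ ih fun x hx y hy => ?_
      have k4 : ⁅x, y⁆ ∈ U m := mul_mem (mul_mem (mul_mem hx hy) (inv_mem hx)) (inv_mem hy)
      refine (hU _ _).2 ⟨pm_succ ((hU _ _).1 k4).1 fun i j k5 k6 => ?_, ((hU _ _).1 k4).2⟩
      have k7 : ∀ u ∈ U m, ∀ v ∈ U m, ρ (u * v) i j = ρ u i j + ρ v i j := fun u hu v hv => by
        rw [map_mul, Up.mul_entry ((hU _ _).1 hu).1 ((hU _ _).1 hv).1 k5 k6.le, ((hU _ _).1 hu).2,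
          ((hU _ _).1 hv).2, one_mul, mul_one, add_comm]
      have k8 := k7 _ k4 _ (mul_mem hy hx)
      rw [show ⁅x, y⁆ * (y * x) = x * y by rw [commutatorElement_def]; group, k7 x hx y hy,
        k7 y hy x hx] at k8
      linear_combination -k8
  exact (k4 (n * n)).trans (sup_le (fun g hg => pm_last hρ ((hU _ _).1 hg).1 ((hU _ _).1 hg).2 ▸
    one_mem Z) le_rfl)

theorem exists_lg [Finite F] {M : Subgroup Fˣ} (hC : ∀ u : Fˣ, ∃ k, u ^ 2 ^ k ∈ C) (hM : ¬ M ≤ C) :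
    ∃ h : ℕ, ∃ _ : NeZero h, ∃ lg : M →* Multiplicative (ZMod (2 * h)), Function.Surjective lg ∧
      ∀ u, lg u = 1 ↔ (u : Fˣ) ∈ C := by
  have h1 : IsPGroup 2 (M ⧸ C.subgroupOf M) := fun q => by
    obtain ⟨u, rfl⟩ := QuotientGroup.mk_surjective q
    obtain ⟨k, hk⟩ := hC u
    exact ⟨k, (QuotientGroup.eq_one_iff (u ^ 2 ^ k)).2 hk⟩
  obtain ⟨k, hk⟩ := IsPGroup.iff_card.1 h1
  obtain _ | k := k
  · exact absurd (Subgroup.subgroupOf_eq_top.1 (Subgroup.index_eq_one.1 hk)) hM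
  have : IsCyclic (M ⧸ C.subgroupOf M) :=
    isCyclic_of_surjective _ (QuotientGroup.mk'_surjective _)
  let e : M ⧸ C.subgroupOf M ≃* Multiplicative (ZMod (2 * 2 ^ k)) :=
    mulEquivOfCyclicCardEq (by rw [hk, pow_succ']; simp)
  exact ⟨2 ^ k, inferInstance, e.toMonoidHom.comp (QuotientGroup.mk' _),
    e.surjective.comp (QuotientGroup.mk'_surjective _), fun u => by
      simp [Subgroup.mem_subgroupOf]⟩

theorem exists_lg' [Finite F] (hC : ∀ u : Fˣ, ∃ k, u ^ 2 ^ k ∈ C) (hM : C ≠ ⊤) :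
    ∃ h : ℕ, ∃ _ : NeZero h, ∃ lg : Fˣ →* Multiplicative (ZMod (2 * h)), Function.Surjective lg ∧
      ∀ u, lg u = 1 ↔ u ∈ C := by
  obtain ⟨h, _, lg, h1, h2⟩ := exists_lg (M := ⊤) hC fun h => hM (top_le_iff.1 h)
  exact ⟨h, inferInstance, lg.comp ((MonoidHom.id Fˣ).codRestrict ⊤ fun _ => trivial),
    fun a => (h1 a).elim fun u hu => ⟨u.1, hu⟩, fun u => h2 _⟩

theorem ct_step [D.Normal] [Fintype F] (hF2 : Odd (Fintype.card F))
    (hSL : ∀ M : Matrix (Fin n) (Fin n) F, M.det = 1 → ∃ g ∈ D, ρ g = M)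
    (hC : ∀ u : Fˣ, ∃ k, u ^ 2 ^ k ∈ C) {i : Fin n} (hi : i.val + 1 < n)
    (h2 : C = ⊤ ∨ i.val + 2 < n ∨ -1 ∉ C) {X : Type} [Fintype X]
    (T : TV (Kr ρ D C (i + 1)) (Kr ρ D C i) X) {H K : Subgroup G}
    (T' : TV H K X) (hT : T'.t = T.t) (hH : Kr ρ D C (i + 1) ≤ H)
    (hbal : ∀ d ∉ K, d ∉ Stb ρ (Vr F n i) → ∀ N, N * kk K d d = 2 * cd K → T'.Bal ⊤ d N)
    (h : CT K) : CT H := by
  by_cases hM : C = ⊤
  · subst hM
    exact ct_flag' hSL hi T T' hT hH hbal h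
  obtain ⟨k, _, lg, h3, h4⟩ := exists_lg' hC hM
  exact ct_orient hF2 hSL lg h3 h4 hi (h2.resolve_left hM) T T' hT hH hbal h

theorem ct_of_ter (N : Subgroup G) [hN : N.Normal] (h : Ter (G ⧸ N)) : CT N := by
  classical
  let T : TV N ⊤ (G ⧸ N) :=
    { t := Quotient.out
      le := le_top
      mem := fun _ => trivial
      ex := fun g _ => ⟨g, QuotientGroup.eq.1 (QuotientGroup.out_eq' _)⟩
      uniq := fun x y h => by
        rw [← QuotientGroup.out_eq' x, ← QuotientGroup.out_eq' y]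
        exact QuotientGroup.eq.2 h }
  refine T.top h fun l l' g => ?_
  have h1 : ((T.t 1)⁻¹ * T.t (l⁻¹ * l'))⁻¹ * ((T.t l)⁻¹ * T.t l') ∈ N :=
    QuotientGroup.eq.1 (by simp [T])
  rw [← kk_mul (one_mem N) h1 ((T.t 1)⁻¹ * T.t (l⁻¹ * l')), one_mul, mul_inv_cancel_left]

theorem ct_det [Finite F] (N : Subgroup G) [N.Normal] (hN : ∀ g, (ρ g).det = 1 → g ∈ N) : CT N := by
  classical
  let δ : G →* Fˣ := (detMonoidHom.comp ρ).toHomUnits
  obtain ⟨⟨_, g0, rfl⟩, h0⟩ := IsCyclic.exists_generator (α := δ.range)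
  have : IsCyclic (G ⧸ N) := ⟨⟨g0, fun q => by
    obtain ⟨g, rfl⟩ := QuotientGroup.mk_surjective q
    obtain ⟨k, hk⟩ := h0 ⟨_, g, rfl⟩
    refine ⟨k, QuotientGroup.eq.2 (hN _ ?_)⟩
    have h1 : δ ((g0 ^ k)⁻¹ * g) = 1 := by
      rw [map_mul, map_inv, map_zpow, inv_mul_eq_one]
      exact congrArg Subtype.val hk
    exact congrArg Units.val h1⟩⟩
  have : Group.IsSolvable (G ⧸ N) := Group.isSolvable_of_comm IsCyclic.commGroup.mul_comm
  refine ct_of_ter N (ter_solvable _ _ rfl fun h => ?_)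
  obtain ⟨γ, hγ⟩ := IsCyclic.exists_ofOrder_eq_natCard (α := G ⧸ N)
  have h1 := Nat.le_of_dvd two_pos (orderOf_dvd_of_pow_eq_one (x := γ) (by rw [pow_two, h.1]))
  omega

end Pool.Agent.Lib.MP_0becda_co.Coset
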