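import Pool.Agent.Lib.MP_0becda_co.Coset.Hall

/-!
Orderings of a cyclic group of order a power of two with distinct twisted differences.
-/

open Finset

namespace Pool.Agent.Lib.MP_0becda_co.Coset

theorem cast_inj {n : ℕ} {f : ℕ → ℕ} (c r : ℕ) (h1 : ∀ i < r, c ≤ f i ∧ f i < c + n)
    (h2 : ∀ i < r, ∀ j < r, f i = f j → i = j) :
    ∀ i < r, ∀ j < r, ((f i : ℕ) : ZMod n) = (f j : ℕ) → i = j := by
  intro i hi j hj h
  have a1 := h1 i hi
  have a2 := h1 j hj
  exact h2 i hi j hj (((ZMod.natCast_eq_natCast_iff _ _ _).1 h).eq_of_abs_lt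
    (abs_lt.2 ⟨by omega, by omega⟩))

theorem twist_inj {N r : ℕ} (σ ε : ZMod (2 * N)) (hε : ε = 0 ∨ (ε = N ∧ N % 4 = 0)) (a d : ℕ → ℕ)
    (c : ℕ) (h1 : ∀ i < r, c ≤ d i ∧ d i < c + 2 * N) (h2 : ∀ i < r, ∀ j < r, d i = d j → i = j)
    (h3 : N % 4 = 0 → ∀ i < r, ∀ j < r, d i % 4 = d j % 4 → a i % 2 = a j % 2)
    (h4 : ∀ i < r, (a (i + 1) : ZMod (2 * N)) - σ * a i = d i) : ∀ i < r, ∀ j < r,
      (a (i + 1) : ZMod (2 * N)) - (σ + ε) * a i = a (j + 1) - (σ + ε) * a j → i = j := by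
  intro i hi j hj h
  rw [add_mul, add_mul, ← sub_sub, ← sub_sub, h4 i hi, h4 j hj] at h
  refine cast_inj c r h1 h2 i hi j hj ?_
  rcases hε with rfl | ⟨rfl, h5⟩
  · simpa using h
  have e1 : ∀ x : ℕ, (N : ZMod (2 * N)) * x = N * (x % 2 : ℕ) := fun x => by
    rw [← Nat.cast_mul, ← Nat.cast_mul, ZMod.natCast_eq_natCast_iff', mul_comm 2, Nat.mul_mod_mul_left,
      Nat.mul_mod_mul_left, Nat.mod_mod]
  rw [sub_eq_sub_iff_add_eq_add] at h
  have e2 : d i % 4 = d j % 4 := by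
    rw [← Nat.cast_mul, ← Nat.cast_mul, ← Nat.cast_add, ← Nat.cast_add,
      ZMod.natCast_eq_natCast_iff] at h
    obtain ⟨M, rfl⟩ : ∃ M, N = 4 * M := ⟨N / 4, by omega⟩
    have := h.of_dvd (show 4 ∣ 2 * (4 * M) from ⟨2 * M, by ring⟩)
    rwa [mul_assoc, mul_assoc, Nat.ModEq, Nat.add_mul_mod_self_left, Nat.add_mul_mod_self_left] at this
  rw [e1 (a j), e1 (a i), h3 h5 i hi j hj e2] at h
  exact add_right_cancel h

theorem order_zmod (k : ℕ) (s : ZMod (2 * 2 ^ k)) (hs : s * s = 1) : ∃ a : ℕ → ZMod (2 * 2 ^ k),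
    (∀ i < 2 * 2 ^ k, ∀ j < 2 * 2 ^ k, a i = a j → i = j) ∧ ∀ i < 2 * 2 ^ k - 1, ∀ j < 2 * 2 ^ k - 1,
      a (i + 1) - s * a i = a (j + 1) - s * a j → i = j := by
  obtain ⟨v, rfl⟩ := ZMod.natCast_zmod_surjective s
  have hu : ∀ m : ℕ, IsUnit ((2 * m + 1 : ℕ) : ZMod (2 * 2 ^ k)) := fun m => by
    rw [ZMod.isUnit_iff_coprime, ← pow_succ']
    exact Nat.Coprime.pow_right _ (Nat.coprime_two_right.2 (odd_two_mul_add_one m))
  have key : ∀ m : ℕ, (2 * (4 * m) : ℕ) = (0 : ZMod (2 * 2 ^ k)) → ((4 * m : ℕ) : ZMod (2 * 2 ^ k)) = 0 ∨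
      (((4 * m : ℕ) : ZMod (2 * 2 ^ k)) = (2 ^ k : ℕ) ∧ 2 ^ k % 4 = 0) := fun m h => by
    rw [ZMod.natCast_eq_zero_iff, Nat.mul_dvd_mul_iff_left two_pos] at h
    obtain ⟨c, hc⟩ := h
    obtain ⟨e, rfl | rfl⟩ := Nat.even_or_odd' c
    · exact Or.inl (by rw [hc, ZMod.natCast_eq_zero_iff]; exact ⟨e, by ring⟩)
    · refine Or.inr ⟨?_, Nat.mod_eq_zero_of_dvd ((Nat.Coprime.pow_left 2 (Nat.coprime_two_left.2
        (odd_two_mul_add_one e))).dvd_of_dvd_mul_right ⟨m, hc.symm⟩)⟩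
      rw [hc, mul_add, mul_one, Nat.cast_add, ← mul_assoc, mul_comm _ 2, Nat.cast_mul,
        ZMod.natCast_self, zero_mul, zero_add]
  have ho : v % 2 = 1 := by
    have := ((ZMod.natCast_eq_natCast_iff (v * v) 1 _).1 (by simpa using hs)).of_dvd
      (dvd_mul_right 2 _)
    rcases Nat.mod_two_eq_zero_or_one v with h | h
    · simp [Nat.ModEq, Nat.mul_mod, h] at this
    · exact h
  have hN : 0 < 2 ^ k := by positivity
  generalize 2 ^ k = N at *
  obtain ⟨m, h | h⟩ : ∃ m, v = 4 * m + 1 ∨ v + 1 = 4 * (m + 1) := ⟨v / 4, by omega⟩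
  · have e : (v : ZMod (2 * N)) = 1 + (4 * m : ℕ) := by rw [h]; push_cast; ring
    rw [e] at hs ⊢
    refine ⟨fun i => ((if i % 2 = 0 then i / 2 else 2 * N - 1 - i / 2 : ℕ) : ZMod (2 * N)),
      cast_inj 0 (2 * N) (fun i hi => by split_ifs <;> omega) fun i hi j hj => by split_ifs <;> omega,
      twist_inj (r := 2 * N - 1) 1 _
        (key m ((hu m).mul_left_eq_zero.1 (by push_cast at hs ⊢; linear_combination hs)))
        (fun i => if i % 2 = 0 then i / 2 else 2 * N - 1 - i / 2) (fun i => if i % 2 = 0 then 2 * N - 1 - i else i + 1) 0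
        (fun i hi => by split_ifs <;> omega) (fun i hi j hj => by split_ifs <;> omega)
        (fun _ i hi j hj => by split_ifs <;> omega) fun i hi => ?_⟩
    rw [one_mul, sub_eq_iff_eq_add, ← Nat.cast_add]
    rcases Nat.mod_two_eq_zero_or_one i with h | h
    · rw [if_neg (by omega), if_pos h, if_pos h]
      congr 1; omega
    · rw [if_pos (by omega), if_neg (by omega), if_neg (by omega),
        show i + 1 + (2 * N - 1 - i / 2) = (i + 1) / 2 + 2 * N by omega, Nat.cast_add,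
        ZMod.natCast_self, add_zero]
  · have e : (v : ZMod (2 * N)) = -1 + (4 * (m + 1) : ℕ) := by rw [← h]; push_cast; ring
    rw [e] at hs ⊢
    refine ⟨fun i => ((if i % 2 = 0 then i / 2 else i / 2 + N : ℕ) : ZMod (2 * N)),
      cast_inj 0 (2 * N) (fun i hi => by split_ifs <;> omega) fun i hi j hj => by split_ifs <;> omega,
      twist_inj (r := 2 * N - 1) (-1) _ (key (m + 1) ((hu m).mul_left_eq_zero.1
        (by push_cast at hs ⊢; linear_combination hs)))
        (fun i => if i % 2 = 0 then i / 2 else i / 2 + N) (fun i => N + i) N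
        (fun i hi => by omega) (fun i hi j hj => by omega)
        (fun _ i hi j hj => by split_ifs <;> omega) fun i hi => ?_⟩
    rw [neg_one_mul, sub_neg_eq_add, ← Nat.cast_add]
    congr 1
    split_ifs <;> omega

theorem exists_order {A : Type} [AddCommGroup A] [Fintype A] (h2 : ∀ a : A, ∃ k : ℕ, 2 ^ k • a = 0)
    (h0 : ∑ a : A, a ≠ 0) {m : ℕ} (hm : Fintype.card A = m + 1) (α : A ≃+ A) (hα : ∀ a, α (α a) = a) :
    ∃ l : ℕ → A, (∀ i < m + 1, ∀ j < m + 1, l i = l j → i = j) ∧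
      ∀ i < m, ∀ j < m, l (i + 1) - α (l i) = l (j + 1) - α (l j) → i = j := by
  classical
  obtain ⟨u, u1, u2⟩ : ∃ u : A, u ≠ 0 ∧ ∀ v, v + v = 0 → v = 0 ∨ v = u := by
    by_contra h
    refine h0 (Multiplicative.ofAdd.injective ?_)
    rw [ofAdd_sum, Multiplicative.ofAdd.prod_comp fun x => x]
    refine prod_univ_eq_one fun u h1 _ => by_contra fun h3 => h ⟨u.toAdd, h1, fun v hv => ?_⟩
    exact by_contra fun h4 => h3 ⟨Multiplicative.ofAdd v, fun e => h4 (Or.inl e), hv,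
      fun e => h4 (Or.inr (congrArg Multiplicative.toAdd e))⟩
  have hc : IsAddCyclic A := isAddCyclic_of_card_nsmul_eq_zero_le fun n => by
    induction n using Nat.strong_induction_on with
    | _ n ih =>
      intro hn
      obtain ⟨r, rfl | rfl⟩ := Nat.even_or_odd' n
      · have k1 := ih r (by omega) (by omega)
        have k2 : (univ.filter fun a : A => r • a = u).card ≤ r := by
          rcases (univ.filter fun a : A => r • a = u).eq_empty_or_nonempty with h | ⟨b, hb⟩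
          · rw [h]; exact Nat.zero_le _
          · refine le_trans (card_le_card_of_injOn (fun a => a - b) (fun a ha => ?_)
              sub_left_injective.injOn) k1
            simp only [coe_filter, mem_filter, mem_univ, true_and, Set.mem_setOf_eq] at ha hb ⊢
            rw [nsmul_sub, ha, hb, sub_self]
        refine (card_le_card fun a ha => ?_).trans ((card_union_le _ _).trans
          ((add_le_add k1 k2).trans (two_mul r).ge))
        simpa using u2 (r • a) (by rw [← add_nsmul, ← two_mul]; exact (mem_filter.1 ha).2)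
      · refine le_trans (card_le_one.2 fun a ha b hb => ?_) hn
        have k1 : ∀ a : A, (2 * r + 1) • a = 0 → a = 0 := fun a ha => by
          obtain ⟨k, hk⟩ := h2 a
          exact AddMonoid.addOrderOf_eq_one_iff.1 (Nat.eq_one_of_dvd_coprimes
            (Nat.Coprime.pow_left k (Nat.coprime_two_left.2 (odd_two_mul_add_one r)))
            (addOrderOf_dvd_of_nsmul_eq_zero hk) (addOrderOf_dvd_of_nsmul_eq_zero ha))
        rw [k1 a (mem_filter.1 ha).2, k1 b (mem_filter.1 hb).2]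
  obtain ⟨k, hk⟩ := IsPGroup.iff_card.1 (show IsPGroup 2 (Multiplicative A) from fun a => h2 a.toAdd)
  replace hk : Nat.card A = 2 ^ k := hk
  obtain ⟨k, rfl⟩ : ∃ j, k = j + 1 := ⟨k - 1, by
    have := Fintype.one_lt_card_iff.2 ⟨_, _, u1⟩
    rw [← Nat.card_eq_fintype_card, hk, Nat.one_lt_two_pow_iff] at this
    omega⟩
  have e := zmodAddCyclicAddEquiv hc
  rw [hk, pow_succ'] at e
  have k1 : ∀ x, α (e x) = e (e.symm (α (e 1)) * x) := fun x => by
    obtain ⟨j, rfl⟩ := ZMod.natCast_zmod_surjective x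
    rw [mul_comm (e.symm _), ← nsmul_eq_mul, map_nsmul, e.apply_symm_apply, ← map_nsmul, ← map_nsmul, nsmul_one]
  obtain ⟨a, a1, a2⟩ := order_zmod k (e.symm (α (e 1))) (e.injective (by
    rw [← k1, e.apply_symm_apply, hα]))
  rw [Nat.card_eq_fintype_card, hm, pow_succ'] at hk
  exact ⟨fun i => e (a i), fun i hi j hj h => a1 i (hk ▸ hi) j (hk ▸ hj) (e.injective h),
    fun i hi j hj h => a2 i (by omega) j (by omega)
      (e.injective (by rwa [map_sub, map_sub, ← k1, ← k1]))⟩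

end Pool.Agent.Lib.MP_0becda_co.Coset
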