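import Pool.Agent.Lib.MP_0becda_co.Coset.Stair

/-!
Lifting along an abelian quotient with one involution when all cosets are opposite.
-/

set_option linter.unusedSectionVars false

open Finset Pool.Agent.Lib.MP_0becda_co.PSL

namespace Pool.Agent.Lib.MP_0becda_co.Coset

theorem sum_enum {A : Type} [Fintype A] {u : ℕ → A} {n : ℕ} (hn : Fintype.card A = n)
    (hu : ∀ i < n, ∀ j < n, u i = u j → i = j) {M : Type} [AddCommMonoid M] (F : A → M) :
    ∑ j ∈ range n, F (u j) = ∑ a, F a := by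
  classical
  have h1 : Set.InjOn u (range n) := fun i hi j hj => hu i (by simpa using hi) j (by simpa using hj)
  rw [← sum_image h1, eq_univ_of_card ((range n).image u) (by rw [card_image_of_injOn h1, card_range, hn])]

theorem exists_missing {A : Type} [Fintype A] {u : ℕ → A} {m : ℕ} (hm : Fintype.card A = m + 1)
    (hu : ∀ i < m, ∀ j < m, u i = u j → i = j) :
    ∃ μ, ∀ F : A → ℕ, ∑ j ∈ range m, F (u j) + F μ = ∑ a, F a := by
  classical
  have h1 : Set.InjOn u (range m) := fun i hi j hj => hu i (by simpa using hi) j (by simpa using hj)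
  obtain ⟨μ, hμ⟩ := card_eq_one.1 (show ((range m).image u)ᶜ.card = 1 by
    rw [card_compl, card_image_of_injOn h1, card_range]; omega)
  exact ⟨μ, fun F => by rw [← sum_image h1, ← sum_add_sum_compl ((range m).image u), hμ, sum_singleton]⟩

variable {G : Type} [Group G] [Fintype G]

namespace TV

variable {H B : Subgroup G} {A : Type} [AddCommGroup A] [Fintype A] (T : TV H B A)

theorem cv_fib (y g : G) (e : A ≃ A) :
    CV H (∑ a, {y * T.t (e a)}) g = ind (y⁻¹ * g ∈ B) := by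
  rw [CV_sum, ← T.sum_ind, ← e.sum_comp fun a => ind ((T.t a)⁻¹ * (y⁻¹ * g) ∈ H)]
  exact sum_congr rfl fun a _ => by rw [mul_inv_rev, mul_assoc]

theorem zig (α : A ≃+ A) (F : A → G → ℕ) (D : G → Prop) (ω : G → A) (hω : ∀ d, D d → ∀ a a' g,
      kk H ((T.t a)⁻¹ * d * T.t a') g = F (a' - α a + ω d) g) {h : A} (hh : h + h = 0)
    (h0 : ∑ a : A, a = h) (y : ℕ → G) (M : ℕ) :
    (∀ i ≤ 2 * M, ∀ j ≤ 2 * M, i ≠ j → D ((y i)⁻¹ * y j)) →
    ∃ (t : A) (Vx : A → Multiset G) (Ex : A → Multiset (Sym2 G)),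
      (∀ a, Path (Vx a) (Ex a) (y 0 * T.t a) (y (2 * M) * T.t (a + t))) ∧
      (∀ g, CV H (∑ a, Vx a) g = ∑ i ∈ range (2 * M + 1), ind ((y i)⁻¹ * g ∈ B)) ∧
      ∀ g, KE H (∑ a, Ex a) g = 2 * M * ∑ c, F c g := by
  classical
  obtain ⟨p, hp⟩ := exists_bundle α.toEquiv (fun x => if x = 0 then h else x) (by
    rw [← add_sum_erase _ _ (mem_univ 0), if_pos rfl, sum_congr rfl fun x hx =>
      if_neg (mem_erase.1 hx).1, Finset.sum_erase (f := fun x : A => x) _ rfl, h0, hh])
  have hq : ∀ (c t : A) g, ∑ a, F (p (a + t) - α (a + t) + c) g + F c g = ∑ a, F a g + F (h + c) g :=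
    fun c t g => by
      rw [show ∑ a, F (p (a + t) - α (a + t) + c) g = _ from
          (Equiv.sum_comp (Equiv.addRight t) fun a => F (p a - α a + c) g).trans
            (hp fun x => F (x + c) g), ← Equiv.sum_comp (Equiv.addRight c) fun a => F a g,
        ← add_sum_erase _ _ (mem_univ 0), ← add_sum_erase _ _ (mem_univ 0), if_pos rfl,
        sum_congr rfl fun x hx => by rw [if_neg (mem_erase.1 hx).1]]
      simp only [Equiv.coe_addRight, zero_add]
      omega
  have ed : ∀ u v, D (u⁻¹ * v) → ∀ a a' g, ke H s(u * T.t a, v * T.t a') g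
      = F (a' - α a + ω (u⁻¹ * v)) g := fun u v hd a a' g => by
    rw [ke_mk, ← hω _ hd]
    congr 1
    group
  induction M with
  | zero => exact fun _ => ⟨0, fun a => {y 0 * T.t a}, fun _ => 0, fun a => by
      simpa using Path.single _, fun g => by simpa using T.cv_fib (y 0) g (Equiv.refl A),
      fun g => by simp [KE]⟩
  | succ M ih =>
    intro hy
    obtain ⟨t, Vx, Ex, k1, k2, k3⟩ := ih fun i hi j hj => hy i (by omega) j (by omega)
    have d1 := hy (2 * M) (by omega) (2 * M + 1) (by omega) (by omega)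
    have d2 := hy (2 * (M + 1)) le_rfl (2 * M + 1) (by omega) (by omega)
    obtain ⟨e, he⟩ := α.surjective (ω ((y (2 * (M + 1)))⁻¹ * y (2 * M + 1))
      - (ω ((y (2 * M))⁻¹ * y (2 * M + 1)) + h))
    refine ⟨t + e, _, _, fun a => ((k1 a).append (Path.single (y (2 * M + 1) * T.t (p (a + t))))).append
      (Path.single _), fun g => ?_, fun g => ?_⟩
    · rw [sum_add_distrib, sum_add_distrib, CV_add, CV_add, k2, show 2 * (M + 1) + 1 = 2 * M + 1 + 1 + 1
        by ring, sum_range_succ _ (2 * M + 1 + 1), sum_range_succ _ (2 * M + 1),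
        ← T.cv_fib _ g ((Equiv.addRight t).trans p), ← T.cv_fib _ g (Equiv.addRight (t + e))]
      rfl
    have e1 := hq (ω ((y (2 * M))⁻¹ * y (2 * M + 1))) t g
    have e2 := hq (ω ((y (2 * M))⁻¹ * y (2 * M + 1)) + h) t g
    have e3 : ∀ a, ke H s(y (2 * M + 1) * T.t (p (a + t)), y (2 * (M + 1)) * T.t (a + (t + e))) g
        = F (p (a + t) - α (a + t) + (ω ((y (2 * M))⁻¹ * y (2 * M + 1)) + h)) g := fun a => by
      rw [Sym2.eq_swap, ed _ _ d2, ← add_assoc, map_add _ _ e, he]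
      congr 1
      abel
    rw [add_left_comm h, hh, add_zero] at e2
    rw [add_comm h] at e1
    simp only [Multiset.cons_zero]
    rw [sum_add_distrib, sum_add_distrib, KE_add, KE_add, k3, KE_sum, KE_sum,
      sum_congr rfl fun a _ => ed _ _ d1 _ _ g, sum_congr rfl fun a _ => e3 a]
    nlinarith

theorem spiral (hfib : ∀ a a' g, kk H ((T.t a)⁻¹ * T.t a') g = kk H ((T.t 0)⁻¹ * T.t (a' - a)) g)
    (α : A ≃+ A) (F : A → G → ℕ) (D : G → Prop) (hdom : ∀ d, D d → ∃ ω, ∀ a a' g,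
      kk H ((T.t a)⁻¹ * d * T.t a') g = F (a' - α a + ω) g) {k : G → ℕ}
    (hF : ∀ g, Fintype.card A * ∑ c, F c g = k g) {h : A} (hh : h + h = 0) (h0 : ∑ a : A, a = h)
    {m : ℕ} (hm : Fintype.card A = m + 1) (l l' : ℕ → A)
    (l1 : ∀ i < m + 1, ∀ j < m + 1, l i = l j → i = j)
    (l2 : ∀ i < m, ∀ j < m, l (i + 1) - α (l i) = l (j + 1) - α (l j) → i = j)
    (l3 : ∀ i < m + 1, ∀ j < m + 1, l' i = l' j → i = j)
    (l4 : ∀ i < m, ∀ j < m, l' (i + 1) - l' i = l' (j + 1) - l' j → i = j)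
    (y : ℕ → G) {N : ℕ} (hN : 1 < N) (hy : ∀ i ≤ N, ∀ j ≤ N, i ≠ j → D ((y i)⁻¹ * y j))
    (hV : ∀ g, ∑ i ∈ range (N + 1), ind ((y i)⁻¹ * g ∈ B) = 1)
    (hE : ∀ g, N * k g = 2 * cd B * ind (g ∉ B)) : CT H := by
  classical
  choose! ω hω using hdom
  have f1 : ∀ (u : G) (c : A) g, ∑ j ∈ range m, ke H s(u * T.t (l' j + c), u * T.t (l' (j + 1) + c)) g
      = 2 * cd H * ind (g ∈ B ∧ g ∉ H) := fun u c g => by
    obtain ⟨μ, hμ⟩ := exists_missing (u := fun j => l' (j + 1) - l' j) hm l4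
    have e1 := hμ fun a => ind (a = 0)
    rw [sum_ind_eq, sum_eq_zero fun j hj => ind_neg fun h => by
      have := l3 _ (by simpa using hj) _ (by have := mem_range.1 hj; omega) (sub_eq_zero.1 h)
      omega] at e1
    obtain rfl : μ = 0 := by_contra fun h => by simp [ind_neg h] at e1
    have e2 := hμ fun a => kk H ((T.t 0)⁻¹ * T.t a) g
    rw [← add_sum_erase _ _ (mem_univ 0), T.sum_erase, add_comm, add_right_inj] at e2
    rw [← e2]
    exact sum_congr rfl fun j _ => by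
      rw [ke_mk, mul_inv_rev, mul_assoc, inv_mul_cancel_left, hfib, add_sub_add_right_eq_sub]
  have f2 : ∀ g, N * ∑ c, F c g + 2 * cd H * ind (g ∈ B ∧ g ∉ H) = 2 * cd H * ind (g ∉ H) := fun g => by
    have f3 := hE g
    rw [← hF, ← T.card_mul, mul_left_comm, mul_left_comm 2, mul_assoc] at f3
    rw [Nat.eq_of_mul_eq_mul_left T.card_pos f3, ← mul_add]
    congr 1
    by_cases h1 : g ∈ H
    · simp [h1, T.le h1, ind_neg]
    · by_cases h2 : g ∈ B <;> simp [h1, h2, ind_pos, ind_neg]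
  obtain ⟨M, rfl | rfl⟩ := Nat.even_or_odd' N
  · obtain ⟨t, Vx, Ex, k1, k2, k3⟩ := T.zig α F D ω hω hh h0 y M hy
    refine ⟨_, _, _, _, chain_paths (fun j => Vx (l' j)) (fun j => Ex (l' j))
      (fun j => if Even j then y 0 * T.t (l' j) else y (2 * M) * T.t (l' j + t))
      (fun j => if Even j then y (2 * M) * T.t (l' j + t) else y 0 * T.t (l' j)) m fun j _ => ?_,
      fun g => ?_, fun g => ?_⟩
    · split_ifs
      exacts [k1 _, (k1 _).reverse]
    · rw [sum_enum hm l3, k2, hV]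
    rw [KE_add, sum_enum hm l3, k3, KE_sum, ← f2, ← f1 1 0]
    congr 1
    refine sum_congr rfl fun j _ => ?_
    rw [Sym2.eq_swap]
    by_cases hj : Even j <;> simp only [hj, Nat.even_add_one, not_true, not_false_iff, if_true,
      if_false, ke_mk, mul_inv_rev, mul_assoc, inv_mul_cancel_left, hfib _ (_ + _),
      hfib (l' j), add_sub_add_right_eq_sub]
  obtain ⟨t, Vx, Ex, k1, k2, k3⟩ := T.zig α F D ω hω hh h0 y M fun i hi j hj =>
    hy i (by omega) j (by omega)
  have ed : ∀ u v, D (u⁻¹ * v) → ∀ a a' g, ke H s(u * T.t a, v * T.t a') g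
      = F (a' - α a + ω (u⁻¹ * v)) g := fun u v hd a a' g => by
    rw [ke_mk, ← hω _ hd]
    congr 1
    group
  obtain ⟨μ, hμ⟩ := exists_missing
    (u := fun j => l (j + 1) - α (l j + t) + ω ((y (2 * M))⁻¹ * y 0)) hm fun i hi j hj h =>
      l2 i hi j hj (by
        simp only [map_add, ← sub_sub] at h
        exact sub_left_injective (add_right_cancel h))
  obtain ⟨c, hc⟩ : ∃ c, l' 0 + c - α (l m + t) + ω ((y (2 * M))⁻¹ * y (2 * M + 1)) = μ :=
    ⟨μ - ω ((y (2 * M))⁻¹ * y (2 * M + 1)) + α (l m + t) - l' 0, by abel⟩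
  refine ⟨_, _, _, _, (path_seq (fun j => y (2 * M + 1) * T.t (l' j + c)) m).reverse.append
    (chain_paths (fun j => Vx (l j)) (fun j => Ex (l j)) _ _ m fun j _ => (k1 _).reverse),
    fun g => ?_, fun g => ?_⟩
  · rw [CV_add, sum_enum hm l1, k2, sum_enum hm l3 fun a => ({y (2 * M + 1) * T.t (a + c)} : Multiset G),
      add_comm, show CV H (∑ a, {y (2 * M + 1) * T.t (a + c)}) g = _ from
        T.cv_fib _ g (Equiv.addRight c), ← sum_range_succ (fun i => ind ((y i)⁻¹ * g ∈ B)), hV]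
  have e1 := hμ fun a => F a g
  have e2 : ∀ j, ke H s(y 0 * T.t (l (j + 1)), y (2 * M) * T.t (l j + t)) g
      = F (l (j + 1) - α (l j + t) + ω ((y (2 * M))⁻¹ * y 0)) g := fun j => by
    rw [Sym2.eq_swap, ed _ _ (hy _ (by omega) _ (by omega) (by omega))]
  rw [KE_add, KE_cons, KE_add, KE_sum, KE_sum, f1, sum_enum hm l1, k3, Sym2.eq_swap,
    ed _ _ (hy _ (by omega) _ le_rfl (by omega)), hc, sum_congr rfl fun j _ => e2 j, ← f2]
  nlinarith

end TV

end Pool.Agent.Lib.MP_0becda_co.Coset
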