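import Pool.Agent.Lib.MP_0becda_co.Coset.Run
import Pool.Agent.Lib.MP_0becda_co.Coset.BigMain
import Pool.Agent.Lib.MP_0becda_co.Coset.Spiral
import Pool.Agent.Lib.MP_0becda_co.Coset.Order

/-!
A large double coset above an abelian quotient.
-/

set_option linter.unusedSectionVars false

open Finset Pool.Agent.Lib.MP_0becda_co.PSL

namespace Pool.Agent.Lib.MP_0becda_co.Coset

variable {G : Type} [Group G] [Fintype G]

theorem exists_col {H B : Subgroup G} (hle : H ≤ B) (hc : ∀ a ∈ B, ∀ b ∈ B, a * b * a⁻¹ * b⁻¹ ∈ H) :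
    ∃ (A : Type) (_ : AddCommGroup A) (_ : Fintype A) (π : G → A) (T : TV H B A),
      (∀ a ∈ B, ∀ b ∈ B, π (a * b) = π a + π b) ∧ (∀ a ∈ B, ∀ b ∈ B, π a = π b ↔ a⁻¹ * b ∈ H) ∧
      ∀ x, π (T.t x) = x := by
  classical
  have : (H.subgroupOf B).Normal := ⟨fun s hs g => by
    have := mul_mem (hc g g.2 s s.2) (show (s : G) ∈ H from hs)
    rwa [inv_mul_cancel_right] at this⟩
  have key : ∀ u v : B, (u : B ⧸ H.subgroupOf B) = v ↔ (u : G)⁻¹ * v ∈ H :=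
    fun u v => QuotientGroup.eq (s := H.subgroupOf B)
  let _ : CommGroup (B ⧸ H.subgroupOf B) :=
    { (inferInstance : Group (B ⧸ H.subgroupOf B)) with
      mul_comm := fun p q => by
        obtain ⟨a, rfl⟩ := QuotientGroup.mk_surjective p
        obtain ⟨b, rfl⟩ := QuotientGroup.mk_surjective q
        refine (key (a * b) (b * a)).2 ?_
        simpa [mul_assoc] using hc _ (inv_mem b.2) _ (inv_mem a.2) }
  let _ := Fintype.ofFinite (B ⧸ H.subgroupOf B)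
  refine ⟨Additive (B ⧸ H.subgroupOf B), inferInstance, inferInstance,
    fun g => if h : g ∈ B then Additive.ofMul ((⟨g, h⟩ : B) : B ⧸ H.subgroupOf B) else 0,
    { t := fun x => (x.toMul.out : B)
      le := hle
      mem := fun x => Subtype.prop _
      ex := fun g hg => ⟨Additive.ofMul ((⟨g, hg⟩ : B) : B ⧸ H.subgroupOf B),
        (key _ ⟨g, hg⟩).1 (QuotientGroup.out_eq' _)⟩
      uniq := fun x y h => by
        have := (key _ _).2 h
        rwa [QuotientGroup.out_eq', QuotientGroup.out_eq'] at this },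
    fun a ha b hb => ?_, fun a ha b hb => ?_, fun x => ?_⟩
  · simp only [dif_pos ha, dif_pos hb, dif_pos (mul_mem ha hb)]
    rfl
  · simp only [dif_pos ha, dif_pos hb]
    exact key ⟨a, ha⟩ ⟨b, hb⟩
  · simp only [dif_pos (Subtype.prop _)]
    exact QuotientGroup.out_eq' _

theorem ct_cell (H B : Subgroup G) (w : G) (hle : H ≤ B)
    (hc : ∀ a ∈ B, ∀ b ∈ B, a * b * a⁻¹ * b⁻¹ ∈ H)
    (hi : ∀ b ∈ B, ∃ k : ℕ, b ^ 2 ^ k ∈ H)
    (h2 : ∀ d, ∀ b ∈ B, ∃ s ∈ B, d⁻¹ * s * d ∈ B ∧ s⁻¹ * b ∈ H)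
    (h3 : ∀ d, ∀ s ∈ H, d⁻¹ * s * d ∈ B → d⁻¹ * s * d ∈ H)
    (h4 : ∀ d ∉ B, (¬ ∃ a ∈ B, ∃ b ∈ B, d = a * w * b) → ∃ θ : G → G, (∀ a ∈ B, θ a ∈ B) ∧
      ∀ a ∈ B, ∀ a' ∈ B, ((θ a)⁻¹ * θ a' ∈ H ∨
        ∃ x ∈ H, ∃ y ∈ H, a'⁻¹ * d * θ a' = x * (a⁻¹ * d * θ a) * y) → a⁻¹ * a' ∈ H)
    (hw : 3 * Nat.card G + 8 * (H.relIndex B - 1) * Nat.card B
      < 4 * Nat.card {g : G // ∃ a ∈ B, ∃ b ∈ B, g = a * w * b}) : CT H := by
  classical
  by_cases hB : B ≤ H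
  · obtain rfl := le_antisymm hle hB
    rcases Nat.even_or_odd H.index with ho | ho
    · obtain ⟨z, V, E, x, k1, k2, -, k3, k4⟩ := big_run H w 1 0 0 one_pos (ho.add (by decide))
        (by omega) (Or.inr rfl) (by omega)
      obtain ⟨a, ha, b, hb, k5⟩ := k2 0 one_pos
      exact ⟨_, _, _, _, Path.cons (z 0) _ _ _ _ k1, fun g => by simpa using k3 g, fun g => by
        rw [KE_cons, ke_mk, k5, kk_mul ha hb, ← k4, one_mul]⟩
    · exact ct_big H w ho (by omega)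
  obtain ⟨A, _, _, π, T, p1, p2, p3⟩ := exists_col hle hc
  have p4 : π 1 = 0 := by simpa using p1 1 (one_mem _) 1 (one_mem _)
  have p5 : ∀ a ∈ B, π a⁻¹ = -π a := fun a ha => by
    rw [eq_neg_iff_add_eq_zero, ← p1 _ (inv_mem ha) _ ha, inv_mul_cancel, p4]
  have col : ∀ d, ∃ α : A ≃+ A, (∀ s ∈ B, d⁻¹ * s * d ∈ B → π (d⁻¹ * s * d) = α (π s)) ∧
      ∀ b ∈ B, ∀ b' ∈ B, ∃ x ∈ H, ∃ y ∈ H,
        b⁻¹ * d * b' = x * (d * T.t (π b' - α (π b))) * y := fun d => by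
    choose σ s1 s2 s3 using fun a => h2 d (T.t a) (T.mem a)
    have s4 : ∀ a, π (σ a) = a := fun a => ((p2 _ (s1 a) _ (T.mem a)).2 (s3 a)).trans (p3 a)
    have s5 : ∀ s ∈ B, d⁻¹ * s * d ∈ B → π (d⁻¹ * s * d) = π (d⁻¹ * σ (π s) * d) := fun s k1 k2 => by
      have k3 : (d⁻¹ * s * d)⁻¹ * (d⁻¹ * σ (π s) * d) = d⁻¹ * (s⁻¹ * σ (π s)) * d := by group
      rw [p2 _ k2 _ (s2 _), k3]
      exact h3 d _ ((p2 _ k1 _ (s1 _)).1 (s4 _).symm) (k3 ▸ mul_mem (inv_mem k2) (s2 _))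
    let f : A →+ A := AddMonoidHom.mk' (fun a => π (d⁻¹ * σ a * d)) fun a b => by
      have k3 : d⁻¹ * σ a * d * (d⁻¹ * σ b * d) = d⁻¹ * (σ a * σ b) * d := by group
      rw [← p1 _ (s2 a) _ (s2 b), k3, s5 _ (mul_mem (s1 a) (s1 b)) (k3 ▸ mul_mem (s2 a) (s2 b)),
        p1 _ (s1 a) _ (s1 b), s4, s4]
    have hf : Function.Injective f := (injective_iff_map_eq_zero f).2 fun a ha => by
      have k1 := (p2 _ (one_mem _) _ (s2 a)).1 (p4.trans ha.symm)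
      have k3 : d⁻¹⁻¹ * (1⁻¹ * (d⁻¹ * σ a * d)) * d⁻¹ = 1⁻¹ * σ a := by group
      have k2 := h3 d⁻¹ _ k1 (k3 ▸ mul_mem (inv_mem (one_mem _)) (s1 a))
      rw [k3, ← p2 _ (one_mem _) _ (s1 a), p4, s4] at k2
      exact k2.symm
    refine ⟨AddEquiv.ofBijective f hf.bijective_of_finite, s5, fun b hb b' hb' => ?_⟩
    have k1 := (p2 _ hb _ (s1 _)).1 (s4 _).symm
    have k2 := (p2 _ (T.mem (π b' - f (π b))) _ (mul_mem (inv_mem (s2 (π b))) hb')).1 (by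
      rw [p3, p1 _ (inv_mem (s2 _)) _ hb', p5 _ (s2 _), neg_add_eq_sub]; rfl)
    refine ⟨_, k1, _, k2, ?_⟩
    change _ = b⁻¹ * σ (π b) * (d * T.t (π b' - f (π b))) * _
    group
  have hn : Fintype.card A = H.relIndex B := Nat.eq_of_mul_eq_mul_right (cd_pos H) (by
    rw [T.card_mul, cd_eq, cd_eq, ← (H.subgroupOf B).card_mul_index, mul_comm,
      Nat.card_congr (Subgroup.subgroupOfEquivOfLe hle).toEquiv]
    rfl)
  have col' : ∀ d (α : A ≃+ A), (∀ b ∈ B, ∀ b' ∈ B, ∃ x ∈ H, ∃ y ∈ H,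
      b⁻¹ * d * b' = x * (d * T.t (π b' - α (π b))) * y) → ∀ b ∈ B, ∀ b' ∈ B, ∀ g,
      kk H (b⁻¹ * d * b') g = kk H (d * T.t (π b' - α (π b))) g := fun d α h b hb b' hb' g => by
    obtain ⟨x, hx, y, hy, e⟩ := h b hb b' hb'
    rw [e, kk_mul hx hy]
  obtain ⟨u, u1, u2⟩ := SetLike.not_le_iff_exists.1 hB
  have u3 : (0 : A) ≠ π u := fun h => u2 (by simpa using (p2 _ (one_mem _) _ u1).1 (p4.trans h))
  obtain ⟨α, hα0, hα⟩ := col w
  replace hα := col' w α hα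
  have hfib : ∀ a a' g, kk H ((T.t a)⁻¹ * T.t a') g = kk H ((T.t 0)⁻¹ * T.t (a' - a)) g := fun a a' g => by
    have k6 := mul_mem (inv_mem (T.mem 0)) (T.mem (a' - a))
    have k7 := mul_mem (inv_mem (T.mem a)) (T.mem a')
    rw [← kk_mul (one_mem H) ((p2 _ k6 _ k7).1 (by
      rw [p1 _ (inv_mem (T.mem _)) _ (T.mem _), p1 _ (inv_mem (T.mem _)) _ (T.mem _), p5 _ (T.mem _),
        p5 _ (T.mem _), p3, p3, p3, p3]; abel)) ((T.t 0)⁻¹ * _), one_mul, mul_inv_cancel_left]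
  have hdom : ∀ d, (∃ a ∈ B, ∃ b ∈ B, d = a * w * b) → ∃ ω, ∀ a a' g,
      kk H ((T.t a)⁻¹ * d * T.t a') g = kk H (w * T.t (a' - α a + ω)) g := by
    rintro _ ⟨a, ha, b, hb, rfl⟩
    refine ⟨π b + α (π a), fun x x' g => ?_⟩
    rw [show (T.t x)⁻¹ * (a * w * b) * T.t x' = (a⁻¹ * T.t x)⁻¹ * w * (b * T.t x') by group,
      hα _ (mul_mem (inv_mem ha) (T.mem x)) _ (mul_mem hb (T.mem x')), p1 _ hb _ (T.mem _),
      p1 _ (inv_mem ha) _ (T.mem _), p5 _ ha, p3, p3, map_add, map_neg]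
    congr 3
    abel
  have hF : ∀ g, Fintype.card A * ∑ c, kk H (w * T.t c) g = kk B w g := fun g =>
    T.col_sum (u := α) fun a a' => by rw [hα _ (T.mem a) _ (T.mem a'), p3, p3]
  rw [← hn] at hw
  by_cases h0 : ∑ a : A, a = 0
  · have h7 : 3 ≤ Fintype.card A := by
      by_contra h7
      have h8 : ({0, π u} : Finset A) = univ := eq_univ_of_card _ (le_antisymm (card_le_univ _) (by
        rw [card_pair u3]; omega))
      rw [← h8, sum_pair u3, zero_add] at h0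
      exact u3 h0.symm
    generalize hn' : Fintype.card A = n at hw h7
    obtain ⟨e, e1, e2⟩ : ∃ e ≤ 1, Even (B.index + (n + n + n + 1 + e + 1)) := by
      rcases Nat.even_or_odd (B.index + (n + n + n + 1 + 0 + 1)) with h | h
      · exact ⟨0, by omega, h⟩
      · exact ⟨1, le_rfl, h.add_one⟩
    obtain ⟨z, V, E, x, k1, k2, k3, k4, k5⟩ := big_run B w (n + n + n + 1) e _ (by omega) e2
      (by omega) (Or.inl (by omega)) hw
    refine T.stair h0 (fun d => ?_) hfib α (fun c => kk H (w * T.t c))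
      (fun d => ∃ a ∈ B, ∃ b ∈ B, d = a * w * b) hdom (hn' ▸ hF) hn' z k1 k2 k3 k4 k5
    obtain ⟨β, -, hβ⟩ := col d
    exact ⟨β.toEquiv, fun a a' g => by rw [col' d β hβ _ (T.mem a) _ (T.mem a'), p3, p3]; rfl⟩
  have h5 : ∀ d ∉ B, ∃ a ∈ B, ∃ b ∈ B, d = a * w * b := fun d hd => by_contra fun h => h0 (by
    obtain ⟨θ, t1, t2⟩ := h4 d hd h
    obtain ⟨β, -, hβ⟩ := col d
    have k1 : Function.Injective fun a => π (θ (T.t a)) := fun a a' e => T.uniq _ _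
      (t2 _ (T.mem a) _ (T.mem a') (Or.inl ((p2 _ (t1 _ (T.mem a)) _ (t1 _ (T.mem a'))).1 e)))
    have k2 : Function.Injective fun a => π (θ (T.t a)) - β a := fun a a' e => T.uniq _ _
      (t2 _ (T.mem a) _ (T.mem a') (Or.inr (by
        obtain ⟨x, hx, y, hy, e1⟩ := hβ _ (T.mem a) _ (t1 _ (T.mem a))
        obtain ⟨x', hx', y', hy', e2⟩ := hβ _ (T.mem a') _ (t1 _ (T.mem a'))
        refine ⟨_, mul_mem hx' (inv_mem hx), _, mul_mem (inv_mem hy) hy', ?_⟩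
        rw [e1, e2, p3, p3, show π (θ (T.t a)) - β a = π (θ (T.t a')) - β a' from e]
        group)))
    rw [← k2.bijective_of_finite.sum_comp fun a => a, sum_sub_distrib,
      k1.bijective_of_finite.sum_comp fun a => a, β.bijective.sum_comp fun a => a, sub_self])
  obtain ⟨X, _, ⟨T0⟩⟩ : ∃ (X : Type) (_ : Fintype X), Nonempty (TV B ⊤ X) :=
    ⟨_, Fintype.ofFinite _, ⟨tvq le_top⟩⟩
  obtain ⟨x0⟩ := Fintype.card_pos_iff.1 T0.card_pos
  have : Zero X := ⟨x0⟩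
  obtain ⟨m, hm⟩ : ∃ m, Fintype.card A = m + 1 := ⟨_, (Nat.succ_pred_eq_of_pos T.card_pos).symm⟩
  obtain ⟨N, hN⟩ : ∃ N, Fintype.card X = N + 1 := ⟨_, (Nat.succ_pred_eq_of_pos T0.card_pos).symm⟩
  have k1 : 1 < N := by
    have k1 : 1 < Fintype.card A := Fintype.one_lt_card_iff.2 ⟨_, _, u3⟩
    have k2 := T0.card_mul
    have k3 := Finite.card_subtype_le fun g : G => ∃ a ∈ B, ∃ b ∈ B, g = a * w * b
    have k4 := cd_pos B
    rw [cd_eq ⊤, Subgroup.card_top, hN] at k2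
    rw [← cd_eq, hm, Nat.add_sub_cancel] at hw
    obtain ⟨m, rfl⟩ : ∃ m', m = m' + 1 := ⟨m - 1, by omega⟩
    nlinarith
  obtain ⟨y, -, y1, y2⟩ := exists_enum X hN
  have k2 : ∀ x x', x ≠ x' → ∃ a ∈ B, ∃ b ∈ B, (T0.t x)⁻¹ * T0.t x' = a * w * b := fun x x' h =>
    h5 _ (mt (T0.uniq _ _) h)
  have k3 : ∀ a, α (α a) = a := fun c => by
    obtain ⟨a, ha, b, hb, e⟩ := h5 w⁻¹ fun h => by
      obtain ⟨a, ha, b, hb, e⟩ := k2 (y 0) (y 1) fun h => by have := y1 _ (by omega) _ k1.le h; omega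
      have := y1 _ (by omega) _ k1.le (T0.uniq _ _ (e ▸ mul_mem (mul_mem ha (inv_mem_iff.1 h)) hb))
      omega
    obtain ⟨s, s1, s2, s3⟩ := h2 w _ (T.mem c)
    have e1 : w⁻¹ * (a⁻¹ * (w⁻¹ * s * w) * a) * w = b * s * b⁻¹ := by
      rw [show w⁻¹ * (a⁻¹ * (w⁻¹ * s * w) * a) * w
        = w⁻¹ * a⁻¹ * w⁻¹ * s * (w⁻¹ * a⁻¹ * w⁻¹)⁻¹ by group, show w⁻¹ * a⁻¹ * w⁻¹ = b by
          rw [mul_assoc, inv_mul_eq_iff_eq_mul, inv_mul_eq_iff_eq_mul, ← mul_assoc, e]]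
    have e2 := hα0 _ (mul_mem (mul_mem (inv_mem ha) s2) ha)
      (e1 ▸ mul_mem (mul_mem hb s1) (inv_mem hb))
    rw [e1, p1 _ (mul_mem hb s1) _ (inv_mem hb), p1 _ hb _ s1, p1 _ (mul_mem (inv_mem ha) s2) _ ha,
      p1 _ (inv_mem ha) _ s2, p5 _ ha, p5 _ hb, hα0 _ s1 s2, (p2 _ s1 _ (T.mem c)).2 s3, p3,
      add_neg_cancel_comm, neg_add_cancel_comm] at e2
    exact e2.symm
  have k4 : ∀ a : A, ∃ k : ℕ, 2 ^ k • a = 0 := fun a => (hi _ (T.mem a)).imp fun k hk => by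
    have k4 : ∀ j : ℕ, π (T.t a ^ j) = j • a := fun j => by
      induction j with
      | zero => simp [p4]
      | succ j ih => rw [pow_succ, p1 _ (pow_mem (T.mem a) j) _ (T.mem a), ih, p3, succ_nsmul]
    rw [← k4, ← p4, eq_comm, p2 _ (one_mem _) _ (pow_mem (T.mem a) _)]
    simpa using hk
  obtain ⟨l, l1, l2⟩ := exists_order k4 h0 hm α k3
  obtain ⟨l', l3, l4⟩ := exists_order k4 h0 hm (AddEquiv.refl A) fun _ => rfl
  refine T.spiral hfib α (fun c => kk H (w * T.t c)) _ hdom hF ?_ rfl hm l l' l1 l2 l3 l4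
    (fun i => T0.t (y i)) k1 (fun i hi j hj h => k2 _ _ fun e => h (y1 i hi j hj e)) (fun g => ?_)
    fun g => ?_
  · nth_rewrite 1 [← Equiv.sum_comp (Equiv.neg A)]
    rw [← sum_add_distrib]
    simp
  · rw [y2 fun x => ind ((T0.t x)⁻¹ * g ∈ B), T0.sum_ind, ind_pos (Subgroup.mem_top g)]
  · rw [← ind_congr (and_iff_right (Subgroup.mem_top g)), ← T0.sum_erase x0,
      sum_congr rfl (g := fun _ => kk B w g) fun x hx => by
        obtain ⟨a, ha, b, hb, e⟩ := k2 _ _ (mem_erase.1 hx).1.symm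
        rw [e, kk_mul ha hb], sum_const, card_erase_of_mem (mem_univ _), card_univ, hN]
    rfl

theorem ter_chain (r : ℕ) (K : ℕ → Subgroup G) (h0 : CT (K 0))
    (P : Sylow 2 (K 0)) (hP : (P : Subgroup (K 0)).Normal)
    (hs : ∀ i < r, K (i + 1) ≤ K i ∧ (K (i + 1)).relIndex (K i) ≠ 2 ∧ ∀ x ∈ K i, x ∉ K (i + 1) →
      ∀ y ∈ K i, y ∉ K (i + 1) → ∃ a ∈ K (i + 1), ∃ b ∈ K (i + 1), y = a * x * b)
    (h1 : Odd (Nat.card (K r))) (h2 : Group.IsSolvable (K r)) : Ter G := by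
  have key : ∀ i, i ≤ r → K i ≤ K 0 ∧ CT (K i) := fun i => by
    induction i with
    | zero => exact fun _ => ⟨le_rfl, h0⟩
    | succ i ih =>
      intro hi
      obtain ⟨k1, k2⟩ := ih (by omega)
      obtain ⟨k3, k4, k5⟩ := hs i hi
      refine ⟨k3.trans k1, ct_doubly (V := (P : Subgroup (K 0)).map (K 0).subtype ⊓ K i) k3
        inf_le_right (fun k hk v hv => ⟨?_, (K i).mul_mem ((K i).mul_mem hk hv.2) ((K i).inv_mem hk)⟩)
        ((P.isPGroup'.map _).to_le inf_le_left) ?_ k4 k5 k2⟩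
      · obtain ⟨⟨u, hu, rfl⟩, -⟩ := hv
        exact ⟨_, hP.conj_mem u hu ⟨k, k1 hk⟩, rfl⟩
      · rw [Subgroup.inf_relIndex_right, ← Subgroup.relIndex_subgroupOf k1,
          show ((P : Subgroup (K 0)).map (K 0).subtype).subgroupOf (K 0) = P from
            Subgroup.comap_map_eq_self_of_injective (K 0).subtype_injective _]
        refine Odd.of_dvd_nat ?_ (Subgroup.relIndex_dvd_index_of_normal _ _)
        exact Nat.not_even_iff_odd.1 (mt even_iff_two_dvd.1 P.not_dvd_index)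
  refine (ct_odd _ (K r) rfl (by rwa [Subgroup.relIndex_bot_left]) bot_le (fun L k1 k2 => ?_)
    (key r le_rfl).2).ter
  have := Group.isSolvable_of_isSolvable_injective (f := Subgroup.inclusion k2)
    (Subgroup.inclusion_injective k2)
  have := (Subgroup.nontrivial_iff_ne_bot L).2 k1.ne'
  rw [bot_sup_eq, ← L.range_subtype, MonoidHom.range_eq_map, ← Subgroup.map_commutator,
    Subgroup.map_subtype_lt_map_subtype]
  exact Group.IsSolvable.commutator_lt_top_of_nontrivial L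

end Pool.Agent.Lib.MP_0becda_co.Coset
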