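import Pool.Agent.Lib.MP_0becda_co.Coset.Base

/-!
Balanced families, free joins and the top of a chain.
-/

set_option linter.unusedSectionVars false

open Finset Pool.Agent.Lib.MP_0becda_co.PSL

namespace Pool.Agent.Lib.MP_0becda_co.Coset

variable {G : Type} [Group G] [Fintype G]

/-- the stabiliser of the two cosets `K` and `d K` -/
def St (K : Subgroup G) (d : G) : Subgroup G := K ⊓ K.comap (MulAut.conj d⁻¹).toMonoidHom

theorem mem_St {K : Subgroup G} {d s : G} : s ∈ St K d ↔ s ∈ K ∧ d⁻¹ * s * d ∈ K := by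
  simp [St]

theorem kap_self (K : Subgroup G) (d : G) : kap K d d = cd (St K d) := by
  refine sum_congr rfl fun a _ => ?_
  rw [← sum_ind_and (d⁻¹ * a * d)⁻¹]
  refine sum_congr rfl fun b _ => ind_congr ⟨fun h => ?_, ?_⟩
  · have h1 : b = (d⁻¹ * a * d)⁻¹ := eq_inv_of_mul_eq_one_right (by
      rw [mul_assoc d⁻¹, mul_assoc d⁻¹, ← h.2.2, inv_mul_cancel])
    exact ⟨h1, mem_St.2 ⟨h.1, inv_mem_iff.1 (h1 ▸ h.2.1)⟩⟩
  · rintro ⟨rfl, h⟩
    exact ⟨(mem_St.1 h).1, inv_mem (mem_St.1 h).2, by group⟩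

theorem kk_self (K : Subgroup G) (d : G) :
    kk K d d = cd (St K d) ∨ kk K d d = 2 * cd (St K d) := by
  by_cases h : kap K d⁻¹ d = 0
  · exact Or.inl (by rw [kk, h, add_zero, kap_self])
  · obtain ⟨a, ha, b, hb, h1⟩ := kap_pos h
    exact Or.inr (by rw [kk, h1, kap_mul ha hb, kap_self, two_mul])

theorem dvd_of_count {K : Subgroup G} {d : G} {N m : ℕ} (h : N * kk K d d = 2 * cd K)
    (hm : m * cd (St K d) ∣ cd K) : m ∣ N := by
  obtain ⟨j, hj⟩ := hm
  have h0 := cd_pos (St K d)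
  rcases kk_self K d with h1 | h1 <;> rw [h1, hj] at h
  · exact ⟨2 * j, Nat.eq_of_mul_eq_mul_right h0 (by rw [h]; ring)⟩
  · exact ⟨j, Nat.eq_of_mul_eq_mul_right (Nat.mul_pos two_pos h0) (by rw [h]; ring)⟩

theorem cd_dvd {S H : Subgroup G} (w : G) (h : ∀ s ∈ S, w⁻¹ * s * w ∈ H) : cd S ∣ cd H := by
  rw [cd_eq, cd_eq]
  refine Subgroup.card_dvd_of_injective
    (((MulAut.conj w⁻¹).toMonoidHom.comp S.subtype).codRestrict H fun s => by simpa using h s s.2)
    fun s s' hs => Subtype.ext ((MulAut.conj w⁻¹).injective (congrArg Subtype.val hs))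

theorem kk_one (H : Subgroup G) (g : G) : kk H 1 g = 2 * cd H * ind (g ∈ H) := by
  rw [kk, inv_one, kap_one, mul_assoc, two_mul]

theorem exists_one_fixed {X : Type} [Fintype X] (h3 : 3 ≤ Fintype.card X) (a : X) :
    ∃ σ : Equiv.Perm X, ∀ x, σ x = x ↔ x = a := by
  classical
  refine ⟨(univ.erase a).toList.formPerm, fun x => ?_⟩
  rw [← Equiv.Perm.notMem_support, List.support_formPerm_of_nodup _ (nodup_toList _) fun y h => by
    have := congrArg List.length h
    rw [length_toList, card_erase_of_mem (mem_univ _), card_univ, List.length_singleton] at this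
    omega]
  simp

theorem bal_two {X : Type} [Fintype X] (h3 : 3 ≤ Fintype.card X) : ∃ σ : Equiv.Perm X,
    ∀ f : X → X → ℕ, (∀ x y, f x x = f y y) → (∀ x y x' y', x ≠ y → x' ≠ y' → f x y = f x' y') →
      Fintype.card X * ∑ x, f x (σ x) = ∑ x, ∑ y, f x y := by
  classical
  obtain ⟨a⟩ : Nonempty X := Fintype.card_pos_iff.1 (by omega)
  obtain ⟨σ, hσ⟩ := exists_one_fixed h3 a
  refine ⟨σ, fun f h1 h2 => ?_⟩
  rw [← smul_eq_mul, ← card_univ, ← sum_const]
  refine sum_congr rfl fun x _ => ?_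
  rw [← (Equiv.swap a x).bijective.sum_comp]
  refine sum_congr rfl fun y _ => ?_
  by_cases h : y = x
  · subst h
    rw [Equiv.swap_apply_right, (hσ a).2 rfl, h1]
  · refine h2 _ _ _ _ (fun h4 => h ?_) (Ne.symm h)
    have h5 := congrArg (Equiv.swap a x) ((hσ _).1 h4.symm)
    rwa [Equiv.swap_apply_self, Equiv.swap_apply_left] at h5

theorem bal_alt {X : Type} [Fintype X] [DecidableEq X] (h3 : 3 ≤ Fintype.card X) :
    ∃ σ : Equiv.Perm X, ∀ f : X → X → ℕ, (∀ a b c, a ≠ b → a ≠ c → b ≠ c → ∀ x y,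
      f ((Equiv.swap a b * Equiv.swap b c) x) ((Equiv.swap a b * Equiv.swap b c) y) = f x y) →
      Fintype.card X * ∑ x, f x (σ x) = ∑ x, ∑ y, f x y := by
  have hr : ∀ a b c : X, a ≠ b → a ≠ c → b ≠ c → (Equiv.swap a b * Equiv.swap b c) a = b ∧
      (Equiv.swap a b * Equiv.swap b c) b = c ∧ (Equiv.swap a b * Equiv.swap b c) c = a ∧
      ∀ x, x ≠ a → x ≠ b → x ≠ c → (Equiv.swap a b * Equiv.swap b c) x = x :=
    fun a b c h1 h2 h3 => by
      refine ⟨?_, ?_, ?_, fun x h4 h5 h6 => ?_⟩ <;>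
        simp [Equiv.swap_apply_def, *, h2.symm, h3.symm]
  rcases h3.eq_or_lt with h | h
  · obtain ⟨a, b, c, h1, h2, h4, hu⟩ := Finset.card_eq_three.1 (card_univ.trans h.symm)
    refine ⟨Equiv.swap b c, fun f hf => ?_⟩
    obtain ⟨e1, e2, e3, -⟩ := hr a b c h1 h2 h4
    have hs : ∀ F : X → ℕ, ∑ x, F x = F a + F b + F c := fun F => by
      rw [hu, sum_insert (by simp [*]), sum_pair h4, add_assoc]
    have g1 := hf a b c h1 h2 h4 a a
    have g2 := hf a b c h1 h2 h4 b b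
    have g3 := hf a b c h1 h2 h4 a b
    have g4 := hf a b c h1 h2 h4 b c
    have g5 := hf a b c h1 h2 h4 a c
    have g6 := hf a b c h1 h2 h4 b a
    simp only [e1, e2, e3] at g1 g2 g3 g4 g5 g6
    simp only [hs, ← h, Equiv.swap_apply_left, Equiv.swap_apply_right,
      Equiv.swap_apply_of_ne_of_ne h1 h2]
    omega
  · obtain ⟨σ, hσ⟩ := bal_two h3
    have hw : ∀ x y z : X, ∃ w, w ≠ x ∧ w ≠ y ∧ w ≠ z := fun x y z => by
      have h1 : ({x, y, z} : Finset X).card < (univ : Finset X).card :=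
        lt_of_le_of_lt card_le_three h
      obtain ⟨w, -, h2⟩ := exists_mem_notMem_of_card_lt_card h1
      exact ⟨w, by simpa [not_or] using h2⟩
    refine ⟨σ, fun f hf => hσ f (fun x y => ?_) fun x y x' y' h1 h2 => ?_⟩
    · by_cases hxy : x = y
      · rw [hxy]
      · obtain ⟨w, h1, h2, -⟩ := hw x y y
        rw [← hf x y w hxy h1.symm h2.symm x x, (hr x y w hxy h1.symm h2.symm).1]
    · have k1 : ∀ x y y', x ≠ y → x ≠ y' → f x y = f x y' := fun x y y' h1 h2 => by
        by_cases hy : y = y'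
        · rw [hy]
        · obtain ⟨w, h4, h5, h6⟩ := hw x y y'
          obtain ⟨e1, -, -, e2⟩ := hr y y' w hy h5.symm h6.symm
          rw [← hf y y' w hy h5.symm h6.symm x y, e1, e2 x h1 h2 h4.symm]
      have k2 : ∀ x x' y, x ≠ y → x' ≠ y → f x y = f x' y := fun x x' y h1 h2 => by
        by_cases hy : x = x'
        · rw [hy]
        · obtain ⟨w, h4, h5, h6⟩ := hw y x x'
          obtain ⟨e1, -, -, e2⟩ := hr x x' w hy h5.symm h6.symm
          rw [← hf x x' w hy h5.symm h6.symm x y, e1, e2 y h1.symm h2.symm h4.symm]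
      obtain ⟨w, h4, h5, -⟩ := hw x x' x'
      rw [k1 x y w h1 h4.symm, k2 x x' w h4.symm h5.symm, k1 x' w y' h5.symm h2]

namespace TV

variable {H K : Subgroup G} {X : Type} [Fintype X] (T : TV H K X)

include T in
theorem card_pos : 0 < Fintype.card X := by
  obtain ⟨x, -⟩ := T.ex 1 (one_mem _)
  exact Fintype.card_pos_iff.2 ⟨x⟩

theorem bal_latin (d : G) : T.Bal ⊤ d (Fintype.card X) := by
  have : NeZero (Fintype.card X) := ⟨T.card_pos.ne'⟩
  let e : X ≃ ZMod (Fintype.card X) := Fintype.equivOfCardEq (ZMod.card _).symm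
  refine ⟨univ.val.map fun c => (e.trans (Equiv.addLeft c)).trans e.symm, by simp,
    fun _ _ => Subgroup.mem_top _, fun g => ?_⟩
  rw [Multiset.map_map, ← T.sum_kk]
  congr 1
  refine sum_comm.trans (sum_congr rfl fun x _ => ?_)
  exact (e.symm.bijective.comp (AddGroup.addRight_bijective (e x))).sum_comp
    fun y => kk H ((T.t x)⁻¹ * d * T.t y) g

theorem bal_fix {d : G} (w : G) (h : ∀ s ∈ St K d, w⁻¹ * s * w ∈ H) {N : ℕ}
    (hN : N * kk K d d = 2 * cd K) : T.Bal ⊤ d N := by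
  obtain ⟨j, rfl⟩ := dvd_of_count (m := Fintype.card X) hN
    (T.card_mul ▸ Nat.mul_dvd_mul_left _ (cd_dvd w h))
  rw [mul_comm]
  exact (T.bal_latin d).mul j

theorem bal_one {Γ : Subgroup (Equiv.Perm X)} {d : G} {θ : Equiv.Perm X} (hθ : θ ∈ Γ)
    (h : ∀ g, Fintype.card X * ∑ x, kk H ((T.t x)⁻¹ * d * T.t (θ x)) g
      = ∑ x, ∑ y, kk H ((T.t x)⁻¹ * d * T.t y) g) (N : ℕ) : T.Bal Γ d N := by
  have : T.Bal Γ d 1 := ⟨{θ}, rfl, by simpa using hθ, fun g => by simp [h, T.sum_kk]⟩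
  simpa using this.mul N

theorem bal_left {Γ : Subgroup (Equiv.Perm X)} {d : G}
    (h : ∀ x x' y g, kk H ((T.t x)⁻¹ * d * T.t y) g = kk H ((T.t x')⁻¹ * d * T.t y) g) (N : ℕ) :
    T.Bal Γ d N :=
  T.bal_one (one_mem _) (fun g => by
    rw [← smul_eq_mul, ← card_univ, ← sum_const]
    exact sum_congr rfl fun x _ => sum_congr rfl fun y _ => h _ _ _ _) N

theorem bal_right {Γ : Subgroup (Equiv.Perm X)} {d : G}
    (h : ∀ x y y' g, kk H ((T.t x)⁻¹ * d * T.t y) g = kk H ((T.t x)⁻¹ * d * T.t y') g) (N : ℕ) :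
    T.Bal Γ d N :=
  T.bal_one (one_mem _) (fun g => by
    rw [← smul_eq_mul, ← card_univ, ← sum_const, sum_comm]
    exact sum_congr rfl fun x _ => sum_congr rfl fun y _ => h _ _ _ _) N

theorem kk_move {d s : G} {x x' y y' : X} (h1 : (T.t x')⁻¹ * s * T.t x ∈ H)
    (h2 : (T.t y')⁻¹ * (d⁻¹ * s * d) * T.t y ∈ H) (g : G) :
    kk H ((T.t x')⁻¹ * d * T.t y') g = kk H ((T.t x)⁻¹ * d * T.t y) g := by
  rw [← kk_mul h1 (inv_mem h2) ((T.t x)⁻¹ * d * T.t y)]
  congr 1
  group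

theorem sum_erase [DecidableEq X] (x : X) (g : G) :
    ∑ y ∈ univ.erase x, kk H ((T.t x)⁻¹ * T.t y) g = 2 * cd H * ind (g ∈ K ∧ g ∉ H) := by
  have h1 := T.sum_fibre x g
  rw [← add_sum_erase _ _ (mem_univ x), inv_mul_cancel, kk_one] at h1
  by_cases hg : g ∈ H
  · rw [ind_pos hg, ind_pos (T.le hg)] at h1
    rw [ind_neg fun h => h.2 hg]; omega
  · rw [ind_neg hg, mul_zero, zero_add] at h1
    rw [h1, ind_congr (and_iff_left hg)]

theorem join_free (hom : ∀ x y x' y', x ≠ y → x' ≠ y' → ∀ g,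
      kk H ((T.t x)⁻¹ * T.t y) g = kk H ((T.t x')⁻¹ * T.t y') g)
    (Φ : Equiv.Perm X) (a b : G) (Vx : X → Multiset G) (Ex : X → Multiset (Sym2 G))
    (hP : ∀ x, Path (Vx x) (Ex x) (a * T.t x) (b * T.t (Φ x))) : ∃ J p q,
      Path (∑ x, Vx x) (∑ x, Ex x + J) p q ∧ ∀ g, KE H J g = 2 * cd H * ind (g ∈ K ∧ g ∉ H) := by
  classical
  obtain ⟨x0⟩ := Fintype.card_pos_iff.1 T.card_pos
  have key : ∀ S : Finset X, x0 ∉ S → ∃ J p q, ∃ x ∈ insert x0 S,
      Path (∑ x ∈ insert x0 S, Vx x) (∑ x ∈ insert x0 S, Ex x + J) p q ∧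
      (q = a * T.t x ∨ q = b * T.t (Φ x)) ∧
      ∀ g, KE H J g = ∑ y ∈ S, kk H ((T.t x0)⁻¹ * T.t y) g := by
    intro S
    induction S using Finset.induction_on with
    | empty => exact fun _ => ⟨0, _, _, x0, by simp, by simpa using hP x0, Or.inr rfl,
        fun g => by simp [KE]⟩
    | insert y S hy ih =>
      intro h0
      rw [mem_insert, not_or] at h0
      obtain ⟨J, p, q, x, hx, h1, h2, h3⟩ := ih h0.2
      have hy' : y ∉ insert x0 S := by simp [hy, Ne.symm h0.1]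
      have hxy : x ≠ y := fun h => hy' (h ▸ hx)
      have hk : ∀ (c : G) (u v : X), u ≠ v → ∀ g, KE H (s(c * T.t u, c * T.t v) ::ₘ J) g
          = ∑ y ∈ insert y S, kk H ((T.t x0)⁻¹ * T.t y) g := fun c u v h g => by
        rw [KE_cons, h3, sum_insert hy, ke_mk, ← hom u v x0 y h h0.1]
        congr 2
        group
      rw [Finset.insert_comm, sum_insert hy', sum_insert hy']
      rcases h2 with rfl | rfl
      · refine ⟨_, _, _, y, by simp, (h1.append (hP y)).congr (add_comm _ _) ?_ rfl rfl,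
          Or.inr rfl, hk a x y hxy⟩
        simp only [← Multiset.singleton_add]; abel
      · refine ⟨_, _, _, y, by simp, (h1.append (hP y).reverse).congr (add_comm _ _) ?_ rfl rfl,
          Or.inl rfl, hk b _ _ (Φ.injective.ne hxy)⟩
        simp only [← Multiset.singleton_add]; abel
  obtain ⟨J, p, q, x, -, h1, -, h2⟩ := key (univ.erase x0) (notMem_erase _ _)
  rw [insert_erase (mem_univ _)] at h1
  exact ⟨J, p, q, h1, fun g => by rw [h2, T.sum_erase]⟩

/-- Lifting along a step with a single colour inside the fibre. -/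
theorem step_free (hom : ∀ x y x' y', x ≠ y → x' ≠ y' → ∀ g,
      kk H ((T.t x)⁻¹ * T.t y) g = kk H ((T.t x')⁻¹ * T.t y') g)
    (hbal : ∀ d, d ∉ K → ∀ N, N * kk K d d = 2 * cd K → T.Bal ⊤ d N) (h : CT K) : CT H :=
  T.step (fun _ hh => (T.exists_act hh).imp fun _ h => ⟨Subgroup.mem_top _, h⟩) hbal
    (fun Φ _ => T.join_free hom Φ) h

/-- A terraced group that models the coset space. -/
theorem top {L : Type} [Group L] [Fintype L] (T : TV H ⊤ L) (hL : Ter L)
    (hc : ∀ l l' g, kk H ((T.t l)⁻¹ * T.t l') g = kk H ((T.t 1)⁻¹ * T.t (l⁻¹ * l')) g) :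
    CT H := by
  classical
  obtain ⟨V, E, a, b, hp, hV, hE⟩ := hL
  refine ⟨_, _, _, _, hp.map T.t, fun g => ?_, fun g => ?_⟩
  · rw [eq_univ_of_C hV, CV, Multiset.map_map]
    exact (T.sum_ind g).trans (ind_pos (Subgroup.mem_top _))
  · have h1 : ∀ E : Multiset (Sym2 L), 2 * KE H (E.map (Sym2.map T.t)) g
        = ∑ c, W E c * kk H ((T.t 1)⁻¹ * T.t c) g := by
      intro E
      induction E using Multiset.induction_on with
      | empty => simp [KE]
      | cons e E ih =>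
        simp only [Multiset.map_cons, KE_cons, W_cons, mul_add, add_mul, sum_add_distrib, ih]
        congr 1
        induction e using Sym2.ind with
        | _ u v =>
          have h2 : ∀ (z : L) (F : L → ℕ), ∑ c, ind (z = c) * F c = F z := fun z F => by
            rw [sum_eq_single z (fun c _ h => by rw [ind_neg (Ne.symm h), zero_mul]) (by simp),
              ind_pos rfl, one_mul]
          simp only [Sym2.map_mk, ke_mk, wt_mk, add_mul, sum_add_distrib,
            ← inv_eq_iff_eq_inv, h2]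
          rw [mul_inv_rev, inv_inv, ← hc, ← hc, ← kk_inv H ((T.t v)⁻¹ * _), mul_inv_rev, inv_inv,
            two_mul]
    have h2 := h1 E
    simp only [hE, mul_assoc, ← mul_sum] at h2
    rw [Nat.eq_of_mul_eq_mul_left two_pos h2, ← add_sum_erase _ _ (mem_univ 1),
      ind_neg (by simp), zero_mul, zero_add,
      sum_congr rfl fun c hc => by rw [ind_pos (mem_erase.1 hc).1, one_mul], T.sum_erase]
    simp

end TV

end Pool.Agent.Lib.MP_0becda_co.Coset
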