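import Pool.Agent.Lib.MP_0becda_co.Coset.Big

/-!
Differences of two orderings of an abelian group.
-/

set_option linter.unusedSectionVars false

open Finset Pool.Agent.Lib.MP_0becda_co.PSL

namespace Pool.Agent.Lib.MP_0becda_co.Coset

variable {A : Type} [AddCommGroup A] [Fintype A] [DecidableEq A]

theorem hall_step (K : A) (r : A) (t : ℕ) : ∀ (σ τ : Equiv.Perm A) (p : A), p ≠ r →
    ((fun i => τ.symm (K - σ i))^[t + 1] r = p ∨ (fun i => τ.symm (K - σ i))^[t + 1] r = r) →
    (∀ s, s < t → (fun i => τ.symm (K - σ i))^[s + 1] r ≠ p ∧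
      (fun i => τ.symm (K - σ i))^[s + 1] r ≠ r) →
    ∃ σ' τ' : Equiv.Perm A, τ' p - σ' p = K - σ p - σ r ∧
      ∀ x, x ≠ p → x ≠ r → τ' x - σ' x = τ x - σ x := by
  induction t with
  | zero =>
    rintro σ τ p hp (h | h) -
    · exact ⟨σ, τ, by rw [← τ.symm_apply_eq.1 h]; abel, fun _ _ _ => rfl⟩
    · refine ⟨σ, (Equiv.swap p r).trans τ, ?_, fun x h1 h2 => by
        rw [Equiv.trans_apply, Equiv.swap_apply_of_ne_of_ne h1 h2]⟩
      rw [Equiv.trans_apply, Equiv.swap_apply_left, ← τ.symm_apply_eq.1 h]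
      abel
  | succ t ih =>
    intro σ τ p hp h1 h2
    generalize hπ : (fun i => τ.symm (K - σ i)) = π at h1 h2
    have h3 : Function.Injective π := hπ ▸ τ.symm.injective.comp (sub_right_injective.comp σ.injective)
    obtain ⟨k1, k2⟩ : π r ≠ p ∧ π r ≠ r := h2 0 (by omega)
    have k3 : τ (π r) = K - σ r := by rw [← hπ]; simp
    have h4 : ∀ s, s < t + 1 → π^[s + 2] r ≠ π r := fun s hs h =>
      (h2 s hs).2 (h3 (by rwa [Function.iterate_succ_apply'] at h))
    have h5 : ∀ i, ((Equiv.swap p (π r)).trans τ).symm (K - ((Equiv.swap r (π r)).trans σ) i)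
        = Equiv.swap p (π r) (π (Equiv.swap r (π r) i)) := fun i => by rw [← hπ]; simp
    have h6 : ∀ s, s ≤ t → (fun i => Equiv.swap p (π r) (π (Equiv.swap r (π r) i)))^[s + 1] r
        = Equiv.swap p (π r) (π^[s + 2] r) := fun s => by
      induction s with
      | zero => exact fun _ => by simp
      | succ s ih' =>
        intro hs
        rw [Function.iterate_succ_apply', ih' (by omega),
          Equiv.swap_apply_of_ne_of_ne (h2 (s + 1) (by omega)).1 (h4 s (by omega)),
          Equiv.swap_apply_of_ne_of_ne (h2 (s + 1) (by omega)).2 (h4 s (by omega)),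
          Function.iterate_succ_apply' π (s + 2)]
    obtain ⟨σ', τ', k4, k5⟩ := ih ((Equiv.swap r (π r)).trans σ) ((Equiv.swap p (π r)).trans τ) (π r) k2
      (by
        simp only [h5, h6 t le_rfl]
        refine h1.imp (fun h => by rw [h, Equiv.swap_apply_left]) fun h => ?_
        rw [h, Equiv.swap_apply_of_ne_of_ne hp.symm k2.symm])
      fun s hs => by
        simp only [h5, h6 s hs.le]
        rw [Equiv.swap_apply_of_ne_of_ne (h2 (s + 1) (by omega)).1 (h4 s (by omega))]
        exact ⟨h4 s (by omega), (h2 (s + 1) (by omega)).2⟩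
    refine ⟨σ', τ', ?_, fun x e1 e2 => ?_⟩
    · rw [k5 p k1.symm hp, Equiv.trans_apply, Equiv.trans_apply, Equiv.swap_apply_left,
        Equiv.swap_apply_of_ne_of_ne hp k1.symm, k3]
      abel
    by_cases e3 : x = π r
    · rw [e3, k4, Equiv.trans_apply, Equiv.trans_apply, Equiv.swap_apply_left, Equiv.swap_apply_right,
        k3]
    · rw [k5 x e3 e2, Equiv.trans_apply, Equiv.trans_apply, Equiv.swap_apply_of_ne_of_ne e1 e3,
        Equiv.swap_apply_of_ne_of_ne e2 e3]

theorem hall_diff (f : A → A) (hf : ∑ a, f a = 0) :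
    ∃ σ τ : Equiv.Perm A, ∀ a, τ a - σ a = f a := by
  have key : ∀ S : Finset A, 0 ∉ S → ∃ σ τ : Equiv.Perm A, ∀ a ∈ S, τ a - σ a = f a := fun S => by
    induction S using Finset.induction_on with
    | empty => exact fun _ => ⟨1, 1, by simp⟩
    | insert p S hp ih =>
      intro h0
      rw [mem_insert, not_or] at h0
      obtain ⟨σ, τ, h⟩ := ih h0.2
      have h1 : ∃ t, (fun i => τ.symm (σ p + σ 0 + f p - σ i))^[t + 1] 0 = p ∨
          (fun i => τ.symm (σ p + σ 0 + f p - σ i))^[t + 1] 0 = 0 := by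
        obtain ⟨t, h1, h2⟩ := (τ.symm.injective.comp ((sub_right_injective
          (b := σ p + σ 0 + f p)).comp σ.injective)).mem_periodicPts 0
        exact ⟨t - 1, Or.inr (by rw [Nat.sub_add_cancel h1]; exact h2)⟩
      obtain ⟨σ', τ', k1, k2⟩ := hall_step _ 0 (Nat.find h1) σ τ p (Ne.symm h0.1) (Nat.find_spec h1)
        fun s hs => not_or.1 (Nat.find_min h1 hs)
      refine ⟨σ', τ', fun a ha => ?_⟩
      rcases mem_insert.1 ha with rfl | ha
      · rw [k1]; abel
      · rw [k2 a (fun e => hp (e ▸ ha)) (fun e => h0.2 (e ▸ ha)), h a ha]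
  obtain ⟨σ, τ, h⟩ := key (univ.erase 0) (notMem_erase _ _)
  refine ⟨σ, τ, fun a => ?_⟩
  by_cases ha : a = 0
  · have h1 : ∑ a, (τ a - σ a) = ∑ a, f a := by
      rw [hf, sum_sub_distrib, Equiv.sum_comp τ fun a => a, Equiv.sum_comp σ fun a => a, sub_self]
    rw [← add_sum_erase _ _ (mem_univ 0), ← add_sum_erase _ _ (mem_univ 0), sum_congr rfl h] at h1
    exact ha ▸ add_right_cancel h1
  · exact h a (mem_erase.2 ⟨ha, mem_univ _⟩)

theorem exists_bundle (α : A ≃ A) (f : A → A) (hf : ∑ a, f a = 0) :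
    ∃ θ : Equiv.Perm A, ∀ F : A → ℕ, ∑ a, F (θ a - α a) = ∑ a, F (f a) := by
  obtain ⟨σ, τ, h⟩ := hall_diff f hf
  refine ⟨(α.trans σ.symm).trans τ, fun F => ?_⟩
  rw [← Equiv.sum_comp (σ.trans α.symm)]
  simp [h]

theorem sum_two_update {M : Type} [AddCommMonoid M] (F : A → M) {a b : A} (h : a ≠ b) (u v : A) :
    ∑ x, F (if x = a then u else if x = b then v else x) + (F a + F b) = ∑ x, F x + (F u + F v) := by
  have h1 : b ∈ univ.erase a := mem_erase.2 ⟨h.symm, mem_univ _⟩
  rw [← add_sum_erase _ _ (mem_univ a), ← add_sum_erase _ _ h1, ← add_sum_erase _ F (mem_univ a),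
    ← add_sum_erase _ F h1, sum_congr rfl (g := F) fun x hx => by
      rw [if_neg (mem_erase.1 (mem_erase.1 hx).2).1, if_neg (mem_erase.1 hx).1],
    if_pos rfl, if_neg h.symm, if_pos rfl]
  abel

theorem exists_triple (h0 : ∑ a : A, a = 0) (α : A ≃ A) (p p' δ : A) :
    ∃ θ η η' : Equiv.Perm A, (p ≠ p' → δ ≠ 0 → θ p - θ p' = δ) ∧ ∀ F : A → ℕ,
      ∑ a, F (θ a - α a) + ∑ a, F (η a - α a) + ∑ a, F (η' a - α a) = 3 * ∑ a, F a := by
  obtain ⟨θ, h1⟩ := exists_bundle α (fun a => a) h0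
  by_cases h2 : p ≠ p' → δ ≠ 0 → θ p - θ p' = δ
  · exact ⟨θ, θ, θ, h2, fun F => by rw [h1]; ring⟩
  simp only [Classical.not_imp] at h2
  obtain ⟨h2, h3, h4⟩ := h2
  obtain ⟨q, hq⟩ := θ.surjective (θ p - δ)
  have h5 : p ≠ q := fun h => h3 (sub_eq_self.1 (h ▸ hq).symm)
  have h6 : p' ≠ q := fun h => h4 (by rw [h, hq]; abel)
  have h7 : 3 ≤ Nat.card A := by
    by_contra h7
    have h8 : ({0, δ} : Finset A) = univ := eq_univ_of_card _ (le_antisymm (card_le_univ _) (by
      rw [card_pair h3.symm, ← Nat.card_eq_fintype_card]; omega))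
    rw [← h8, sum_pair h3.symm, zero_add] at h0
    exact h3 h0
  obtain ⟨e, e1, e2⟩ := exists_third h7 (θ p' - α q) (θ q - α p' + (θ q - θ p'))
  have e3 : θ q - α p' ≠ e + (θ p' - θ q) := fun h => e2 (by rw [h]; abel)
  obtain ⟨η, k1⟩ := exists_bundle α (fun x => if x = θ q - α p' then θ p' - α p'
    else if x = e + (θ p' - θ q) then e else x) (by
      have := sum_two_update (fun x : A => x) e3 (θ p' - α p') e
      rw [h0, zero_add] at this
      exact add_right_cancel (this.trans (by abel)))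
  obtain ⟨η', k2⟩ := exists_bundle α (fun x => if x = θ p' - α q then θ q - α q
    else if x = e then e + (θ p' - θ q) else x) (by
      have := sum_two_update (fun x : A => x) e1.symm (θ q - α q) (e + (θ p' - θ q))
      rw [h0, zero_add] at this
      exact add_right_cancel (this.trans (by abel)))
  refine ⟨(Equiv.swap p' q).trans θ, η, η', fun _ _ => by
    rw [Equiv.trans_apply, Equiv.trans_apply, Equiv.swap_apply_left,
      Equiv.swap_apply_of_ne_of_ne h2 h5, hq]; abel, fun F => ?_⟩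
  have k3 := sum_two_update F e3 (θ p' - α p') e
  have k4 := sum_two_update F e1.symm (θ q - α q) (e + (θ p' - θ q))
  have k5 := h1 F
  have k6 : q ∈ univ.erase p' := mem_erase.2 ⟨h6.symm, mem_univ _⟩
  rw [← add_sum_erase _ _ (mem_univ p'), ← add_sum_erase _ _ k6] at k5
  rw [k1, k2, ← add_sum_erase _ _ (mem_univ p'), ← add_sum_erase _ _ k6,
    sum_congr rfl (g := fun a => F (θ a - α a)) fun x hx => by
      rw [Equiv.trans_apply, Equiv.swap_apply_of_ne_of_ne (mem_erase.1 (mem_erase.1 hx).2).1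
        (mem_erase.1 hx).1], Equiv.trans_apply, Equiv.trans_apply, Equiv.swap_apply_left,
    Equiv.swap_apply_right]
  omega

theorem prod_univ_eq_one {Q : Type} [CommGroup Q] [Fintype Q]
    (h : ∀ u : Q, u ≠ 1 → u * u = 1 → ∃ v, v ≠ 1 ∧ v * v = 1 ∧ v ≠ u) : ∏ x : Q, x = 1 := by
  classical
  rw [← prod_filter_mul_prod_filter_not univ fun x => x * x = 1, prod_involution (s := univ.filter
    fun x : Q => ¬ x * x = 1) (fun x _ => x⁻¹) (fun x _ => mul_inv_cancel x) (fun x hx _ e =>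
      (mem_filter.1 hx).2 (by nth_rewrite 1 [← e]; exact inv_mul_cancel x))
    (fun x hx => mem_filter.2 ⟨mem_univ _, by
      rw [← mul_inv, inv_eq_one]; exact (mem_filter.1 hx).2⟩) (fun x _ => inv_inv x), mul_one]
  have key : ∀ u : Q, u ≠ 1 → u * u = 1 → ∏ x ∈ univ.filter fun x : Q => x * x = 1, x = 1 ∨
      ∏ x ∈ univ.filter fun x : Q => x * x = 1, x = u := fun u h1 h2 => by
    rw [← mem_zpowers_inv h2, ← QuotientGroup.eq_one_iff, ← QuotientGroup.mk'_apply, map_prod]
    refine prod_involution (fun x _ => x * u) (fun x hx => ?_) (fun x _ _ => by simpa using h1)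
      (fun x hx => mem_filter.2 ⟨mem_univ _, by
        rw [mul_mul_mul_comm, (mem_filter.1 hx).2, h2, one_mul]⟩) fun x _ => by rw [mul_assoc, h2, mul_one]
    rw [← map_mul, ← mul_assoc, (mem_filter.1 hx).2, one_mul, QuotientGroup.mk'_apply,
      QuotientGroup.eq_one_iff]
    exact Subgroup.mem_zpowers u
  by_cases h1 : ∃ u : Q, u ≠ 1 ∧ u * u = 1
  · obtain ⟨u, h1, h2⟩ := h1
    obtain ⟨v, h3, h4, h5⟩ := h u h1 h2
    exact (key u h1 h2).elim id fun e => (key v h3 h4).resolve_right fun e' => h5 (e'.symm.trans e)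
  · exact prod_eq_one fun x hx => by_contra fun e => h1 ⟨x, e, (mem_filter.1 hx).2⟩

end Pool.Agent.Lib.MP_0becda_co.Coset
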