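import Pool.Agent.Lib.MP_0becda_co.Coset.Twist2
import Pool.Agent.Lib.MP_0becda_co.Coset.AltMain
import Pool.Agent.Lib.MP_0becda_co.PSL.Inst

/-!
Central quotients of the groups between the special and the general linear group.
-/

open Finset Matrix Pool.Agent.Lib.MP_0becda_co.PSL

namespace Pool.Agent.Lib.MP_0becda_co.Coset

theorem ter_of_equiv {G H : Type} [Group G] [Group H] (e : H ≃* G) (h : Ter H) : Ter G := by
  obtain ⟨V, E, a, b, hp, hV, hE⟩ := h
  refine ⟨_, _, _, _, hp.map e.toMonoidHom, fun g => ?_, fun g => ?_⟩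
  · obtain ⟨x, rfl⟩ := e.surjective g
    exact (C_map_inj V (f := e.toMonoidHom) e.injective x).trans (hV x)
  · obtain ⟨x, rfl⟩ := e.surjective g
    refine (W_map_hom e.toMonoidHom e.injective E x).trans ?_
    rw [hE, ind_congr (map_ne_one_iff e e.injective)]

variable {G : Type} [Group G] [Fintype G] {F : Type} [Field F] [Fintype F] {n : ℕ}
  {ρ : G →* Matrix (Fin n) (Fin n) F}

omit [Fintype G] [Fintype F] in
theorem center_scalar (hSL : ∀ M : Matrix (Fin n) (Fin n) F, M.det = 1 → ∃ g, ρ g = M) {z : G}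
    (hz : z ∈ Subgroup.center G) : ∃ c : F, ρ z = c • (1 : Matrix (Fin n) (Fin n) F) := by
  obtain ⟨c, hc⟩ := mem_range_scalar_of_commute_transvectionStruct (M := ρ z) fun t => by
    obtain ⟨g, hg⟩ := hSL t.toMatrix t.det
    rw [← hg, Commute, SemiconjBy, ← map_mul, ← map_mul, Subgroup.mem_center_iff.1 hz]
  exact ⟨c, by rw [← hc, scalar_apply, smul_one_eq_diagonal]⟩

theorem ct_linear (hF : 3 ≤ Fintype.card F) (hρ : Function.Injective ρ)
    (hSL : ∀ M : Matrix (Fin n) (Fin n) F, M.det = 1 → ∃ g, ρ g = M) (Z : Subgroup G)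
    (hZ : Z ≤ Subgroup.center G) (hn : n = 2 → Odd (Nat.card Z)) : CT Z := by
  classical
  rcases Nat.even_or_odd (Fintype.card F) with he | ho
  · have h2 : ringChar F = 2 := FiniteField.even_card_iff_char_two.2 (Nat.even_iff.1 he)
    have : CharP F 2 := h2 ▸ ringChar.charP F
    refine ct_char_two (by obtain ⟨k, hk⟩ := he; omega) hρ hSL Z fun z hz a b h => ?_
    obtain ⟨c, hc⟩ := center_scalar hSL (hZ hz)
    simp [hc, h]
  obtain _ | n := n
  · rw [(Subgroup.eq_top_iff' Z).2 fun g => hρ (Subsingleton.elim (ρ 1) (ρ g)) ▸ one_mem Z]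
    exact ct_top
  obtain ⟨a, m, hm, h1⟩ := Nat.exists_eq_two_pow_mul_odd (n := Fintype.card F - 1) (by omega)
  let C : Subgroup Fˣ := (powMonoidHom m).ker
  have hC : ∀ u, u ∈ C ↔ u ^ m = 1 := fun u => Iff.rfl
  have h2 : -1 ∉ C := fun h => by
    have h3 := congrArg Units.val ((hC _).1 h)
    rw [hm.neg_one_pow, Units.val_neg, Units.val_one, neg_eq_iff_add_eq_zero, one_add_one_eq_two] at h3
    have h4 := FiniteField.even_card_iff_char_two.1 (CharP.ringChar_of_prime_eq_zero Nat.prime_two h3)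
    obtain ⟨k, hk⟩ := ho
    omega
  let D : Subgroup G := C.comap (detMonoidHom.comp ρ).toHomUnits
  choose c hc using fun z : Z => center_scalar hSL (hZ z.2)
  have h3 : ∀ z w, c (z * w) = c z * c w := fun z w => by
    have := congrFun (congrFun (hc (z * w)) 0) 0
    rw [Subgroup.coe_mul, map_mul, hc, hc] at this
    simpa [mul_comm] using this.symm
  have h4 : c 1 = 1 := by simpa using (congrFun (congrFun (hc 1) 0) 0).symm
  let ζ : Z →* F := ⟨⟨c, h4⟩, h3⟩
  let S : Tw ρ D C Z :=
    { ζ := ζ.toHomUnits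
      act := fun z v => by rw [hc, smul_mulVec, one_mulVec]; rfl
      cen := hZ
      det := fun g => ⟨fun h => ⟨_, h, rfl⟩, fun ⟨u, hu, h⟩ => by
        rwa [← show (detMonoidHom.comp ρ).toHomUnits g = u from Units.ext h] at hu⟩ }
  refine S.ct ho hρ (fun M h => (hSL M h).elim fun g hg =>
      ⟨g, (S.det g).2 ⟨1, one_mem _, hg ▸ h⟩, hg⟩)
    (fun u => ⟨a, (hC _).2 ?_⟩) h2 (fun u hu => ?_) fun h h5 => h2 ?_
  · rw [← pow_mul, ← h1, ← Fintype.card_units, pow_card_eq_one]
  · have h5 := congrArg Units.val ((hC _).1 hu)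
    rw [← pow_mul, mul_comm, pow_mul, pow_two, Units.val_mul, Units.val_one,
      mul_self_eq_one_iff] at h5
    refine h5.imp (fun h => Units.ext h) fun h => (hC _).2 (Units.ext ?_)
    rw [hm.neg_pow, Units.val_neg, h, neg_neg, Units.val_one]
  · obtain ⟨u, hu, z, -, h6⟩ := S.exists_z h5
    have h7 := congrArg (· ^ Nat.card Z) h6
    simp only [(hn h).neg_one_pow, mul_pow, ← map_pow, pow_card_eq_one', map_one, mul_one] at h7
    exact h7 ▸ pow_mem hu _

theorem ter_linear (hF : 3 ≤ Fintype.card F) (H : Subgroup (GL (Fin n) F))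
    (hH : ∀ A : SpecialLinearGroup (Fin n) F, SpecialLinearGroup.toGL A ∈ H) {Q : Type} [Group Q]
    (f : H →* Q) (hf : Function.Surjective f) (hZ : f.ker ≤ Subgroup.center H)
    (hn : n = 2 → Odd (Nat.card f.ker) ∨ Odd (f.ker.relIndex (Subgroup.center H))) : Ter Q := by
  classical
  let _ := Fintype.ofFinite H
  let ρ : H →* Matrix (Fin n) (Fin n) F := (Units.coeHom _).comp H.subtype
  have hSL : ∀ M : Matrix (Fin n) (Fin n) F, M.det = 1 → ∃ g, ρ g = M :=
    fun M h => ⟨⟨_, hH ⟨M, h⟩⟩, rfl⟩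
  by_cases h : n = 2 → Odd (Nat.card f.ker)
  · exact ter_of_equiv (QuotientGroup.quotientKerEquivOfSurjective f hf) (ter_of_ct _
      (ct_linear hF (Units.val_injective.comp Subtype.val_injective) hSL _ hZ h))
  rw [Classical.not_imp] at h
  obtain ⟨rfl, h⟩ := h
  have : Finite Q := Finite.of_surjective f hf
  let π : H →* ProjGenLinGroup (Fin 2) F := ProjGenLinGroup.mk.comp H.subtype
  have h1 : π.ker = Subgroup.center H := le_antisymm (fun z hz => Subgroup.mem_center_iff.2
    fun g => Subtype.ext (Subgroup.mem_center_iff.1 (ProjGenLinGroup.mk_eq_one.1 hz) g))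
    fun z hz => ProjGenLinGroup.mk_eq_one.2 (Subgroup.mem_center_iff.2 fun g => Units.ext (by
      obtain ⟨c, hc⟩ := center_scalar hSL hz
      change (g : Matrix (Fin 2) (Fin 2) F) * ρ z = ρ z * g
      simp [hc]))
  have h2 : Ter π.range := ter_pgl (by rintro _ ⟨A, rfl⟩; exact ⟨⟨_, hH A⟩, rfl⟩) hF
  have h3 : ((Subgroup.center H).map f).Normal := Subgroup.Normal.map inferInstance f hf
  have h4 : Group.IsSolvable ((Subgroup.center H).map f) :=
    Group.isSolvable_of_comm fun ⟨_, a, ha, rfl⟩ ⟨_, b, _, rfl⟩ => Subtype.ext (by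
      simp only [Subgroup.coe_mul, ← map_mul, Subgroup.mem_center_iff.1 ha b])
  refine ter_odd_kernel _ ((Subgroup.center H).map f) rfl ?_ (ter_of_equiv ?_ h2)
  · rw [← Subgroup.relIndex_ker]
    exact (hn rfl).resolve_left h
  · refine (QuotientGroup.quotientKerEquivRange π).symm.trans
      ((QuotientGroup.quotientMulEquivOfEq (h1.trans ?_)).trans
        (QuotientGroup.quotientKerEquivOfSurjective ((QuotientGroup.mk' _).comp f)
          ((QuotientGroup.mk'_surjective _).comp hf)))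
    rw [← MonoidHom.comap_ker, QuotientGroup.ker_mk', Subgroup.comap_map_eq_self hZ]

end Pool.Agent.Lib.MP_0becda_co.Coset
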