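import Pool.Agent.Lib.MP_0becda_co.Coset.Free
import Pool.Agent.Lib.MP_0becda_co.PSL.Odd

/-!
Fibres that are split into blocks indexed by a cyclic group of even order.
-/

set_option linter.unusedSectionVars false

open Finset Pool.Agent.Lib.MP_0becda_co.PSL

namespace Pool.Agent.Lib.MP_0becda_co.Coset

theorem zsum {M : Type} [AddCommMonoid M] {n : ℕ} [NeZero n] (G : ZMod n → M) :
    ∑ c, G c = ∑ i ∈ range n, G i :=
  sum_bij' (fun c _ => c.val) (fun i _ => (i : ZMod n)) (fun c _ => mem_range.2 c.val_lt)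
    (fun _ _ => mem_univ _) (fun c _ => ZMod.natCast_zmod_val c)
    (fun _ hi => ZMod.val_cast_of_lt (mem_range.1 hi)) fun c _ => by rw [ZMod.natCast_zmod_val]

theorem sum_par (F : ℕ → ℕ) (h : ℕ) :
    ∑ i ∈ range (2 * h), F i = ∑ j ∈ range h, F (2 * j) + ∑ j ∈ range h, F (2 * j + 1) := by
  induction h with
  | zero => simp
  | succ h ih =>
    rw [Nat.mul_succ, sum_range_succ, sum_range_succ, ih, sum_range_succ, sum_range_succ]
    ring

theorem exists_der {X : Type} [Fintype X] [DecidableEq X] (S : Finset X) (h : S.card ≠ 1) :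
    ∃ τ : Equiv.Perm X, ∀ x, τ x = x ↔ x ∉ S := by
  refine ⟨S.toList.formPerm, fun x => ?_⟩
  rw [← Equiv.Perm.notMem_support, List.support_formPerm_of_nodup _ (nodup_toList _) fun y h1 => by
    have := congrArg List.length h1
    rw [length_toList, List.length_singleton] at this
    exact h this]
  simp

variable {h : ℕ} [NeZero h]

instance neZero_two_mul : NeZero (2 * h) := ⟨mul_ne_zero two_ne_zero (NeZero.ne h)⟩

theorem h_add_h : (h : ZMod (2 * h)) + h = 0 := by
  rw [← Nat.cast_add, ← two_mul, ZMod.natCast_self]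

/-- a permutation of a cyclic group of even order whose differences are almost all distinct -/
theorem exists_near : ∃ π : Equiv.Perm (ZMod (2 * h)), π 0 = 0 ∧
    ∀ G : ZMod (2 * h) → ℕ, ∑ a, G (π a - a) + G h = ∑ c, G c + G 0 := by
  have h0 := NeZero.pos h
  have ci : ∀ F : ℕ → ℕ, (∀ v < 2 * h, F v < 2 * h) →
      (∀ v < 2 * h, ∀ w < 2 * h, F v = F w → v = w) →
      Function.Bijective fun a : ZMod (2 * h) => (F a.val : ZMod (2 * h)) := fun F h1 h2 =>
    Function.Injective.bijective_of_finite fun a b hab => ZMod.val_injective _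
      (h2 _ a.val_lt _ b.val_lt (by
        have := congrArg ZMod.val hab
        rwa [ZMod.val_cast_of_lt (h1 _ a.val_lt), ZMod.val_cast_of_lt (h1 _ b.val_lt)] at this))
  let pn : ℕ → ℕ := fun v => if v < h then 2 * v else 2 * v + 1 - 2 * h
  let dn : ℕ → ℕ := fun v =>
    if v = 0 then h else if v < h then v else if v + 1 = 2 * h then 0 else v + 1
  have h1 := ci pn (fun v hv => by simp only [pn]; split_ifs <;> omega)
    fun v hv w hw => by simp only [pn]; split_ifs <;> omega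
  have h2 := ci dn (fun v hv => by simp only [dn]; split_ifs <;> omega)
    fun v hv w hw h => by simp only [dn] at h; split_ifs at h <;> omega
  refine ⟨Equiv.ofBijective _ h1, by simp [pn, h0], fun G => ?_⟩
  rw [← h2.sum_comp G, ← add_sum_erase _ _ (mem_univ 0), ← add_sum_erase _ _ (mem_univ 0),
    sum_congr rfl (g := fun a : ZMod (2 * h) => G (dn a.val)) fun a ha => ?_]
  · simp [pn, dn, h0]; ring
  · have h3 : a.val ≠ 0 := fun h4 => (mem_erase.1 ha).1 ((ZMod.val_eq_zero a).1 h4)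
    have h4 := a.val_lt
    have h5 : pn a.val = a.val + dn a.val ∨ pn a.val + 2 * h = a.val + dn a.val := by
      simp only [pn, dn]; split_ifs <;> omega
    congr 1
    rw [sub_eq_iff_eq_add']
    rcases h5 with h5 | h5 <;> have h6 := congrArg (Nat.cast : ℕ → ZMod (2 * h)) h5
    · rwa [Nat.cast_add, ZMod.natCast_zmod_val] at h6
    · rwa [Nat.cast_add, Nat.cast_add, ZMod.natCast_zmod_val, ZMod.natCast_self, add_zero] at h6

section sigma

variable {P : Type} [Fintype P] [DecidableEq P]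

theorem row_sum {A : Type} [AddCommGroup A] [Fintype A] {f : P × A → P × A → ℕ} {g0 g : A → ℕ}
    {ω : P → P → A} (h1 : ∀ t a a', f (t, a) (t, a') = g0 (a' - a))
    (h2 : ∀ t t' a a', t ≠ t' → f (t, a) (t', a') = g (a + a' + ω t t')) (x : P × A) :
    ∑ y, f x y = ∑ c, g0 c + (Fintype.card P - 1) * ∑ c, g c := by
  obtain ⟨t, a⟩ := x
  rw [Fintype.sum_prod_type, ← add_sum_erase _ _ (mem_univ t), ← smul_eq_mul, ← card_univ,
    ← card_erase_of_mem (mem_univ t), ← sum_const]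
  congr 1
  · simp only [h1]
    exact (Equiv.subRight a).sum_comp g0
  · refine sum_congr rfl fun t' ht => ?_
    simp only [h2 t t' _ _ (mem_erase.1 ht).1.symm]
    exact ((Equiv.addLeft a).trans (Equiv.addRight (ω t t'))).sum_comp g

theorem exists_sigma (hb : 5 ≤ Fintype.card P) (ω : P → P → ZMod (2 * h))
    (hω : ∀ t t', t ≠ t' → ω t' t = ω t t' + h) : ∃ σ : Equiv.Perm (P × ZMod (2 * h)),
    ∀ (f : P × ZMod (2 * h) → P × ZMod (2 * h) → ℕ) (g0 g : ZMod (2 * h) → ℕ),
      (∀ t a a', f (t, a) (t, a') = g0 (a' - a)) →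
      (∀ t t' a a', t ≠ t' → f (t, a) (t', a') = g (a + a' + ω t t')) →
      (Even (Fintype.card P) ∨ g 0 = g h) →
      Fintype.card (P × ZMod (2 * h)) * ∑ x, f x (σ x) = ∑ x, ∑ y, f x y := by
  obtain ⟨π, hπ0, hπ⟩ := exists_near (h := h)
  obtain ⟨p0, p2, h02⟩ := Fintype.one_lt_card_iff.1 (show 1 < Fintype.card P by omega)
  have hR : ((univ.erase p0).erase p2).card = Fintype.card P - 2 := by
    rw [card_erase_of_mem (by simp [h02.symm]), card_erase_of_mem (mem_univ _), card_univ]; omega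
  obtain ⟨S, hS, hc⟩ := exists_subset_card_eq (s := (univ.erase p0).erase p2)
    (n := (Fintype.card P - 2) / 2) (by omega)
  obtain ⟨p1, hp1⟩ : S.Nonempty := card_pos.1 (by omega)
  have h12 : p1 ≠ p2 := (mem_erase.1 (hS hp1)).1
  have h10 : p1 ≠ p0 := (mem_erase.1 (mem_erase.1 (hS hp1)).2).1
  obtain ⟨τ, hτ⟩ := exists_der (((univ.erase p0).erase p2).erase p1) (by
    rw [card_erase_of_mem (hS hp1)]; omega)
  let τ' := τ * Equiv.swap p1 p2
  have t0 : τ' p0 = p0 := by
    rw [Equiv.Perm.mul_apply, Equiv.swap_apply_of_ne_of_ne h10.symm h02, hτ]; simp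
  have t1 : τ' p1 = p2 := by rw [Equiv.Perm.mul_apply, Equiv.swap_apply_left, hτ]; simp
  have t2 : τ' p2 = p1 := by rw [Equiv.Perm.mul_apply, Equiv.swap_apply_right, hτ]; simp
  have t3 : ∀ t, t ≠ p0 → t ≠ τ' t := fun t ht h1 => by
    by_cases h2 : t = p1
    · exact h12 (by rw [← t1, ← h2, ← h1])
    by_cases h3 : t = p2
    · exact h12 (by rw [← t2, ← h3, ← h1])
    rw [Equiv.Perm.mul_apply, Equiv.swap_apply_of_ne_of_ne h2 h3, eq_comm, hτ] at h1
    exact h1 (by simp [ht, h2, h3])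
  let κ : P → ZMod (2 * h) := fun t => if t = p2 then h + ω p2 p1 else if t ∈ S then h else 0
  let e := ω p2 p1 - ω p2 p0
  let β : Equiv.Perm (P × ZMod (2 * h)) := Equiv.prodShear τ' fun t => if t = p0 then
    ((Equiv.subRight e).trans π).trans (Equiv.addRight e) else
    ((Equiv.neg _).trans π).trans (Equiv.addRight (κ t - ω t (τ' t)))
  have b0 : ∀ a, β (p0, a) = (p0, π (a - e) + e) := fun a => by simp [β, t0]
  have b1 : ∀ t, t ≠ p0 → ∀ a, β (t, a) = (τ' t, π (-a) + (κ t - ω t (τ' t))) :=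
    fun t ht a => by simp [β, ht]
  have n1 : ((p0, e) : P × ZMod (2 * h)) ≠ (p1, 0) := by simp [h10.symm]
  have n2 : ((p0, e) : P × ZMod (2 * h)) ≠ (p2, 0) := by simp [h02]
  have n3 : ((p1, 0) : P × ZMod (2 * h)) ≠ (p2, 0) := by simp [h12]
  refine ⟨β * (Equiv.swap (p0, e) (p1, 0) * Equiv.swap (p1, 0) (p2, 0)),
    fun f g0 g h1 h2 h3 => ?_⟩
  rw [sum_congr rfl fun x _ => row_sum h1 h2 x, sum_const, smul_eq_mul, card_univ]
  congr 1
  have k0 : ∑ a, f (p0, a) (β (p0, a)) + g0 h = ∑ c, g0 c + g0 0 := by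
    rw [← hπ g0, ← (Equiv.subRight e).sum_comp fun a => g0 (π a - a)]
    simp only [b0, h1]
    congr 1
    exact sum_congr rfl fun a _ => by congr 1; simp; ring
  have k1 : ∀ t ∈ univ.erase p0, ∑ a, f (t, a) (β (t, a)) + g (h + κ t) = ∑ c, g c + g (κ t) :=
    fun t ht => by
      have h4 := hπ fun c => g (c + κ t)
      rw [show ∑ c, g (c + κ t) = ∑ c, g c from Equiv.sum_comp (Equiv.addRight (κ t)) g, zero_add,
        ← Equiv.sum_comp (Equiv.neg _) fun a => g (π a - a + κ t)] at h4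
      rw [← h4]
      simp only [b1 t (mem_erase.1 ht).1, h2 _ _ _ _ (t3 t (mem_erase.1 ht).1)]
      congr 1
      exact sum_congr rfl fun a _ => by congr 1; simp; ring
  have k2 := sum_congr rfl k1
  rw [sum_add_distrib, sum_add_distrib, sum_const, smul_eq_mul, card_erase_of_mem (mem_univ _),
    card_univ, ← add_sum_erase _ (fun t => g (h + κ t)) (show p2 ∈ univ.erase p0 by simp [h02.symm]),
    ← add_sum_erase _ (fun t => g (κ t)) (show p2 ∈ univ.erase p0 by simp [h02.symm])] at k2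
  have k3 : ∀ c, ∑ t ∈ (univ.erase p0).erase p2, g (c + κ t)
      = S.card * g (c + h) + (Fintype.card P - 2 - S.card) * g c := fun c => by
    rw [← sum_sdiff hS, add_comm, ← hR, ← card_sdiff_of_subset hS, ← smul_eq_mul (#S),
      ← smul_eq_mul (#(_ \ S)), ← sum_const, ← sum_const]
    congr 1 <;> refine sum_congr rfl fun t ht => ?_
    · simp [κ, ht, (mem_erase.1 (hS ht)).1]
    · simp [κ, (mem_sdiff.1 ht).2, (mem_erase.1 (mem_sdiff.1 ht).1).1]
  have k4 : ∑ t ∈ (univ.erase p0).erase p2, g (h + κ t)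
      = ∑ t ∈ (univ.erase p0).erase p2, g (κ t) := by
    have h4 := k3 0
    simp only [zero_add] at h4
    rw [h4, k3, h_add_h]
    rcases h3 with ⟨k, hk⟩ | h3
    · rw [show Fintype.card P - 2 - S.card = S.card by omega, add_comm]
    · rw [h3]
  have k5 : ∑ x, f x (β x) = ∑ a, f (p0, a) (β (p0, a))
      + ∑ t ∈ univ.erase p0, ∑ a, f (t, a) (β (t, a)) := by
    rw [Fintype.sum_prod_type, add_sum_erase _ (fun t => ∑ a, f (t, a) (β (t, a))) (mem_univ p0)]
  have k6 : ∀ F : P × ZMod (2 * h) → ℕ, ∑ x, F x = F (p0, e) + (F (p1, 0) + (F (p2, 0)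
      + ∑ x ∈ ((univ.erase (p0, e)).erase (p1, 0)).erase (p2, 0), F x)) := fun F => by
    rw [add_sum_erase _ _ (by simp [n2.symm, n3.symm]), add_sum_erase _ _ (by simp [n1.symm]),
      add_sum_erase _ _ (mem_univ _)]
  have w1 : ω p1 p2 = ω p2 p1 + h := hω _ _ h12.symm
  have w2 : ω p0 p2 = ω p2 p0 + h := hω _ _ h02.symm
  have c1 : β (p1, 0) = (p2, -ω p2 p1) := by
    rw [b1 _ h10, t1, neg_zero, hπ0, w1]; simp [κ, h12, hp1]
  have c2 : β (p2, 0) = (p1, (h : ZMod (2 * h))) := by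
    rw [b1 _ h02.symm, t2, neg_zero, hπ0]; simp [κ]
  have c0 : β (p0, e) = (p0, e) := by rw [b0, sub_self, hπ0, zero_add]
  rw [k6 fun x => f x (β x), c0, c1, c2, h1, h2 _ _ _ _ h12, h2 _ _ _ _ h12.symm] at k5
  rw [k6, sum_congr rfl (g := fun x => f x (β x)) fun x hx => by
    simp only [mem_erase] at hx
    rw [Equiv.Perm.mul_apply, Equiv.Perm.mul_apply, Equiv.swap_apply_of_ne_of_ne hx.2.1 hx.1,
      Equiv.swap_apply_of_ne_of_ne hx.2.2.1 hx.2.1]]
  simp only [Equiv.Perm.mul_apply, Equiv.swap_apply_left, Equiv.swap_apply_right,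
    Equiv.swap_apply_of_ne_of_ne n1 n2, Equiv.swap_apply_of_ne_of_ne n2.symm n3.symm, c0, c1, c2,
    h1, h2 _ _ _ _ h02, h2 _ _ _ _ h02.symm]
  have e1 : e + -ω p2 p1 + ω p0 p2 = h := by rw [w2]; simp only [e]; ring
  have e2 : 0 + e + ω p2 p0 = ω p2 p1 := by simp only [e]; ring
  have e3 : 0 + -ω p2 p1 + ω p1 p2 = h := by rw [w1]; ring
  have e4 : h + κ p2 = ω p2 p1 := by simp [κ, ← add_assoc, h_add_h]
  have e5 : κ p2 = 0 + h + ω p2 p1 := by simp [κ]
  rw [e3, sub_self] at k5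
  rw [e4, e5, k4] at k2
  rw [e1, e2, sub_zero]
  omega

end sigma

/-- three permutations of eight points -/
def s4 (j : Fin 3) (u : Fin 4 → ZMod 2) (x : Fin 4 × ZMod 2) : Fin 4 × ZMod 2 :=
  (fun y : Fin 4 × ZMod 2 => (y.1, y.2 + u y.1))
    (![![![(0, 0), (1, 0)], ![(1, 1), (2, 0)], ![(3, 0), (3, 1)], ![(0, 1), (2, 1)]],
      ![![(0, 0), (1, 0)], ![(1, 1), (3, 0)], ![(0, 1), (3, 1)], ![(2, 0), (2, 1)]],
      ![![(0, 0), (1, 0)], ![(2, 0), (2, 1)], ![(0, 1), (3, 1)], ![(1, 1), (3, 0)]]]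
      j x.1 (x.2 + u x.1))

theorem sigma_four (ω : Fin 4 → Fin 4 → ZMod 2) (hω : ∀ t t', t ≠ t' → ω t' t = ω t t' + 1) :
    ∃ σ : Equiv.Perm (Fin 4 × ZMod 2),
    ∀ (f : Fin 4 × ZMod 2 → Fin 4 × ZMod 2 → ℕ) (g0 g : ZMod 2 → ℕ),
      (∀ t a a', f (t, a) (t, a') = g0 (a' - a)) →
      (∀ t t' a a', t ≠ t' → f (t, a) (t', a') = g (a + a' + ω t t')) →
      Fintype.card (Fin 4 × ZMod 2) * ∑ x, f x (σ x) = ∑ x, ∑ y, f x y := by
  have key : ∀ a b c d e k : ZMod 2, ∃ j, Function.Injective (s4 j ![0, a, b, c]) ∧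
      (univ.val.map fun x : Fin 4 × ZMod 2 => if x.1 = (s4 j ![0, a, b, c] x).1
        then (true, (s4 j ![0, a, b, c] x).2 - x.2) else (false, x.2 + (s4 j ![0, a, b, c] x).2 +
          ![![0, a, b, c], ![a + 1, 0, d, e], ![b + 1, d + 1, 0, k], ![c + 1, e + 1, k + 1, 0]]
            x.1 (s4 j ![0, a, b, c] x).1)) = {(true, 0), (true, 1), (false, 0), (false, 1),
              (false, 0), (false, 1), (false, 0), (false, 1)} := by
    decide +kernel
  obtain ⟨j, h1, h2⟩ := key (ω 0 1) (ω 0 2) (ω 0 3) (ω 1 2) (ω 1 3) (ω 2 3)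
  refine ⟨Equiv.ofBijective _ h1.bijective_of_finite, fun f g0 g h3 h4 => ?_⟩
  rw [sum_congr rfl fun x _ => row_sum h3 h4 x, sum_const, smul_eq_mul, card_univ]
  congr 1
  have h5 := congrArg (fun s => (s.map fun p : Bool × ZMod 2 => if p.1 then g0 p.2 else g p.2).sum) h2
  have h6 : ∀ F : ZMod 2 → ℕ, ∑ c, F c = F 0 + F 1 := fun F => Fin.sum_univ_two F
  simp only [Multiset.map_map] at h5
  refine (sum_congr rfl fun x _ => ?_).trans (h5.trans (by simp [h6]; ring))
  rw [Equiv.ofBijective_apply, Function.comp_apply]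
  generalize s4 j _ x = y
  obtain ⟨t, a⟩ := x
  obtain ⟨t', a'⟩ := y
  by_cases h : t = t'
  · subst h
    simp [h3]
  · rw [h4 _ _ _ _ h, if_neg h, if_neg (by simp)]
    congr 2
    fin_cases t <;> fin_cases t' <;>
      first | exact absurd rfl h | rfl | exact hω _ _ (by decide)

variable {G : Type} [Group G] [Fintype G]

theorem link_pick {X : Type} (pos : X → G) {D : Multiset (X × X × Multiset G × Multiset (Sym2 G))}
    (hD : ∀ c ∈ D, Path c.2.2.1 c.2.2.2 (pos c.1) (pos c.2.1)) {x : X}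
    (hx : x ∈ (D.map fun c => ({c.1} + {c.2.1} : Multiset X)).sum) :
    ∃ z V E, ∃ D' : Multiset (X × X × Multiset G × Multiset (Sym2 G)),
      Path V E (pos z) (pos x) ∧ (∀ c ∈ D', Path c.2.2.1 c.2.2.2 (pos c.1) (pos c.2.1)) ∧
      (D.map fun c => c.2.2.1).sum = V + (D'.map fun c => c.2.2.1).sum ∧
      (D.map fun c => c.2.2.2).sum = E + (D'.map fun c => c.2.2.2).sum ∧
      (D.map fun c => ({c.1} + {c.2.1} : Multiset X)).sum
        = {z} + {x} + (D'.map fun c => ({c.1} + {c.2.1} : Multiset X)).sum := by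
  obtain ⟨c, hc, h1⟩ := Multiset.mem_bind.1 hx
  obtain ⟨D', rfl⟩ := Multiset.exists_cons_of_mem hc
  have h2 := fun c h => hD c (Multiset.mem_cons_of_mem h)
  rcases Multiset.mem_add.1 h1 with h3 | h3 <;> rw [Multiset.mem_singleton.1 h3]
  · exact ⟨c.2.1, _, _, D', (hD c hc).reverse, h2, by simp, by simp, by
      rw [Multiset.map_cons, Multiset.sum_cons, add_comm {c.1}]⟩
  · exact ⟨c.1, _, _, D', hD c hc, h2, by simp, by simp, by
      rw [Multiset.map_cons, Multiset.sum_cons]⟩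

/-- Joining paths along a sequence of pairs of twins. -/
theorem link {X : Type} (H : Subgroup G) (pos : X → G) (a b : ℕ → X) (k : ℕ → G → ℕ) (m : ℕ) :
    (∀ i < m, ∀ x, (x = a (i + 1) ∨ x = b (i + 1)) → ∀ y, (y = a i ∨ y = b i) →
      ∀ g, ke H s(pos x, pos y) g = k i g) →
    ∀ (D : Multiset (X × X × Multiset G × Multiset (Sym2 G))) (w u : X),
      (∀ c ∈ D, Path c.2.2.1 c.2.2.2 (pos c.1) (pos c.2.1)) → (u = a m ∨ u = b m) →
      (D.map fun c => ({c.1} + {c.2.1} : Multiset X)).sum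
        = {w} + {u} + ∑ i ∈ range m, ({a i} + {b i}) →
      ∃ J p q, Path (D.map fun c => c.2.2.1).sum ((D.map fun c => c.2.2.2).sum + J) p q ∧
        ∀ g, KE H J g = ∑ i ∈ range m, k i g := by
  induction m with
  | zero =>
    intro _ D w u hD _ h
    obtain ⟨z, V, E, D', h1, -, h2, h3, h4⟩ := link_pick pos hD (x := u) (by rw [h]; simp)
    obtain rfl : D' = 0 := by
      by_contra h5
      obtain ⟨c, hc⟩ := Multiset.exists_mem_of_ne_zero h5
      obtain ⟨D'', rfl⟩ := Multiset.exists_cons_of_mem hc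
      have := congrArg Multiset.card (h.symm.trans h4)
      simp at this
    exact ⟨0, _, _, h1.congr (by simp [h2]) (by simp [h3]) rfl rfl, fun g => by simp [KE]⟩
  | succ m ih =>
    intro hk D w u hD hu h
    obtain ⟨z, V, E, D', h1, h2, h3, h4, h5⟩ := link_pick pos hD (x := u) (by rw [h]; simp)
    have h6 : {z} + (D'.map fun c => ({c.1} + {c.2.1} : Multiset X)).sum
        = {w} + ({a m} + {b m}) + ∑ i ∈ range m, ({a i} + {b i}) := by
      refine add_left_cancel (a := ({u} : Multiset X)) ?_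
      rw [← add_assoc, add_comm ({u} : Multiset X) {z}, ← h5, h, sum_range_succ]; abel
    obtain ⟨v, v', h7, h8, h9, h10⟩ : ∃ v v', (v = a m ∨ v = b m) ∧ (v' = a m ∨ v' = b m) ∧
        ({a m} + {b m} : Multiset X) = {v} + {v'} ∧
        v ∈ (D'.map fun c => ({c.1} + {c.2.1} : Multiset X)).sum := by
      by_cases hz : a m = z
      · refine ⟨b m, a m, Or.inr rfl, Or.inl rfl, add_comm _ _, ?_⟩
        have : (D'.map fun c => ({c.1} + {c.2.1} : Multiset X)).sum
            = {w} + {b m} + ∑ i ∈ range m, ({a i} + {b i}) := by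
          refine add_left_cancel (a := ({z} : Multiset X)) ?_
          rw [h6, hz]; abel
        rw [this]; simp
      · refine ⟨a m, b m, Or.inl rfl, Or.inr rfl, rfl, ?_⟩
        have : a m ∈ {z} + (D'.map fun c => ({c.1} + {c.2.1} : Multiset X)).sum := by
          rw [h6]; simp
        exact (Multiset.mem_add.1 this).resolve_left fun h => hz (Multiset.mem_singleton.1 h)
    obtain ⟨z', V', E', D'', k1, k2, k3, k4, k5⟩ := link_pick pos h2 h10
    obtain ⟨J, p, q, k6, k7⟩ := ih (fun i hi => hk i (by omega))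
      ((z, z', V + V', E + s(pos u, pos v) ::ₘ E') ::ₘ D'') w v' (fun c hc => by
        rcases Multiset.mem_cons.1 hc with rfl | hc
        · exact h1.append k1.reverse
        · exact k2 c hc) h8 (by
        refine add_left_cancel (a := ({v} : Multiset X)) ?_
        rw [k5, h9] at h6
        rw [Multiset.map_cons, Multiset.sum_cons]
        refine Eq.trans (by abel) (h6.trans (by abel)))
    refine ⟨s(pos u, pos v) ::ₘ J, p, q, k6.congr ?_ ?_ rfl rfl, fun g => ?_⟩
    · simp [h3, k3, add_assoc]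
    · rw [h4, k4, Multiset.map_cons, Multiset.sum_cons]
      simp only [← Multiset.singleton_add]; abel
    · rw [KE_cons, k7, hk m (by omega) u hu v h7, sum_range_succ, add_comm]

theorem sum_div_mod' {M : Type} [AddCommMonoid M] (F : ℕ → ℕ → M) {q : ℕ} (hq : 0 < q) (k : ℕ) :
    ∑ n ∈ range (k * q), F (n / q) (n % q) = ∑ j ∈ range k, ∑ i ∈ range q, F j i := by
  induction k with
  | zero => simp
  | succ k ih =>
    rw [Nat.succ_mul, sum_range_add, ih, sum_range_succ]
    congr 1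
    refine sum_congr rfl fun i hi => ?_
    have hi' := mem_range.1 hi
    rw [mul_comm, Nat.mul_add_div hq, Nat.mul_add_mod, Nat.div_eq_of_lt hi', Nat.mod_eq_of_lt hi',
      add_zero]

/-- reduction modulo `h` -/
def cs (h : ℕ) : ZMod (2 * h) →+* ZMod h := ZMod.castHom (dvd_mul_left h 2) (ZMod h)

/-- the representative in the lower half -/
def lo (j : ZMod h) : ZMod (2 * h) := (j.val : ℕ)

theorem cs_lo (j : ZMod h) : cs h (lo j) = j := by rw [lo, map_natCast, ZMod.natCast_zmod_val]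

theorem cs_h : cs h h = 0 := by rw [map_natCast, ZMod.natCast_self]

theorem sum_lo {M : Type} [AddCommMonoid M] (F : ZMod (2 * h) → M) :
    ∑ j : ZMod h, (F (lo j) + F (lo j + h)) = ∑ c, F c := by
  rw [zsum, zsum F, show range (2 * h) = range (h + h) by rw [two_mul], sum_range_add,
    ← sum_add_distrib]
  refine sum_congr rfl fun i hi => ?_
  rw [lo, ZMod.val_cast_of_lt (mem_range.1 hi), Nat.cast_add, add_comm (h : ZMod (2 * h))]

theorem sum_two_mul (F : ZMod (2 * h) → ℕ) :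
    ∑ j : ZMod h, F (2 * lo j) + ∑ j : ZMod h, F (2 * lo j + 1) = ∑ c, F c := by
  rw [zsum, zsum, zsum F, sum_par]
  congr 1 <;> refine sum_congr rfl fun i hi => ?_ <;>
    rw [lo, ZMod.val_cast_of_lt (mem_range.1 hi)] <;> simp

theorem lo_neg {j : ZMod h} {k : ℕ} (h0 : 0 < j.val + k) (h1 : j.val + k ≤ h) :
    lo (-j - (k : ZMod h)) + (h : ZMod (2 * h)) = -lo j - k := by
  have h2 : -j - k = ((h - (j.val + k) : ℕ) : ZMod h) := by
    rw [Nat.cast_sub h1]; simp; ring
  rw [h2, lo, ZMod.val_cast_of_lt (by omega), Nat.cast_sub h1, Nat.cast_add, lo]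
  linear_combination h_add_h (h := h)

theorem TV.join_twin {H K : Subgroup G} {X : Type} [Fintype X] (T : TV H K X) {n : ℕ}
    (e : Fin (n + 4) × ZMod (2 * h) ≃ X) (g0 : ZMod (2 * h) → G → ℕ) (g1 : ZMod h → G → ℕ)
    (ω : Fin (n + 4) → Fin (n + 4) → ZMod h)
    (h0 : ∀ t a a' g, kk H ((T.t (e (t, a)))⁻¹ * T.t (e (t, a'))) g = g0 (a' - a) g)
    (h1 : ∀ t t' a a' g, t ≠ t' →
      kk H ((T.t (e (t, a)))⁻¹ * T.t (e (t', a'))) g = g1 (cs h a + cs h a' + ω t t') g)
    (Φ : Equiv.Perm X) (a b : G) (Vx : X → Multiset G) (Ex : X → Multiset (Sym2 G))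
    (hP : ∀ x, Path (Vx x) (Ex x) (a * T.t x) (b * T.t (Φ x))) : ∃ J p q,
      Path (∑ x, Vx x) (∑ x, Ex x + J) p q ∧ ∀ g, KE H J g = 2 * cd H * ind (g ∈ K ∧ g ∉ H) := by
  classical
  have v2 : (2 : Fin (n + 4)).val = 2 := rfl
  have v3 : (3 : Fin (n + 4)).val = 3 := rfl
  have d02 : (0 : Fin (n + 4)) ≠ 2 := Fin.ne_of_val_ne (by rw [v2]; simp)
  have d12 : (1 : Fin (n + 4)) ≠ 2 := Fin.ne_of_val_ne (by rw [v2]; simp)
  have hR : ((univ.erase (0 : Fin (n + 4))).erase 2).card = n + 2 := by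
    rw [card_erase_of_mem (by simp [d02.symm]), card_erase_of_mem (mem_univ _)]; simp
  obtain ⟨τ, hτ⟩ := exists_der ((univ.erase (0 : Fin (n + 4))).erase 2) (by omega)
  have t0 : τ 0 = 0 := (hτ _).2 (by simp)
  have t2 : τ 2 = 2 := (hτ _).2 (by simp)
  have t1 : ∀ t ∈ (univ.erase 0).erase 2, t ≠ τ t := fun t ht h => (hτ t).1 h.symm ht
  have m1 : (1 : Fin (n + 4)) ∈ (univ.erase 0).erase 2 := by simp [d12]
  have m2 : (2 : Fin (n + 4)) ∈ univ.erase 0 := by simp [d02.symm]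
  have t3 : 2 ≠ τ 1 := fun h => d12 (τ.injective (h.symm.trans t2.symm))
  let c := ω 1 2 - ω 1 (τ 1) + ω 2 (τ 1)
  let u := c + 1 - ω 0 (Fin.last _)
  let κ : Fin (n + 4) → ZMod h := fun t =>
    if t = 0 then u else if t = 1 then ω 3 2 + 1 - u - ω 1 0 else 0
  let off : Fin (n + 4) → ZMod h := fun t =>
    κ t + κ (t + 1) + ω (t + 1) t + if t = Fin.last _ then 1 else 0
  let θ0 : Equiv.Perm (Fin (n + 4) × ZMod h) := Equiv.prodShear τ fun t =>
    if t = 0 then (Equiv.neg _).trans (Equiv.subRight 1) else if t = 2 then Equiv.neg _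
    else Equiv.addRight (off t + 1 - ω t (τ t))
  let a0 := ω 1 2 - off 1 - 1
  let θ := θ0 * Equiv.swap (2, 0) (1, a0)
  let L : Fin (n + 4) × ZMod h → X := fun i => e (i.1, lo i.2)
  let U : Fin (n + 4) × ZMod h → X := fun i => e (i.1, lo i.2 + h)
  have hLU : ∀ {M : Type} [AddCommMonoid M] (F : X → M), ∑ i, (F (L i) + F (U i)) = ∑ x, F x :=
    fun F => by
      rw [← e.sum_comp F, Fintype.sum_prod_type, Fintype.sum_prod_type]
      exact sum_congr rfl fun t _ => sum_lo fun c => F (e (t, c))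
  have hcov : ∀ {M : Type} [AddCommMonoid M] (F : X → M),
      ∑ i, (F (L i) + F (U (θ i))) = ∑ x, F x := fun F => by
    rw [← hLU F, sum_add_distrib, sum_add_distrib, Equiv.sum_comp θ fun i => F (U i)]
  let ch : ℕ → Fin (n + 4) × ZMod h := fun i =>
    (Fin.ofNat _ i, ((i / (n + 4) : ℕ) : ZMod h) + κ (Fin.ofNat _ i))
  have hch : ∀ {M : Type} [AddCommMonoid M] (F : Fin (n + 4) × ZMod h → M),
      ∑ i ∈ range (h * (n + 4)), F (ch i) = ∑ i, F i := fun F => by
    rw [Fintype.sum_prod_type, ← sum_congr rfl fun t _ =>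
      Equiv.sum_comp (Equiv.addRight (κ t)) fun j => F (t, j), sum_comm, zsum]
    refine Eq.trans (sum_congr rfl fun i _ => ?_) ((sum_div_mod' (fun j l =>
      F (Fin.ofNat _ l, (j : ZMod h) + κ (Fin.ofNat _ l))) (by omega) h).trans
        (sum_congr rfl fun j _ => ?_))
    · rw [show Fin.ofNat (n + 4) (i % (n + 4)) = Fin.ofNat _ i from Fin.ext (by simp)]
    · rw [← Fin.sum_univ_eq_sum_range (fun l => F (Fin.ofNat _ l, (j : ZMod h) + κ (Fin.ofNat _ l)))]
      simp
  have hs : ∀ i, (ch (i + 1)).1 = (ch i).1 + 1 := fun i => Fin.ext (by simp [ch, Fin.val_add])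
  have hs1 : ∀ t : Fin (n + 4), t + 1 ≠ t := fun t => by simp
  have hcol : ∀ i, (ch (i + 1)).2 + (ch i).2 + ω (ch (i + 1)).1 (ch i).1
      = 2 * ((ch i).2 - κ (ch i).1) + off (ch i).1 := fun i => by
    have h2 := hs i
    simp only [ch] at h2
    simp only [ch, off, h2]
    rcases succ_div_mod (show 0 < n + 4 by omega) i with ⟨-, h3, h4⟩ | ⟨h3, h4⟩
    · rw [if_pos (Fin.ext (by simp; omega)), h4]; push_cast; ring
    · rw [if_neg fun h5 => ?_, h4]
      · ring
      · have h6 := congrArg Fin.val h5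
        have h7 := Nat.mod_lt (i + 1) (show 0 < n + 4 by omega)
        simp at h6
        omega
  obtain ⟨m, hm⟩ : ∃ m, h * (n + 4) = m + 1 :=
    ⟨_, (Nat.succ_pred_eq_of_pos (Nat.mul_pos (NeZero.pos h) (by omega))).symm⟩
  obtain ⟨J, p, q, k1, k2⟩ := link H (fun x => b * T.t x) (fun i => L (ch i)) (fun i => U (ch i))
    (fun i => g1 (2 * ((ch i).2 - κ (ch i).1) + off (ch i).1)) m (fun i _ x hx y hy g => by
      rw [ke_mk, mul_inv_rev, mul_assoc, inv_mul_cancel_left, ← hcol]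
      have h2 : (ch (i + 1)).1 ≠ (ch i).1 := hs i ▸ hs1 _
      rcases hx with rfl | rfl <;> rcases hy with rfl | rfl <;>
        simp only [L, U, h1 _ _ _ _ _ h2, map_add, cs_lo, cs_h, add_zero])
    (univ.val.map fun i => (Φ (L i), Φ (U (θ i)), Vx (L i) + Vx (U (θ i)),
      Ex (L i) + s(a * T.t (L i), a * T.t (U (θ i))) ::ₘ Ex (U (θ i)))) (U (ch m)) (L (ch m))
    (fun c hc => by
      obtain ⟨i, -, rfl⟩ := Multiset.mem_map.1 hc
      exact (hP _).reverse.append (hP _)) (Or.inl rfl) (by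
      rw [Multiset.map_map]
      refine (hcov fun x => ({Φ x} : Multiset X)).trans ?_
      rw [Equiv.sum_comp Φ fun x => ({x} : Multiset X), ← hLU, ← hch, hm, sum_range_succ]
      abel)
  rw [Multiset.map_map, Multiset.map_map] at k1
  refine ⟨∑ i, {s(a * T.t (L i), a * T.t (U (θ i)))} + J, p, q, k1.congr (hcov Vx) ?_ rfl rfl,
    fun g => ?_⟩
  · rw [← hcov Ex, ← add_assoc, ← sum_add_distrib]
    congr 1
    refine sum_congr rfl fun i _ => ?_
    simp only [Function.comp, ← Multiset.singleton_add]; abel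
  have k3 : ∀ w, ∑ j, g1 (2 * j + w) g + ∑ j, g1 (2 * j + (w + 1)) g = ∑ c, g1 (cs h c) g :=
    fun w => by
      rw [← Equiv.sum_comp (Equiv.addRight (lo w)) fun c => g1 (cs h c) g,
        ← sum_two_mul fun c => g1 (cs h (Equiv.addRight (lo w) c)) g]
      simp [cs_lo, map_ofNat, add_assoc, add_comm w]
  have k4 := (hch fun i => g1 (2 * (i.2 - κ i.1) + off i.1) g).trans
    ((Fintype.sum_prod_type _).trans (sum_congr rfl fun t _ =>
      Equiv.sum_comp (Equiv.subRight (κ t)) fun j => g1 (2 * j + off t) g))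
  have k5 : 2 * ((ch m).2 - κ (ch m).1) + off (ch m).1 = c := by
    rcases succ_div_mod (show 0 < n + 4 by omega) m with ⟨-, h3, h4⟩ | ⟨h3, -⟩
    · have h5 : Fin.ofNat (n + 4) m = Fin.last _ := Fin.ext (by simp; omega)
      rw [← hm, Nat.mul_div_cancel _ (by omega)] at h4
      have h6 := congrArg (Nat.cast : ℕ → ZMod h) h4
      rw [ZMod.natCast_self, Nat.cast_add, Nat.cast_one] at h6
      have h7 : Fin.last (n + 3) ≠ 0 := by simp
      have h8 : Fin.last (n + 3) ≠ 1 := by simp [Fin.ext_iff]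
      simp only [ch, off, h5, Fin.last_add_one, κ, if_neg h7, if_neg h8, if_true, u]
      linear_combination (-2) * h6
    · rw [← hm, Nat.mul_mod_left] at h3; omega
  rw [hm, sum_range_succ, k5,
    ← add_sum_erase _ _ (mem_univ 0), ← add_sum_erase _ _ m2,
    show off 0 = off 2 + 1 by
      have h3 : (2 : Fin (n + 4)) + 1 = 3 := rfl
      have h4 : (3 : Fin (n + 4)) ≠ 0 := Fin.ne_of_val_ne (by rw [v3]; simp)
      have h5 : (3 : Fin (n + 4)) ≠ 1 := Fin.ne_of_val_ne (by rw [v3]; simp)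
      have h6 : (0 : Fin (n + 4)) ≠ Fin.last _ := by simp [Fin.ext_iff]
      have h7 : (2 : Fin (n + 4)) ≠ Fin.last _ := Fin.ne_of_val_ne (by rw [v2]; simp)
      simp [off, κ, h3, h4, h5, h6, h7, d02.symm, d12.symm]
      ring] at k4
  let f : Fin (n + 4) × ZMod (2 * h) → Fin (n + 4) × ZMod (2 * h) → ℕ := fun x y =>
    kk H ((T.t (e x))⁻¹ * T.t (e y)) g
  have k6 := row_sum (f := f) (g0 := fun c => g0 c g) (g := fun c => g1 (cs h c) g)
    (ω := fun t t' => lo (ω t t')) (fun t a a' => h0 t a a' g)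
    (fun t t' a a' h => by simp only [map_add, cs_lo]; exact h1 t t' a a' g h) (0, 0)
  rw [Equiv.sum_comp e fun y => kk H ((T.t (e (0, 0)))⁻¹ * T.t y) g,
    ← add_sum_erase _ _ (mem_univ (e (0, 0))), T.sum_erase, h0, sub_self] at k6
  let w : Fin (n + 4) × ZMod h → Fin (n + 4) × ZMod h → ℕ := fun i i' =>
    f (i.1, lo i.2) (i'.1, lo i'.2 + h)
  have q0 : ∀ j, θ0 (0, j) = (0, -j - 1) := fun j => by simp [θ0, t0]
  have q2 : ∀ j, θ0 (2, j) = (2, -j) := fun j => by simp [θ0, t2, d02.symm]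
  have q1 : ∀ t ∈ (univ.erase 0).erase 2, ∀ j, θ0 (t, j) = (τ t, j + (off t + 1 - ω t (τ t))) :=
    fun t ht j => by
      simp only [mem_erase] at ht
      simp [θ0, ht.1, ht.2.1]
  have w1 : ∀ t t' j j', t ≠ t' → w (t, j) (t', j') = g1 (j + j' + ω t t') g :=
    fun t t' j j' h => by simp only [w, f, h1 _ _ _ _ _ h, map_add, cs_lo, cs_h, add_zero]
  have k7 : ∑ i, w i (θ0 i) + g0 0 g = ∑ c, g0 c g + g0 h g
      + ∑ t ∈ (univ.erase 0).erase 2, ∑ j, g1 (2 * j + (off t + 1)) g := by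
    rw [Fintype.sum_prod_type, ← add_sum_erase _ _ (mem_univ 0),
      ← add_sum_erase _ _ m2,
      sum_congr rfl (s₁ := (univ.erase 0).erase 2) (g := fun t => ∑ j, g1 (2 * j + (off t + 1)) g)
        fun t ht => sum_congr rfl fun j _ => by
          rw [q1 t ht, w1 _ _ _ _ (t1 t ht)]; congr 1; ring,
      ← Equiv.sum_comp (Equiv.neg _) fun c => g0 c g, ← sum_two_mul,
      sum_congr rfl (g := fun j => g0 (Equiv.neg _ (2 * lo j + 1)) g) fun j _ => by
        have := lo_neg (j := j) (k := 1) (by omega) j.val_lt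
        rw [Nat.cast_one, Nat.cast_one] at this
        simp only [q0, w, f, h0, this]; congr 1; simp; ring,
      ← add_sum_erase _ (fun j => w (2, j) (θ0 (2, j))) (mem_univ 0),
      ← add_sum_erase _ (fun j => g0 (Equiv.neg _ (2 * lo j)) g) (mem_univ 0),
      sum_congr rfl (s₁ := univ.erase 0) (g := fun j => g0 (Equiv.neg _ (2 * lo j)) g)
        fun j hj => by
          have := lo_neg (j := j) (k := 0)
            (Nat.pos_of_ne_zero fun h => (mem_erase.1 hj).1 ((ZMod.val_eq_zero j).1 h)) j.val_lt.le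
          rw [Nat.cast_zero, Nat.cast_zero, sub_zero, sub_zero] at this
          simp only [q2, w, f, h0, this]; congr 1; simp; ring]
    simp [q2, w, f, h0, lo]
    ring
  have n1 : ((2, 0) : Fin (n + 4) × ZMod h) ≠ (1, a0) := by simp [d12.symm]
  have k8 : ∀ F : Fin (n + 4) × ZMod h → ℕ, ∑ i, F i = F (2, 0) + (F (1, a0)
      + ∑ i ∈ (univ.erase (2, 0)).erase (1, a0), F i) := fun F => by
    rw [add_sum_erase _ _ (by simp [n1.symm]), add_sum_erase _ _ (mem_univ _)]
  have k9 : ∑ i, w i (θ i) + g0 h g = ∑ i, w i (θ0 i) + g1 c g := by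
    rw [k8, k8 fun i => w i (θ0 i), sum_congr rfl (g := fun i => w i (θ0 i)) fun i hi => by
      simp only [mem_erase] at hi
      rw [Equiv.Perm.mul_apply, Equiv.swap_apply_of_ne_of_ne hi.2.1 hi.1]]
    simp only [θ, Equiv.Perm.mul_apply, Equiv.swap_apply_left, Equiv.swap_apply_right, q2, q1 1 m1,
      w1 _ _ _ _ t3, w1 _ _ _ _ d12, w1 _ _ _ _ (t1 1 m1)]
    rw [show 0 + (a0 + (off 1 + 1 - ω 1 (τ 1))) + ω 2 (τ 1) = c by simp only [a0, c]; ring,
      show a0 + (a0 + (off 1 + 1 - ω 1 (τ 1))) + ω 1 (τ 1) = a0 + -0 + ω 1 2 by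
        simp only [a0]; ring, show w (2, 0) (2, -0) = g0 h g by simp [w, f, h0]]
    ring
  have k10 := sum_congr (rfl : (univ.erase (0 : Fin (n + 4))).erase 2 = _) fun t _ => k3 (off t)
  rw [sum_add_distrib, sum_const, hR, smul_eq_mul] at k10
  have k11 := k3 (off 2)
  rw [KE_add, k2, KE_sum, sum_congr rfl (g := fun i => w i (θ i)) fun i _ => by
    rw [ke_mk, mul_inv_rev, mul_assoc, inv_mul_cancel_left]]
  rw [Fintype.card_fin, show n + 4 - 1 = n + 2 + 1 by omega, add_mul (n + 2) 1, one_mul] at k6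
  omega

end Pool.Agent.Lib.MP_0becda_co.Coset
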