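import Pool.Agent.Lib.MP_0becda_co.Coset.Root
import Pool.Agent.Lib.MP_0becda_co.Coset.Orient

/-!
Flags of oriented subspaces.
-/

set_option linter.unusedSectionVars false

open Finset Matrix Pool.Agent.Lib.MP_0becda_co.PSL

namespace Pool.Agent.Lib.MP_0becda_co.Coset

variable {G : Type} [Group G] [Fintype G] {F : Type} [Field F] {n : ℕ}
  {ρ : G →* Matrix (Fin n) (Fin n) F} {D : Subgroup G} {C : Subgroup Fˣ} {h : ℕ} [NeZero h]

theorem Rel.top {W : Submodule F (Fin n → F)} {a b : Fin n → F} (h : Rel C W a b) : Rel ⊤ W a b :=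
  h.imp fun _ h => ⟨Subgroup.mem_top _, h.2⟩

theorem Rel.smul {W : Submodule F (Fin n → F)} {a b : Fin n → F} (h : Rel C W a b) (c : F) :
    Rel C W (c • a) (c • b) := h.imp fun u h => ⟨h.1, by
  rw [smul_comm, ← smul_sub]; exact W.smul_mem c h.2⟩

theorem rel_smul {W : Submodule F (Fin n → F)} {u v : Fˣ} (h : u * v⁻¹ ∈ C) (a : Fin n → F) :
    Rel C W ((u : F) • a) ((v : F) • a) := ⟨_, h, by simp [smul_smul]⟩

theorem lo_cs (c : ZMod (2 * h)) : c = lo (cs h c) ∨ c = lo (cs h c) + h := by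
  classical
  have h1 : c ∈ ∑ c : ZMod (2 * h), ({c} : Multiset (ZMod (2 * h))) :=
    Multiset.mem_sum.2 ⟨c, mem_univ _, Multiset.mem_singleton_self _⟩
  rw [← sum_lo] at h1
  obtain ⟨j, -, h2⟩ := Multiset.mem_sum.1 h1
  rcases Multiset.mem_add.1 h2 with h3 | h3 <;> rw [Multiset.mem_singleton.1 h3]
  · exact Or.inl (by rw [cs_lo])
  · exact Or.inr (by rw [map_add, cs_lo, cs_h, add_zero])

/-- the minor on two rows -/
def Dt (i j : Fin n) (v w : Fin n → F) : F := v i * w j - v j * w i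

theorem mem_vr_two {i j : Fin n} (hj : j.val = i + 1) (hn : i.val + 2 = n) {v : Fin n → F} :
    v ∈ Vr F n i ↔ v i = 0 ∧ v j = 0 :=
  ⟨fun h => ⟨h i le_rfl, h j (by omega)⟩, fun h a ha => by
    have := a.2
    rcases (show a = i ∨ a = j by simp only [Fin.ext_iff]; omega) with rfl | rfl
    exacts [h.1, h.2]⟩

theorem Tv.dt {i j : Fin n} (hj : j.val = i + 1) (hn : i.val + 2 = n) {s : G}
    (h : Tv ρ D (Vr F n i) s) (v w : Fin n → F) : Dt i j (ρ s *ᵥ v) (ρ s *ᵥ w) = Dt i j v w := by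
  obtain ⟨-, f, u, h1, h2, h3⟩ := h
  have hij : i ≠ j := fun h => by rw [h] at hj; omega
  have h4 : ∀ v, f v = v i * f (Pi.single i 1) + v j * f (Pi.single j 1) := fun v => by
    have := h1 (v - v i • Pi.single i 1 - v j • Pi.single j 1)
      ((mem_vr_two hj hn).2 (by simp [hij, hij.symm]))
    simp only [map_sub, map_smul, smul_eq_mul] at this
    linear_combination this
  rw [h4] at h2
  rw [h3, h3, h4 v, h4 w]
  simp only [Dt, Pi.add_apply, Pi.smul_apply, smul_eq_mul]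
  linear_combination (v i * w j - v j * w i) * h2

theorem orient [Fintype F] (hF2 : Odd (Fintype.card F))
    (hSL : ∀ M : Matrix (Fin n) (Fin n) F, M.det = 1 → ∃ g ∈ D, ρ g = M)
    (lg : Fˣ →* Multiplicative (ZMod (2 * h))) (hs : Function.Surjective lg)
    (hlg : ∀ u, lg u = 1 ↔ u ∈ C) {i : Fin n} (hi : i.val + 1 < n) (hC : i.val + 2 < n ∨ -1 ∉ C)
    {X : Type} [Fintype X] (T : TV (Kr ρ D C (i + 1)) (Kr ρ D C i) X) :
    ∃ (m : ℕ) (e : Fin (m + 4) × ZMod (2 * h) ≃ X) (ω : Fin (m + 4) → Fin (m + 4) → ZMod (2 * h)),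
      (Fintype.card F + 1 ≤ m + 4 ∧ (i.val + 2 < n ∨ Even (m + 4))) ∧ (∀ t t', t ≠ t' → ω t' t = ω t t' + h) ∧ ∀ f, Inv T f → ∃ g0 g : ZMod (2 * h) → ℕ,
        (∀ t a a', f (e (t, a)) (e (t, a')) = g0 (a' - a)) ∧
        (∀ t t' a a', t ≠ t' → f (e (t, a)) (e (t', a')) = g (a + a' + ω t t')) ∧
        (Even (m + 4) ∨ g 0 = g h) := by
  classical
  let j : Fin n := ⟨i + 1, hi⟩
  have hij : i ≠ j := fun h => by have := congrArg Fin.val h; simp [j] at this
  let S : Setoid X := ⟨fun x y => Rel ⊤ (Vr F n i) (vec T x) (vec T y),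
    fun _ => Rel.refl _, Rel.symm, Rel.trans⟩
  let vv : Option F → Fin n → F := fun o =>
    o.elim (Pi.single i 1) fun c => Pi.single j 1 + c • Pi.single i 1
  have hvv : ∀ o, vv o ∉ Vr F n i := fun o h => by
    cases o with
    | none => exact single_notMem i h
    | some c => simpa [vv, hij.symm] using h j (by simp [j])
  choose xx hxx using fun o => vec_surj T hSL hi (hvv o)
  have hinj : Function.Injective fun o => Quotient.mk S (xx o) := fun o o' h => by
    obtain ⟨c, -, h1⟩ := ((hxx o).top.trans (Quotient.exact h)).trans (hxx o').top.symm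
    have h2 := h1 i le_rfl
    have h3 := h1 j (by simp [j])
    cases o <;> cases o' <;> simp [vv, hij, hij.symm, sub_eq_zero] at h2 h3 ⊢
    rw [h2, ← h3, one_mul]
  have hc := Fintype.card_le_of_injective _ hinj
  rw [Fintype.card_option] at hc
  have hF : 3 ≤ Fintype.card F := by
    have := Fintype.one_lt_card (α := F)
    obtain ⟨k, hk⟩ := hF2
    omega
  obtain ⟨m, hm⟩ : ∃ m, Fintype.card (Quotient S) = m + 4 := ⟨_, (Nat.sub_add_cancel (by omega)).symm⟩
  let eP := (Fintype.equivFinOfCardEq hm).symm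
  let u : Fin (m + 4) → Fin n → F := fun t => vec T (eP t).out
  choose rep hrep using fun a : ZMod (2 * h) => hs (Multiplicative.ofAdd a)
  let w : Fin (m + 4) × ZMod (2 * h) → Fin n → F := fun p => (rep p.2 : F) • u p.1
  have hw : ∀ p, w p ∉ Vr F n i := fun p h =>
    vec_notMem T _ ((Submodule.smul_mem_iff _ (rep p.2).ne_zero).1 h)
  have hwu : ∀ p, Rel ⊤ (Vr F n i) (w p) (u p.1) := fun p => ⟨rep p.2, Subgroup.mem_top _, by simp [w]⟩
  have hne : ∀ p p', Rel ⊤ (Vr F n i) (w p) (w p') → p.1 = p'.1 := fun p p' h => eP.injective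
    (by rw [← Quotient.out_eq (eP p.1), ← Quotient.out_eq (eP p'.1)]
        exact Quotient.sound (((hwu p).symm.trans h).trans (hwu p')))
  have hmem : ∀ u v : Fˣ, lg u = lg v → u * v⁻¹ ∈ C := fun u v h =>
    (hlg _).1 (by rw [map_mul, map_inv, h, mul_inv_cancel])
  choose pt hpt using fun p => vec_surj T hSL hi (hw p)
  have hbij : Function.Bijective pt := ⟨fun ⟨t, a⟩ ⟨t', a'⟩ h1 => by
    have h2 := (hpt (t, a)).trans (h1 ▸ (hpt (t', a')).symm)
    obtain rfl : t = t' := hne _ _ h2.top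
    obtain ⟨c, hc, h3⟩ := h2
    simp only [w, smul_smul, ← sub_smul] at h3
    have h4 : rep a = c * rep a' := Units.ext (sub_eq_zero.1 (by_contra fun h4 =>
      vec_notMem T _ ((Submodule.smul_mem_iff _ h4).1 h3)))
    have h5 := congrArg lg h4
    rw [map_mul, (hlg c).2 hc, one_mul, hrep, hrep] at h5
    rw [show a = a' from h5], fun x => by
    obtain ⟨c, -, h1⟩ : Rel ⊤ (Vr F n i) (vec T x) (u (eP.symm (Quotient.mk S x))) := by
      simp only [u, Equiv.apply_symm_apply]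
      exact Rel.symm (Quotient.mk_out (s := S) x)
    refine ⟨(eP.symm (Quotient.mk S x), (lg c).toAdd), vec_inj T ((hpt _).symm.trans
      ((rel_smul (hmem _ c (hrep _)) _).trans (Rel.symm ⟨1, one_mem _, by simpa using h1⟩)))⟩⟩
  have tr : ∀ f, Inv T f → ∀ s ∈ Fx ρ D (Vr F n i), ∀ p p' q q',
      Rel C (Vr F n i) (ρ s *ᵥ w p) (w p') → Rel C (Vr F n i) (ρ s *ᵥ w q) (w q') →
      f (pt p') (pt q') = f (pt p) (pt q) := fun f hf s hs p p' q q' h1 h2 =>
    have h3 : s ∈ Stb ρ (Vr F n i) := Fx.stb hs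
    hf s hs _ _ _ _ ((((hpt p).symm.act h3).trans h1).trans (hpt p'))
      ((((hpt q).symm.act h3).trans h2).trans (hpt q'))
  have hr := lt_of_le_of_lt (Nat.succ_le_succ (finrank_vr (F := F) (n := n) i)) hi
  have blk : ∀ f, Inv T f → ∀ t a a',
      f (pt (t, a)) (pt (t, a')) = f (pt (0, 0)) (pt (0, a' - a)) := fun f hf t a a' => by
    obtain ⟨s, h1, h2⟩ := exists_move hSL hr _ (fun _ => Tv.fx) (hw (0, 0)) (hw (t, a))
    refine tr f hf s h1 _ _ _ _ (h2 ▸ Rel.refl _) ?_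
    rw [show w (0, a' - a) = ((rep (a' - a) * (rep 0)⁻¹ : Fˣ) : F) • w (0, 0) by
      simp [w, smul_smul], mulVec_smul, h2]
    simp only [w, smul_smul, ← Units.val_mul]
    exact rel_smul (hmem _ _ (by simp [hrep])) _
  have out : ∀ p q, p.1 ≠ q.1 → w q ∉ Vr F n i ⊔ F ∙ w p := fun p q h h1 =>
    h (hne _ _ (rel_top (hw q) h1)).symm
  by_cases hn : i.val + 2 < n
  · refine ⟨m, Equiv.ofBijective pt hbij, fun t t' => if t < t' then 0 else h, ⟨hm ▸ hc, Or.inl hn⟩,
      fun t t' h1 => ?_,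
      fun f hf => ⟨fun c => f (pt (0, 0)) (pt (0, c)), fun _ => f (pt (0, 0)) (pt (1, 0)),
        blk f hf, fun t t' a a' h1 => ?_, Or.inr rfl⟩⟩
    · rcases h1.lt_or_gt with h2 | h2 <;> simp [h2, h2.not_gt, h_add_h]
    have mv : ∀ p q q', p.1 ≠ q.1 → p.1 ≠ q'.1 →
        f (pt p) (pt q') = f (pt p) (pt q) ∧ f (pt q') (pt p) = f (pt q) (pt p) :=
      fun p q q' h2 h3 => by
        have h4 := Submodule.finrank_add_le_finrank_add_finrank (Vr F n i) (F ∙ w p)
        have h5 : Module.finrank F (F ∙ w p) = 1 :=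
          finrank_span_singleton fun h => hw p (h ▸ zero_mem _)
        have h6 := finrank_vr (F := F) (n := n) i
        obtain ⟨s, h7, h8⟩ := exists_move hSL (by omega) _ (fun _ => Tv.fx) (out p q h2) (out p q' h3)
        have h9 : s ∈ Fx ρ D (Vr F n i) := Fx.left h7
        have k1 : Rel C (Vr F n i) (ρ s *ᵥ w p) (w p) := by
          rw [Fx.right h7]
          exact Rel.refl _
        exact ⟨tr f hf s h9 _ _ _ _ k1 (h8 ▸ Rel.refl _), tr f hf s h9 _ _ _ _ (h8 ▸ Rel.refl _) k1⟩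
    obtain ⟨r, h2, h3⟩ := exists_third (M := Fin (m + 4)) (by simp) t 0
    exact ((mv (t, a) (r, 0) (t', a') h2.symm h1).1.trans (mv (r, 0) (0, 0) (t, a) h3 h2).2).trans
      (mv (0, 0) (1, 0) (r, 0) (by simp) h3.symm).1
  have hn' : i.val + 2 = n := by omega
  have hD : ∀ p q, p.1 ≠ q.1 → Dt i j (w p) (w q) ≠ 0 := fun p q h h1 => by
    refine out p q h (mem_sup_span.2 ?_)
    have h2 := mt (mem_vr_two (j := j) rfl hn').2 (hw p)
    simp only [mem_vr_two (j := j) rfl hn', Pi.sub_apply, Pi.smul_apply, smul_eq_mul]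
    rw [Dt] at h1
    by_cases h3 : w p i = 0
    · have h4 : w p j ≠ 0 := fun h4 => h2 ⟨h3, h4⟩
      refine ⟨w q j / w p j, ?_, by rw [div_mul_cancel₀ _ h4, sub_self]⟩
      field_simp
      linear_combination -h1
    · refine ⟨w q i / w p i, by rw [div_mul_cancel₀ _ h3, sub_self], ?_⟩
      field_simp
      linear_combination h1
  let col : Fin (m + 4) × ZMod (2 * h) → Fin (m + 4) × ZMod (2 * h) → ZMod (2 * h) := fun p q =>
    if h : p.1 ≠ q.1 then (lg (Units.mk0 _ (hD p q h))).toAdd else 0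
  have hcol : ∀ t t' a a', t ≠ t' → col (t, a) (t', a') = a + a' + col (t, 0) (t', 0) :=
    fun t t' a a' h1 => by
      have h2 : Units.mk0 _ (hD (t, a) (t', a') h1) * (rep 0 * rep 0)
          = rep a * rep a' * Units.mk0 _ (hD (t, 0) (t', 0) h1) := Units.ext (by
        simp [w, Dt]; ring)
      have h3 := congrArg (fun z => (lg z).toAdd) h2
      simpa [col, h1, hrep] using h3
  have hneg : (lg (-1)).toAdd = h := by
    have h1 : -(lg (-1)).toAdd = (lg (-1)).toAdd := by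
      rw [← toAdd_inv, ← map_inv, inv_neg, inv_one]
    rcases (ZMod.neg_eq_self_iff _).1 h1 with h2 | h2
    · exact absurd ((hlg _).1 h2) (hC.resolve_left hn)
    · rw [← ZMod.natCast_zmod_val (lg (-1)).toAdd, Nat.eq_of_mul_eq_mul_left two_pos h2]
  have hev : Even (m + 4) := by
    rw [← hm, ← Fintype.card_of_bijective ⟨hinj, fun q => ?_⟩, Fintype.card_option]
    · exact hF2.add_one
    obtain ⟨x, rfl⟩ := Quotient.exists_rep q
    have h2 := mt (mem_vr_two (j := j) rfl hn').2 (vec_notMem T x)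
    by_cases h3 : vec T x j = 0
    · refine ⟨none, Quotient.sound ((hxx none).top.symm.trans (Rel.symm
        ⟨Units.mk0 _ fun h4 => h2 ⟨h4, h3⟩, Subgroup.mem_top _, ?_⟩))⟩
      simp [mem_vr_two (j := j) rfl hn', vv, hij.symm, h3]
    · refine ⟨some (vec T x i / vec T x j), Quotient.sound ((hxx _).top.symm.trans (Rel.symm
        ⟨Units.mk0 _ h3, Subgroup.mem_top _, ?_⟩))⟩
      simp [mem_vr_two (j := j) rfl hn', vv, hij.symm, hij, mul_div_cancel₀ _ h3]
  refine ⟨m, Equiv.ofBijective pt hbij, fun t t' => col (t, 0) (t', 0), ⟨hm ▸ hc, Or.inr hev⟩,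
    fun t t' h1 => ?_,
    fun f hf => ⟨fun c => f (pt (0, 0)) (pt (0, c)),
      fun c => f (pt (0, 0)) (pt (1, c - col (0, 0) (1, 0))), blk f hf,
      fun t t' a a' h1 => ?_, Or.inl hev⟩⟩
  · have h2 : Units.mk0 _ (hD (t', 0) (t, 0) h1.symm) = Units.mk0 _ (hD (t, 0) (t', 0) h1) * -1 :=
      Units.ext (by simp [Dt]; ring)
    simp only [col, dif_pos h1, dif_pos h1.symm, h2, map_mul, toAdd_mul, hneg]
  · have h0 : (0 : Fin (m + 4)) ≠ 1 := by simp
    have h2 : col (0, 0) (1, a + a' + col (t, 0) (t', 0) - col (0, 0) (1, 0))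
        = col (t, a) (t', a') := by rw [hcol _ _ _ _ h0, hcol t t' a a' h1]; ring
    change f (pt (t, a)) (pt (t', a')) = f _ (pt (1, a + a' + col (t, 0) (t', 0) - _))
    generalize a + a' + col (t, 0) (t', 0) - col (0, 0) (1, 0) = c at h2 ⊢
    obtain ⟨s, h3, h4⟩ := exists_move hSL hr (Fx ρ D (Vr F n i) ⊓ subOf
      { carrier := {s | ∀ v w, Dt i j (ρ s *ᵥ v) (ρ s *ᵥ w) = Dt i j v w}
        one_mem' := fun v w => by simp
        mul_mem' := fun h1 h2 v w => by rw [act_mul, act_mul, h1, h2] })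
      (fun s hs => ⟨hs.fx, hs.dt rfl hn'⟩) (hw (0, 0)) (hw (t, a))
    let φ : (Fin n → F) →ₗ[F] F := w (t, a) i • LinearMap.proj j - w (t, a) j • LinearMap.proj i
    have h5 : ∀ v, φ v = Dt i j (w (t, a)) v := fun v => by simp [φ, Dt]
    have h6 : φ (ρ s *ᵥ w (1, c)) = Dt i j (w (0, 0)) (w (1, c)) := by rw [h5, ← h4, h3.2]
    obtain ⟨s', h7, h8⟩ := exists_tv (W := Vr F n i ⊔ F ∙ w (t, a)) hSL φ (fun v hv => by
      obtain ⟨k, hk⟩ := mem_sup_span.1 hv
      obtain ⟨h7, h8⟩ := (mem_vr_two (j := j) rfl hn').1 hk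
      simp only [Pi.sub_apply, Pi.smul_apply, smul_eq_mul] at h7 h8
      rw [h5, Dt]
      linear_combination w (t, a) i * h8 - w (t, a) j * h7) (h6 ▸ hD (0, 0) (1, c) h0)
      (h5 _ ▸ hD (t, a) (t', a') h1)
    refine tr f hf (s' * s) (mul_mem (Fx.left h7.fx) h3.1)
      _ _ _ _ ?_ ⟨_, hmem (Units.mk0 _ (hD (0, 0) (1, c) h0)) (Units.mk0 _ (hD (t, a) (t', a') h1))
        (by simpa [col, h1] using h2), ?_⟩
    · rw [act_mul, h4, Fx.right h7.fx]
      exact Rel.refl _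
    · rw [act_mul, h8, h6, h5]; simp [div_eq_mul_inv]

theorem ct_orient [D.Normal] [Fintype F] (hF2 : Odd (Fintype.card F))
    (hSL : ∀ M : Matrix (Fin n) (Fin n) F, M.det = 1 → ∃ g ∈ D, ρ g = M)
    (lg : Fˣ →* Multiplicative (ZMod (2 * h))) (hs : Function.Surjective lg)
    (hlg : ∀ u, lg u = 1 ↔ u ∈ C) {i : Fin n} (hi : i.val + 1 < n) (hC : i.val + 2 < n ∨ -1 ∉ C)
    {X : Type} [Fintype X] (T : TV (Kr ρ D C (i + 1)) (Kr ρ D C i) X) {H K : Subgroup G}
    (T' : TV H K X) (hT : T'.t = T.t) (hH : Kr ρ D C (i + 1) ≤ H)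
    (hbal : ∀ d ∉ K, d ∉ Stb ρ (Vr F n i) → ∀ N, N * kk K d d = 2 * cd K → T'.Bal ⊤ d N)
    (hK : CT K) : CT H := by
  obtain ⟨m, e, ω, ⟨h0, -⟩, h1, h2⟩ := orient hF2 hSL lg hs hlg hi hC T
  obtain ⟨σ, hσ⟩ : ∃ σ : Equiv.Perm (Fin (m + 4) × ZMod (2 * h)),
      ∀ (f : Fin (m + 4) × ZMod (2 * h) → Fin (m + 4) × ZMod (2 * h) → ℕ) (g0 g : ZMod (2 * h) → ℕ),
      (∀ t a a', f (t, a) (t, a') = g0 (a' - a)) →
      (∀ t t' a a', t ≠ t' → f (t, a) (t', a') = g (a + a' + ω t t')) →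
      (Even (Fintype.card (Fin (m + 4))) ∨ g 0 = g h) →
      Fintype.card (Fin (m + 4) × ZMod (2 * h)) * ∑ x, f x (σ x) = ∑ x, ∑ y, f x y := by
    classical
    obtain _ | m := m
    · have h3 := Fintype.card_le_of_surjective _ hs
      rw [Fintype.card_units, Fintype.card_multiplicative, ZMod.card] at h3
      obtain rfl : h = 1 := by have := NeZero.pos h; omega
      exact (sigma_four ω h1).imp fun σ h f g0 g k1 k2 _ => h f g0 g k1 k2
    · exact exists_sigma (by simp) ω h1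
  choose g0 g h3 h4 _ using fun z => h2 _ (inv_kk T T' hT hH z)
  have h5 : ∀ z c, g z (c + h) = g z c := fun z c => by
    have h6 := h4 z 0 1 (c - ω 0 1) 0 (by simp)
    have h7 := h4 z 1 0 0 (c - ω 0 1) (by simp)
    rw [← kk_inv, _root_.mul_inv_rev, inv_inv, h6, h1 0 1 (by simp)] at h7
    rw [show c + h = 0 + (c - ω 0 1) + (ω 0 1 + h) by ring, ← h7]
    congr 1; ring
  refine T'.step (fun _ hh => (T'.exists_act hh).imp fun _ h => ⟨Subgroup.mem_top _, h⟩)
    (fun d hd N hN => ?_) (fun Φ _ => T'.join_twin (n := m) e (fun c z => g0 z c)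
      (fun c z => g z (lo c)) (fun t t' => cs h (ω t t')) (fun t a a' z => h3 z t a a')
      (fun t t' a a' z ht => ?_) Φ) hK
  · by_cases hd' : d ∈ Stb ρ (Vr F n i)
    · refine bal_stb T hSL hi ((e.symm.trans σ).trans e) (fun f hf => ?_) T' hT hH hd' N
      obtain ⟨k0, k, k1, k2, k3⟩ := h2 f hf
      have h6 := hσ (fun p q => f (e p) (e q)) k0 k k1 k2 (by simpa using k3)
      rw [Fintype.card_congr e, ← e.symm.sum_comp, ← e.symm.sum_comp fun p => ∑ q, _] at h6
      simpa [e.sum_comp] using h6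
    · exact hbal d hd hd' N hN
  · rw [h4 z t t' a a' ht, ← map_add, ← map_add]
    rcases lo_cs (a + a' + ω t t') with h6 | h6
    · rw [← h6]
    · rw [← h5, ← h5 z (lo _), ← h6, h5]

end Pool.Agent.Lib.MP_0becda_co.Coset
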