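import Pool.Agent.Lib.MP_0becda_co.Coset.Cell

/-!
Descent along an abelian quotient of odd order.
-/

namespace Pool.Agent.Lib.MP_0becda_co.Coset

variable {G : Type} [Group G] [Fintype G]

theorem ct_odd_comm {Z H : Subgroup G} (hle : Z ≤ H) (ho : Odd (Z.relIndex H))
    (hc : ∀ a ∈ H, ∀ b ∈ H, a * b * a⁻¹ * b⁻¹ ∈ Z) (h : CT H) : CT Z :=
  ct_odd _ H rfl ho hle (fun _ k1 k2 => (sup_le le_rfl (Subgroup.commutator_le.2
    fun a ha b hb => hc a (k2 ha) b (k2 hb))).trans_lt k1) h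

end Pool.Agent.Lib.MP_0becda_co.Coset
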