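import Pool.Agent.Lib.MP_0becda_co.Coset.Block

/-!
Fibres that carry a sparse regular graph.
-/

set_option linter.unusedSectionVars false

open Finset Pool.Agent.Lib.MP_0becda_co.PSL

namespace Pool.Agent.Lib.MP_0becda_co.Coset

section graph

variable {X : Type} [Fintype X] [DecidableEq X] {P : X → X → Prop}

theorem sum_ind_card (S : Finset X) (p : X → Prop) [DecidablePred p] :
    ∑ x ∈ S, ind (p x) = (S.filter p).card := by
  rw [card_filter]
  exact sum_congr rfl fun x _ => by by_cases h : p x <;> simp [h, ind_pos, ind_neg]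

theorem exists_not_of_lt {S : Finset X} {p : X → Prop} (h : ∑ x, ind (p x) < S.card) :
    ∃ x ∈ S, ¬ p x := by
  by_contra h1
  refine h.not_ge (le_trans ?_ (sum_le_sum_of_subset (subset_univ S)))
  rw [card_eq_sum_ones]
  exact sum_le_sum fun x hx => (ind_pos (by_contra fun h2 => h1 ⟨x, hx, h2⟩)).ge

theorem match_in (hs : ∀ x y, P x y → P y x) (hi : ∀ x, ¬ P x x) (R : Finset X) (j : ℕ) :
    (∀ W, R ⊆ W → W.card + 2 ≤ R.card + 2 * j → ∃ x ∉ W, ∃ y ∉ W, P x y) →
    ∃ (μ : X → X) (S : Finset X), (∀ x, μ (μ x) = x) ∧ S.card = 2 * j ∧ Disjoint R S ∧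
      (∀ x ∈ S, P x (μ x)) ∧ ∀ x ∉ S, μ x = x := by
  induction j with
  | zero => exact fun _ => ⟨id, ∅, fun _ => rfl, rfl, by simp, by simp, fun _ _ => rfl⟩
  | succ j ih =>
    intro h
    obtain ⟨μ, S, h1, h2, h3, h4, h5⟩ := ih fun W k1 k2 => h W k1 (by omega)
    obtain ⟨x, hx, y, hy, h6⟩ := h (R ∪ S) subset_union_left
      (by rw [card_union_of_disjoint h3]; omega)
    rw [mem_union, not_or] at hx hy
    have h7 : x ≠ y := fun h => hi x (h ▸ h6)
    have h8 : ∀ z, z ≠ x → z ≠ y → μ z ≠ x ∧ μ z ≠ y := fun z k1 k2 =>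
      ⟨fun h => k1 (by rw [← h1 z, h, h5 x hx.2]), fun h => k2 (by rw [← h1 z, h, h5 y hy.2])⟩
    refine ⟨fun z => if z = x then y else if z = y then x else μ z, insert x (insert y S),
      fun z => ?_, by rw [card_insert_of_notMem (by simp [h7, hx.2]), card_insert_of_notMem hy.2]; omega,
      by simp [hx.1, hy.1, h3], fun z hz => ?_, fun z hz => ?_⟩
    · by_cases k1 : z = x
      · simp [k1, h7.symm]
      by_cases k2 : z = y
      · simp [k2, h7.symm]
      simp [k1, k2, h8 z k1 k2, h1]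
    · by_cases k1 : z = x
      · simpa [k1] using h6
      by_cases k2 : z = y
      · simpa [k2, h7.symm] using hs _ _ h6
      simpa [k1, k2] using h4 z (by simpa [k1, k2] using hz)
    · simp only [mem_insert, not_or] at hz
      simp [hz.1, hz.2.1, h5 z hz.2.2]

theorem match_out (hs : ∀ x y, P x y → P y x) (hi : ∀ x, ¬ P x x) {k : ℕ}
    (hk : ∀ x, ∑ y, ind (P x y) ≤ k) (Y : Finset X) (he : Even Y.card) (hY : 2 * k + 2 < Y.card) :
    ∃ μ : X → X, (∀ x, μ (μ x) = x) ∧ (∀ x, μ x = x ↔ x ∉ Y) ∧ ∀ x, ¬ P x (μ x) := by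
  classical
  obtain ⟨r, hr⟩ := he
  obtain ⟨μ0, S, h1, h2, h3, h4, h5⟩ := match_in (P := fun x y : X => x ≠ y) (fun _ _ => Ne.symm)
    (fun _ h => h rfl) Yᶜ r fun W _ k2 => by
      have k3 := card_compl W
      have k4 := card_compl Y
      have k5 := card_le_univ Y
      obtain ⟨x, hx, y, hy, h⟩ := one_lt_card.1 (show 1 < Wᶜ.card by omega)
      exact ⟨x, mem_compl.1 hx, y, mem_compl.1 hy, h⟩
  obtain rfl : S = Y := eq_of_subset_of_card_le (fun x hx => by_contra fun h =>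
    disjoint_right.1 h3 hx (mem_compl.2 h)) (by omega)
  obtain ⟨μ, ⟨h6, h7⟩, h8⟩ := Set.exists_min_image
    {μ : X → X | (∀ x, μ (μ x) = x) ∧ ∀ x, μ x = x ↔ x ∉ S} (fun μ => ∑ x, ind (P x (μ x)))
    (Set.toFinite _) ⟨μ0, h1, fun x => ⟨fun h hx => h4 x hx h.symm, h5 x⟩⟩
  refine ⟨μ, h6, h7, fun u hu => ?_⟩
  have k1 : μ u ≠ u := fun h => hi u (by rwa [h] at hu)
  have k2 : Function.Bijective μ := Function.Involutive.bijective h6
  obtain ⟨p, hp, k3⟩ := exists_not_of_lt (S := (S.erase u).erase (μ u))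
    (p := fun p => P u p ∨ P (μ u) (μ p)) (by
      have k3 := hk u
      have k4 := hk (μ u)
      rw [← k2.sum_comp] at k4
      have k5 := pred_card_le_card_erase (s := S) (a := u)
      have k6 := pred_card_le_card_erase (s := S.erase u) (a := μ u)
      refine lt_of_le_of_lt (sum_le_sum (g := fun p => ind (P u p) + ind (P (μ u) (μ p)))
        fun p _ => ?_) (by rw [sum_add_distrib]; omega)
      by_cases h : P u p <;> by_cases h' : P (μ u) (μ p) <;> simp [h, h', ind_pos, ind_neg])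
  simp only [mem_erase] at hp
  rw [not_or] at k3
  have k4 : μ u ∈ S := by_contra fun h => k1 (by rw [← (h7 _).2 h, h6])
  have k5 : μ p ≠ p := fun h => (h7 p).1 h hp.2.2
  have k6 : μ p ≠ u := fun h => hp.1 (by rw [← h, h6])
  have k7 : μ p ≠ μ u := k2.1.ne hp.2.1
  let c := Equiv.swap (μ u) p
  have k8 : ∀ x, P x (c (μ (c x))) → P x (μ x) ∧ x ≠ u := fun x h => by
    by_cases e1 : x = u
    · rw [e1, Equiv.swap_apply_of_ne_of_ne k1.symm hp.2.1.symm, Equiv.swap_apply_left] at h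
      exact absurd h k3.1
    by_cases e2 : x = μ u
    · rw [e2, Equiv.swap_apply_left, Equiv.swap_apply_of_ne_of_ne k7 k5] at h
      exact absurd h k3.2
    by_cases e3 : x = p
    · rw [e3, Equiv.swap_apply_right, h6, Equiv.swap_apply_of_ne_of_ne k1.symm hp.2.1.symm] at h
      exact absurd (hs _ _ h) k3.1
    by_cases e4 : x = μ p
    · rw [e4, Equiv.swap_apply_of_ne_of_ne k7 k5, h6, Equiv.swap_apply_right] at h
      exact absurd (hs _ _ h) k3.2
    rw [Equiv.swap_apply_of_ne_of_ne e2 e3, Equiv.swap_apply_of_ne_of_ne (k2.1.ne e1)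
      fun h => e4 (by rw [← h, h6])] at h
    exact ⟨h, e1⟩
  refine (h8 (fun x => c (μ (c x))) ⟨fun x => by simp [c, h6], fun x => ?_⟩).not_gt
    (sum_lt_sum (fun x _ => ?_) ⟨u, mem_univ _, ?_⟩)
  · rw [Equiv.swap_apply_eq_iff, h7]
    by_cases e2 : x = μ u
    · simp [e2, c, hp.2.2, k4]
    by_cases e3 : x = p
    · simp [e3, c, hp.2.2, k4]
    rw [Equiv.swap_apply_of_ne_of_ne e2 e3]
  · by_cases h : P x (c (μ (c x)))
    · rw [ind_pos h, ind_pos (k8 x h).1]
    · rw [ind_neg h]; exact Nat.zero_le _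
  · rw [ind_neg fun h => (k8 u h).2 rfl, ind_pos hu]; exact one_pos

/-- an involution with given fixed points and a given number of edges -/
theorem exists_match (hs : ∀ x y, P x y → P y x) (hi : ∀ x, ¬ P x x) {k : ℕ}
    (hk : ∀ x, ∑ y, ind (P x y) = k) (R : Finset X) {j : ℕ} (hj : j ≤ k) {m : ℕ}
    (hm : Fintype.card X = R.card + 2 * m) (h1 : j + k + 1 < m) (h2 : R.card + 4 * j < 2 * m + 4) :
    ∃ μ : X → X, (∀ x, μ (μ x) = x) ∧ (∀ x, μ x = x ↔ x ∈ R) ∧ ∑ x, ind (P x (μ x)) = 2 * j := by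
  classical
  obtain ⟨μ, S, h3, h4, h5, h6, h7⟩ := match_in hs hi R j fun W k1 k2 => by
    by_contra k3
    have k4 : ∑ x ∈ Wᶜ, k ≤ ∑ y ∈ W, k := by
      refine (sum_congr rfl fun x _ => (hk x).symm).trans_le
        (le_trans ?_ (sum_congr rfl fun y _ => hk y).le)
      rw [sum_comm (s := W)]
      refine le_trans (sum_le_sum fun x hx => ?_) (sum_le_sum_of_subset (subset_univ _))
      rw [← sum_subset (subset_univ W) fun y _ hy => ind_neg fun h => k3 ⟨x, mem_compl.1 hx, y, hy, h⟩]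
      exact sum_le_sum fun y _ => (ind_congr ⟨hs _ _, hs _ _⟩).le
    rw [sum_const, sum_const, smul_eq_mul, smul_eq_mul, card_compl] at k4
    have k5 := card_le_card k1
    have k6 := Nat.le_of_mul_le_mul_right k4 (by omega)
    omega
  have h8 : (R ∪ S)ᶜ.card = 2 * (m - j) := by rw [card_compl, card_union_of_disjoint h5]; omega
  obtain ⟨ν, k1, k2, k3⟩ := match_out hs hi (fun x => (hk x).le) (R ∪ S)ᶜ ⟨m - j, by omega⟩ (by omega)
  simp only [mem_compl, not_not, mem_union] at k2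
  have k4 : ∀ x ∈ S, μ x ∈ S := fun x hx => by_contra fun h =>
    h (by rwa [← h7 _ h, h3])
  have k5 : ∀ x ∉ S, ν x ∉ S := fun x hx h => hx (by rwa [← k1 x, (k2 _).2 (Or.inr h)])
  refine ⟨fun x => if x ∈ S then μ x else ν x, fun x => ?_, fun x => ?_, ?_⟩
  · by_cases h : x ∈ S
    · simp [h, k4 x h, h3]
    · simp [h, k5 x h, k1]
  · by_cases h : x ∈ S
    · simp only [if_pos h]
      exact ⟨fun h9 => absurd (h6 x h) (h9.symm ▸ hi x), fun h9 => absurd h (disjoint_left.1 h5 h9)⟩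
    · simp [h, k2]
  · rw [← h4, card_eq_sum_ones, ← sum_subset (subset_univ S) fun x _ h => ind_neg (by simp [h, k3])]
    exact sum_congr rfl fun x h => ind_pos (by simpa [h] using h6 x h)

theorem links_bound {α : Type} (w1 w2 : α → ℕ) (c : ℕ) (L : List α) : ∀ a : α,
    (∀ L1 p p' L2, a :: L = L1 ++ p :: p' :: L2 → c ≤ w1 p + w2 p') →
    c * L.length ≤ ((a :: L).map w1).sum + (L.map w2).sum := by
  induction L with
  | nil => simp
  | cons b L ih =>
    intro a h
    have h1 := h [] a b L rfl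
    have h2 := ih b fun L1 p p' L2 e => h (a :: L1) p p' L2 (by rw [e]; rfl)
    simp only [List.map_cons, List.sum_cons, List.length_cons, Nat.mul_succ] at h2 ⊢
    omega

theorem chain_insert {α : Type} {R : α → α → Prop} {a r p p' : α} {L L1 L2 : List α}
    (h : List.IsChain R (a :: L)) (e : a :: L = L1 ++ p :: p' :: L2) (h1 : R p r) (h2 : R r p') :
    ∃ L', List.IsChain R (a :: L') ∧ L'.Perm (r :: L) := by
  rw [e, List.isChain_append_cons_cons] at h
  have h3 : List.IsChain R (L1 ++ p :: r :: p' :: L2) :=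
    List.isChain_append_cons_cons.2 ⟨h.1, h1, List.isChain_cons_cons.2 ⟨h2, h.2.2⟩⟩
  cases L1 with
  | nil =>
    obtain ⟨rfl, rfl⟩ := List.cons.inj e
    exact ⟨_, h3, List.Perm.refl _⟩
  | cons b L1 =>
    obtain ⟨rfl, rfl⟩ := List.cons.inj e
    refine ⟨_, h3, ?_⟩
    simpa using List.perm_middle (l₁ := L1 ++ [p]) (a := r) (l₂ := p' :: L2)

theorem exists_chain (hs : ∀ x y, P x y → P y x) {κ : ℕ} (hk : ∀ x, ∑ y, ind (P x y) ≤ κ)
    {μ : X → X} (h1 : ∀ x, μ (μ x) = x) {x0 : X} (h0 : ∀ x, μ x = x ↔ x = x0)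
    (hX : 3 * κ + 1 < Fintype.card X) (j : ℕ) : 2 * j + 1 ≤ Fintype.card X →
    ∃ L : List X, L.length = j ∧ List.IsChain (fun x y => ¬ P (μ x) y) (x0 :: L) ∧
      (x0 ::ₘ ((L : Multiset X) + (L.map μ : List X))).Nodup := by
  induction j with
  | zero => exact fun _ => ⟨[], rfl, List.isChain_singleton _, by simp⟩
  | succ j ih =>
    intro hj
    obtain ⟨L, rfl, h2, h3⟩ := ih (by omega)
    let U : Finset X := ⟨_, h3⟩
    have hU : U.card = 2 * L.length + 1 := by rw [card_mk]; simp [two_mul]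
    have h4 : ∀ r, μ r ∈ U → r ∈ U := fun r h => by
      simp only [U, mem_mk, Multiset.mem_cons, Multiset.mem_add, Multiset.mem_coe,
        List.mem_map] at h ⊢
      rcases h with h | h | ⟨a, ha, h⟩
      · exact Or.inl (by rw [← h1 r, h, (h0 _).2 rfl])
      · exact Or.inr (Or.inr ⟨_, h, h1 r⟩)
      · exact Or.inr (Or.inl (by rwa [← h1 r, ← h, h1]))
    suffices ∃ r ∉ U, ∃ L', List.IsChain (fun x y => ¬ P (μ x) y) (x0 :: L') ∧ L'.Perm (r :: L) by
      obtain ⟨r, hr, L', k1, k2⟩ := this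
      refine ⟨L', k2.length_eq, k1, ?_⟩
      rw [Multiset.coe_eq_coe.2 k2, Multiset.coe_eq_coe.2 (k2.map μ), List.map_cons,
        ← Multiset.cons_coe, ← Multiset.cons_coe, Multiset.cons_add, Multiset.add_cons,
        Multiset.cons_swap, Multiset.cons_swap x0, Multiset.nodup_cons, Multiset.nodup_cons,
        Multiset.mem_cons, not_or]
      exact ⟨⟨fun h => hr (mem_mk.2 (Multiset.mem_cons.2 (Or.inl ((h0 r).1 h.symm)))),
        hr⟩, mt (h4 r) hr, h3⟩
    by_cases hc : L.length ≤ κ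
    · obtain ⟨r, hr, k1⟩ := exists_not_of_lt (S := Uᶜ) (lt_of_le_of_lt
        (hk (μ ((x0 :: L).getLast (List.cons_ne_nil _ _)))) (by rw [card_compl]; omega))
      refine ⟨r, mem_compl.1 hr, L ++ [r], ?_, List.perm_append_singleton _ _⟩
      rw [← List.cons_append, List.isChain_append]
      exact ⟨h2, List.isChain_singleton _, fun x hx y hy => by
        rw [List.getLast?_eq_some_getLast (List.cons_ne_nil _ _), Option.mem_some] at hx
        obtain rfl : r = y := by simpa using hy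
        exact hx ▸ k1⟩
    obtain ⟨r, hr⟩ : Uᶜ.Nonempty := card_pos.1 (by rw [card_compl]; omega)
    rw [mem_compl] at hr
    by_contra k0
    let w : X → ℕ := fun u => ind (P r u) + ind (P (μ r) u)
    have k1 := links_bound (fun p => w (μ p)) w 2 L x0 fun L1 p p' L2 e => by
      have k1 : P r (μ p) ∨ P (μ r) p' := by_contra fun h => k0 ⟨r, hr,
        chain_insert h2 e (fun h' => h (Or.inl (hs _ _ h'))) fun h' => h (Or.inr h')⟩
      have k2 : P (μ r) (μ p) ∨ P r p' := by_contra fun h => k0 ⟨μ r, mt (h4 r) hr,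
        chain_insert h2 e (fun h' => h (Or.inl (hs _ _ h'))) fun h' => h (Or.inr (h1 r ▸ h'))⟩
      rcases k1 with k1 | k1 <;> rcases k2 with k2 | k2 <;> simp only [w, ind_pos k1, ind_pos k2] <;>
        omega
    have k2 : ∑ u ∈ U, w u ≤ 2 * κ := (sum_le_sum_of_subset (subset_univ _)).trans (by
      rw [sum_add_distrib, two_mul]; exact add_le_add (hk _) (hk _))
    have k3 : ∑ u ∈ U, w u = ((x0 :: L).map fun p => w (μ p)).sum + (L.map w).sum := by
      simp [U, Finset.sum, (h0 _).2 rfl, Function.comp_def, add_comm, add_assoc, add_left_comm]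
    omega

theorem rank_sum (hi : ∀ x, ¬ P x x) {f : X → X → ℕ} {f0 f1 f2 : ℕ} (h0 : ∀ x, f x x = f0)
    (h1 : ∀ x y, P x y → f x y = f1) (h2 : ∀ x y, x ≠ y → ¬ P x y → f x y = f2) (u v : X → X)
    {a b c : ℕ} (ha : ∑ x, ind (v x = u x) = a) (hb : ∑ x, ind (P (u x) (v x)) = b)
    (hc : Fintype.card X = a + b + c) : ∑ x, f (u x) (v x) = a * f0 + b * f1 + c * f2 := by
  have h3 : ∀ x y, ind (y = x) + ind (P x y) + ind (x ≠ y ∧ ¬ P x y) = 1 ∧
      f x y = ind (y = x) * f0 + ind (P x y) * f1 + ind (x ≠ y ∧ ¬ P x y) * f2 := fun x y => by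
    by_cases e : y = x
    · simp [e, ind_pos, ind_neg, hi, h0]
    by_cases e' : P x y
    · simp [e, e', ind_pos, ind_neg, h1 x y e']
    · simp [e, e', Ne.symm e, ind_pos, ind_neg, h2 x y (Ne.symm e) e']
  have h4 := sum_congr (s₁ := univ) rfl fun x _ => (h3 (u x) (v x)).1
  rw [sum_add_distrib, sum_add_distrib, ha, hb, sum_const, smul_eq_mul, mul_one, card_univ, hc,
    Nat.add_left_cancel_iff] at h4
  rw [sum_congr rfl fun x _ => (h3 (u x) (v x)).2, sum_add_distrib, sum_add_distrib, ← sum_mul,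
    ← sum_mul, ← sum_mul, ha, hb, h4]

theorem even_degree (hs : ∀ x y, P x y → P y x) (hi : ∀ x, ¬ P x x) {k : ℕ}
    (hk : ∀ x, ∑ y, ind (P x y) = k) : Even (Fintype.card X * k) := by
  let e := Fintype.equivFin X
  have h1 : ∀ x y, ind (P x y) = ind (P x y ∧ e x < e y) + ind (P y x ∧ e y < e x) := fun x y => by
    by_cases h : P x y
    · rcases (e.injective.ne fun h1 : x = y => hi x (h1 ▸ h)).lt_or_gt with h1 | h1 <;>
        simp [h, hs _ _ h, h1, h1.not_gt, ind_pos, ind_neg]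
    · simp [h, mt (hs y x) h, ind_neg]
  rw [← smul_eq_mul, ← card_univ, ← sum_const, ← sum_congr rfl fun x _ => hk x]
  simp only [h1, sum_add_distrib]
  exact ⟨_, congrArg _ sum_comm⟩

theorem sigma_rank (hs : ∀ x y, P x y → P y x) (hi : ∀ x, ¬ P x x) {k : ℕ}
    (hk : ∀ x, ∑ y, ind (P x y) = k) (ho : Odd (Fintype.card X)) (hX : 4 * k + 5 ≤ Fintype.card X) :
    ∃ σ : Equiv.Perm X, ∀ (f : X → X → ℕ) (f0 f1 f2 : ℕ), (∀ x, f x x = f0) →
      (∀ x y, P x y → f x y = f1) → (∀ x y, x ≠ y → ¬ P x y → f x y = f2) →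
      Fintype.card X * ∑ x, f x (σ x) = ∑ x, ∑ y, f x y := by
  obtain ⟨j, hj⟩ := (Nat.even_mul.1 (even_degree hs hi hk)).resolve_left (Nat.not_even_iff_odd.2 ho)
  obtain ⟨m, hm⟩ := ho
  obtain ⟨x0⟩ : Nonempty X := Fintype.card_pos_iff.1 (by omega)
  obtain ⟨μ, h1, h2, h3⟩ := exists_match hs hi hk {x0} (j := j) (by omega) (m := m)
    (by rw [card_singleton]; omega) (by omega) (by rw [card_singleton]; omega)
  refine ⟨Function.Involutive.toPerm μ h1, fun f f0 f1 f2 k0 k1 k2 => ?_⟩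
  rw [sum_congr rfl fun x _ => rank_sum hi k0 k1 k2 (fun _ => x) (fun y => y) (sum_ind_eq x) (hk x)
    (c := 2 * m - k) (by omega), sum_const, smul_eq_mul, card_univ]
  congr 1
  exact rank_sum hi k0 k1 k2 (fun x => x) μ (by simpa [h2] using sum_ind_eq x0) (by omega) (by omega)

end graph

variable {G : Type} [Group G] [Fintype G]

theorem link_list {X : Type} (H : Subgroup G) (pos : X → G) (μ : X → X) {R : X → X → Prop}
    (Vp : X → Multiset G) (Ep : X → Multiset (Sym2 G)) {k : G → ℕ}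
    (hP : ∀ x, Path (Vp x) (Ep x) (pos x) (pos (μ x)))
    (hk : ∀ x y, R x y → ∀ g, ke H s(pos (μ x), pos y) g = k g) (L : List X) :
    ∀ z V E p, Path V E p (pos (μ z)) → List.IsChain R (z :: L) → ∃ J q,
      Path (V + (L.map Vp).sum) (E + (L.map Ep).sum + J) p q ∧ ∀ g, KE H J g = L.length * k g := by
  induction L with
  | nil => exact fun z V E p h _ => ⟨0, _, by simpa using h, fun g => by simp [KE]⟩
  | cons x L ih =>
    intro z V E p h hc
    rw [List.isChain_cons_cons] at hc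
    obtain ⟨J, q, h1, h2⟩ := ih x _ _ p (h.append (hP x)) hc.2
    refine ⟨s(pos (μ z), pos x) ::ₘ J, q, h1.congr (by simp [add_assoc]) ?_ rfl rfl, fun g => ?_⟩
    · simp only [List.map_cons, List.sum_cons, ← Multiset.singleton_add]; abel
    · rw [KE_cons, h2, hk _ _ hc.1, List.length_cons, Nat.succ_mul, add_comm]

theorem TV.join_rank {H K : Subgroup G} {X : Type} [Fintype X] (T : TV H K X) {P : X → X → Prop}
    (hs : ∀ x y, P x y → P y x) (hi : ∀ x, ¬ P x x) {k : ℕ} (hk : ∀ x, ∑ y, ind (P x y) = k)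
    (ho : Odd (Fintype.card X)) (hX : 4 * k + 5 ≤ Fintype.card X) (f1 f2 : G → ℕ)
    (h1 : ∀ g x y, P x y → kk H ((T.t x)⁻¹ * T.t y) g = f1 g)
    (h2 : ∀ g x y, x ≠ y → ¬ P x y → kk H ((T.t x)⁻¹ * T.t y) g = f2 g)
    (Φ : Equiv.Perm X) (a b : G) (Vx : X → Multiset G) (Ex : X → Multiset (Sym2 G))
    (hP : ∀ x, Path (Vx x) (Ex x) (a * T.t x) (b * T.t (Φ x))) : ∃ J p q,
      Path (∑ x, Vx x) (∑ x, Ex x + J) p q ∧ ∀ g, KE H J g = 2 * cd H * ind (g ∈ K ∧ g ∉ H) := by
  classical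
  obtain ⟨m, hm⟩ := ho
  obtain ⟨x0⟩ : Nonempty X := Fintype.card_pos_iff.1 (by omega)
  obtain ⟨ν, n1, n2, n3⟩ := exists_match hs hi hk {Φ x0} le_rfl (m := m)
    (by rw [card_singleton]; omega) (by omega) (by rw [card_singleton]; omega)
  let μ : X → X := fun x => Φ.symm (ν (Φ x))
  have m1 : ∀ x, Φ (μ x) = ν (Φ x) := fun x => Φ.apply_symm_apply _
  have m2 : ∀ x, μ x = x ↔ x = x0 := fun x => by
    rw [Equiv.symm_apply_eq, n2, mem_singleton, Φ.apply_eq_iff_eq]
  obtain ⟨L, h3, h4, h5⟩ := exists_chain (P := fun x y => y = x ∨ P x y) (κ := k + 1)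
    (fun x y h => h.imp Eq.symm (hs _ _)) (fun x => by
      rw [← hk x, ← sum_ind_eq x, ← sum_add_distrib]
      refine sum_le_sum fun y _ => ?_
      by_cases e : y = x <;> by_cases e' : P x y <;> simp [e, e', ind_pos, ind_neg])
    (μ := μ) (fun x => by simp [μ, n1]) m2 (by omega) m hm.ge
  have cov : ∀ {M : Type} [AddCommMonoid M] (F : X → M),
      ∑ x, F x = F x0 + (L.map fun x => F x + F (μ x)).sum := fun F => by
    rw [← eq_univ_of_card (⟨_, h5⟩ : Finset X) (by simp; omega)]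
    simp [Finset.sum, List.sum_map_add, Function.comp_def]
  obtain ⟨J, q, h6, h7⟩ := link_list H (fun x => a * T.t x) μ (fun x => Vx x + Vx (μ x))
    (fun x => Ex x + s(b * T.t (Φ x), b * T.t (Φ (μ x))) ::ₘ Ex (μ x)) (k := f2)
    (fun x => (hP x).append (hP (μ x)).reverse) (fun x y h g => by
      rw [not_or] at h
      rw [ke_mk, mul_inv_rev, mul_assoc, inv_mul_cancel_left, h2 g _ _ (Ne.symm h.1) h.2])
    L x0 _ _ _ ((hP x0).reverse.congr rfl rfl rfl (by rw [(m2 x0).2 rfl])) h4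
  refine ⟨(L.map fun x => ({s(b * T.t (Φ x), b * T.t (Φ (μ x)))} : Multiset (Sym2 G))).sum + J,
    _, q, h6.congr (cov Vx).symm ?_ rfl rfl, fun g => ?_⟩
  · simp only [cov Ex, ← Multiset.singleton_add, List.sum_map_add]; abel
  have k0 : ∀ x, kk H ((T.t x)⁻¹ * T.t x) g = kk H 1 g := fun x => by rw [inv_mul_cancel]
  have k1 := rank_sum hi k0 (h1 g) (h2 g) (fun _ => x0) (fun y => y) (sum_ind_eq x0) (hk x0)
    (c := 2 * m - k) (by omega)
  have k2 := rank_sum hi k0 (h1 g) (h2 g) (fun x => x) ν (by simpa [n2] using sum_ind_eq (Φ x0)) n3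
    (c := 2 * (m - k)) (by omega)
  have k3 : ∀ L : List X, 2 * KE H (L.map fun x =>
      ({s(b * T.t (Φ x), b * T.t (Φ (μ x)))} : Multiset (Sym2 G))).sum g = (L.map fun x =>
        kk H ((T.t (Φ x))⁻¹ * T.t (ν (Φ x))) g
          + kk H ((T.t (Φ (μ x)))⁻¹ * T.t (ν (Φ (μ x)))) g).sum := fun L => by
    induction L with
    | nil => simp [KE]
    | cons x L ih =>
      rw [List.map_cons, List.sum_cons, Multiset.singleton_add, KE_cons, mul_add, ih, List.map_cons,
        List.sum_cons, ke_mk, mul_inv_rev, mul_assoc, inv_mul_cancel_left, m1, n1, two_mul,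
        ← kk_inv H ((T.t (ν (Φ x)))⁻¹ * _), mul_inv_rev, inv_inv]
  rw [← Equiv.sum_comp Φ, cov, ← k3, (n2 _).2 (mem_singleton_self _), k0] at k2
  rw [← add_sum_erase _ _ (mem_univ x0), k0, T.sum_erase] at k1
  obtain ⟨r, rfl⟩ : ∃ r, m = k + r := ⟨m - k, by omega⟩
  rw [show 2 * (k + r) - k = k + 2 * r by omega] at k1
  rw [Nat.add_sub_cancel_left] at k2
  rw [KE_add, h7, h3]
  nlinarith

end Pool.Agent.Lib.MP_0becda_co.Coset
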