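import Pool.Agent.Lib.MP_0becda_co.Coset.Lin

/-!
From the triangular subgroup to the diagonal subgroup in characteristic two.
-/

set_option linter.unusedSectionVars false

open Finset Matrix Pool.Agent.Lib.MP_0becda_co.PSL

namespace Pool.Agent.Lib.MP_0becda_co.Coset

variable {F : Type} [Field F] {n : ℕ}

/-- upper triangular matrices whose first entries above the diagonal vanish -/
def Up (m : ℕ) (M : Matrix (Fin n) (Fin n) F) : Prop :=
  ∀ a b, (b < a ∨ (a < b ∧ b.val * n + a.val < m)) → M a b = 0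

theorem Up.mul_diag {m : ℕ} {M N : Matrix (Fin n) (Fin n) F} (h1 : Up m M) (h2 : Up m N)
    (a : Fin n) : (M * N) a a = M a a * N a a := by
  rw [mul_apply, sum_eq_single a (fun l _ hl => ?_) (by simp)]
  rcases hl.lt_or_gt with hl | hl
  · rw [h1 _ _ (Or.inl hl), zero_mul]
  · rw [h2 _ _ (Or.inl hl), mul_zero]

theorem Up.mul_entry {m : ℕ} {M N : Matrix (Fin n) (Fin n) F} (h1 : Up m M) (h2 : Up m N)
    {i j : Fin n} (h : i < j) (hm : j.val * n + i.val ≤ m) :
    (M * N) i j = M i i * N i j + M i j * N j j := by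
  rw [mul_apply, sum_eq_add i j h.ne (fun l _ hl => ?_) (by simp) (by simp)]
  rcases hl.1.lt_or_gt with h3 | h3
  · rw [h1 _ _ (Or.inl h3), zero_mul]
  rcases hl.2.lt_or_gt with h4 | h4
  · have := Nat.mul_lt_mul_of_pos_right (show l.val < j.val from h4) l.pos
    rw [h1 _ _ (Or.inr ⟨h3, by omega⟩), zero_mul]
  · rw [h2 _ _ (Or.inl h4), mul_zero]

theorem Up.mul {m : ℕ} {M N : Matrix (Fin n) (Fin n) F} (h1 : Up m M) (h2 : Up m N) :
    Up m (M * N) := by
  rintro a b (h | ⟨h, h3⟩)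
  · rw [mul_apply]
    refine sum_eq_zero fun l _ => ?_
    rcases le_or_gt l b with hl | hl
    · rw [h1 _ _ (Or.inl (hl.trans_lt h)), zero_mul]
    · rw [h2 _ _ (Or.inl hl), mul_zero]
  · rw [h1.mul_entry h2 h h3.le, h1 _ _ (Or.inr ⟨h, h3⟩), h2 _ _ (Or.inr ⟨h, h3⟩)]
    simp

theorem key_inj {i j a b : Fin n} (h : b.val * n + a.val = j.val * n + i.val) : a = i ∧ b = j := by
  have h1 := congrArg (· % n) h
  simp only [Nat.mul_add_mod_self_right, Nat.mod_eq_of_lt a.2, Nat.mod_eq_of_lt i.2] at h1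
  exact ⟨Fin.ext h1, Fin.ext (Nat.eq_of_mul_eq_mul_right a.pos (by omega))⟩

variable {G : Type} [Group G] [Fintype G] (ρ : G →* Matrix (Fin n) (Fin n) F)

/-- pattern subgroups -/
def Pm (m : ℕ) : Subgroup G := subOf
  { carrier := {g | Up m (ρ g)}
    one_mem' := fun a b h => by
      rw [map_one, one_apply_ne (h.elim (fun h => h.ne') fun h => h.1.ne)]
    mul_mem' := fun h1 h2 => by rw [Set.mem_ofPred_eq, map_mul]; exact h1.mul h2 }

variable {ρ}

theorem pm_ne {m : ℕ} {g : G} (hg : g ∈ Pm ρ m) (a : Fin n) : ρ g a a ≠ 0 := by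
  have := Up.mul_diag hg (inv_mem hg) a
  rw [← map_mul, mul_inv_cancel, map_one, one_apply_eq] at this
  exact left_ne_zero_of_mul_eq_one this.symm

/-- the diagonal part -/
noncomputable def dg (ρ : G →* Matrix (Fin n) (Fin n) F) (m : ℕ) : Pm ρ m →* (Fin n → Fˣ) :=
  MonoidHom.mk' (fun k a => Units.mk0 _ (pm_ne k.2 a)) fun k k' => funext fun a => Units.ext (by
    simpa using Up.mul_diag k.2 k'.2 a)

theorem pm_succ_le (m : ℕ) : Pm ρ (m + 1) ≤ Pm ρ m := fun _ h a b h1 =>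
  h a b (h1.imp_right fun h2 => ⟨h2.1, by omega⟩)

theorem kr_zero (D : Subgroup G) (C : Subgroup Fˣ) : Kr ρ D C 0 = D :=
  le_antisymm inf_le_left fun _ h => ⟨h, fun _ hi => absurd hi (Nat.not_lt_zero _)⟩

theorem pm_zero : Pm ρ 0 = Kr ρ ⊤ ⊤ (n - 1) := by
  refine le_antisymm (fun g hg => ⟨trivial, fun i _ => ⟨⟨Units.mk0 _ (pm_ne hg i),
    Subgroup.mem_top _, rfl⟩, fun a h => hg a i (Or.inl h)⟩⟩) fun g hg a b h => ?_
  have h1 : b < a := h.resolve_right fun h => by omega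
  exact (hg.2 b (by have := a.2; have : b.val < a.val := h1; omega)).2 a h1

variable [Fintype F] [CharP F 2]

theorem coprime_dg : (Nat.card (Fin n → Fˣ)).Coprime 2 := by
  classical
  rw [Nat.card_fun, Nat.card_units, Nat.card_eq_fintype_card]
  refine Nat.Coprime.pow_left _ ((Nat.coprime_two_right).2 ?_)
  obtain ⟨k, -, hk⟩ := FiniteField.card F 2
  rw [hk]
  exact Nat.Even.sub_odd (Nat.one_le_two_pow) (Nat.even_pow.2 ⟨even_two, k.ne_zero⟩) odd_one

theorem ct_root (hF : 4 ≤ Fintype.card F)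
    (hSL : ∀ M : Matrix (Fin n) (Fin n) F, M.det = 1 → ∃ g, ρ g = M) (m : ℕ)
    (h : CT (Pm ρ m)) : CT (Pm ρ (m + 1)) := by
  classical
  by_cases hm : ∃ i j : Fin n, i < j ∧ j.val * n + i.val = m
  swap
  · rwa [le_antisymm (pm_succ_le m) fun g hg a b h1 => hg a b (h1.imp_right fun h2 =>
      ⟨h2.1, lt_of_le_of_ne (Nat.lt_succ_iff.1 h2.2) fun h3 => hm ⟨a, b, h2.1, h3⟩⟩)]
  obtain ⟨i, j, hij, rfl⟩ := hm
  have h1 : ∀ g ∈ Pm ρ (j.val * n + i.val), g ∈ Pm ρ (j.val * n + i.val + 1) ↔ ρ g i j = 0 :=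
    fun g hg => ⟨fun h => h i j (Or.inr ⟨hij, by omega⟩), fun h a b h2 => by
      by_cases h3 : b.val * n + a.val = j.val * n + i.val
      · rw [(key_inj h3).1, (key_inj h3).2, h]
      · exact hg a b (h2.imp_right fun h4 => ⟨h4.1, by omega⟩)⟩
  have h2 : ∀ u ∈ Pm ρ (j.val * n + i.val), ∀ v ∈ Pm ρ (j.val * n + i.val),
      u⁻¹ * v ∈ Pm ρ (j.val * n + i.val + 1) ↔ ρ v i j * ρ u j j = ρ u i j * ρ v j j :=
    fun u hu v hv => by
      have h3 := mul_mem (inv_mem hu) hv
      have h4 := Up.mul_entry hu h3 hij le_rfl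
      have h5 := Up.mul_diag hu h3 j
      rw [← map_mul, mul_inv_cancel_left] at h4 h5
      rw [h1 _ h3, h4, h5, add_mul, mul_right_comm (ρ u i j), mul_assoc (ρ u i j), add_eq_right]
      simp [pm_ne hu]
  choose t ht using fun c : F => hSL (transvection i j c) (det_transvection_of_ne i j hij.ne c)
  have h3 : ∀ c, t c ∈ Pm ρ (j.val * n + i.val) := fun c a b h => by
    have h4 : a ≠ b := h.elim (fun h => h.ne') fun h => h.1.ne
    rw [ht, transvection, Matrix.add_apply, one_apply_ne h4, zero_add, single_apply_of_ne]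
    rintro ⟨rfl, rfl⟩
    exact h.elim (fun h => lt_asymm h hij) fun h => lt_irrefl _ h.2
  have h4 : ∀ c, ρ (t c) i j = c := fun c => by simp [ht, transvection, hij.ne]
  have h5 : ∀ c a, ρ (t c) a a = 1 := fun c a => by
    rw [ht, transvection, Matrix.add_apply, one_apply_eq, single_apply_of_ne, add_zero]
    rintro ⟨rfl, rfl⟩
    exact lt_irrefl _ hij
  let T : TV (Pm ρ (j.val * n + i.val + 1)) (Pm ρ (j.val * n + i.val)) F :=
    { t := t
      le := pm_succ_le _
      mem := h3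
      ex := fun g hg => ⟨ρ g i j / ρ g j j, (h2 _ (h3 _) g hg).2 (by
        rw [h4, h5, mul_one, div_mul_cancel₀ _ (pm_ne hg j)])⟩
      uniq := fun x y h => by simpa [h4, h5, eq_comm] using (h2 _ (h3 x) _ (h3 y)).1 h }
  have h6 : ∀ k ∈ Pm ρ (j.val * n + i.val), ∀ x y, ρ k i i * x + ρ k i j = y * ρ k j j →
      (T.t y)⁻¹ * k * T.t x ∈ Pm ρ (j.val * n + i.val + 1) := fun k hk x y h => by
    rw [mul_assoc, h2 _ (h3 y) _ (mul_mem hk (h3 x)), map_mul, Up.mul_entry hk (h3 x) hij le_rfl,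
      Up.mul_diag hk (h3 x), h4, h4, h5, h5, mul_one, mul_one, mul_one, h]
  let _ : Algebra (ZMod 2) F := ZMod.algebra F 2
  have h7 : 2 ≤ Module.finrank (ZMod 2) F := by
    by_contra h
    have h8 := Nat.pow_le_pow_right two_pos (Nat.lt_succ_iff.1 (not_le.1 h))
    rw [Module.card_eq_pow_finrank (K := ZMod 2), ZMod.card] at hF
    omega
  refine T.step_free (fun x y x' y' h8 h9 g => ?_) (fun d _ N hN => T.bal_affine 2
    (fun _ _ => Subgroup.mem_top _) (exists_diff h7) coprime_dg (dg ρ _) (fun k hk => ?_) hN) h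
  · obtain ⟨s, hs⟩ := isSquare_of_charTwo' ((y' - x') / (y - x))
    have h10 : s ≠ 0 := by
      rintro rfl
      exact div_ne_zero (sub_ne_zero.2 h9.symm) (sub_ne_zero.2 h8.symm) (hs.trans (mul_zero _))
    obtain ⟨D, hD⟩ := hSL (diagonal (Function.update (Function.update 1 i s) j s⁻¹)) (by
      rw [det_diagonal, prod_update_of_mem (mem_univ _),
        prod_update_of_mem (by simp [hij.ne])]
      simp [h10])
    have h11 : D ∈ Pm ρ (j.val * n + i.val) := fun a b h => by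
      rw [hD, diagonal_apply_ne _ (h.elim (fun h => h.ne') fun h => h.1.ne)]
    have h12 : ∀ z z', z' = s * s * z + (x' - s * s * x) →
        (T.t z')⁻¹ * (t (x' - s * s * x) * D) * T.t z ∈ Pm ρ (j.val * n + i.val + 1) :=
      fun z z' h => h6 _ (mul_mem (h3 _) h11) _ _ (by
        rw [map_mul, Up.mul_entry (h3 _) h11 hij le_rfl, Up.mul_diag (h3 _) h11,
          Up.mul_diag (h3 _) h11, h4, h5, h5, hD, h]
        simp [hij.ne]
        field_simp)
    have h13 := T.kk_move (d := 1) (h12 x x' (by ring)) (by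
      simpa using h12 y y' (by
        rw [← hs]; field_simp [sub_ne_zero.2 h8.symm]; ring)) g
    simpa using h13.symm
  · have h8 : ∀ a, ρ k a a = 1 := fun a => congrArg Units.val (congrFun hk a)
    exact ⟨ρ k i j, k.2, fun x => h6 _ k.2 _ _ (by simp [h8])⟩

theorem ct_char_two (hF : 4 ≤ Fintype.card F) (hρ : Function.Injective ρ)
    (hSL : ∀ M : Matrix (Fin n) (Fin n) F, M.det = 1 → ∃ g, ρ g = M) (Z : Subgroup G)
    (hZ : ∀ z ∈ Z, ∀ a b, a ≠ b → ρ z a b = 0) : CT Z := by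
  have h1 : ∀ r, r ≤ n - 1 → CT (Kr ρ ⊤ ⊤ r) := fun r => by
    induction r with
    | zero => exact fun _ => (kr_zero (ρ := ρ) ⊤ ⊤).symm ▸ ct_top
    | succ r ih =>
      exact fun h => ct_flag (fun M h => (hSL M h).imp fun g h => ⟨Subgroup.mem_top g, h⟩) ⟨r, by omega⟩
        (by simp; omega) (ih (by omega))
  have h2 : ∀ m, CT (Pm ρ m) := fun m => by
    induction m with
    | zero => exact pm_zero (ρ := ρ) ▸ h1 _ le_rfl
    | succ m ih => exact ct_root hF hSL m ih
  have h3 : ∀ g ∈ Pm ρ (n * n), ρ g = diagonal fun a => ρ g a a := fun g hg => by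
    ext a b
    rcases lt_trichotomy a b with h | rfl | h
    · have := Nat.mul_le_mul_right n (Nat.succ_le_of_lt b.2)
      rw [diagonal_apply_ne _ h.ne, hg a b (Or.inr ⟨h, by
        rw [Nat.succ_mul] at this; have := a.2; omega⟩)]
    · simp
    · rw [diagonal_apply_ne _ h.ne', hg a b (Or.inl h)]
  have h4 : Function.Injective (dg ρ (n * n)) := (injective_iff_map_eq_one _).2 fun k hk =>
    Subtype.ext (hρ (by
      have h5 : ∀ a, ρ k a a = 1 := fun a => congrArg Units.val (congrFun hk a)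
      rw [h3 k k.2]
      simp [h5]))
  refine ct_odd _ (Pm ρ (n * n)) rfl (Nat.coprime_two_right.1 (Nat.Coprime.coprime_dvd_left
    ((Subgroup.relIndex_dvd_card _ _).trans (Subgroup.card_dvd_of_injective _ h4)) coprime_dg)) (fun z hz a b h => hZ z hz a b
      (h.elim (fun h => h.ne') fun h => h.1.ne)) (fun L k1 k2 => ?_) (h2 _)
  rwa [Subgroup.commutator_eq_bot_iff_le_centralizer.2 fun x hx y hy => hρ (by
    rw [map_mul, map_mul, h3 x (k2 hx), h3 y (k2 hy), diagonal_mul_diagonal, diagonal_mul_diagonal]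
    simp [mul_comm]), sup_bot_eq]

end Pool.Agent.Lib.MP_0becda_co.Coset
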