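import Pool.Agent.Lib.MP_0becda_co.Coset.Rank3

/-!
Blocks indexed by a cyclic group over a sparse regular graph.
-/

set_option linter.unusedSectionVars false

open Finset Pool.Agent.Lib.MP_0becda_co.PSL

namespace Pool.Agent.Lib.MP_0becda_co.Coset

section graph

variable {X : Type} [Fintype X] [DecidableEq X] {P : X → X → Prop}

theorem sum_or_le (p q : X → Prop) : ∑ x, ind (p x ∨ q x) ≤ ∑ x, ind (p x) + ∑ x, ind (q x) := by
  rw [← sum_add_distrib]
  refine sum_le_sum fun x _ => ?_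
  by_cases h : p x <;> by_cases h' : q x <;> simp [h, h', ind_pos, ind_neg]

theorem list_sum_le {L : List X} (h : L.Nodup) (w : X → ℕ) : (L.map w).sum ≤ ∑ x, w x := by
  rw [← List.sum_toFinset w h]
  exact sum_le_sum_of_subset (subset_univ _)

theorem chain_insert' {α : Type} {R : α → α → Prop} {a z r p p' : α} {L L1 L2 : List α}
    (h : List.IsChain R (a :: (L ++ [z]))) (e : a :: (L ++ [z]) = L1 ++ p :: p' :: L2) (h1 : R p r)
    (h2 : R r p') : ∃ L', List.IsChain R (a :: (L' ++ [z])) ∧ L'.Perm (r :: L) := by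
  rw [e, List.isChain_append_cons_cons] at h
  have h3 : List.IsChain R (L1 ++ p :: r :: p' :: L2) :=
    List.isChain_append_cons_cons.2 ⟨h.1, h1, List.isChain_cons_cons.2 ⟨h2, h.2.2⟩⟩
  obtain ⟨N, z', h4⟩ := (List.eq_nil_or_concat' (p' :: L2)).resolve_left (List.cons_ne_nil _ _)
  rw [h4] at e h3
  obtain ⟨h5, h6⟩ := List.append_inj' (s₁ := a :: L) (s₂ := L1 ++ p :: N) (t₁ := [z]) (t₂ := [z'])
    (by simpa using e) rfl
  obtain rfl : z = z' := by simpa using h6
  cases L1 with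
  | nil =>
    obtain ⟨rfl, rfl⟩ := List.cons.inj h5
    exact ⟨r :: L, h3, List.Perm.refl _⟩
  | cons b L1 =>
    obtain ⟨rfl, rfl⟩ := List.cons.inj h5
    refine ⟨L1 ++ p :: r :: N, by simpa using h3, ?_⟩
    simpa using List.perm_middle (l₁ := L1 ++ [p]) (a := r) (l₂ := N)

theorem exists_fill (hs : ∀ x y, P x y → P y x) {k : ℕ} (hk : ∀ x, ∑ y, ind (P x y) ≤ k)
    {A : Finset X} (hA : 4 * k < A.card) {x z : X} (hx : x ∉ A) (hz : z ∉ A) (h0 : ¬ P x z) :
    ∃ L : List X, L.Nodup ∧ L.toFinset = A ∧ List.IsChain (fun x y => ¬ P x y) (x :: (L ++ [z])) := by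
  have key : ∀ j, j ≤ A.card → ∃ L : List X, L.length = j ∧ L.Nodup ∧ L.toFinset ⊆ A ∧
      List.IsChain (fun x y => ¬ P x y) (x :: (L ++ [z])) := fun j => by
    induction j with
    | zero => exact fun _ => ⟨[], rfl, List.nodup_nil, by simp, by simpa using h0⟩
    | succ j ih =>
      intro hj
      obtain ⟨L, rfl, h1, h2, h3⟩ := ih (by omega)
      have h4 : (A \ L.toFinset).card = A.card - L.length := by
        rw [card_sdiff_of_subset h2, List.toFinset_card_of_nodup h1]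
      suffices ∃ r ∈ A \ L.toFinset, ∃ L', List.IsChain (fun x y => ¬ P x y) (x :: (L' ++ [z])) ∧
          L'.Perm (r :: L) by
        obtain ⟨r, hr, L', k1, k2⟩ := this
        rw [mem_sdiff, List.mem_toFinset] at hr
        exact ⟨L', k2.length_eq, k2.nodup_iff.2 (List.nodup_cons.2 ⟨hr.2, h1⟩), by
          rw [List.toFinset_eq_of_perm _ _ k2, List.toFinset_cons]
          exact insert_subset hr.1 h2, k1⟩
      by_cases hc : L.length ≤ 2 * k
      · obtain ⟨p', L2, e⟩ : ∃ p' L2, L ++ [z] = p' :: L2 := by cases L <;> simp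
        obtain ⟨r, hr, k1⟩ := exists_not_of_lt (S := A \ L.toFinset) (lt_of_le_of_lt
          ((sum_or_le (P x) (P p')).trans (add_le_add (hk _) (hk _))) (by omega))
        rw [not_or] at k1
        exact ⟨r, hr, chain_insert' h3 (L1 := []) (congrArg _ e) k1.1 fun h => k1.2 (hs _ _ h)⟩
      obtain ⟨r, hr⟩ : (A \ L.toFinset).Nonempty := card_pos.1 (by omega)
      by_contra k0
      have k1 := links_bound (fun p => ind (P r p)) (fun p => ind (P r p)) 1 (L ++ [z]) x
        fun L1 p p' L2 e => by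
          have k1 : P r p ∨ P r p' := by_contra fun h => k0 ⟨r, hr,
            chain_insert' h3 e (fun h' => h (Or.inl (hs _ _ h'))) fun h' => h (Or.inr h')⟩
          rcases k1 with k1 | k1 <;> simp only [ind_pos k1] <;> omega
      have k2 := (list_sum_le (List.nodup_cons.2 ⟨fun h => hx (h2 (List.mem_toFinset.2 h)), h1⟩)
        fun p => ind (P r p)).trans (hk r)
      have k3 := (list_sum_le (List.nodup_cons.2 ⟨fun h => hz (h2 (List.mem_toFinset.2 h)), h1⟩)
        fun p => ind (P r p)).trans (hk r)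
      have k4 : ind (P r z) ≤ 1 := by by_cases h : P r z <;> simp [h, ind_pos, ind_neg]
      simp only [List.map_cons, List.sum_cons, List.map_append, List.sum_append, List.map_nil,
        List.sum_nil, List.length_append, List.length_singleton] at k1 k2 k3
      omega
  obtain ⟨L, h1, h2, h3, h4⟩ := key _ le_rfl
  exact ⟨L, h2, eq_of_subset_of_card_le h3 (by rw [List.toFinset_card_of_nodup h2, h1]), h4⟩

theorem exists_cycle (hs : ∀ x y, P x y → P y x) (hi : ∀ x, ¬ P x x) {k : ℕ}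
    (hk : ∀ x, ∑ y, ind (P x y) ≤ k) (hX : 4 * k + 1 < Fintype.card X) {n : ℕ}
    (hn : Fintype.card X = n + 1) : ∃ e : Fin (n + 1) ≃ X, ∀ t, ¬ P (e t) (e (t + 1)) := by
  obtain ⟨x⟩ : Nonempty X := Fintype.card_pos_iff.1 (by omega)
  obtain ⟨L, h1, h2, h3⟩ := exists_fill hs hk (A := univ.erase x)
    (by rw [card_erase_of_mem (mem_univ _), card_univ]; omega) (notMem_erase _ _) (notMem_erase _ _) (hi x)
  have h4 : L.length = n := by
    rw [← List.toFinset_card_of_nodup h1, h2, card_erase_of_mem (mem_univ _), card_univ, hn]; rfl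
  subst h4
  have h5 : (x :: L).Nodup := List.nodup_cons.2 ⟨fun h => notMem_erase x univ
    (h2 ▸ List.mem_toFinset.2 h), h1⟩
  refine ⟨h5.getEquivOfForallMemList _ fun y => ?_, fun t => ?_⟩
  · by_cases h : y = x
    · simp [h]
    · exact List.mem_cons_of_mem _ (List.mem_toFinset.1 (h2 ▸ mem_erase.2 ⟨h, mem_univ _⟩))
  have h6 := List.isChain_iff_getElem.1 h3 t (by simpa using t.2)
  change ¬ P (x :: L)[t.val] (x :: L)[(t + 1).val]
  rw [show (x :: L)[t.val] = (x :: (L ++ [x]))[t.val]'(by simp) from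
    (List.getElem_append_left (as := x :: L) (bs := [x]) t.2).symm]
  by_cases h : t = Fin.last _
  · subst h
    simpa using h6
  · have h7 := Fin.val_add_one_of_lt (Fin.lt_last_iff_ne_last.2 h)
    rwa [show (x :: L)[(t + 1).val] = (x :: (L ++ [x]))[t.val + 1]'(by simp; omega) from by
      simp only [h7]
      exact (List.getElem_append_left (as := x :: L) (bs := [x]) _).symm]

theorem exists_indep (hs : ∀ x y, P x y → P y x) {k : ℕ} (hk : ∀ x, ∑ y, ind (P x y) ≤ k) (j : ℕ) :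
    j * (k + 1) < Fintype.card X → ∃ p : Fin (j + 1) → X, ∀ a b, a ≠ b → p a ≠ p b ∧ ¬ P (p a) (p b) := by
  induction j with
  | zero =>
    intro h
    obtain ⟨x⟩ : Nonempty X := Fintype.card_pos_iff.1 (by omega)
    exact ⟨fun _ => x, fun a b h => absurd (Subsingleton.elim (α := Fin 1) a b) h⟩
  | succ j ih =>
    intro h
    obtain ⟨p, hp⟩ := ih (by nlinarith)
    obtain ⟨x, -, hx⟩ := exists_not_of_lt (S := univ) (p := fun x => ∃ a, x = p a ∨ P (p a) x)
      (lt_of_le_of_lt (le_trans (sum_le_sum (g := fun x => ∑ a, ind (x = p a ∨ P (p a) x))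
        fun x _ => by
          by_cases h : ∃ a, x = p a ∨ P (p a) x
          · obtain ⟨a, ha⟩ := id h
            refine ((ind_pos h).trans (ind_pos ha).symm).trans_le ?_
            exact single_le_sum (f := fun a => ind (x = p a ∨ P (p a) x)) (fun _ _ => Nat.zero_le _)
              (mem_univ a)
          · rw [ind_neg h]; exact Nat.zero_le _) (by
        rw [sum_comm]
        refine (sum_le_sum (g := fun _ => k + 1) fun a _ => (sum_or_le _ _).trans ?_).trans (by simp)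
        rw [sum_ind_eq, add_comm]
        exact Nat.succ_le_succ (hk _))) h)
    simp only [not_exists, not_or] at hx
    refine ⟨Fin.cons x p, fun a b => Fin.cases (Fin.cases (fun h => absurd rfl h)
      (fun b _ => ⟨(hx b).1, fun h => (hx b).2 (hs _ _ h)⟩) b) (fun a => Fin.cases
        (fun _ => ⟨Ne.symm (hx a).1, (hx a).2⟩) (fun b h => hp a b fun h' => h (by rw [h'])) b) a⟩

end graph

variable {h : ℕ} [NeZero h] {Y : Type} [Fintype Y] [DecidableEq Y] {P : Y → Y → Prop}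

theorem sum_ite_ind (S : Finset Y) (p : Y → Prop) [DecidablePred p] (a b : ℕ) :
    ∑ t ∈ S, (if p t then a else b) = (∑ t ∈ S, ind (p t)) * a + (S.card - ∑ t ∈ S, ind (p t)) * b := by
  rw [sum_ite, sum_const, sum_const, sum_ind_card, ← card_filter_add_card_filter_not (s := S) p,
    Nat.add_sub_cancel_left, smul_eq_mul, smul_eq_mul]

theorem row_three {A : Type} [AddCommGroup A] [Fintype A] (hi : ∀ t, ¬ P t t) {k : ℕ}
    (hk : ∀ t, ∑ t', ind (P t t') = k) {f : Y × A → Y × A → ℕ} {g0 g : A → ℕ} {gp : ℕ}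
    {ω : Y → Y → A} (h1 : ∀ t a a', f (t, a) (t, a') = g0 (a' - a))
    (hp : ∀ t t' a a', P t t' → f (t, a) (t', a') = gp)
    (h2 : ∀ t t' a a', t ≠ t' → ¬ P t t' → f (t, a) (t', a') = g (a + a' + ω t t')) (x : Y × A) :
    ∑ y, f x y = ∑ c, g0 c + (k * (Fintype.card A * gp) + (Fintype.card Y - 1 - k) * ∑ c, g c) := by
  classical
  obtain ⟨t, a⟩ := x
  have h3 := hk t
  rw [← add_sum_erase _ _ (mem_univ t), ind_neg (hi t), zero_add] at h3
  rw [Fintype.sum_prod_type, ← add_sum_erase _ _ (mem_univ t), ← h3, ← card_univ (α := Y),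
    ← card_erase_of_mem (mem_univ t), ← sum_ite_ind]
  congr 1
  · simp only [h1]
    exact (Equiv.subRight a).sum_comp g0
  · refine sum_congr rfl fun t' ht => ?_
    split_ifs with h4
    · simp [hp t t' _ _ h4]
    · simp only [h2 t t' _ _ (mem_erase.1 ht).1.symm h4]
      exact ((Equiv.addLeft a).trans (Equiv.addRight (ω t t'))).sum_comp g

theorem sigma_three (hs : ∀ x y, P x y → P y x) (hi : ∀ x, ¬ P x x) {k : ℕ}
    (hk : ∀ x, ∑ y, ind (P x y) = 2 * k) (h0 : 0 < k) (he : Even (Fintype.card Y))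
    (hY : 5 * (2 * k + 1) < Fintype.card Y) (ω : Y → Y → ZMod (2 * h))
    (hω : ∀ t t', t ≠ t' → ¬ P t t' → ω t' t = ω t t' + h) : ∃ σ : Equiv.Perm (Y × ZMod (2 * h)),
    ∀ (f : Y × ZMod (2 * h) → Y × ZMod (2 * h) → ℕ) (g0 g : ZMod (2 * h) → ℕ) (gp : ℕ),
      (∀ t a a', f (t, a) (t, a') = g0 (a' - a)) → (∀ t t' a a', P t t' → f (t, a) (t', a') = gp) →
      (∀ t t' a a', t ≠ t' → ¬ P t t' → f (t, a) (t', a') = g (a + a' + ω t t')) →
      Fintype.card (Y × ZMod (2 * h)) * ∑ x, f x (σ x) = ∑ x, ∑ y, f x y := by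
  classical
  obtain ⟨π, hπ0, hπ⟩ := exists_near (h := h)
  obtain ⟨p, hp⟩ := exists_indep hs (fun x => (hk x).le) 5 hY
  have hinj : Function.Injective p := fun a b h => by_contra fun h' => (hp a b h').1 h
  obtain ⟨m, hm⟩ := he
  have hR : (univ.image p).card = 6 := by rw [card_image_of_injective _ hinj]; rfl
  obtain ⟨μ, m1, m2, m3⟩ := exists_match hs hi hk (univ.image p) (j := k) (by omega) (m := m - 3)
    (by omega) (by omega) (by omega)
  let c : Equiv.Perm (Fin 6) := Equiv.swap 1 2 * (Equiv.swap 3 4 * Equiv.swap 4 5)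
  let τ' : Equiv.Perm Y := Function.Involutive.toPerm μ m1 *
    c.extendDomain (Equiv.ofInjective p hinj)
  have tp : ∀ a, τ' (p a) = p (c a) := fun a => by
    rw [Equiv.Perm.mul_apply, show p a = Equiv.ofInjective p hinj a from rfl,
      Equiv.Perm.extendDomain_apply_image]
    exact (m2 _).2 (mem_image_of_mem _ (mem_univ _))
  have tq : ∀ t, t ∉ Set.range p → τ' t = μ t := fun t ht => by
    rw [Equiv.Perm.mul_apply, Equiv.Perm.extendDomain_apply_not_subtype _ _ ht]; rfl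
  have tk : ∑ t, ind (P t (τ' t)) = 2 * k := by
    rw [← m3]
    refine sum_congr rfl fun t _ => ?_
    by_cases ht : t ∈ Set.range p
    · obtain ⟨a, rfl⟩ := ht
      rw [tp, (m2 _).2 (mem_image_of_mem _ (mem_univ _)), ind_neg (hi _), ind_neg]
      by_cases ha : a = c a
      exacts [ha ▸ hi _, (hp _ _ ha).2]
    · rw [tq t ht]
  have t3 : ∀ t, t ≠ p 0 → t ≠ τ' t := fun t ht h1 => by
    by_cases h2 : t ∈ Set.range p
    · obtain ⟨a, rfl⟩ := h2
      rw [tp] at h1
      exact ht (congrArg p ((by decide : ∀ a, a = c a → a = 0) a (hinj h1)))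
    · rw [tq t h2, eq_comm, m2] at h1
      exact h2 (by simpa using h1)
  have t0 : τ' (p 0) = p 0 := tp 0
  have t1 : τ' (p 1) = p 2 := tp 1
  have t2 : τ' (p 2) = p 1 := tp 2
  obtain ⟨h02, q02⟩ := hp 0 2 (by decide)
  obtain ⟨h12, q12⟩ := hp 1 2 (by decide)
  have h10 := (hp 1 0 (by decide)).1
  generalize p 0 = p0, p 1 = p1, p 2 = p2 at t0 t1 t2 t3 h02 q02 h12 q12 h10
  have q20 := mt (hs _ _) q02
  have q21 := mt (hs _ _) q12
  rw [← add_sum_erase _ _ (mem_univ p0), t0, ind_neg (hi _), zero_add] at tk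
  have tk' := tk
  rw [← add_sum_erase _ _ (show p2 ∈ univ.erase p0 by simp [h02.symm]), t2, ind_neg q21, zero_add,
    sum_ind_card] at tk'
  let R := ((univ.erase p0).erase p2).filter fun t => ¬ P t (τ' t)
  have hR : R.card = 2 * (m - k - 1) := by
    have := card_filter_add_card_filter_not (s := (univ.erase p0).erase p2) fun t => P t (τ' t)
    rw [card_erase_of_mem (by simp [h02.symm]), card_erase_of_mem (mem_univ _), card_univ] at this
    simp only [R]
    omega
  have hp1R : p1 ∈ R := by simp [R, h12, h10, t1, q12]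
  obtain ⟨S', hS', hc'⟩ := exists_subset_card_eq (s := R.erase p1) (n := m - k - 2)
    (by rw [card_erase_of_mem hp1R]; omega)
  let S := insert p1 S'
  have hp1 : p1 ∈ S := mem_insert_self _ _
  have hS : S ⊆ R := insert_subset hp1R (hS'.trans (erase_subset _ _))
  have hc : S.card = m - k - 1 := by
    rw [card_insert_of_notMem fun h => notMem_erase _ _ (hS' h)]; omega
  let κ : Y → ZMod (2 * h) := fun t => if t = p2 then h + ω p2 p1 else if t ∈ S then h else 0
  let e := ω p2 p1 - ω p2 p0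
  let β : Equiv.Perm (Y × ZMod (2 * h)) := Equiv.prodShear τ' fun t => if t = p0 then
    ((Equiv.subRight e).trans π).trans (Equiv.addRight e) else
    ((Equiv.neg _).trans π).trans (Equiv.addRight (κ t - ω t (τ' t)))
  have b0 : ∀ a, β (p0, a) = (p0, π (a - e) + e) := fun a => by simp [β, t0]
  have b1 : ∀ t, t ≠ p0 → ∀ a, β (t, a) = (τ' t, π (-a) + (κ t - ω t (τ' t))) :=
    fun t ht a => by simp [β, ht]
  have n1 : ((p0, e) : Y × ZMod (2 * h)) ≠ (p1, 0) := by simp [h10.symm]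
  have n2 : ((p0, e) : Y × ZMod (2 * h)) ≠ (p2, 0) := by simp [h02]
  have n3 : ((p1, 0) : Y × ZMod (2 * h)) ≠ (p2, 0) := by simp [h12]
  refine ⟨β * (Equiv.swap (p0, e) (p1, 0) * Equiv.swap (p1, 0) (p2, 0)),
    fun f g0 g gp h1 h3 h2 => ?_⟩
  rw [sum_congr rfl fun x _ => row_three hi hk h1 h3 h2 x, sum_const, smul_eq_mul, card_univ]
  congr 1
  have k0 : ∑ a, f (p0, a) (β (p0, a)) + g0 h = ∑ c, g0 c + g0 0 := by
    rw [← hπ g0, ← (Equiv.subRight e).sum_comp fun a => g0 (π a - a)]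
    simp only [b0, h1]
    congr 1
    exact sum_congr rfl fun a _ => by congr 1; simp; ring
  let G : Y → ZMod (2 * h) → ℕ := fun t c => if P t (τ' t) then gp else g c
  have k1 : ∀ t ∈ univ.erase p0, ∑ a, f (t, a) (β (t, a)) + G t (h + κ t)
      = ∑ c, G t c + G t (κ t) := fun t ht => by
    have h4 := hπ fun c => G t (c + κ t)
    rw [show ∑ c, G t (c + κ t) = ∑ c, G t c from Equiv.sum_comp (Equiv.addRight (κ t)) (G t),
      zero_add, ← Equiv.sum_comp (Equiv.neg _) fun a => G t (π a - a + κ t)] at h4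
    rw [← h4]
    simp only [b1 t (mem_erase.1 ht).1]
    congr 1
    refine sum_congr rfl fun a _ => ?_
    simp only [G]
    split_ifs with h5
    · exact h3 _ _ _ _ h5
    · rw [h2 _ _ _ _ (t3 t (mem_erase.1 ht).1) h5]; congr 1; simp; ring
  have k2 := sum_congr rfl k1
  rw [sum_add_distrib, sum_add_distrib, sum_congr rfl (f := fun t => ∑ c, G t c)
    (g := fun t => if P t (τ' t) then Fintype.card (ZMod (2 * h)) * gp else ∑ c, g c) (fun t _ => by
      simp only [G]; split_ifs <;> simp), sum_ite_ind, tk, card_erase_of_mem (mem_univ _), card_univ,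
    ← add_sum_erase _ (fun t => G t (h + κ t)) (show p2 ∈ univ.erase p0 by simp [h02.symm]),
    ← add_sum_erase _ (fun t => G t (κ t)) (show p2 ∈ univ.erase p0 by simp [h02.symm])] at k2
  have k3 : ∀ c, ∑ t ∈ R, g (c + κ t) = S.card * g (c + h) + S.card * g c := fun c => by
    rw [← sum_sdiff hS, add_comm]
    nth_rewrite 2 [show S.card = (R \ S).card by rw [card_sdiff_of_subset hS]; omega]
    rw [← smul_eq_mul (#S), ← smul_eq_mul (#(_ \ S)), ← sum_const, ← sum_const]
    congr 1 <;> refine sum_congr rfl fun t ht => ?_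
    · simp [κ, ht, (mem_erase.1 (mem_filter.1 (hS ht)).1).1]
    · simp [κ, (mem_sdiff.1 ht).2, (mem_erase.1 (mem_filter.1 (mem_sdiff.1 ht).1).1).1]
  have k4 : ∑ t ∈ (univ.erase p0).erase p2, G t (h + κ t)
      = ∑ t ∈ (univ.erase p0).erase p2, G t (κ t) := by
    have h4 := k3 0
    simp only [zero_add] at h4
    simp only [G, sum_ite]
    rw [h4, k3, h_add_h, add_comm (_ * g 0)]
  simp only [G, t2, if_neg q21] at k2 k4
  have k5 : ∑ x, f x (β x) = ∑ a, f (p0, a) (β (p0, a))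
      + ∑ t ∈ univ.erase p0, ∑ a, f (t, a) (β (t, a)) := by
    rw [Fintype.sum_prod_type, add_sum_erase _ (fun t => ∑ a, f (t, a) (β (t, a))) (mem_univ p0)]
  have k6 : ∀ F : Y × ZMod (2 * h) → ℕ, ∑ x, F x = F (p0, e) + (F (p1, 0) + (F (p2, 0)
      + ∑ x ∈ ((univ.erase (p0, e)).erase (p1, 0)).erase (p2, 0), F x)) := fun F => by
    rw [add_sum_erase _ _ (by simp [n2.symm, n3.symm]), add_sum_erase _ _ (by simp [n1.symm]),
      add_sum_erase _ _ (mem_univ _)]
  have w1 : ω p1 p2 = ω p2 p1 + h := hω _ _ h12.symm q21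
  have w2 : ω p0 p2 = ω p2 p0 + h := hω _ _ h02.symm q20
  have c1 : β (p1, 0) = (p2, -ω p2 p1) := by
    rw [b1 _ h10, t1, neg_zero, hπ0, w1]; simp [κ, h12, hp1]
  have c2 : β (p2, 0) = (p1, (h : ZMod (2 * h))) := by
    rw [b1 _ h02.symm, t2, neg_zero, hπ0]; simp [κ]
  have c0 : β (p0, e) = (p0, e) := by rw [b0, sub_self, hπ0, zero_add]
  rw [k6 fun x => f x (β x), c0, c1, c2, h1, h2 _ _ _ _ h12 q12,
    h2 _ _ _ _ h12.symm q21] at k5
  rw [k6, sum_congr rfl (g := fun x => f x (β x)) fun x hx => by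
    simp only [mem_erase] at hx
    rw [Equiv.Perm.mul_apply, Equiv.Perm.mul_apply, Equiv.swap_apply_of_ne_of_ne hx.2.1 hx.1,
      Equiv.swap_apply_of_ne_of_ne hx.2.2.1 hx.2.1]]
  simp only [Equiv.Perm.mul_apply, Equiv.swap_apply_left, Equiv.swap_apply_right,
    Equiv.swap_apply_of_ne_of_ne n1 n2, Equiv.swap_apply_of_ne_of_ne n2.symm n3.symm, c0, c1, c2,
    h1, h2 _ _ _ _ h02 q02, h2 _ _ _ _ h02.symm q20]
  have e1 : e + -ω p2 p1 + ω p0 p2 = h := by rw [w2]; simp only [e]; ring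
  have e2 : 0 + e + ω p2 p0 = ω p2 p1 := by simp only [e]; ring
  have e3 : 0 + -ω p2 p1 + ω p1 p2 = h := by rw [w1]; ring
  have e4 : h + κ p2 = ω p2 p1 := by simp [κ, ← add_assoc, h_add_h]
  have e5 : κ p2 = 0 + h + ω p2 p1 := by simp [κ]
  rw [e3, sub_self] at k5
  rw [e4, e5, k4] at k2
  rw [e1, e2, sub_zero]
  omega

variable {G : Type} [Group G] [Fintype G]

theorem TV.join_three {H K : Subgroup G} {X : Type} [Fintype X] (T : TV H K X) {n : ℕ}
    (e : Fin (n + 4) × ZMod (2 * h) ≃ X) (g0 : ZMod (2 * h) → G → ℕ) (g1 : ZMod h → G → ℕ)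
    (ω : Fin (n + 4) → Fin (n + 4) → ZMod h)
    (h0 : ∀ t a a' g, kk H ((T.t (e (t, a)))⁻¹ * T.t (e (t, a'))) g = g0 (a' - a) g)
    {P : Fin (n + 4) → Fin (n + 4) → Prop} (hsy : ∀ x y, P x y → P y x) (hi : ∀ x, ¬ P x x) {k : ℕ}
    (hk : ∀ x, ∑ y, ind (P x y) = k) (hk0 : 0 < k) (he : Even (n + 4)) (hY : 5 * (k + 1) < n + 4)
    (hcy : ∀ t, ¬ P (t + 1) t) (gp : G → ℕ)
    (hp : ∀ t t' a a' g, P t t' → kk H ((T.t (e (t, a)))⁻¹ * T.t (e (t', a'))) g = gp g)
    (h1 : ∀ t t' a a' g, t ≠ t' → ¬ P t t' →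
      kk H ((T.t (e (t, a)))⁻¹ * T.t (e (t', a'))) g = g1 (cs h a + cs h a' + ω t t') g)
    (Φ : Equiv.Perm X) (a b : G) (Vx : X → Multiset G) (Ex : X → Multiset (Sym2 G))
    (hP : ∀ x, Path (Vx x) (Ex x) (a * T.t x) (b * T.t (Φ x))) : ∃ J p q,
      Path (∑ x, Vx x) (∑ x, Ex x + J) p q ∧ ∀ g, KE H J g = 2 * cd H * ind (g ∈ K ∧ g ∉ H) := by
  classical
  have v2 : (2 : Fin (n + 4)).val = 2 := rfl
  have v3 : (3 : Fin (n + 4)).val = 3 := rfl
  have d02 : (0 : Fin (n + 4)) ≠ 2 := Fin.ne_of_val_ne (by rw [v2]; simp)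
  have d12 : (1 : Fin (n + 4)) ≠ 2 := Fin.ne_of_val_ne (by rw [v2]; simp)
  have hR : ((univ.erase (0 : Fin (n + 4))).erase 2).card = n + 2 := by
    rw [card_erase_of_mem (by simp [d02.symm]), card_erase_of_mem (mem_univ _)]; simp
  obtain ⟨r, hr⟩ := he
  obtain ⟨z, hz, z1⟩ := exists_not_of_lt (S := ({0, 1, 2} : Finset (Fin (n + 4)))ᶜ)
    (lt_of_le_of_lt ((sum_or_le (P 1) (P 2)).trans_eq (by rw [hk, hk])) (by
      have := card_le_three (a := (0 : Fin (n + 4))) (b := 1) (c := 2)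
      rw [card_compl, Fintype.card_fin]; omega))
  simp only [mem_compl, mem_insert, mem_singleton, not_or] at hz z1
  have hz4 : ({0, 1, 2, z} : Finset (Fin (n + 4))).card = 4 := by
    rw [card_insert_of_notMem (by simp [d02, Ne.symm hz.1]), card_insert_of_notMem
      (by simp [d12, Ne.symm hz.2.1]), card_pair (Ne.symm hz.2.2)]
  obtain ⟨μ, μ1, μ2, μ3⟩ := exists_match hsy hi hk {0, 1, 2, z} le_rfl (m := r - 2)
    (by rw [Fintype.card_fin]; omega) (by omega) (by omega)
  let τ : Equiv.Perm (Fin (n + 4)) := Function.Involutive.toPerm μ μ1 * Equiv.swap 1 z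
  have τ1 : τ 1 = z := by simpa [τ] using (μ2 z).2 (by simp)
  have τ2 : τ z = 1 := by simpa [τ] using (μ2 1).2 (by simp)
  have τ3 : ∀ t, t ≠ 1 → t ≠ z → τ t = μ t := fun t k1 k2 => by
    simp [τ, Equiv.swap_apply_of_ne_of_ne k1 k2]
  have hτ : ∀ t, τ t = t ↔ t ∉ (univ.erase 0).erase 2 := fun t => by
    by_cases k1 : t = 1
    · simp [k1, τ1, hz.2.1, d12]
    by_cases k2 : t = z
    · simp [k2, τ2, Ne.symm hz.2.1, hz.1, hz.2.2]
    rw [τ3 t k1 k2, μ2]
    simp only [mem_insert, mem_singleton, k1, k2, mem_erase, mem_univ]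
    tauto
  have τ4 : ∑ t, ind (P t (τ t)) = 2 * k := by
    rw [← μ3]
    refine sum_congr rfl fun t _ => ?_
    by_cases k1 : t = 1
    · rw [k1, τ1, (μ2 1).2 (by simp), ind_neg z1.1, ind_neg (hi _)]
    by_cases k2 : t = z
    · rw [k2, τ2, (μ2 z).2 (by simp), ind_neg (mt (hsy _ _) z1.1), ind_neg (hi _)]
    rw [τ3 t k1 k2]
  have p1 : ¬ P 1 (τ 1) := τ1 ▸ z1.1
  have p2 : ¬ P 2 (τ 1) := τ1 ▸ z1.2
  have p3 : ¬ P 1 2 := mt (hsy _ _) (hcy 1)
  have t0 : τ 0 = 0 := (hτ _).2 (by simp)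
  have t2 : τ 2 = 2 := (hτ _).2 (by simp)
  have t1 : ∀ t ∈ (univ.erase 0).erase 2, t ≠ τ t := fun t ht h => (hτ t).1 h.symm ht
  have m1 : (1 : Fin (n + 4)) ∈ (univ.erase 0).erase 2 := by simp [d12]
  have m2 : (2 : Fin (n + 4)) ∈ univ.erase 0 := by simp [d02.symm]
  have t3 : 2 ≠ τ 1 := fun h => d12 (τ.injective (h.symm.trans t2.symm))
  let c := ω 1 2 - ω 1 (τ 1) + ω 2 (τ 1)
  let A := univ.filter fun t => ¬ (t ∈ (univ.erase 0).erase 2 ∧ ¬ P t (τ t))
  let B := ((univ.erase 0).erase 2).filter fun t => ¬ P t (τ t)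
  have hB : B.card + 2 * k = n + 2 := by
    rw [← add_sum_erase _ _ (mem_univ 0), ← add_sum_erase _ _ m2, t0, t2, ind_neg (hi _),
      ind_neg (hi _), zero_add, zero_add, sum_ind_card] at τ4
    rw [← τ4, add_comm, card_filter_add_card_filter_not, hR]
  have hBA : ∀ F : Fin (n + 4) → ℕ, ∑ t, F t = ∑ t ∈ B, F t + ∑ t ∈ A, F t := fun F => by
    rw [← sum_filter_add_sum_filter_not univ fun t => t ∈ (univ.erase 0).erase 2 ∧ ¬ P t (τ t)]
    congr 2
    ext t
    simp only [B, mem_filter, mem_univ, true_and]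
  have hA : A.card = 2 * (k + 1) := by
    have := hBA fun _ => 1
    simp only [sum_const, smul_eq_mul, mul_one, card_univ, Fintype.card_fin] at this
    omega
  obtain ⟨S, hS, hSc⟩ := exists_subset_card_eq (s := A.erase (Fin.last _)) (n := k + 1)
    (by have := pred_card_le_card_erase (s := A) (a := Fin.last _); omega)
  obtain ⟨κ, hκ⟩ : ∃ κ : Fin (n + 4) → ZMod h, ∀ t, t ≠ 1 → κ t + κ (t + 1) + ω (t + 1) t
      + (if t = Fin.last _ then 1 else 0) = if t ∈ S then c + 2 + 1 else c + 2 := by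
    let ρ : Fin (n + 4) → ZMod h := fun t => (if t ∈ S then c + 2 + 1 else c + 2) - ω (t + 1) t
      - if t = Fin.last _ then 1 else 0
    let s : ℕ → ZMod h := fun i => Nat.rec 0 (fun i a => ρ (Fin.ofNat _ i + 2) - a) i
    refine ⟨fun t => s (t - 2).val, fun t ht => ?_⟩
    have k1 : t - 2 ≠ Fin.last _ := fun h => ht (by
      rw [eq_add_of_sub_eq h, show (2 : Fin (n + 4)) = 1 + 1 from rfl, ← add_assoc,
        Fin.last_add_one, zero_add])
    have k2 : (t + 1 - 2).val = (t - 2).val + 1 := by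
      rw [add_sub_right_comm, Fin.val_add_one_of_lt (Fin.lt_last_iff_ne_last.2 k1)]
    have k3 : s ((t - 2).val + 1) = ρ t - s (t - 2).val := by simp [s]
    simp only [k2, k3, ρ]
    ring
  let off : Fin (n + 4) → ZMod h := fun t =>
    κ t + κ (t + 1) + ω (t + 1) t + if t = Fin.last _ then 1 else 0
  let θ0 : Equiv.Perm (Fin (n + 4) × ZMod h) := Equiv.prodShear τ fun t =>
    if t = 0 then (Equiv.neg _).trans (Equiv.subRight 1) else if t = 2 then Equiv.neg _
    else Equiv.addRight (off t + 1 - ω t (τ t))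
  let a0 := ω 1 2 - off 1 - 1
  let θ := θ0 * Equiv.swap (2, 0) (1, a0)
  let L : Fin (n + 4) × ZMod h → X := fun i => e (i.1, lo i.2)
  let U : Fin (n + 4) × ZMod h → X := fun i => e (i.1, lo i.2 + h)
  have hLU : ∀ {M : Type} [AddCommMonoid M] (F : X → M), ∑ i, (F (L i) + F (U i)) = ∑ x, F x :=
    fun F => by
      rw [← e.sum_comp F, Fintype.sum_prod_type, Fintype.sum_prod_type]
      exact sum_congr rfl fun t _ => sum_lo fun c => F (e (t, c))
  have hcov : ∀ {M : Type} [AddCommMonoid M] (F : X → M),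
      ∑ i, (F (L i) + F (U (θ i))) = ∑ x, F x := fun F => by
    rw [← hLU F, sum_add_distrib, sum_add_distrib, Equiv.sum_comp θ fun i => F (U i)]
  let ch : ℕ → Fin (n + 4) × ZMod h := fun i =>
    (Fin.ofNat _ i, ((i / (n + 4) : ℕ) : ZMod h) + κ (Fin.ofNat _ i))
  have hch : ∀ {M : Type} [AddCommMonoid M] (F : Fin (n + 4) × ZMod h → M),
      ∑ i ∈ range (h * (n + 4)), F (ch i) = ∑ i, F i := fun F => by
    rw [Fintype.sum_prod_type, ← sum_congr rfl fun t _ =>
      Equiv.sum_comp (Equiv.addRight (κ t)) fun j => F (t, j), sum_comm, zsum]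
    refine Eq.trans (sum_congr rfl fun i _ => ?_) ((sum_div_mod' (fun j l =>
      F (Fin.ofNat _ l, (j : ZMod h) + κ (Fin.ofNat _ l))) (by omega) h).trans
        (sum_congr rfl fun j _ => ?_))
    · rw [show Fin.ofNat (n + 4) (i % (n + 4)) = Fin.ofNat _ i from Fin.ext (by simp)]
    · rw [← Fin.sum_univ_eq_sum_range (fun l => F (Fin.ofNat _ l, (j : ZMod h) + κ (Fin.ofNat _ l)))]
      simp
  have hs : ∀ i, (ch (i + 1)).1 = (ch i).1 + 1 := fun i => Fin.ext (by simp [ch, Fin.val_add])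
  have hs1 : ∀ t : Fin (n + 4), t + 1 ≠ t := fun t => by simp
  have hcol : ∀ i, (ch (i + 1)).2 + (ch i).2 + ω (ch (i + 1)).1 (ch i).1
      = 2 * ((ch i).2 - κ (ch i).1) + off (ch i).1 := fun i => by
    have h2 := hs i
    simp only [ch] at h2
    simp only [ch, off, h2]
    rcases succ_div_mod (show 0 < n + 4 by omega) i with ⟨-, h3, h4⟩ | ⟨h3, h4⟩
    · rw [if_pos (Fin.ext (by simp; omega)), h4]; push_cast; ring
    · rw [if_neg fun h5 => ?_, h4]
      · ring
      · have h6 := congrArg Fin.val h5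
        have h7 := Nat.mod_lt (i + 1) (show 0 < n + 4 by omega)
        simp at h6
        omega
  obtain ⟨m, hm⟩ : ∃ m, h * (n + 4) = m + 1 :=
    ⟨_, (Nat.succ_pred_eq_of_pos (Nat.mul_pos (NeZero.pos h) (by omega))).symm⟩
  obtain ⟨J, p, q, k1, k2⟩ := link H (fun x => b * T.t x) (fun i => L (ch i)) (fun i => U (ch i))
    (fun i => g1 (2 * ((ch i).2 - κ (ch i).1) + off (ch i).1)) m (fun i _ x hx y hy g => by
      rw [ke_mk, mul_inv_rev, mul_assoc, inv_mul_cancel_left, ← hcol]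
      have h2 : (ch (i + 1)).1 ≠ (ch i).1 := hs i ▸ hs1 _
      have h3 : ¬ P (ch (i + 1)).1 (ch i).1 := hs i ▸ hcy _
      rcases hx with rfl | rfl <;> rcases hy with rfl | rfl <;>
        simp only [L, U, h1 _ _ _ _ _ h2 h3, map_add, cs_lo, cs_h, add_zero])
    (univ.val.map fun i => (Φ (L i), Φ (U (θ i)), Vx (L i) + Vx (U (θ i)),
      Ex (L i) + s(a * T.t (L i), a * T.t (U (θ i))) ::ₘ Ex (U (θ i)))) (U (ch m)) (L (ch m))
    (fun c hc => by
      obtain ⟨i, -, rfl⟩ := Multiset.mem_map.1 hc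
      exact (hP _).reverse.append (hP _)) (Or.inl rfl) (by
      rw [Multiset.map_map]
      refine (hcov fun x => ({Φ x} : Multiset X)).trans ?_
      rw [Equiv.sum_comp Φ fun x => ({x} : Multiset X), ← hLU, ← hch, hm, sum_range_succ]
      abel)
  rw [Multiset.map_map, Multiset.map_map] at k1
  refine ⟨∑ i, {s(a * T.t (L i), a * T.t (U (θ i)))} + J, p, q, k1.congr (hcov Vx) ?_ rfl rfl,
    fun g => ?_⟩
  · rw [← hcov Ex, ← add_assoc, ← sum_add_distrib]
    congr 1
    refine sum_congr rfl fun i _ => ?_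
    simp only [Function.comp, ← Multiset.singleton_add]; abel
  have k3 : ∀ w, ∑ j, g1 (2 * j + w) g + ∑ j, g1 (2 * j + (w + 1)) g = ∑ c, g1 (cs h c) g :=
    fun w => by
      rw [← Equiv.sum_comp (Equiv.addRight (lo w)) fun c => g1 (cs h c) g,
        ← sum_two_mul fun c => g1 (cs h (Equiv.addRight (lo w) c)) g]
      simp [cs_lo, map_ofNat, add_assoc, add_comm w]
  have k4 := (hch fun i => g1 (2 * (i.2 - κ i.1) + off i.1) g).trans
    ((Fintype.sum_prod_type _).trans (sum_congr rfl fun t _ =>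
      Equiv.sum_comp (Equiv.subRight (κ t)) fun j => g1 (2 * j + off t) g))
  have k5 : 2 * ((ch m).2 - κ (ch m).1) + off (ch m).1 = c := by
    rcases succ_div_mod (show 0 < n + 4 by omega) m with ⟨-, h3, h4⟩ | ⟨h3, -⟩
    · have h5 : Fin.ofNat (n + 4) m = Fin.last _ := Fin.ext (by simp; omega)
      rw [← hm, Nat.mul_div_cancel _ (by omega)] at h4
      have h6 := congrArg (Nat.cast : ℕ → ZMod h) h4
      rw [ZMod.natCast_self, Nat.cast_add, Nat.cast_one] at h6
      have h8 := hκ (Fin.last _) (by simp [Fin.ext_iff])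
      rw [if_neg fun h => notMem_erase _ _ (hS h)] at h8
      simp only [ch, off, h5, h8]
      linear_combination (-2) * h6
    · rw [← hm, Nat.mul_mod_left] at h3; omega
  have hS' := hS.trans (erase_subset _ _)
  rw [hm, sum_range_succ, k5, hBA, ← sum_sdiff hS', sum_congr rfl (s₁ := A \ S)
    (g := fun _ => ∑ j, g1 (2 * j + (c + 2)) g) (fun t ht => by
      rw [show off t = c + 2 from (hκ t fun h => (mem_filter.1 (mem_sdiff.1 ht).1).2
        (h ▸ ⟨m1, p1⟩)).trans (if_neg (mem_sdiff.1 ht).2)]), sum_congr rfl (s₁ := S)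
    (g := fun _ => ∑ j, g1 (2 * j + (c + 2 + 1)) g) (fun t ht => by
      rw [show off t = c + 2 + 1 from (hκ t fun h => (mem_filter.1 (hS' ht)).2
        (h ▸ ⟨m1, p1⟩)).trans (if_pos ht)]), sum_const, sum_const, card_sdiff_of_subset hS', hA, hSc,
    show 2 * (k + 1) - (k + 1) = k + 1 by omega, smul_eq_mul, smul_eq_mul, ← mul_add, k3] at k4
  let f : Fin (n + 4) × ZMod (2 * h) → Fin (n + 4) × ZMod (2 * h) → ℕ := fun x y =>
    kk H ((T.t (e x))⁻¹ * T.t (e y)) g
  have k6 := row_three hi hk (f := f) (g0 := fun c => g0 c g) (g := fun c => g1 (cs h c) g)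
    (ω := fun t t' => lo (ω t t')) (fun t a a' => h0 t a a' g) (fun t t' a a' h => hp t t' a a' g h)
    (fun t t' a a' h h' => by simp only [map_add, cs_lo]; exact h1 t t' a a' g h h') (0, 0)
  rw [Equiv.sum_comp e fun y => kk H ((T.t (e (0, 0)))⁻¹ * T.t y) g,
    ← add_sum_erase _ _ (mem_univ (e (0, 0))), T.sum_erase, h0, sub_self] at k6
  let w : Fin (n + 4) × ZMod h → Fin (n + 4) × ZMod h → ℕ := fun i i' =>
    f (i.1, lo i.2) (i'.1, lo i'.2 + h)
  have q0 : ∀ j, θ0 (0, j) = (0, -j - 1) := fun j => by simp [θ0, t0]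
  have q2 : ∀ j, θ0 (2, j) = (2, -j) := fun j => by simp [θ0, t2, d02.symm]
  have q1 : ∀ t ∈ (univ.erase 0).erase 2, ∀ j, θ0 (t, j) = (τ t, j + (off t + 1 - ω t (τ t))) :=
    fun t ht j => by
      simp only [mem_erase] at ht
      simp [θ0, ht.1, ht.2.1]
  have w1 : ∀ t t' j j', t ≠ t' → ¬ P t t' → w (t, j) (t', j') = g1 (j + j' + ω t t') g :=
    fun t t' j j' h h' => by simp only [w, f, h1 _ _ _ _ _ h h', map_add, cs_lo, cs_h, add_zero]
  have k7 : ∑ i, w i (θ0 i) + g0 0 g = ∑ c, g0 c g + g0 h g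
      + ∑ t ∈ (univ.erase 0).erase 2,
        if P t (τ t) then h * gp g else ∑ j, g1 (2 * j + (off t + 1)) g := by
    rw [Fintype.sum_prod_type, ← add_sum_erase _ _ (mem_univ 0),
      ← add_sum_erase _ _ m2,
      sum_congr rfl (s₁ := (univ.erase 0).erase 2)
        (g := fun t => if P t (τ t) then h * gp g else ∑ j, g1 (2 * j + (off t + 1)) g)
        fun t ht => by
          split_ifs with h5
          · simp [q1 t ht, w, f, hp _ _ _ _ _ h5]
          · exact sum_congr rfl fun j _ => by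
              rw [q1 t ht, w1 _ _ _ _ (t1 t ht) h5]; congr 1; ring,
      ← Equiv.sum_comp (Equiv.neg _) fun c => g0 c g, ← sum_two_mul,
      sum_congr rfl (g := fun j => g0 (Equiv.neg _ (2 * lo j + 1)) g) fun j _ => by
        have := lo_neg (j := j) (k := 1) (by omega) j.val_lt
        rw [Nat.cast_one, Nat.cast_one] at this
        simp only [q0, w, f, h0, this]; congr 1; simp; ring,
      ← add_sum_erase _ (fun j => w (2, j) (θ0 (2, j))) (mem_univ 0),
      ← add_sum_erase _ (fun j => g0 (Equiv.neg _ (2 * lo j)) g) (mem_univ 0),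
      sum_congr rfl (s₁ := univ.erase 0) (g := fun j => g0 (Equiv.neg _ (2 * lo j)) g)
        fun j hj => by
          have := lo_neg (j := j) (k := 0)
            (Nat.pos_of_ne_zero fun h => (mem_erase.1 hj).1 ((ZMod.val_eq_zero j).1 h)) j.val_lt.le
          rw [Nat.cast_zero, Nat.cast_zero, sub_zero, sub_zero] at this
          simp only [q2, w, f, h0, this]; congr 1; simp; ring]
    simp [q2, w, f, h0, lo]
    ring
  have n1 : ((2, 0) : Fin (n + 4) × ZMod h) ≠ (1, a0) := by simp [d12.symm]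
  have k8 : ∀ F : Fin (n + 4) × ZMod h → ℕ, ∑ i, F i = F (2, 0) + (F (1, a0)
      + ∑ i ∈ (univ.erase (2, 0)).erase (1, a0), F i) := fun F => by
    rw [add_sum_erase _ _ (by simp [n1.symm]), add_sum_erase _ _ (mem_univ _)]
  have k9 : ∑ i, w i (θ i) + g0 h g = ∑ i, w i (θ0 i) + g1 c g := by
    rw [k8, k8 fun i => w i (θ0 i), sum_congr rfl (g := fun i => w i (θ0 i)) fun i hi => by
      simp only [mem_erase] at hi
      rw [Equiv.Perm.mul_apply, Equiv.swap_apply_of_ne_of_ne hi.2.1 hi.1]]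
    simp only [θ, Equiv.Perm.mul_apply, Equiv.swap_apply_left, Equiv.swap_apply_right, q2, q1 1 m1,
      w1 _ _ _ _ t3 p2, w1 _ _ _ _ d12 p3, w1 _ _ _ _ (t1 1 m1) p1]
    rw [show 0 + (a0 + (off 1 + 1 - ω 1 (τ 1))) + ω 2 (τ 1) = c by simp only [a0, c]; ring,
      show a0 + (a0 + (off 1 + 1 - ω 1 (τ 1))) + ω 1 (τ 1) = a0 + -0 + ω 1 2 by
        simp only [a0]; ring, show w (2, 0) (2, -0) = g0 h g by simp [w, f, h0]]
    ring
  have k10 := sum_congr (rfl : B = _) fun t _ => k3 (off t)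
  rw [sum_add_distrib, sum_const, smul_eq_mul] at k10
  have k11 := card_filter_add_card_filter_not (s := (univ.erase 0).erase 2) fun t => P t (τ t)
  rw [sum_ite, sum_const, smul_eq_mul, show (filter (fun t => P t (τ t)) _).card = 2 * k by
    simp only [B] at hB; omega] at k7
  rw [KE_add, k2, KE_sum, sum_congr rfl (g := fun i => w i (θ i)) fun i _ => by
    rw [ke_mk, mul_inv_rev, mul_assoc, inv_mul_cancel_left]]
  rw [Fintype.card_fin, show n + 4 - 1 - k = B.card + (k + 1) by omega, add_mul B.card, ZMod.card,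
    show k * (2 * h * gp g) = 2 * k * (h * gp g) by ring] at k6
  simp only [B] at k4 k6 k10
  omega

end Pool.Agent.Lib.MP_0becda_co.Coset
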