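import Pool.Agent.Lib.MP_0becda_co.Coset.Stair
import Pool.Agent.Lib.MP_0becda_co.Coset.Three

/-!
A closed walk through all cosets with a long run inside the large double coset.
-/

set_option linter.unusedSectionVars false

open Finset Pool.Agent.Lib.MP_0becda_co.PSL

namespace Pool.Agent.Lib.MP_0becda_co.Coset

theorem links_bound' {α : Type} (w1 w2 : α → ℕ) (c : ℕ) (z : α) (L : List α) : ∀ a : α,
    (∀ L1 p p' L2, a :: (L ++ [z]) = L1 ++ p :: p' :: L2 → c ≤ w1 p + w2 p') →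
    c * (L.length + 1) ≤ w1 a + w2 z + ((L.map w2).sum + (L.map w1).sum) := by
  induction L with
  | nil => intro a h; simpa using h [] a z [] rfl
  | cons b L ih =>
    intro a h
    have h1 := h [] a b (L ++ [z]) rfl
    have h2 := ih b fun L1 p p' L2 e => h (a :: L1) p p' L2 (by rw [List.cons_append, e]; rfl)
    simp only [List.map_cons, List.sum_cons, List.length_cons, Nat.mul_succ] at h2 ⊢
    omega

section graph

variable {X : Type} [Fintype X] [DecidableEq X] {P : X → X → Prop}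

theorem exists_loop (hs : ∀ x y, P x y → P y x) {κ : ℕ} (hk : ∀ x, ∑ y, ind (P x y) ≤ κ)
    {μ : X → X} (h1 : ∀ x, μ (μ x) = x) {R : Finset X} (h0 : ∀ x, μ x = x ↔ x ∈ R) {x z : X}
    (hx : x ∈ R) (hz : z ∈ R) (hne : x ≠ z) (hxz : ¬ P x z) (hX : R.card + 4 * κ ≤ Fintype.card X)
    (j : ℕ) : R.card + 2 * j ≤ Fintype.card X →
    ∃ L : List X, L.length = j ∧ List.IsChain (fun x y => ¬ P (μ x) y) (x :: (L ++ [z])) ∧
      (R.val + ((L : Multiset X) + (L.map μ : List X))).Nodup := by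
  induction j with
  | zero => exact fun _ => ⟨[], rfl, by simpa [(h0 x).2 hx] using hxz, by simpa using R.nodup⟩
  | succ j ih =>
    intro hj
    obtain ⟨L, rfl, h2, h3⟩ := ih (by omega)
    let U : Finset X := ⟨_, h3⟩
    have hU : U.card = R.card + 2 * L.length := by rw [card_mk]; simp [two_mul]
    have h4 : ∀ r, μ r ∈ U → r ∈ U := fun r h => by
      simp only [U, mem_mk, Multiset.mem_add, Multiset.mem_coe, List.mem_map, mem_val] at h ⊢
      rcases h with h | h | ⟨a, ha, h⟩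
      · exact Or.inl (by rwa [← h1 r, (h0 _).2 h])
      · exact Or.inr (Or.inr ⟨_, h, h1 r⟩)
      · exact Or.inr (Or.inl (by rwa [← h1 r, ← h, h1]))
    suffices ∃ r ∉ U, ∃ L', List.IsChain (fun x y => ¬ P (μ x) y) (x :: (L' ++ [z])) ∧
        L'.Perm (r :: L) by
      obtain ⟨r, hr, L', k1, k2⟩ := this
      refine ⟨L', k2.length_eq, k1, ?_⟩
      rw [Multiset.coe_eq_coe.2 k2, Multiset.coe_eq_coe.2 (k2.map μ), List.map_cons,
        ← Multiset.cons_coe, ← Multiset.cons_coe, Multiset.cons_add, Multiset.add_cons,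
        Multiset.add_cons, Multiset.add_cons, Multiset.nodup_cons, Multiset.nodup_cons,
        Multiset.mem_cons, not_or]
      exact ⟨⟨fun h => hr (mem_mk.2 (Multiset.mem_add.2 (Or.inl ((h0 r).1 h.symm)))), hr⟩,
        mt (h4 r) hr, h3⟩
    by_cases hc : L.length < κ
    · obtain ⟨p', L2, e⟩ : ∃ p' L2, L ++ [z] = p' :: L2 := by cases L <;> simp
      have k0 := hk p'
      rw [← (Function.Involutive.bijective h1).sum_comp] at k0
      obtain ⟨r, hr, k1⟩ := exists_not_of_lt (S := Uᶜ) (lt_of_le_of_lt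
        ((sum_or_le (P (μ x)) fun r => P p' (μ r)).trans (add_le_add (hk _) k0))
        (by rw [card_compl]; omega))
      rw [not_or] at k1
      exact ⟨r, mem_compl.1 hr, chain_insert' h2 (L1 := []) (congrArg _ e) k1.1
        fun h => k1.2 (hs _ _ h)⟩
    obtain ⟨r, hr⟩ : Uᶜ.Nonempty := card_pos.1 (by rw [card_compl]; omega)
    rw [mem_compl] at hr
    by_contra k0
    let w : X → ℕ := fun u => ind (P r u) + ind (P (μ r) u)
    have k1 := links_bound' (fun p => w (μ p)) w 2 z L x fun L1 p p' L2 e => by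
      have k1 : P r (μ p) ∨ P (μ r) p' := by_contra fun h => k0 ⟨r, hr,
        chain_insert' h2 e (fun h' => h (Or.inl (hs _ _ h'))) fun h' => h (Or.inr h')⟩
      have k2 : P (μ r) (μ p) ∨ P r p' := by_contra fun h => k0 ⟨μ r, mt (h4 r) hr,
        chain_insert' h2 e (fun h' => h (Or.inl (hs _ _ h'))) fun h' => h (Or.inr (h1 r ▸ h'))⟩
      rcases k1 with k1 | k1 <;> rcases k2 with k2 | k2 <;> simp only [w, ind_pos k1, ind_pos k2] <;>
        omega
    have k2 : ∑ u ∈ U, w u ≤ 2 * κ := (sum_le_sum_of_subset (subset_univ _)).trans (by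
      rw [sum_add_distrib, two_mul]; exact add_le_add (hk _) (hk _))
    have k3 : ∑ u ∈ U, w u = ∑ u ∈ R, w u + ((L.map w).sum + (L.map fun p => w (μ p)).sum) := by
      rw [Finset.sum, Finset.sum, Multiset.map_add, Multiset.sum_add]
      simp [Function.comp_def]
    have k4 : w x + w z ≤ ∑ u ∈ R, w u := by
      rw [← sum_pair hne]
      exact sum_le_sum_of_subset (insert_subset hx (singleton_subset_iff.2 hz))
    simp only [(h0 x).2 hx] at k1
    omega

theorem exists_run (hi : ∀ x, ¬ P x x) {k : ℕ} (hk : ∀ x, ∑ y, ind (P x y) ≤ k) (s : ℕ) :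
    s + 2 * k < Fintype.card X → ∃ y : ℕ → X, (∀ i ≤ s, ∀ j ≤ s, y i = y j → i = j) ∧
      (∀ i < s, ¬ P (y i) (y (i + 1))) ∧ ∀ i ≤ s, ¬ P (y 0) (y i) := by
  induction s with
  | zero =>
    intro h
    obtain ⟨x⟩ : Nonempty X := Fintype.card_pos_iff.1 (by omega)
    exact ⟨fun _ => x, fun _ _ _ _ _ => by omega, fun _ _ => hi x, fun _ _ => hi x⟩
  | succ s ih =>
    intro h
    obtain ⟨y, h1, h2, h3⟩ := ih (by omega)
    have h4 : ((range (s + 1)).image y).card ≤ s + 1 := card_image_le.trans (card_range _).le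
    obtain ⟨r, hr, k1⟩ := exists_not_of_lt (S := ((range (s + 1)).image y)ᶜ) (lt_of_le_of_lt
      ((sum_or_le (P (y s)) (P (y 0))).trans (add_le_add (hk _) (hk _))) (by rw [card_compl]; omega))
    rw [not_or] at k1
    have k2 : ∀ i ≤ s, y i ≠ r := fun i hi h =>
      mem_compl.1 hr (mem_image.2 ⟨i, mem_range.2 (by omega), h⟩)
    refine ⟨fun i => if i ≤ s then y i else r, fun i hi j hj h => ?_, fun i hi => ?_, fun i hi => ?_⟩
    · by_cases e : i ≤ s <;> by_cases e' : j ≤ s <;> simp only [e, e', if_true, if_false] at h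
      exacts [h1 i e j e' h, absurd h (k2 i e), absurd h.symm (k2 j e'), by omega]
    · by_cases e : i < s
      · simpa only [if_pos e.le, if_pos (Nat.succ_le_of_lt e)] using h2 i e
      · obtain rfl : i = s := by omega
        simpa only [if_pos (le_refl i), if_neg (Nat.not_succ_le_self i)] using k1.1
    · by_cases e : i ≤ s
      · simpa only [if_pos e, if_pos (Nat.zero_le s)] using h3 i e
      · simpa only [if_neg e, if_pos (Nat.zero_le s)] using k1.2

end graph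

variable {G : Type} [Group G] [Fintype G]

theorem link_loop {X : Type} (H : Subgroup G) (pos : X → G) (μ : X → X) {R : X → X → Prop}
    (Vp : X → Multiset G) (Ep : X → Multiset (Sym2 G)) {k : G → ℕ}
    (hP : ∀ x, Path (Vp x) (Ep x) (pos x) (pos (μ x)))
    (hk : ∀ x y, R x y → ∀ g, ke H s(pos (μ x), pos y) g = k g) (z : X) (L : List X) :
    ∀ x V E p, Path V E p (pos (μ x)) → List.IsChain R (x :: (L ++ [z])) → ∃ J q, R q z ∧
      Path (V + (L.map Vp).sum) (E + (L.map Ep).sum + J) p (pos (μ q)) ∧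
      ∀ g, KE H J g = L.length * k g := by
  induction L with
  | nil => exact fun x V E p h1 h2 => ⟨0, x, by simpa using h2, by simpa using h1, fun g => by simp [KE]⟩
  | cons y L ih =>
    intro x V E p h1 h2
    rw [List.cons_append, List.isChain_cons_cons] at h2
    obtain ⟨J, q, k0, k1, k2⟩ := ih y _ _ p (h1.append (hP y)) h2.2
    refine ⟨s(pos (μ x), pos y) ::ₘ J, q, k0, k1.congr ?_ ?_ rfl rfl, fun g => ?_⟩
    · simp [add_assoc]
    · simp only [List.map_cons, List.sum_cons, ← Multiset.singleton_add]; abel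
    · rw [KE_cons, k2, hk x y h2.1, List.length_cons]; ring

theorem big_run (H : Subgroup G) (w : G) (s e c : ℕ) (s0 : 0 < s) (ho : Even (H.index + (s + e + 1)))
    (c1 : 2 * (s + e + 1) ≤ c + 8) (c2 : s + e ≤ c ∨ s + e = 1)
    (hw : 3 * Nat.card G + c * Nat.card H
      < 4 * Nat.card {g : G // ∃ a ∈ H, ∃ b ∈ H, g = a * w * b}) :
    ∃ (z : ℕ → G) (V : Multiset G) (E : Multiset (Sym2 G)) (x : G), Path V E (z s) x ∧
      (∀ i < s, ∃ a ∈ H, ∃ b ∈ H, (z i)⁻¹ * z (i + 1) = a * w * b) ∧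
      (∃ a ∈ H, ∃ b ∈ H, x⁻¹ * z 0 = a * w * b) ∧ (∀ g, CV H (∑ i ∈ range s, {z i} + V) g = 1) ∧
      ∀ g, s * kk H w g + KE H E g = 2 * cd H * ind (g ∉ H) := by
  classical
  obtain ⟨X, _, ⟨T⟩⟩ : ∃ (X : Type) (_ : Fintype X), Nonempty (TV H ⊤ X) :=
    ⟨_, Fintype.ofFinite _, ⟨tvq le_top⟩⟩
  let Dd : G → Prop := fun g => ∃ a ∈ H, ∃ b ∈ H, g = a * w * b
  have h0 := cd_pos H
  have h1 : Fintype.card X * cd H = Nat.card G := by rw [T.card_mul, cd_eq, Subgroup.card_top]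
  have h2 : Fintype.card X = H.index := Nat.eq_of_mul_eq_mul_right h0 (by
    rw [h1, cd_eq, mul_comm, Subgroup.card_mul_index])
  rw [← cd_eq, Nat.card_eq_fintype_card (α := Subtype _), Fintype.card_subtype, ← sum_ind_card] at hw
  have d1 : ∀ g, ∀ a ∈ H, ∀ b ∈ H, Dd g → Dd (a * g * b) := fun g a ha b hb ⟨c, hc, e, he, h⟩ =>
    ⟨_, mul_mem ha hc, _, mul_mem he hb, by rw [h]; group⟩
  have d2 : ∀ g, Dd g → Dd g⁻¹ := by
    obtain ⟨g, -, h3⟩ := exists_not_of_lt (S := univ) (p := fun g => ¬ Dd g ∨ ¬ Dd g⁻¹) (by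
      have k1 : ∑ g, (ind (Dd g) + ind (Dd g⁻¹) + ind (¬ Dd g ∨ ¬ Dd g⁻¹)) ≤ ∑ _g : G, 2 := by
        refine sum_le_sum fun g _ => ?_
        by_cases e : Dd g <;> by_cases e' : Dd g⁻¹ <;> simp [e, e', ind_pos, ind_neg]
      have k2 : ∑ g, ind (¬ Dd g ∨ ¬ Dd g⁻¹) ≤ ∑ g, (ind (¬ Dd g) + ind (¬ Dd g⁻¹)) := by
        refine sum_le_sum fun g _ => ?_
        by_cases e : Dd g <;> by_cases e' : Dd g⁻¹ <;> simp [e, e', ind_pos, ind_neg]
      have k3 : ∑ g, (ind (Dd g) + ind (¬ Dd g)) = ∑ _g : G, 1 := by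
        refine sum_congr rfl fun g _ => ?_
        by_cases e : Dd g <;> simp [e, ind_pos, ind_neg]
      rw [sum_add_distrib, show ∑ g, ind (¬ Dd g⁻¹) = ∑ g, ind (¬ Dd g) from
        Equiv.sum_comp (Equiv.inv G) fun g => ind (¬ Dd g)] at k2
      rw [sum_add_distrib, sum_const, smul_eq_mul, mul_one] at k3
      rw [Nat.card_eq_fintype_card, ← card_univ] at hw
      change _ < 4 * ∑ g, ind (Dd g) at hw
      omega)
    simp only [not_or, not_not] at h3
    obtain ⟨⟨a, ha, b, hb, rfl⟩, h4⟩ := h3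
    rintro _ ⟨c, hc, e, he, rfl⟩
    have := d1 _ _ (mul_mem (inv_mem he) hb) _ (mul_mem ha (inv_mem hc)) h4
    rwa [show e⁻¹ * b * (a * w * b)⁻¹ * (a * c⁻¹) = (c * w * e)⁻¹ by group] at this
  have d3 : ∀ x, (∑ y, ind (Dd ((T.t x)⁻¹ * T.t y))) * cd H = ∑ g, ind (Dd g) := fun x => by
    rw [← (Group.mulLeft_bijective (T.t x)⁻¹).sum_comp, sum_mul,
      sum_congr rfl (g := fun g => ∑ y, ind ((T.t y)⁻¹ * g * 1 ∈ H) * ind (Dd ((T.t x)⁻¹ * g)))
        fun g _ => by simp only [mul_one]; rw [← sum_mul, T.sum_ind, ind_pos (Subgroup.mem_top g),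
          one_mul], sum_comm]
    refine sum_congr rfl fun y _ => ?_
    rw [← sum_shift H (T.t y)⁻¹ 1, mul_sum]
    refine sum_congr rfl fun g _ => ?_
    by_cases e : (T.t y)⁻¹ * g * 1 ∈ H
    · rw [mul_comm]
      congr 1
      refine ind_congr ⟨fun h => ?_, fun h => ?_⟩
      · simpa [mul_assoc] using d1 _ 1 (one_mem _) _ e h
      · simpa [mul_assoc] using d1 _ 1 (one_mem _) _ (inv_mem e) h
    · rw [ind_neg e, mul_zero, zero_mul]
  obtain ⟨x0⟩ := Fintype.card_pos_iff.1 T.card_pos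
  obtain ⟨l, hl⟩ : ∃ l, ∀ x, ∑ y, ind (Dd ((T.t x)⁻¹ * T.t y)) = l :=
    ⟨_, fun x => Nat.eq_of_mul_eq_mul_right h0 ((d3 x).trans (d3 x0).symm)⟩
  have h3 : 3 * Fintype.card X + c < 4 * l := Nat.lt_of_mul_lt_mul_right (a := cd H) (by
    rw [add_mul, mul_assoc, mul_assoc, h1, ← hl x0, d3]; exact hw)
  rw [← h2] at ho
  obtain ⟨m', hm'⟩ := ho
  by_cases hd : Dd 1
  · have k1 : l ≤ 1 := by
      rw [← hl x0, ← sum_ind_eq x0]
      refine sum_le_sum fun y _ => ?_
      by_cases e : Dd ((T.t x0)⁻¹ * T.t y)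
      · rw [ind_pos e]
        obtain ⟨a, ha, b, hb, k1⟩ := hd
        obtain ⟨c, hc, e', he, k2⟩ := e
        rw [T.uniq x0 y (by
          rw [k2, show w = a⁻¹ * (a * w * b) * b⁻¹ by group, ← k1]
          exact mul_mem (mul_mem hc (mul_mem (mul_mem (inv_mem ha) (one_mem _)) (inv_mem hb))) he),
          ind_pos rfl]
      · simp [e, ind_neg]
    have := T.card_pos
    omega
  let P : X → X → Prop := fun x y => x ≠ y ∧ ¬ Dd ((T.t x)⁻¹ * T.t y)
  have hs : ∀ x y, P x y → P y x := fun x y h => ⟨h.1.symm, fun h' => h.2 (by simpa using d2 _ h')⟩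
  have hi : ∀ x, ¬ P x x := fun x h => h.1 rfl
  have h4 : ∀ x, ∑ y, ind (P x y) + l + 1 = Fintype.card X := fun x => by
    rw [← hl x, ← sum_ind_eq x, ← sum_add_distrib, ← sum_add_distrib, ← card_univ, card_eq_sum_ones]
    refine sum_congr rfl fun y _ => ?_
    by_cases e : y = x
    · simp [P, e, hd, ind_pos, ind_neg]
    · by_cases e' : Dd ((T.t x)⁻¹ * T.t y) <;> simp [P, e, e', Ne.symm e, ind_pos, ind_neg]
  obtain ⟨k, hk⟩ : ∃ k, ∀ x, ∑ y, ind (P x y) = k := ⟨_, fun x => by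
    exact Nat.add_right_cancel (Nat.succ_injective ((h4 x).trans (h4 x0).symm))⟩
  have h5 := h4 x0
  rw [hk] at h5
  obtain ⟨y, y1, y2, y3⟩ := exists_run hi (fun x => (hk x).le) (s + e) (by omega)
  obtain ⟨R, hR⟩ : ∃ R, R = (range (s + e + 1)).image y := ⟨_, rfl⟩
  have r1 : ∀ {M : Type} [AddCommMonoid M] (F : X → M),
      ∑ x ∈ R, F x = ∑ i ∈ range (s + e + 1), F (y i) := fun F => hR ▸ sum_image fun i hi j hj =>
    y1 i (Nat.le_of_lt_succ (mem_range.1 hi)) j (Nat.le_of_lt_succ (mem_range.1 hj))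
  have r2 : R.card = s + e + 1 := by rw [card_eq_sum_ones, r1]; simp
  have r3 : ∀ i ≤ s + e, y i ∈ R := fun i hi => hR ▸ mem_image_of_mem _ (mem_range.2 (by omega))
  obtain ⟨m, hm⟩ : ∃ m, Fintype.card X = s + e + 1 + 2 * m := ⟨m' - (s + e + 1), by omega⟩
  have h6 : (univ.filter (P x0)).card = k := by rw [← sum_ind_card, hk]
  obtain ⟨μ, W, m1, m2, m3, m4, m5, m6⟩ := match_typed
    (fun i x y => x ≠ y ∧ ∃ a ∈ H, ∃ b ∈ H, (T.t x)⁻¹ * T.t y = a * ((T.t x0)⁻¹ * T.t i) * b)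
    (fun _ _ _ h => h.1) R (univ.filter (P x0)) fun i hi' W hW => by
      have k1 : ∀ z, ∑ g, ind (∃ p ∈ W, (T.t p)⁻¹ * g * z ∈ H) ≤ W.card * cd H := fun z => by
        rw [← smul_eq_mul, ← sum_const, ← sum_congr rfl fun p _ => sum_shift H (T.t p)⁻¹ z, sum_comm]
        refine sum_le_sum fun g _ => ?_
        by_cases e : ∃ p ∈ W, (T.t p)⁻¹ * g * z ∈ H
        · rw [ind_pos e]
          obtain ⟨p, e1, e2⟩ := e
          exact (ind_pos e2).ge.trans (single_le_sum (f := fun p => ind ((T.t p)⁻¹ * g * z ∈ H))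
            (fun _ _ => Nat.zero_le _) e1)
        · rw [ind_neg e]; exact Nat.zero_le _
      obtain ⟨g, -, k2⟩ := exists_not_of_lt (S := univ) (p := fun g =>
        (∃ p ∈ W, (T.t p)⁻¹ * g * T.t x0 ∈ H) ∨ ∃ p ∈ W, (T.t p)⁻¹ * g * T.t i ∈ H) (by
          refine lt_of_le_of_lt (sum_le_sum (g := fun g => ind (∃ p ∈ W, (T.t p)⁻¹ * g * T.t x0 ∈ H)
            + ind (∃ p ∈ W, (T.t p)⁻¹ * g * T.t i ∈ H)) fun g _ => ?_) ?_
          · by_cases e : ∃ p ∈ W, (T.t p)⁻¹ * g * T.t x0 ∈ H <;>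
              by_cases e' : ∃ p ∈ W, (T.t p)⁻¹ * g * T.t i ∈ H <;> simp only [e, e', ind_pos, ind_neg,
                or_true, true_or, or_self, not_false_eq_true] <;> omega
          · rw [sum_add_distrib, card_univ, ← Nat.card_eq_fintype_card, ← h1]
            refine lt_of_le_of_lt (add_le_add (k1 _) (k1 _)) ?_
            rw [← add_mul]
            rw [h6] at hW
            exact Nat.mul_lt_mul_of_pos_right (by omega) h0)
      obtain ⟨α, hα⟩ := T.exists_act (Subgroup.mem_top g)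
      rw [not_or] at k2
      exact ⟨α x0, fun h => k2.1 ⟨_, h, hα x0⟩, α i, fun h => k2.2 ⟨_, h, hα i⟩,
        α.injective.ne (mem_filter.1 hi').2.1, _, hα x0, _, inv_mem (hα i), by group⟩
  rw [h6] at m2
  have h8 : (R ∪ W)ᶜ.card = 2 * (m - k) := by
    rw [card_compl, card_union_of_disjoint m3]; omega
  obtain ⟨ν, n1, n2, n3⟩ := match_out hs hi (fun x => (hk x).le) (R ∪ W)ᶜ ⟨m - k, by omega⟩
    (by omega)
  simp only [mem_compl, not_not, mem_union] at n2
  have k4 : ∀ x ∈ W, μ x ∈ W := fun x hx => by_contra fun h => h (by rwa [← m4 _ h, m1])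
  have k5 : ∀ x ∉ W, ν x ∉ W := fun x hx h => hx (by rwa [← n1 x, (n2 _).2 (Or.inr h)])
  have k6 : ∀ x ∈ R, x ∉ W := fun x hx => disjoint_left.1 m3 hx
  obtain ⟨η, hη⟩ : ∃ η : X → X, ∀ x, η x = if x ∈ W then μ x else ν x := ⟨_, fun _ => rfl⟩
  have e1 : ∀ x, η (η x) = x := fun x => by
    by_cases h : x ∈ W
    · simp [hη, h, k4 x h, m1]
    · simp [hη, h, k5 x h, n1]
  have e2 : ∀ x, η x = x ↔ x ∈ R := fun x => by
    by_cases h : x ∈ W
    · simp only [hη, if_pos h]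
      exact ⟨fun h9 => absurd h9 (m5 x h), fun h9 => absurd h (k6 x h9)⟩
    · simp [hη, h, n2]
  have f1 : ∀ x y, x ≠ y → ¬ P x y → Dd ((T.t x)⁻¹ * T.t y) := fun x y k1 k2 =>
    not_not.1 fun h => k2 ⟨k1, h⟩
  have f2 : ∀ g x y, x ≠ y → ¬ P x y → kk H ((T.t x)⁻¹ * T.t y) g = kk H w g := fun g x y k1 k2 => by
    obtain ⟨a, ha, b, hb, h⟩ := f1 x y k1 k2
    rw [h, kk_mul ha hb]
  have y4 : ∀ i < s + e, y i ≠ y (i + 1) := fun i hi h => by have := y1 _ hi.le _ hi h; omega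
  have y5 : y (s + e) ≠ y 0 := fun h => by have := y1 _ le_rfl _ (Nat.zero_le _) h; omega
  obtain ⟨L, l3, l4, l5⟩ := exists_loop (P := fun x y => y = x ∨ P x y) (κ := k + 1)
    (fun x y h => h.imp Eq.symm (hs _ _)) (fun x => by
      rw [← hk x, ← sum_ind_eq x, add_comm]
      exact sum_or_le _ _)
    e1 e2 (r3 _ le_rfl) (r3 0 (Nat.zero_le _)) y5
    (not_or.2 ⟨y5.symm, fun h => y3 _ le_rfl (hs _ _ h)⟩) (by omega) m (by omega)
  have cov : ∀ {M : Type} [AddCommMonoid M] (F : X → M),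
      ∑ x, F x = ∑ x ∈ R, F x + (L.map fun x => F x + F (η x)).sum := fun F => by
    rw [← eq_univ_of_card (⟨_, l5⟩ : Finset X) (by simp; omega), Finset.sum, Finset.sum,
      Multiset.map_add, Multiset.sum_add]
    simp [List.sum_map_add, Function.comp_def]
  obtain ⟨J, q, l8, l6, l7⟩ := link_loop H T.t η (fun x => {T.t x} + {T.t (η x)})
    (fun x => {s(T.t x, T.t (η x))}) (k := kk H w)
    (fun x => by simpa using (Path.single (T.t x)).append (Path.single (T.t (η x))))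
    (fun x y h g => by
      rw [not_or] at h
      rw [ke_mk, f2 g _ _ (Ne.symm h.1) h.2]) (y 0)
    L (y (s + e)) _ _ _ ((path_seq (fun i => T.t (y (s + i))) e).congr rfl rfl rfl
      (by rw [(e2 _).2 (r3 _ le_rfl)])) l4
  rw [not_or] at l8
  refine ⟨fun i => T.t (y i), _, _, _, l6, fun i h => f1 _ _ (y4 i (by omega)) (y2 i (by omega)),
    f1 _ _ (Ne.symm l8.1) l8.2, fun g => ?_, fun g => ?_⟩
  · rw [← add_assoc, ← sum_range_add (fun i => ({T.t (y i)} : Multiset G)), ← add_assoc,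
      ← r1 fun x => ({T.t x} : Multiset G), ← cov fun x => ({T.t x} : Multiset G), CV_sum, T.sum_ind,
      ind_pos (Subgroup.mem_top g)]
  have k3 : ∀ L : List X, 2 * KE H (L.map fun x =>
      ({s(T.t x, T.t (η x))} : Multiset (Sym2 G))).sum g = (L.map fun x =>
        kk H ((T.t x)⁻¹ * T.t (η x)) g + kk H ((T.t (η x))⁻¹ * T.t (η (η x))) g).sum := fun L => by
    induction L with
    | nil => simp [KE]
    | cons x L ih =>
      rw [List.map_cons, List.sum_cons, Multiset.singleton_add, KE_cons, mul_add, ih, List.map_cons,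
        List.sum_cons, ke_mk, e1, two_mul, ← kk_inv H ((T.t (η x))⁻¹ * _), mul_inv_rev, inv_inv]
  have k7 := cov fun x => kk H ((T.t x)⁻¹ * T.t (η x)) g
  rw [← k3, ← sum_add_sum_compl (R ∪ W), sum_union m3, add_assoc, add_right_inj,
    sum_congr rfl (g := fun x => kk H ((T.t x)⁻¹ * T.t (μ x)) g) fun x hx => by rw [hη, if_pos hx],
    m6 (fun x y => kk H ((T.t x)⁻¹ * T.t y) g) (fun i => kk H ((T.t x0)⁻¹ * T.t i) g)
      fun i x y ⟨_, a, ha, b, hb, h⟩ => ⟨by rw [h, kk_mul ha hb], by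
        rw [← kk_inv, mul_inv_rev, inv_inv, h, kk_mul ha hb]⟩,
    sum_congr rfl (s₁ := (R ∪ W)ᶜ) (g := fun _ => kk H w g) fun x hx => by
      rw [mem_compl, mem_union] at hx
      rw [hη, if_neg fun h => hx (Or.inr h)]
      exact f2 g _ _ (fun h => hx ((n2 x).1 h.symm)) (n3 x), sum_const, h8, smul_eq_mul] at k7
  have k8 := T.sum_erase x0 g
  have k9 : univ.filter (P x0) ⊆ univ.erase x0 := fun y hy =>
    mem_erase.2 ⟨(mem_filter.1 hy).2.1.symm, mem_univ _⟩
  rw [← sum_sdiff k9, sum_congr rfl (g := fun _ => kk H w g) fun y hy => by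
      rw [mem_sdiff, mem_erase, mem_filter] at hy
      exact f2 g _ _ hy.1.1.symm fun h => hy.2 ⟨mem_univ _, h⟩, sum_const, card_sdiff_of_subset k9,
    h6, card_erase_of_mem (mem_univ _), card_univ, hm, smul_eq_mul,
    ind_congr (and_iff_right (Subgroup.mem_top g))] at k8
  obtain ⟨r, rfl⟩ : ∃ r, m = k + r := ⟨m - k, by omega⟩
  rw [show s + e + 1 + 2 * (k + r) - 1 - k = s + e + k + 2 * r by omega] at k8
  rw [Nat.add_sub_cancel_left] at k7
  rw [KE_add, KE_add, l7, l3, KE_sum, sum_congr rfl (g := fun _ => kk H w g) fun i hi => by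
    rw [ke_mk]
    exact f2 g _ _ (y4 _ (by simpa using hi)) (y2 _ (by simpa using hi)), sum_const, card_range,
    smul_eq_mul]
  nlinarith

end Pool.Agent.Lib.MP_0becda_co.Coset
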