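import Pool.Agent.Lib.MP_0becda_co.Coset.Hall

/-!
Lifting a cycle of cosets along an abelian quotient.
-/

set_option linter.unusedSectionVars false

open Finset Pool.Agent.Lib.MP_0becda_co.PSL

namespace Pool.Agent.Lib.MP_0becda_co.Coset

theorem chain_paths {X : Type} (V : ℕ → Multiset X) (E : ℕ → Multiset (Sym2 X)) (st en : ℕ → X)
    (m : ℕ) (h : ∀ j ≤ m, Path (V j) (E j) (st j) (en j)) :
    Path (∑ j ∈ range (m + 1), V j)
      (∑ j ∈ range (m + 1), E j + ∑ j ∈ range m, {s(en (j + 1), st j)}) (st m) (en 0) := by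
  induction m with
  | zero => simpa using h 0 le_rfl
  | succ m ih =>
    refine ((h _ le_rfl).append (ih fun j hj => h j (by omega))).congr ?_ ?_ rfl rfl
    · rw [sum_range_succ _ (m + 1), add_comm]
    · rw [sum_range_succ E (m + 1), sum_range_succ (fun j => ({s(en (j + 1), st j)} : Multiset _)) m,
        ← Multiset.singleton_add, add_left_comm, add_comm (∑ j ∈ range (m + 1), E j) (E (m + 1)),
        add_assoc, add_comm (∑ j ∈ range m, _), add_left_comm, add_left_comm (∑ j ∈ range (m + 1), _)]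

theorem exists_enum (A : Type) [Zero A] [Fintype A] {m : ℕ} (hm : Fintype.card A = m + 1) :
    ∃ l : ℕ → A, l m = 0 ∧ (∀ i ≤ m, ∀ j ≤ m, l i = l j → i = j) ∧
      ∀ {M : Type} [AddCommMonoid M] (f : A → M), ∑ j ∈ range (m + 1), f (l j) = ∑ a, f a := by
  classical
  let e0 : Fin (m + 1) ≃ A := (Fintype.equivFinOfCardEq hm).symm
  let e : Fin (m + 1) ≃ A := e0.trans (Equiv.swap (e0 (Fin.last m)) 0)
  refine ⟨fun j => if h : j < m + 1 then e ⟨j, h⟩ else 0, ?_, fun i hi j hj h => ?_, fun f => ?_⟩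
  · simp only [dif_pos (Nat.lt_succ_self m)]
    exact Equiv.swap_apply_left _ _
  · simp only [dif_pos (Nat.lt_succ_of_le hi), dif_pos (Nat.lt_succ_of_le hj)] at h
    exact congrArg Fin.val (e.injective h)
  · rw [sum_range, ← e.sum_comp]
    exact sum_congr rfl fun j _ => by simp only [dif_pos j.2]

theorem sum_cut {M : Type} [AddCommMonoid M] (f : ℕ → M) (j r : ℕ) :
    ∑ i ∈ range (j + 1 + r), f i = ∑ i ∈ range r, f (j + 1 + i) + ∑ i ∈ range (j + 1), f i := by
  rw [sum_range_add, add_comm]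

variable {G : Type} [Group G] [Fintype G]

theorem CV_add (H : Subgroup G) (V V' : Multiset G) (g : G) :
    CV H (V + V') g = CV H V g + CV H V' g := by simp [CV]

theorem CV_sum' {X : Type} (H : Subgroup G) (S : Finset X) (f : X → Multiset G) (g : G) :
    CV H (∑ x ∈ S, f x) g = ∑ x ∈ S, CV H (f x) g := by
  classical
  induction S using Finset.induction_on with
  | empty => simp [CV]
  | insert a s ha ih => rw [sum_insert ha, sum_insert ha, CV_add, ih]

theorem KE_sum' {X : Type} (H : Subgroup G) (S : Finset X) (f : X → Multiset (Sym2 G)) (g : G) :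
    KE H (∑ x ∈ S, f x) g = ∑ x ∈ S, KE H (f x) g := by
  classical
  induction S using Finset.induction_on with
  | empty => simp [KE]
  | insert a s ha ih => rw [sum_insert ha, sum_insert ha, KE_add, ih]

namespace TV

variable {H B : Subgroup G} {A : Type} [AddCommGroup A] [Fintype A] (T : TV H B A)

theorem col_sum {d g : G} {F u : A → _} (h : ∀ a a', kk H ((T.t a)⁻¹ * d * T.t a') g = F (a' - u a)) :
    Fintype.card A * ∑ c, F c = kk B d g := by
  rw [← T.sum_kk, ← smul_eq_mul, ← card_univ, ← sum_const]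
  refine sum_congr rfl fun a _ => ?_
  simp only [h]
  exact ((Equiv.subRight (u a)).sum_comp F).symm

theorem lift_path (h0 : ∑ a : A, a = 0) (hcol : ∀ d, ∃ α : A ≃ A, ∀ a a' g,
      kk H ((T.t a)⁻¹ * d * T.t a') g = kk H (d * T.t (a' - α a)) g)
    {V : Multiset G} {E : Multiset (Sym2 G)} {a b : G} (hp : Path V E a b) :
    ∃ (Φ : Equiv.Perm A) (Vx : A → Multiset G) (Ex : A → Multiset (Sym2 G)),
      (∀ x, Path (Vx x) (Ex x) (a * T.t x) (b * T.t (Φ x))) ∧
      (∀ g, CV H (∑ x, Vx x) g = CV B V g) ∧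
      ∀ g, Fintype.card A * KE H (∑ x, Ex x) g = KE B E g := by
  classical
  have key : ∀ E : Multiset (Sym2 G), ∃ F, Multiset.Rel (T.IsLift ⊤) E F ∧
      ∀ g, Fintype.card A * KE H F.sum g = KE B E g := fun E => by
    induction E using Multiset.induction_on with
    | empty => exact ⟨0, Multiset.Rel.zero, fun g => by simp [KE]⟩
    | cons e E ih =>
      obtain ⟨F, h1, h2⟩ := ih
      induction e using Sym2.ind with
      | _ u v =>
        obtain ⟨α, hα⟩ := hcol (u⁻¹ * v)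
        obtain ⟨θ, hθ⟩ := exists_bundle α (fun a => a) h0
        refine ⟨_ ::ₘ F, Multiset.Rel.cons ⟨u, v, rfl, θ, Subgroup.mem_top _, rfl⟩ h1, fun g => ?_⟩
        rw [Multiset.sum_cons, KE_add, KE_cons, mul_add, h2, KE_sum, ke_mk,
          ← T.col_sum (F := fun c => kk H (u⁻¹ * v * T.t c) g) fun a a' => hα a a' g,
          ← hθ fun c => kk H (u⁻¹ * v * T.t c) g]
        congr 2
        refine sum_congr rfl fun x _ => ?_
        rw [ke_mk, ← hα]
        congr 1
        group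
  obtain ⟨F, h1, h2⟩ := key E
  obtain ⟨Φ, -, Vx, Ex, k1, k2, k3⟩ := T.strands ⊤ hp F h1
  exact ⟨Φ, Vx, Ex, k1, k2, fun g => by rw [k3, h2]⟩

theorem stair (h0 : ∑ a : A, a = 0) (hcol : ∀ d, ∃ α : A ≃ A, ∀ a a' g,
      kk H ((T.t a)⁻¹ * d * T.t a') g = kk H (d * T.t (a' - α a)) g)
    (hfib : ∀ a a' g, kk H ((T.t a)⁻¹ * T.t a') g = kk H ((T.t 0)⁻¹ * T.t (a' - a)) g)
    (α : A ≃+ A) (F : A → G → ℕ) (D : G → Prop) (hdom : ∀ d, D d → ∃ ω, ∀ a a' g,
      kk H ((T.t a)⁻¹ * d * T.t a') g = F (a' - α a + ω) g) {k : G → ℕ}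
    (hF : ∀ g, Fintype.card A * ∑ c, F c g = k g) {n : ℕ} (hn : Fintype.card A = n) (z : ℕ → G)
    {V : Multiset G} {E : Multiset (Sym2 G)} {x : G} (hp : Path V E (z (n + n + n + 1)) x)
    (hz : ∀ i < n + n + n + 1, D ((z i)⁻¹ * z (i + 1))) (hx : D (x⁻¹ * z 0))
    (hV : ∀ g, CV B (∑ i ∈ range (n + n + n + 1), {z i} + V) g = 1)
    (hE : ∀ g, (n + n + n + 1) * k g + KE B E g = 2 * cd B * ind (g ∉ B)) : CT H := by
  classical
  obtain ⟨m, hm⟩ : ∃ m, n = m + 1 := ⟨n - 1, by have := T.card_pos; omega⟩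
  obtain ⟨l, l1, l2, l3⟩ := exists_enum A (hn.trans hm)
  obtain ⟨Φ, Vx, Ex, p1, p2, p3⟩ := T.lift_path h0 hcol hp
  choose θ η η' t1 t2 using exists_triple h0 α.toEquiv
  obtain ⟨ψ, hψ⟩ := exists_bundle α.toEquiv (fun a => a) h0
  choose! ω hω using hdom
  let Θ1 : ℕ → Equiv.Perm A := fun j => Nat.rec 1 (fun j Θ => θ (Θ (l j)) (Θ (l (j + 1))) (l j) * Θ) j
  obtain ⟨β, b1, b2, b3, b4⟩ : ∃ β : ℕ → Equiv.Perm A,
      (∀ j < n, β j = θ (Θ1 j (l j)) (Θ1 j (l (j + 1))) (l j)) ∧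
      (∀ j < n, β (n + j) = η (Θ1 j (l j)) (Θ1 j (l (j + 1))) (l j)) ∧
      (∀ j < n, β (n + n + j) = η' (Θ1 j (l j)) (Θ1 j (l (j + 1))) (l j)) ∧ β (n + n + n) = ψ :=
    ⟨fun i => if i < n then θ (Θ1 i (l i)) (Θ1 i (l (i + 1))) (l i) else if i < n + n then
      η (Θ1 (i - n) (l (i - n))) (Θ1 (i - n) (l (i - n + 1))) (l (i - n)) else if i < n + n + n then
      η' (Θ1 (i - (n + n)) (l (i - (n + n)))) (Θ1 (i - (n + n)) (l (i - (n + n) + 1)))
        (l (i - (n + n))) else ψ, fun j hj => if_pos hj,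
      fun j hj => by
        simp only [if_neg (show ¬ n + j < n by omega), if_pos (show n + j < n + n by omega),
          Nat.add_sub_cancel_left],
      fun j hj => by
        simp only [if_neg (show ¬ n + n + j < n by omega), if_neg (show ¬ n + n + j < n + n by omega),
          if_pos (show n + n + j < n + n + n by omega), Nat.add_sub_cancel_left],
      by simp only [if_neg (show ¬ n + n + n < n by omega), if_neg (show ¬ n + n + n < n + n by omega),
          if_neg (lt_irrefl (n + n + n))]⟩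
  obtain ⟨Θ, q0, q1⟩ : ∃ Θ : ℕ → Equiv.Perm A, Θ 0 = 1 ∧ ∀ i, Θ (i + 1) = β i * Θ i :=
    ⟨fun j => Nat.rec 1 (fun j Θ => β j * Θ) j, rfl, fun _ => rfl⟩
  have q2 : ∀ j ≤ n, Θ j = Θ1 j := fun j => by
    induction j with
    | zero => exact fun _ => q0
    | succ j ih => intro hj; rw [q1, b1 j hj, ih (by omega)]
  have q3 : ∀ j < m, Θ (j + 1) (l j) - Θ (j + 1) (l (j + 1)) = l j := fun j hj => by
    rw [q1, b1 j (by omega), q2 j (by omega)]
    exact t1 _ _ _ ((Θ1 j).injective.ne fun h => by have := l2 _ hj.le _ hj h; omega)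
      fun h => by have := l2 _ hj.le _ le_rfl (h.trans l1.symm); omega
  obtain ⟨σ, hσ⟩ : ∃ σ : ℕ → A, ∀ j, β j (Θ j (l j)) - α (Θ j (l j)) + σ j
      = l j - α (Φ (Θ (n + n + n + 1) (l j))) + ω (x⁻¹ * z 0) :=
    ⟨fun j => l j - α (Φ (Θ (n + n + n + 1) (l j))) + ω (x⁻¹ * z 0)
      - (β j (Θ j (l j)) - α (Θ j (l j))), fun j => add_sub_cancel _ _⟩
  obtain ⟨S, s1, s2, s3⟩ : ∃ S : ℕ → A, (∀ j < n, S j = σ j) ∧ (∀ j < n, S (n + j) = σ j) ∧
      ∀ j < n, S (n + n + j) = σ j :=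
    ⟨fun i => if i < n then σ i else if i < n + n then σ (i - n) else σ (i - (n + n)),
      fun j hj => if_pos hj, fun j hj => by
        simp only [if_neg (show ¬ n + j < n by omega), if_pos (show n + j < n + n by omega),
          Nat.add_sub_cancel_left],
      fun j hj => by
        simp only [if_neg (show ¬ n + n + j < n by omega), if_neg (show ¬ n + n + j < n + n by omega),
          Nat.add_sub_cancel_left]⟩
  obtain ⟨κ, k0, k1⟩ : ∃ κ : ℕ → A, κ 0 = 0 ∧ ∀ i, κ (i + 1)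
      = if i < n + n + n then α (κ i) - ω ((z i)⁻¹ * z (i + 1)) + S i else 0 :=
    ⟨fun j => Nat.rec 0 (fun i κ => if i < n + n + n then α κ - ω ((z i)⁻¹ * z (i + 1)) + S i
      else 0) j, rfl, fun _ => rfl⟩
  obtain ⟨v, hv⟩ : ∃ v : A → ℕ → G, ∀ a i, v a i = z i * T.t (Θ i a + κ i) := ⟨_, fun _ _ => rfl⟩
  have c1 : ∀ i < n + n + n + 1, ∀ a g, ke H s(v a i, v a (i + 1)) g = F (β i (Θ i a) - α (Θ i a)
      + (κ (i + 1) - α (κ i) + ω ((z i)⁻¹ * z (i + 1)))) g := fun i hi a g => by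
    rw [ke_mk, hv, hv, show (z i * T.t (Θ i a + κ i))⁻¹ * (z (i + 1) * T.t (Θ (i + 1) a + κ (i + 1)))
      = (T.t (Θ i a + κ i))⁻¹ * ((z i)⁻¹ * z (i + 1)) * T.t (Θ (i + 1) a + κ (i + 1)) by group,
      hω _ (hz i hi), q1, map_add, Equiv.Perm.mul_apply]
    congr 1
    abel
  have c2 : ∀ i < n + n + n, ∀ a g, ke H s(v a i, v a (i + 1)) g
      = F (β i (Θ i a) - α (Θ i a) + S i) g := fun i hi a g => by
    rw [c1 i (by omega), k1, if_pos hi]
    congr 1
    abel
  have c3 : ∀ g, ∑ a, ∑ i ∈ range (n + n + n + 1), ke H s(v a i, v a (i + 1)) g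
      = (n + n + n + 1) * ∑ c, F c g := fun g => by
    have e1 : ∀ i < n + n + n, ∑ a, ke H s(v a i, v a (i + 1)) g = ∑ b, F (β i b - α b + S i) g :=
      fun i hi => by
        simp only [c2 i hi]
        exact Equiv.sum_comp (Θ i) fun b => F (β i b - α b + S i) g
    rw [sum_comm, sum_range_succ, sum_congr rfl fun i hi => e1 i (mem_range.1 hi), sum_range_add,
      sum_range_add, ← sum_add_distrib, ← sum_add_distrib,
      sum_congr rfl (g := fun _ => 3 * ∑ c, F c g) fun j hj => by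
        rw [b1 j (mem_range.1 hj), b2 j (mem_range.1 hj), b3 j (mem_range.1 hj), s1 j (mem_range.1 hj),
          s2 j (mem_range.1 hj), s3 j (mem_range.1 hj)]
        exact (t2 _ _ _ fun c => F (c + σ j) g).trans
          (congrArg _ (Equiv.sum_comp (Equiv.addRight (σ j)) fun c => F c g))]
    simp only [c1 _ (Nat.lt_succ_self _), b4]
    generalize κ (n + n + n + 1) - α (κ (n + n + n)) + ω ((z (n + n + n))⁻¹ * z (n + n + n + 1)) = c
    rw [Equiv.sum_comp (Θ (n + n + n)) fun b => F (ψ b - α b + c) g,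
      show ∑ b, F (ψ b - α b + c) g = ∑ b, F b g from (hψ fun b => F (b + c) g).trans
        (Equiv.sum_comp (Equiv.addRight c) fun c => F c g), sum_const, card_range, smul_eq_mul]
    ring
  have c4 : ∀ a, v a (n + n + n + 1) = z (n + n + n + 1) * T.t (Θ (n + n + n + 1) a) := fun a => by
    rw [hv, k1, if_neg (lt_irrefl _), add_zero]
  have c5 : ∀ j ≤ m, ∃ E', Path (∑ i ∈ range (n + n + n + 1), {v (l j) i}
      + Vx (Θ (n + n + n + 1) (l j))) E' (v (l j) (j + 1)) (v (l j) j) ∧ ∀ g, KE H E' g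
      = ∑ i ∈ range (n + n + n + 1), ke H s(v (l j) i, v (l j) (i + 1)) g
        + KE H (Ex (Θ (n + n + n + 1) (l j))) g := fun j hj => by
    obtain ⟨r, hr⟩ : ∃ r, n + n + n = j + 1 + r := ⟨n + n + n - (j + 1), by omega⟩
    refine ⟨_, (((path_seq (fun i => v (l j) (j + 1 + i)) r).append (p1 (Θ (n + n + n + 1) (l j)))).append
      (path_seq (v (l j)) j)).congr ?_ rfl rfl rfl, fun g => ?_⟩
    · rw [hr, add_assoc (j + 1), sum_cut]; abel
    have e1 : ke H s(x * T.t (Φ (Θ (n + n + n + 1) (l j))), v (l j) 0) g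
        = ke H s(v (l j) j, v (l j) (j + 1)) g := by
      rw [c2 j (by omega), s1 j (by omega), hσ, ke_mk, hv, q0, k0, add_zero, Equiv.Perm.one_apply,
        ← hω _ hx]
      congr 1
      group
    rw [KE_add, KE_add, KE_cons, KE_cons, KE_sum, KE_sum, e1, ← c4, sum_range_succ, hr, sum_cut,
      sum_range_succ]
    simp only [add_assoc (j + 1)]
    ring
  choose! E' e1 e2 using c5
  refine ⟨_, _, _, _, chain_paths _ _ _ _ m e1, fun g => ?_, fun g => ?_⟩
  · rw [l3 fun a => ∑ i ∈ range (n + n + n + 1), {v a i} + Vx (Θ (n + n + n + 1) a), sum_add_distrib,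
      Equiv.sum_comp (Θ (n + n + n + 1)) Vx, CV_add, p2, sum_comm, CV_sum']
    refine Eq.trans ?_ (hV g)
    rw [CV_add, CV_sum]
    congr 1
    refine sum_congr rfl fun i _ => ?_
    rw [CV_sum, ← T.sum_ind, ← Equiv.sum_comp ((Θ i).trans (Equiv.addRight (κ i)))
      fun a => ind ((T.t a)⁻¹ * ((z i)⁻¹ * g) ∈ H)]
    exact sum_congr rfl fun a _ => by rw [hv, mul_inv_rev, mul_assoc]; rfl
  have f1 := T.sum_erase 0 g
  have f2 := l3 fun a => kk H ((T.t 0)⁻¹ * T.t a) g
  rw [sum_range_succ, l1, ← add_sum_erase _ _ (mem_univ 0), f1, add_comm, add_right_inj] at f2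
  rw [KE_add, KE_sum', KE_sum, sum_congr rfl fun j hj => e2 j (Nat.le_of_lt_succ (mem_range.1 hj)) g,
    l3 fun a => ∑ i ∈ range (n + n + n + 1), ke H s(v a i, v a (i + 1)) g
      + KE H (Ex (Θ (n + n + n + 1) a)) g, sum_add_distrib, c3,
    Equiv.sum_comp (Θ (n + n + n + 1)) fun a => KE H (Ex a) g, ← KE_sum',
    sum_congr rfl (g := fun j => kk H ((T.t 0)⁻¹ * T.t (l j)) g) fun j hj => by
      rw [ke_mk, hv, hv, mul_inv_rev, mul_assoc, inv_mul_cancel_left, hfib, add_sub_add_right_eq_sub,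
        q3 j (mem_range.1 hj)], f2]
  have f3 := hE g
  rw [← hF, ← p3, ← T.card_mul, mul_left_comm, ← mul_add, mul_left_comm, mul_assoc] at f3
  rw [Nat.eq_of_mul_eq_mul_left T.card_pos f3, ← mul_add]
  congr 1
  by_cases h1 : g ∈ H
  · simp [h1, T.le h1, ind_neg]
  · by_cases h2 : g ∈ B <;> simp [h1, h2, ind_pos, ind_neg]

end TV

end Pool.Agent.Lib.MP_0becda_co.Coset
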