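import Pool.Agent.Lib.MP_0becda_co.Coset.Twist2
import Pool.Agent.Lib.MP_0becda_co.Coset.Rank3

/-!
Symplectic geometry for the chain of isotropic flags.
-/

set_option linter.unusedSectionVars false

open Finset Matrix Pool.Agent.Lib.MP_0becda_co.PSL

namespace Pool.Agent.Lib.MP_0becda_co.Coset

variable {G : Type} [Group G] [Fintype G] {F : Type} [Field F] {n : ℕ}
  {ρ : G →* Matrix (Fin n) (Fin n) F} {D : Subgroup G} {C : Subgroup Fˣ}

/-- an alternating form, preserved up to scalars, all of whose isometries lie in `D` -/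
structure Sy (ρ : G →* Matrix (Fin n) (Fin n) F) (D : Subgroup G) where
  B : (Fin n → F) →ₗ[F] (Fin n → F) →ₗ[F] F
  ε : Fin n → F
  ne : ∀ a, ε a ≠ 0
  single : ∀ a v, B (Pi.single a 1) v = ε a * v a.rev
  alt : ∀ v, B v v = 0
  sim : ∀ g, ∃ c : Fˣ, ∀ v w, B (ρ g *ᵥ v) (ρ g *ᵥ w) = c * B v w
  ex : ∀ M : Matrix (Fin n) (Fin n) F, (∀ v w, B (M *ᵥ v) (M *ᵥ w) = B v w) → ∃ g ∈ D, ρ g = M

theorem exists_step {r : ℕ} {Y Y' : Submodule F (Fin n → F)}
    (h : ∃ w ∈ Vr F n r, w ∈ Y ∧ w ∉ Y') : ∃ w ∈ Vr F n r, w ∈ Y ∧ w ∉ Y' ∧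
      ∀ k ∈ Kr ρ D C r, ρ k *ᵥ w ∈ Y → Rel C Y' (ρ k *ᵥ w) w := by
  classical
  have h0 : ∃ j, j ≤ r ∧ ∃ v ∈ Vr F n j, v ∈ Y ∧ v ∉ Y' := ⟨r, le_rfl, h⟩
  obtain ⟨h1, v, h2, h3, h4⟩ := Nat.find_spec h0
  have h5 := fun j => Nat.find_min h0 (m := j)
  generalize Nat.find h0 = j at h1 h2 h5
  obtain _ | j := j
  · exact absurd (vr_zero h2 ▸ zero_mem Y') h4
  have h6 : j < n := by
    by_contra h6
    exact h5 j (by omega) ⟨by omega, v, fun a ha => by have := a.2; omega, h3, h4⟩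
  refine ⟨v, fun a ha => h2 a (h1.trans ha), h3, h4, fun k hk h7 => ?_⟩
  obtain ⟨c, hc, h8⟩ := (hk.2 ⟨j, h6⟩ h1).1
  refine ⟨c, hc, by_contra fun h9 => h5 j (by omega) ⟨by omega, _, fun a ha => ?_,
    sub_mem h7 (Y.smul_mem _ h3), h9⟩⟩
  rcases ha.eq_or_lt with ha | ha
  · obtain rfl : a = ⟨j, h6⟩ := Fin.ext ha.symm
    rw [Pi.sub_apply, act_top hk (show j < r by omega) h2, h8]; simp
  · rw [Pi.sub_apply, kr_le_stb h1 hk v h2 a ha, Pi.smul_apply, h2 a ha]; simp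

namespace Sy

variable (S : Sy ρ D) {U W : Submodule F (Fin n → F)}

theorem skew (v w : Fin n → F) : S.B v w = -S.B w v := by
  have := S.alt (v + w)
  simp only [map_add, LinearMap.add_apply, S.alt] at this
  linear_combination this

/-- the orthogonal complement -/
def Pp (W : Submodule F (Fin n → F)) : Submodule F (Fin n → F) where
  carrier := {v | ∀ w ∈ W, S.B w v = 0}
  zero_mem' := fun _ _ => map_zero _
  add_mem' := fun h1 h2 w hw => by rw [map_add, h1 w hw, h2 w hw, add_zero]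
  smul_mem' := fun c v h w hw => by rw [map_smul, h w hw, smul_zero]

theorem pp_zero {v w : Fin n → F} (hv : v ∈ S.Pp W) (hw : w ∈ W) : S.B v w = 0 := by
  rw [S.skew, hv w hw, neg_zero]

theorem exists_perp {v : Fin n → F} (hv : v ∉ W) : ∃ u ∈ S.Pp W, S.B u v ≠ 0 := by
  obtain ⟨f, h1, h2⟩ := Submodule.exists_le_ker_of_notMem hv
  have h3 : ∀ v, S.B (∑ a, (f (Pi.single a.rev 1) / S.ε a) • Pi.single a 1) v = f v := fun v => by
    conv_rhs => rw [pi_eq_sum_univ' v, map_sum, ← Equiv.sum_comp Fin.revPerm]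
    rw [map_sum, LinearMap.sum_apply]
    refine sum_congr rfl fun a _ => ?_
    rw [map_smul, LinearMap.smul_apply, S.single, smul_eq_mul, ← mul_assoc,
      div_mul_cancel₀ _ (S.ne _), mul_comm, map_smul]
    rfl
  exact ⟨_, fun w hw => by rw [S.skew, h3, h2 hw, neg_zero], by rwa [h3]⟩

theorem mem_of_perp {v : Fin n → F} (h : v ∈ S.Pp (S.Pp W)) : v ∈ W := by_contra fun hv =>
  (S.exists_perp hv).elim fun u hu => hu.2 (h u hu.1)

theorem mem_pp_vr {i : ℕ} {v : Fin n → F} : v ∈ S.Pp (Vr F n i) ↔ v ∈ Vr F n (n - i) := by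
  refine ⟨fun h a ha => ?_, fun h w hw => ?_⟩
  · have := h _ (single_mem (a := a.rev) (by rw [Fin.val_rev]; have := a.2; omega))
    rw [S.single, Fin.rev_rev] at this
    exact (mul_eq_zero.1 this).resolve_left (S.ne _)
  · rw [pi_eq_sum_univ' w, map_sum, LinearMap.sum_apply]
    refine sum_eq_zero fun a _ => ?_
    rw [map_smul, LinearMap.smul_apply, S.single]
    rcases le_or_gt i a.val with ha | ha
    · rw [hw a ha, zero_smul]
    · rw [h a.rev (by rw [Fin.val_rev]; omega), mul_zero, smul_zero]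

theorem iso {i : ℕ} (hi : 2 * i ≤ n) : Vr F n i ≤ S.Pp (Vr F n i) := fun _ hv =>
  S.mem_pp_vr.2 fun a ha => hv a (by omega)

theorem act_pp {g : G} (hg : g ∈ Stb ρ W) {v : Fin n → F} (hv : v ∈ S.Pp W) : ρ g *ᵥ v ∈ S.Pp W :=
  fun w hw => by
    obtain ⟨c, hc⟩ := S.sim g
    rw [← inv_act (ρ := ρ) g⁻¹ w, inv_inv, hc, hv _ (inv_mem hg w hw), mul_zero]

/-- isometries that move vectors along a subspace -/
def Gu (U : Submodule F (Fin n → F)) : Subgroup G := D ⊓ subOf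
  { carrier := {s | (∀ v w, S.B (ρ s *ᵥ v) (ρ s *ᵥ w) = S.B v w) ∧ ∀ v, ρ s *ᵥ v - v ∈ U}
    one_mem' := ⟨fun v w => by simp, fun v => by simp⟩
    mul_mem' := fun {a b} h1 h2 => ⟨fun v w => by rw [act_mul, act_mul, h1.1, h2.1], fun v => by
      rw [act_mul, ← sub_add_sub_cancel _ (ρ b *ᵥ v)]; exact add_mem (h1.2 _) (h2.2 _)⟩ }

theorem gu_mono (h : U ≤ W) : S.Gu U ≤ S.Gu W := fun _ hs => ⟨hs.1, hs.2.1, fun v => h (hs.2.2 v)⟩

theorem gu_fx (h : U ≤ S.Pp W) : S.Gu U ≤ Fx ρ D W := fun s hs => ⟨hs.1, fun w hw => by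
  refine sub_eq_zero.1 (S.mem_of_perp (W := ⊥) fun v _ => ?_)
  have h1 := h ((inv_mem hs).2.2 v) w hw
  rw [map_sub, sub_eq_zero, S.skew, ← hs.2.1, ← act_mul, mul_inv_cancel, map_one, one_mulVec,
    S.skew w, neg_inj] at h1
  rw [map_sub, h1, sub_self]⟩

theorem move_one {a b : Fin n → F} (h : b - a ∈ U) (h1 : S.B b a ≠ 0) :
    ∃ s ∈ S.Gu U, ρ s *ᵥ a = b := by
  have h2 : ∀ v, (1 + vecMulVec (b - a) fun j => (S.B b a)⁻¹ * S.B (b - a) (Pi.single j 1)) *ᵥ v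
      = v + ((S.B b a)⁻¹ * S.B (b - a) v) • (b - a) := fun v => by
    rw [add_mulVec, one_mulVec, vecMulVec_mulVec, op_smul_eq_smul]
    congr 2
    conv_rhs => rw [pi_eq_sum_univ' v, map_sum, mul_sum]
    exact sum_congr rfl fun j _ => by rw [map_smul, smul_eq_mul]; ring
  have h3 : ∀ (u v w : Fin n → F) (c : F),
      S.B (v + (c * S.B u v) • u) (w + (c * S.B u w) • u) = S.B v w := fun u v w c => by
    simp only [map_add, map_smul, LinearMap.add_apply, LinearMap.smul_apply, smul_eq_mul, S.alt,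
      S.skew v u]
    ring
  obtain ⟨s, h4, h5⟩ := S.ex _ fun v w => by rw [h2, h2, h3]
  refine ⟨s, ⟨h4, fun v w => by rw [h5, h2, h2, h3], fun v => ?_⟩, ?_⟩
  · rw [h5, h2, add_sub_cancel_left]
    exact U.smul_mem _ h
  · rw [h5, h2, map_sub, LinearMap.sub_apply, S.alt, sub_zero, inv_mul_cancel₀ h1, one_smul,
      add_sub_cancel]

theorem move {a b : Fin n → F} (h : b - a ∈ U) (ha : a ∉ S.Pp U) (hb : b ∉ S.Pp U) :
    ∃ s ∈ S.Gu U, ρ s *ᵥ a = b := by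
  by_cases h0 : S.B b a = 0
  swap
  · exact S.move_one h h0
  obtain ⟨u, hu, h1, h2⟩ : ∃ u ∈ U, S.B u a ≠ 0 ∧ S.B u b ≠ 0 := by
    obtain ⟨u, hu, h1⟩ : ∃ u ∈ U, S.B u a ≠ 0 := by_contra fun h => ha fun u hu =>
      by_contra fun h1 => h ⟨u, hu, h1⟩
    obtain ⟨u', hu', h2⟩ : ∃ u ∈ U, S.B u b ≠ 0 := by_contra fun h => hb fun u hu =>
      by_contra fun h1 => h ⟨u, hu, h1⟩
    by_cases h3 : S.B u b = 0
    · by_cases h4 : S.B u' a = 0
      · exact ⟨u + u', add_mem hu hu', by simpa [h4], by simpa [h3]⟩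
      · exact ⟨u', hu', h4, h2⟩
    · exact ⟨u, hu, h1, h3⟩
  obtain ⟨s, k1, k2⟩ := S.move_one (a := a) (b := a + u) (by simpa using hu) (by simpa [S.alt])
  obtain ⟨s', k3, k4⟩ := S.move_one (a := a + u) (b := b) (by
    rw [← sub_sub]; exact sub_mem h hu) (by rwa [map_add, h0, zero_add, S.skew, neg_ne_zero])
  exact ⟨s' * s, mul_mem k3 k1, by rw [act_mul, k2, k4]⟩

theorem move_fix {x a b : Fin n → F} (h : b - a ∈ U) (h1 : S.B x b = S.B x a)
    (ha : a ∉ S.Pp (U ⊓ S.Pp (F ∙ x))) (hb : b ∉ S.Pp (U ⊓ S.Pp (F ∙ x))) :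
    ∃ s ∈ S.Gu U, ρ s *ᵥ x = x ∧ ρ s *ᵥ a = b := by
  obtain ⟨s, h2, h3⟩ := S.move (U := U ⊓ S.Pp (F ∙ x)) ⟨h, fun w hw => by
    obtain ⟨c, rfl⟩ := Submodule.mem_span_singleton.1 hw
    simp [h1]⟩ ha hb
  exact ⟨s, S.gu_mono inf_le_left h2,
    Fx.fix (S.gu_fx inf_le_right h2) (Submodule.mem_span_singleton_self _), h3⟩

theorem mem_line {x y : Fin n → F} (hx : x ∉ S.Pp U) (h : y ∈ S.Pp (U ⊓ S.Pp (F ∙ x))) :
    ∃ c : F, y - c • x ∈ S.Pp U := by
  obtain ⟨u0, h0, h1⟩ : ∃ u ∈ U, S.B u x ≠ 0 := by_contra fun h => hx fun u hu =>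
    by_contra fun h1 => h ⟨u, hu, h1⟩
  refine ⟨S.B u0 y / S.B u0 x, fun u hu => ?_⟩
  have h2 := h (u - (S.B u x / S.B u0 x) • u0) ⟨sub_mem hu (U.smul_mem _ h0), fun w hw => by
    obtain ⟨c, rfl⟩ := Submodule.mem_span_singleton.1 hw
    simp [S.skew x, div_mul_cancel₀ _ h1]⟩
  simp only [map_sub, map_smul, LinearMap.sub_apply, LinearMap.smul_apply, smul_eq_mul] at h2 ⊢
  linear_combination h2

theorem self_mem {x : Fin n → F} (hx : x ∈ U) : x ∈ U ⊓ S.Pp (F ∙ x) := ⟨hx, fun w hw => by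
  obtain ⟨c, rfl⟩ := Submodule.mem_span_singleton.1 hw
  simp [S.alt]⟩

theorem rel_B {a a' b b' : Fin n → F} (h1 : Rel C W a a') (h2 : Rel C W b b') (h3 : a' ∈ S.Pp W)
    (h4 : b ∈ S.Pp W) : ∃ c ∈ C, S.B a b = (c : F) * S.B a' b' := by
  obtain ⟨c, hc, h1⟩ := h1
  obtain ⟨c', hc', h2⟩ := h2
  have h5 := h4 _ h1
  have h6 := S.pp_zero h3 h2
  simp only [map_sub, map_smul, LinearMap.sub_apply, LinearMap.smul_apply, smul_eq_mul] at h5 h6
  exact ⟨c * c', mul_mem hc hc', by rw [Units.val_mul]; linear_combination h5 + c * h6⟩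

theorem count [Fintype F] {Y : Type} [Fintype Y] (hW : W ≤ S.Pp W) (u : Y → Fin n → F)
    (h1 : ∀ y, u y ∈ S.Pp W) (h2 : ∀ y, u y ∉ W) (h3 : ∀ y y', Rel ⊤ W (u y) (u y') → y = y')
    (h4 : ∀ v ∈ S.Pp W, v ∉ W → ∃ y, Rel ⊤ W v (u y)) (x : Y) : Fintype.card Y
      = Fintype.card F * (∑ y, ind (x ≠ y ∧ S.B (u x) (u y) = 0) + 1) + 1 := by
  classical
  obtain ⟨w, k1, k2⟩ : ∃ w ∈ S.Pp W, S.B (u x) w = 1 := by
    obtain ⟨w, k1, k2⟩ := S.exists_perp (h2 x)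
    exact ⟨-(S.B w (u x))⁻¹ • w, Submodule.smul_mem _ _ k1, by
      rw [map_smul, S.skew (u x), smul_eq_mul, neg_mul_neg, inv_mul_cancel₀ k2]⟩
  let vv : Option (F × {z // S.B (u x) (u z) = 0}) → Fin n → F := fun o =>
    o.elim w fun p => u p.2 + p.1 • w
  have k3 : ∀ v ∈ W, S.B (u x) v = 0 := fun v => S.pp_zero (h1 x)
  have k4 : ∀ o, ∃ y, Rel ⊤ W (vv o) (u y) := fun o => by
    cases o with
    | none => exact h4 _ k1 fun h => by simpa [k2, vv] using k3 _ h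
    | some p =>
      refine h4 _ (add_mem (h1 _) (Submodule.smul_mem _ _ k1)) fun h => h2 p.2 ?_
      have k4 := k3 _ h
      simp only [vv, Option.elim, map_add, map_smul, p.2.2, k2, zero_add, smul_eq_mul, mul_one] at k4
      simpa [vv, k4] using h
  choose pt hpt using k4
  have k5 : Function.Bijective pt := ⟨fun o o' h => by
    obtain ⟨c, -, k5⟩ := (hpt o).trans (h ▸ (hpt o').symm)
    have k6 := k3 _ k5
    obtain _ | ⟨a, z, hz⟩ := o <;> obtain _ | ⟨a', z', hz'⟩ := o' <;>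
      simp only [vv, Option.elim, map_sub, map_add, map_smul, k2, smul_eq_mul, mul_one, *,
        zero_add, sub_eq_zero, smul_add, smul_smul, mul_zero] at k5 k6 ⊢
    · rw [← k6, one_smul, sub_add_cancel_right, neg_mem_iff, W.smul_mem_iff c.ne_zero] at k5
      exact absurd k5 (h2 _)
    · rw [k6, add_sub_cancel_right] at k5
      exact absurd k5 (h2 _)
    · rw [k6, add_sub_add_right_eq_sub] at k5
      obtain rfl := h3 _ _ ⟨c, trivial, k5⟩
      have k7 : (1 - c : F) = 0 := by_contra fun k7 => h2 z ((W.smul_mem_iff k7).1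
        (by rwa [sub_smul, one_smul]))
      subst k6
      simp [← sub_eq_zero.1 k7], fun y => by
    by_cases k5 : u y - S.B (u x) (u y) • w ∈ W
    · exact ⟨none, h3 _ _ ((hpt none).symm.trans (rel_top (h2 y) (mem_sup_span.2 ⟨_, k5⟩)).symm)⟩
    obtain ⟨z, c, -, k6⟩ := h4 _ (sub_mem (h1 y) (Submodule.smul_mem _ _ k1)) k5
    have k7 := k3 _ k6
    simp only [map_sub, map_smul, k2, smul_eq_mul, mul_one, sub_self, zero_sub, neg_eq_zero,
      mul_eq_zero, c.ne_zero, false_or] at k7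
    refine ⟨some (S.B (u x) (u y) / c, ⟨z, k7⟩), h3 _ _ ((hpt _).symm.trans (Rel.symm
      ⟨c, trivial, ?_⟩))⟩
    simp only [vv, Option.elim, smul_add, smul_smul, mul_div_cancel₀ _ c.ne_zero]
    rwa [add_comm, ← sub_sub]⟩
  rw [← Fintype.card_of_bijective k5, Fintype.card_option, Fintype.card_prod, Fintype.card_subtype,
    ← sum_ind_card, ← sum_ind_eq x, ← sum_add_distrib]
  congr 2
  refine sum_congr rfl fun y _ => ?_
  by_cases e : y = x
  · simp [e, S.alt, ind_pos, ind_neg]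
  · simp [e, Ne.symm e, ind_neg]

end Sy

end Pool.Agent.Lib.MP_0becda_co.Coset
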