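import Pool.Agent.Lib.MP_0becda_co.Coset.Symp

/-!
Balanced families along the chain of isotropic flags.
-/

set_option linter.unusedSectionVars false

open Finset Matrix Pool.Agent.Lib.MP_0becda_co.PSL

namespace Pool.Agent.Lib.MP_0becda_co.Coset

variable {G : Type} [Group G] [Fintype G] {F : Type} [Field F] {n : ℕ}
  {ρ : G →* Matrix (Fin n) (Fin n) F} {D : Subgroup G} {C : Subgroup Fˣ}

theorem act_inv (g : G) (a : Fin n → F) : ρ g *ᵥ (ρ g⁻¹ *ᵥ a) = a := by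
  rw [← act_mul, mul_inv_cancel, map_one, one_mulVec]

theorem rel_of_sub {W : Submodule F (Fin n → F)} {a b : Fin n → F} (h : a - b ∈ W) : Rel C W a b :=
  ⟨1, one_mem _, by simpa using h⟩

namespace Sy

variable (S : Sy ρ D) {W : Submodule F (Fin n → F)}

theorem lift_B {a a' b b' : Fin n → F} (h1 : a - a' ∈ W) (h2 : b - b' ∈ W) (h3 : a' ∈ S.Pp W)
    (h4 : b ∈ S.Pp W) : S.B a b = S.B a' b' := by
  have h5 := h4 _ h1
  have h6 := S.pp_zero h3 h2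
  simp only [map_sub, LinearMap.sub_apply] at h5 h6
  linear_combination h5 + h6

/-- the two subspaces are in general position -/
def Gen (W : Submodule F (Fin n → F)) (d : G) : Prop :=
  ∀ v ∈ S.Pp W, ∃ u ∈ S.Pp W, ρ d *ᵥ u ∈ S.Pp W ∧ v - u ∈ W

theorem Gen.rad {S : Sy ρ D} {d : G} (h : S.Gen W d) {w : Fin n → F} (h1 : w ∈ S.Pp W)
    (h2 : ρ d *ᵥ w ∈ W) : w ∈ W := S.mem_of_perp fun v hv => by
  obtain ⟨u, -, h3, h4⟩ := h v hv
  obtain ⟨c, hc⟩ := S.sim d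
  have h5 := S.pp_zero h3 h2
  have h6 := h1 _ h4
  rw [hc, mul_eq_zero] at h5
  rwa [map_sub, LinearMap.sub_apply, h5.resolve_left c.ne_zero, sub_zero] at h6

theorem not_gen (hW : W ≤ S.Pp W) {d : G} (h : ¬ S.Gen W d⁻¹) :
    ∃ w ∈ W, ρ d *ᵥ w ∈ S.Pp W ∧ ρ d *ᵥ w ∉ W := by
  obtain ⟨v, hv, h1⟩ : ∃ v ∈ S.Pp W, v ∉ (S.Pp W ⊓ (S.Pp W).comap (ρ d⁻¹).mulVecLin) ⊔ W := by
    by_contra h1
    refine h fun v hv => ?_
    obtain ⟨u, hu, a, ha, h2⟩ := Submodule.mem_sup.1 (by_contra fun h2 => h1 ⟨v, hv, h2⟩)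
    exact ⟨u, hu.1, hu.2, by rwa [← h2, add_sub_cancel_left]⟩
  obtain ⟨u, h2, h3⟩ := S.exists_perp h1
  obtain ⟨a, ha, _, ⟨w, hw, rfl⟩, rfl⟩ := Submodule.mem_sup.1
    (show u ∈ W ⊔ W.map (ρ d).mulVecLin from by_contra fun h4 => by
      obtain ⟨u', h5, h6⟩ := S.exists_perp h4
      refine h6 (h2 u' (Submodule.mem_sup_left ⟨fun w hw => h5 w (Submodule.mem_sup_left hw),
        fun w hw => ?_⟩))
      obtain ⟨c, hc⟩ := S.sim d
      have h7 := h5 _ (Submodule.mem_sup_right ⟨w, hw, rfl⟩)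
      rw [← act_inv (ρ := ρ) d u', mulVecLin_apply, hc] at h7
      exact (mul_eq_zero.1 h7).resolve_left c.ne_zero)
  refine ⟨w, hw, (Submodule.add_mem_iff_right _ (hW ha)).1
    (fun w hw => h2 w (Submodule.mem_sup_right hw)), fun h4 => h3 (hv _ (add_mem ha h4))⟩

variable {X : Type} [Fintype X] {i : Fin n} (hi : 2 * i.val + 2 ≤ n)
  (T : TV (Kr ρ D C (i + 1)) (Kr ρ D C i) X)

include hi

theorem vec_pp (x : X) : vec T x ∈ S.Pp (Vr F n i) :=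
  S.act_pp (kr_le_stb le_rfl (T.mem x)) (S.mem_pp_vr.2 (single_mem (by omega)))

theorem surj {v : Fin n → F} (h1 : v ∈ S.Pp (Vr F n i)) (h2 : v ∉ Vr F n i) :
    ∃ x, Rel C (Vr F n i) v (vec T x) := by
  obtain ⟨s, h3, h4⟩ := S.move (U := S.Pp (Vr F n i)) (a := Pi.single i 1)
    (sub_mem h1 (S.mem_pp_vr.2 (single_mem (by omega)))) (mt S.mem_of_perp (single_notMem i))
    (mt S.mem_of_perp h2)
  have h5 : s ∈ Kr ρ D C i := mem_kr_of_fix (S.gu_fx le_rfl h3)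
  obtain ⟨x, hx⟩ := T.ex s h5
  exact ⟨x, h4 ▸ (mem_kr_succ (T.mem x) h5).1 hx⟩

/-- functions of pairs that only depend on the relative position -/
def Str (f : X → X → ℕ) : Prop :=
  (∀ (a : F) x y x' y', Rel C (Vr F n i) (a • vec T x) (vec T y) →
    Rel C (Vr F n i) (a • vec T x') (vec T y') → f x' y' = f x y) ∧
  (∀ x y x' y', ¬ Rel ⊤ (Vr F n i) (vec T y) (vec T x) → S.B (vec T x) (vec T y) = 0 →
    ¬ Rel ⊤ (Vr F n i) (vec T y') (vec T x') → S.B (vec T x') (vec T y') = 0 → f x' y' = f x y) ∧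
  ∀ x y x' y', S.B (vec T x) (vec T y) ≠ 0 →
    (∃ c ∈ C, S.B (vec T x) (vec T y) = (c : F) * S.B (vec T x') (vec T y')) → f x' y' = f x y

theorem str_of_inv {U : Submodule F (Fin n → F)} (hU : U ≤ S.Pp (Vr F n i))
    (h1 : ∀ v ∈ S.Pp (Vr F n i), ∃ u ∈ U, v - u ∈ Vr F n i) {f : X → X → ℕ}
    (hf : ∀ s ∈ S.Gu U, ∀ x x' y y', Rel C (Vr F n i) (ρ s *ᵥ vec T x) (vec T x') →
      Rel C (Vr F n i) (ρ s *ᵥ vec T y) (vec T y') → f x' y' = f x y) : S.Str T f := by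
  choose l l1 l2 using fun x => h1 _ (S.vec_pp hi T x)
  have r : ∀ x, Rel C (Vr F n i) (vec T x) (l x) := fun x => rel_of_sub (l2 x)
  have rad : ∀ u ∈ U, u ∈ S.Pp U → u ∈ Vr F n i := fun u hu h => S.mem_of_perp fun v hv => by
    obtain ⟨u', h2, h3⟩ := h1 v hv
    have := hU hu _ h3
    rwa [map_sub, LinearMap.sub_apply, h u' h2, sub_zero] at this
  have l3 : ∀ x, l x ∉ S.Pp U := fun x h => (r x).notMem (vec_notMem T x) (rad _ (l1 x) h)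
  have st : ∀ s ∈ S.Gu U, s ∈ Stb ρ (Vr F n i) := fun s hs => Fx.stb (S.gu_fx hU hs)
  have mv : ∀ x x', ∃ s ∈ S.Gu U, ρ s *ᵥ l x = l x' := fun x x' =>
    S.move (sub_mem (l1 x') (l1 x)) (l3 x) (l3 x')
  have tr : ∀ s ∈ S.Gu U, ∀ x x' y y', ρ s *ᵥ l x = l x' → Rel C (Vr F n i) (ρ s *ᵥ l y) (l y') →
      f x' y' = f x y := fun s hs x x' y y' k1 k2 => hf s hs _ _ _ _
    (((r x).act (st s hs)).trans (k1 ▸ (r x').symm)) ((((r y).act (st s hs)).trans k2).trans (r y').symm)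
  have lB : ∀ x y, S.B (vec T x) (vec T y) = S.B (l x) (l y) := fun x y =>
    S.lift_B (l2 x) (l2 y) (hU (l1 x)) (S.vec_pp hi T y)
  have two : ∀ x y x' y', ∀ c ∈ C, S.B (l x) (l y) = (c : F) * S.B (l x') (l y') →
      l y ∉ S.Pp (U ⊓ S.Pp (F ∙ l x)) → l y' ∉ S.Pp (U ⊓ S.Pp (F ∙ l x')) → f x' y' = f x y :=
    fun x y x' y' c hc k1 k2 k3 => by
      obtain ⟨s, k4, k5⟩ := mv x x'
      have k6 : ρ s *ᵥ l y ∈ U := by simpa using add_mem (k4.2.2 (l y)) (l1 y)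
      obtain ⟨s', k7, k8, k9⟩ := S.move_fix (U := U) (x := l x') (a := ρ s *ᵥ l y)
        (b := (c : F) • l y') (sub_mem (U.smul_mem _ (l1 y')) k6)
        (by rw [map_smul, smul_eq_mul, ← k1, ← k5, k4.2.1]) (fun h => k2 fun u hu => by
          rw [← k4.2.1]
          refine h _ ⟨by simpa using add_mem (k4.2.2 u) hu.1, fun w hw => ?_⟩
          obtain ⟨a, rfl⟩ := Submodule.mem_span_singleton.1 hw
          rw [← k5, ← mulVec_smul, k4.2.1]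
          exact hu.2 _ (Submodule.mem_span_singleton.2 ⟨a, rfl⟩))
        (mt (Submodule.smul_mem_iff _ c.ne_zero).1 k3)
      exact tr (s' * s) (mul_mem k7 k4) _ _ _ _ (by rw [act_mul, k5, k8])
        ⟨c, hc, by rw [act_mul, k9, sub_self]; exact zero_mem _⟩
  have o1 : ∀ x y, ¬ Rel ⊤ (Vr F n i) (vec T y) (vec T x) → l y ∉ S.Pp (U ⊓ S.Pp (F ∙ l x)) :=
    fun x y h h' => by
      obtain ⟨c, hc⟩ := S.mem_line (l3 x) h'
      exact h (((r y).top.trans (rel_top ((r y).notMem (vec_notMem T y)) (mem_sup_span.2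
        ⟨c, rad _ (sub_mem (l1 y) (U.smul_mem _ (l1 x))) hc⟩))).trans (r x).top.symm)
  have o2 : ∀ x y, S.B (l x) (l y) ≠ 0 → l y ∉ S.Pp (U ⊓ S.Pp (F ∙ l x)) :=
    fun x y h h' => h (h' _ (S.self_mem (l1 x)))
  refine ⟨fun a x y x' y' k1 k2 => ?_, fun x y x' y' k1 k2 k3 k4 => two x y x' y' 1 (one_mem _)
    (by rw [← lB, ← lB, k2, k4, mul_zero]) (o1 x y k1) (o1 x' y' k3),
    fun x y x' y' k1 ⟨c, hc, k2⟩ => two x y x' y' c hc (by rwa [← lB, ← lB]) (o2 x y (lB x y ▸ k1))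
      (o2 x' y' (lB x' y' ▸ right_ne_zero_of_mul (k2 ▸ k1)))⟩
  obtain ⟨s, k3, k4⟩ := mv x x'
  refine tr s k3 _ _ _ _ k4 ((((r y).symm.trans (k1.symm.trans ((r x).smul a))).act (st s k3)).trans ?_)
  rw [mulVec_smul, k4]
  exact ((r x').smul a).symm.trans (k2.trans (r y'))

theorem str_kk {H K : Subgroup G} (T' : TV H K X) (hT : T'.t = T.t) (hH : Kr ρ D C (i + 1) ≤ H)
    (g : G) : S.Str T fun x y => kk H ((T'.t x)⁻¹ * T'.t y) g :=
  S.str_of_inv hi T le_rfl (fun v hv => ⟨v, hv, by simp⟩) fun s hs =>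
    inv_kk T T' hT hH g s (S.gu_fx le_rfl hs)

theorem bal_gen [hD : D.Normal] (σ : Equiv.Perm X)
    (hσ : ∀ f, S.Str T f → Fintype.card X * ∑ x, f x (σ x) = ∑ x, ∑ y, f x y)
    {H K : Subgroup G} (T' : TV H K X) (hT : T'.t = T.t) (hH : Kr ρ D C (i + 1) ≤ H) {d : G}
    (h1 : S.Gen (Vr F n i) d) (h2 : S.Gen (Vr F n i) d⁻¹) (N : ℕ) : T'.Bal ⊤ d N := by
  choose r r1 r2 r3 using fun y => h1 _ (S.vec_pp hi T y)
  have r4 : ∀ y, Rel C (Vr F n i) (vec T y) (r y) := fun y => rel_of_sub (r3 y)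
  choose δ hδ using fun y => S.surj hi T (r2 y) fun h =>
    (r4 y).notMem (vec_notMem T y) (h1.rad (r1 y) h)
  have back : ∀ a b, a ∈ S.Pp (Vr F n i) → b ∈ S.Pp (Vr F n i) →
      Rel C (Vr F n i) (ρ d *ᵥ a) (ρ d *ᵥ b) → Rel C (Vr F n i) a b := fun a b ha hb ⟨c, hc, h⟩ =>
    ⟨c, hc, h1.rad (sub_mem ha (Submodule.smul_mem _ _ hb)) (by rwa [mulVec_sub, mulVec_smul])⟩
  have h3 : Function.Injective δ := fun y y' h => vec_inj T (((r4 y).trans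
    (back _ _ (r1 y) (r1 y') ((hδ y).trans (h ▸ (hδ y').symm)))).trans (r4 y').symm)
  let e := Equiv.ofBijective δ h3.bijective_of_finite
  have h4 : ∀ y, Rel C (Vr F n i) (ρ d *ᵥ r (e.symm y)) (vec T y) := fun y => by
    have := hδ (e.symm y)
    rwa [show δ (e.symm y) = y from e.apply_symm_apply y] at this
  refine T'.bal_one (θ := σ.trans e.symm) (Subgroup.mem_top _) (fun g => ?_) N
  refine (hσ (fun x y => kk H ((T'.t x)⁻¹ * d * T'.t (e.symm y)) g) (S.str_of_inv hi T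
    (U := S.Pp (Vr F n i) ⊓ (S.Pp (Vr F n i)).comap (ρ d⁻¹).mulVecLin) inf_le_left
    (fun v hv => (h2 v hv).elim fun u hu => ⟨u, ⟨hu.1, hu.2.1⟩, hu.2.2⟩)
    fun s hs x x' y y' k1 k2 => ?_)).trans (sum_congr rfl fun x _ => e.symm.bijective.sum_comp
      fun y => kk H ((T'.t x)⁻¹ * d * T'.t y) g)
  have k3 := S.gu_fx inf_le_left hs
  have k4 : d⁻¹ * s * d ∈ Fx ρ D (Vr F n i) := ⟨hD.conj_mem' s hs.1 d, fun v hv => by
    rw [act_mul, act_mul, Fx.fix (S.gu_fx (W := F ∙ (ρ d *ᵥ v)) (fun u hu w hw => ?_) hs)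
      (Submodule.mem_span_singleton_self _), inv_act]
    obtain ⟨a, rfl⟩ := Submodule.mem_span_singleton.1 hw
    obtain ⟨c, hc⟩ := S.sim d
    rw [map_smul, LinearMap.smul_apply, ← act_inv (ρ := ρ) d u, hc,
      show S.B v (ρ d⁻¹ *ᵥ u) = 0 from hu.2 v hv, mul_zero, smul_zero]⟩
  refine T'.kk_move (hT ▸ hH ((vec_iff T (mem_kr_of_fix k3) _ _).2 k1))
    (hT ▸ hH ((vec_iff T (mem_kr_of_fix k4) _ _).2 ((((r4 _).act (Fx.stb k4)).trans
      (back _ _ (S.act_pp (Fx.stb k4) (r1 _)) (r1 _) ?_)).trans (r4 _).symm))) g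
  rw [← act_mul, ← mul_assoc, mul_inv_cancel_left, act_mul]
  exact (((h4 y).act (Fx.stb k3)).trans k2).trans (h4 y').symm

theorem fix_class {d : G} (h : ¬ S.Gen (Vr F n i) d⁻¹) :
    ∃ x, ∀ s ∈ St (Kr ρ D C i) d, (T.t x)⁻¹ * s * T.t x ∈ Kr ρ D C (i + 1) := by
  obtain ⟨w, -, h1, h2, h3⟩ := exists_step (ρ := ρ) (D := D) (C := C)
    (Y := (S.Pp (Vr F n i)).comap (ρ d).mulVecLin) (Y' := (Vr F n i).comap (ρ d).mulVecLin)
    (S.not_gen (S.iso (by omega)) h)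
  obtain ⟨x, hx⟩ := S.surj hi T h1 h2
  refine ⟨x, fun s hs => ?_⟩
  have h4 := kr_le_stb le_rfl (mem_St.1 hs).1
  have h5 : ρ d *ᵥ (ρ (d⁻¹ * s * d) *ᵥ w) = ρ s *ᵥ (ρ d *ᵥ w) := by
    rw [act_mul, act_mul, act_inv]
  obtain ⟨c, hc, h6⟩ := h3 _ (mem_St.1 hs).2 (by
    rw [Submodule.mem_comap, mulVecLin_apply, h5]; exact S.act_pp h4 h1)
  rw [Submodule.mem_comap, mulVecLin_apply, mulVec_sub, mulVec_smul, h5] at h6
  exact (vec_iff T (mem_St.1 hs).1 x x).2 (((hx.symm.act h4).trans ⟨c, hc, h6⟩).trans hx)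

include T in
theorem exists_conj {d : G} (h : ¬ (S.Gen (Vr F n i) d ∧ S.Gen (Vr F n i) d⁻¹)) :
    ∃ w, ∀ s ∈ St (Kr ρ D C i) d, w⁻¹ * s * w ∈ Kr ρ D C (i + 1) := by
  by_cases h1 : S.Gen (Vr F n i) d⁻¹
  · obtain ⟨x, hx⟩ := S.fix_class hi T (d := d⁻¹) fun h2 => h ⟨by simpa using h2, h1⟩
    refine ⟨d * T.t x, fun s hs => ?_⟩
    simpa [mul_assoc] using hx (d⁻¹ * s * d) (mem_St.2 ⟨(mem_St.1 hs).2, by
      simpa [mul_assoc] using (mem_St.1 hs).1⟩)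
  · exact (S.fix_class hi T h1).elim fun x hx => ⟨_, hx⟩

end Sy

theorem Sy.ct_even [D.Normal] [Fintype F] (S : Sy ρ D) (hF : 4 ≤ Fintype.card F)
    (he : Even (Fintype.card F)) (i : Fin n) (hi : 2 * i.val + 2 ≤ n) (h : CT (Kr ρ D ⊤ i)) :
    CT (Kr ρ D ⊤ (i + 1)) := by
  classical
  let _ := Fintype.ofFinite (Kr ρ D ⊤ i ⧸ (Kr ρ D ⊤ (i + 1)).subgroupOf (Kr ρ D ⊤ i))
  let T := tvq (kr_succ_le (ρ := ρ) (D := D) (C := ⊤) i)
  have h1 := S.count (S.iso (by omega)) (vec T) (S.vec_pp hi T) (vec_notMem T)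
    (fun _ _ => vec_inj T) fun v => S.surj hi T
  obtain ⟨x0⟩ := Fintype.card_pos_iff.1 T.card_pos
  obtain ⟨k, hk⟩ : ∃ k, ∀ x, ∑ y, ind (x ≠ y ∧ S.B (vec T x) (vec T y) = 0) = k := ⟨_, fun x =>
    Nat.succ_injective (Nat.eq_of_mul_eq_mul_left (by omega)
      (Nat.succ_injective ((h1 x).symm.trans (h1 x0))))⟩
  have h2 := h1 x0
  rw [hk] at h2
  have h3 := Nat.mul_le_mul_right (k + 1) hF
  have hs : ∀ x y, (x ≠ y ∧ S.B (vec T x) (vec T y) = 0) → y ≠ x ∧ S.B (vec T y) (vec T x) = 0 :=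
    fun x y h => ⟨h.1.symm, by rw [S.skew, h.2, neg_zero]⟩
  have ho := h2 ▸ (he.mul_right (k + 1)).add_one
  have key : ∀ f, S.Str T f → ∃ f0 f1 f2, (∀ x, f x x = f0) ∧
      (∀ x y, (x ≠ y ∧ S.B (vec T x) (vec T y) = 0) → f x y = f1) ∧
      ∀ x y, x ≠ y → ¬ (x ≠ y ∧ S.B (vec T x) (vec T y) = 0) → f x y = f2 := fun f hf => by
    have k1 : ∀ p : _ × _ → Prop, (∀ a b, p a → p b → f a.1 a.2 = f b.1 b.2) →
        ∃ c, ∀ x y, p (x, y) → f x y = c := fun p hp => by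
      by_cases h : ∃ a, p a
      · exact h.elim fun a ha => ⟨_, fun x y h => hp _ a h ha⟩
      · exact ⟨0, fun x y h' => absurd ⟨_, h'⟩ h⟩
    obtain ⟨f1, k2⟩ := k1 (fun a => a.1 ≠ a.2 ∧ S.B (vec T a.1) (vec T a.2) = 0) fun a b ha hb =>
      hf.2.1 _ _ _ _ (fun h => hb.1 (vec_inj T h).symm) hb.2 (fun h => ha.1 (vec_inj T h).symm) ha.2
    obtain ⟨f2, k3⟩ := k1 (fun a => S.B (vec T a.1) (vec T a.2) ≠ 0) fun a b ha hb =>
      hf.2.2 _ _ _ _ hb ⟨Units.mk0 _ (div_ne_zero hb ha), trivial, (div_mul_cancel₀ _ ha).symm⟩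
    exact ⟨f x0 x0, f1, f2, fun x => hf.1 1 _ _ _ _ (by simpa using Rel.refl _)
      (by simpa using Rel.refl _), k2, fun x y h h' => k3 x y fun h'' => h' ⟨h, h''⟩⟩
  obtain ⟨σ, hσ⟩ := sigma_rank hs (fun _ h => h.1 rfl) hk ho (by omega)
  choose f0 f1 f2 k0 k1 k2 using fun g => key _ (S.str_kk hi T T rfl le_rfl g)
  refine T.step (fun _ hh => (T.exists_act hh).imp fun _ h => ⟨Subgroup.mem_top _, h⟩)
    (fun d _ N hN => ?_) (fun Φ _ => T.join_rank hs (fun _ h => h.1 rfl) hk ho (by omega) f1 f2 k1 k2 Φ) h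
  by_cases hd : S.Gen (Vr F n i) d ∧ S.Gen (Vr F n i) d⁻¹
  · refine S.bal_gen hi T σ (fun f hf => ?_) T rfl le_rfl hd.1 hd.2 N
    obtain ⟨g0, g1, g2, e0, e1, e2⟩ := key f hf
    exact hσ f g0 g1 g2 e0 e1 e2
  · obtain ⟨w, hw⟩ := S.exists_conj hi T hd
    exact T.bal_fix w hw hN

end Pool.Agent.Lib.MP_0becda_co.Coset
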