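import Pool.Agent.Lib.MP_0becda_co.Coset.Symp2

/-!
Symplectic groups in characteristic two.
-/

set_option linter.unusedSectionVars false

open Finset Matrix Pool.Agent.Lib.MP_0becda_co.PSL

namespace Pool.Agent.Lib.MP_0becda_co.Coset

variable {G : Type} [Group G] [Fintype G] {F : Type} [Field F] {n : ℕ}
  {ρ : G →* Matrix (Fin n) (Fin n) F} {D : Subgroup G} {C : Subgroup Fˣ}

theorem Sy.B_eq (S : Sy ρ D) (v w : Fin n → F) : S.B v w = ∑ a, v a * (S.ε a * w a.rev) := by
  conv_lhs => rw [pi_eq_sum_univ' v, map_sum, LinearMap.sum_apply]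
  exact sum_congr rfl fun a _ => by rw [map_smul, LinearMap.smul_apply, S.single, smul_eq_mul]

theorem Sy.tri (S : Sy ρ D) {m : ℕ} (hn : n = 2 * m) {g : G} (hg : g ∈ Kr ρ D C m) : g ∈ Pm ρ 0 :=
  fun a b h => by
    have h1 : b < a := h.resolve_right fun h => by omega
    by_cases h2 : b.val < m
    · exact (hg.2 b h2).2 a h1
    have h3 := b.2
    have h4 := S.mem_pp_vr.1 (S.act_pp (kr_le_stb (s := n - (b + 1)) (by omega) hg)
      (S.mem_pp_vr.2 (single_mem (a := b) (by omega)))) a (by have : b.val < a.val := h1; omega)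
    rwa [mulVec_single_one, col_apply] at h4

theorem Sy.diag (S : Sy ρ D) {i : Fin n} (hi : i ≠ i.rev) {u : F} (hu : u ≠ 0) :
    ∃ g ∈ D, ρ g = diagonal (Function.update (Function.update 1 i u) i.rev u⁻¹) :=
  S.ex _ fun v w => by
    rw [S.B_eq, S.B_eq]
    refine sum_congr rfl fun a _ => ?_
    rw [mulVec_diagonal, mulVec_diagonal]
    by_cases h1 : a = i
    · subst h1
      simp [hi]
      field_simp
    by_cases h2 : a = i.rev
    · subst h2
      simp [hi]
      field_simp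
    simp [h1, h2, Fin.rev_eq_iff]

theorem Sy.root (S : Sy ρ D) {i j : Fin n} (hij : i < j) :
    (∀ g ∈ Pm ρ (j.val * n + i.val), ρ g i j = 0) ∨
      ((∀ c, ∃ g ∈ Pm ρ (j.val * n + i.val), ρ g i j = c ∧ ∀ a, ρ g a a = 1) ∧
        ∀ s : F, s ≠ 0 → ∃ g ∈ Pm ρ (j.val * n + i.val), ρ g i j = 0 ∧ ρ g i i = s * s * ρ g j j) := by
  rcases lt_or_ge i.rev j with h | h
  · refine Or.inl fun g hg => ?_
    obtain ⟨c, hc⟩ := S.sim g
    have h1 : ρ g *ᵥ Pi.single i.rev 1 = ρ g i.rev i.rev • Pi.single i.rev 1 := funext fun a => by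
      rw [mulVec_single_one, col_apply]
      rcases lt_trichotomy a i.rev with h1 | rfl | h1
      · have := Nat.mul_le_mul_right n (Nat.succ_le_of_lt (show i.rev.val < j.val from h))
        rw [hg a _ (Or.inr ⟨h1, by rw [Nat.succ_mul] at this; have := a.2; omega⟩)]
        simp [h1.ne]
      · simp
      · rw [hg a _ (Or.inl h1)]; simp [h1.ne']
    have h2 := hc (Pi.single i.rev 1) (Pi.single j 1)
    rw [h1, map_smul, LinearMap.smul_apply, S.single, S.single, Fin.rev_rev, mulVec_single_one,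
      col_apply, Pi.single_eq_of_ne hij.ne] at h2
    simpa [pm_ne hg, S.ne] using h2
  have h0 : i ≠ i.rev := (hij.trans_le h).ne
  refine Or.inr ⟨fun c => ?_, fun s hs => ?_⟩
  · obtain ⟨β, hβ, h1⟩ : ∃ β : F, (j = i.rev → β = 0) ∧ ∀ v w : Fin n → F,
        S.B (v + (c * v j) • Pi.single i 1 + (β * v i.rev) • Pi.single j.rev 1)
          (w + (c * w j) • Pi.single i 1 + (β * w i.rev) • Pi.single j.rev 1) = S.B v w := by
      by_cases h1 : j = i.rev
      · refine ⟨0, fun _ => rfl, fun v w => ?_⟩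
        simp only [zero_mul, zero_smul, add_zero, map_add, map_smul, LinearMap.add_apply,
          LinearMap.smul_apply, smul_eq_mul, S.alt, S.skew v (Pi.single i 1), S.single, h1]
        ring
      · refine ⟨c * S.ε i / S.ε j.rev, fun h => absurd h h1, fun v w => ?_⟩
        simp only [map_add, map_smul, LinearMap.add_apply, LinearMap.smul_apply, smul_eq_mul, S.alt,
          S.skew v (Pi.single _ 1), S.single, Fin.rev_rev, Pi.single_eq_of_ne hij.ne',
          Pi.single_eq_of_ne (Fin.rev_injective.ne hij.ne)]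
        field_simp [S.ne]
        ring
    have h2 : ∀ v : Fin n → F, (1 + Matrix.single i j c + Matrix.single j.rev i.rev β) *ᵥ v
        = v + (c * v j) • Pi.single i 1 + (β * v i.rev) • Pi.single j.rev 1 := fun v => by
      rw [add_mulVec, add_mulVec, one_mulVec, single_mulVec, single_mulVec]
      congr 2 <;> ext a <;> simp [Pi.single_apply, Function.update_apply]
    obtain ⟨g, -, hg⟩ := S.ex _ fun v w => by rw [h2, h2, h1]
    have h3 : j.rev < i.rev := Fin.rev_lt_rev.2 hij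
    refine ⟨g, fun a b h4 => ?_, ?_, fun a => ?_⟩
    · have h5 : a ≠ b := h4.elim (fun h => h.ne') fun h => h.1.ne
      rw [hg, Matrix.add_apply, Matrix.add_apply, one_apply_ne h5, zero_add, single_apply_of_ne,
        single_apply_of_ne, add_zero]
      · rintro ⟨rfl, rfl⟩
        refine h4.elim (fun h => lt_asymm h h3) fun h4 => ?_
        rcases h.eq_or_lt with h | h
        · subst h
          simp at h4
        · have := Nat.mul_le_mul_right n (Nat.succ_le_of_lt (show j.val < i.rev.val from h))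
          rw [Nat.succ_mul] at this
          have := i.2
          omega
      · rintro ⟨rfl, rfl⟩
        exact h4.elim (fun h => lt_asymm h hij) fun h => lt_irrefl _ h.2
    · rw [hg, Matrix.add_apply, Matrix.add_apply, one_apply_ne hij.ne, zero_add, single_apply_same]
      by_cases h4 : j = i.rev
      · simp [hβ h4]
      · rw [single_apply_of_ne _ _ _ _ _ fun h => h4 h.2.symm, add_zero]
    · rw [hg, Matrix.add_apply, Matrix.add_apply, one_apply_eq, single_apply_of_ne, single_apply_of_ne,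
        add_zero, add_zero]
      · exact fun h => h3.ne (h.1.trans h.2.symm)
      · exact fun h => hij.ne (h.1.trans h.2.symm)
  · obtain ⟨g, -, hg⟩ := S.diag h0 (u := if j = i.rev then s else s * s) (by
      split_ifs
      exacts [hs, mul_ne_zero hs hs])
    refine ⟨g, fun a b h => by rw [hg, diagonal_apply_ne _ (h.elim (fun h => h.ne') fun h => h.1.ne)],
      by rw [hg, diagonal_apply_ne _ hij.ne], ?_⟩
    by_cases h1 : j = i.rev
    · simp [hg, h1, h0, hs]
    · simp [hg, h1, h0, hij.ne']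

variable [Fintype F] [CharP F 2]

theorem ct_root' (hF : 4 ≤ Fintype.card F) (m : ℕ)
    (hex : ∀ i j : Fin n, i < j → j.val * n + i.val = m → (∀ g ∈ Pm ρ m, ρ g i j = 0) ∨
      ((∀ c, ∃ g ∈ Pm ρ m, ρ g i j = c ∧ ∀ a, ρ g a a = 1) ∧
        ∀ s : F, s ≠ 0 → ∃ g ∈ Pm ρ m, ρ g i j = 0 ∧ ρ g i i = s * s * ρ g j j))
    (h : CT (Pm ρ m)) : CT (Pm ρ (m + 1)) := by
  classical
  by_cases hm : ∃ i j : Fin n, i < j ∧ j.val * n + i.val = m
  swap
  · rwa [le_antisymm (pm_succ_le m) fun g hg a b h1 => hg a b (h1.imp_right fun h2 =>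
      ⟨h2.1, lt_of_le_of_ne (Nat.lt_succ_iff.1 h2.2) fun h3 => hm ⟨a, b, h2.1, h3⟩⟩)]
  obtain ⟨i, j, hij, rfl⟩ := hm
  have h1 : ∀ g ∈ Pm ρ (j.val * n + i.val), g ∈ Pm ρ (j.val * n + i.val + 1) ↔ ρ g i j = 0 :=
    fun g hg => ⟨fun h => h i j (Or.inr ⟨hij, by omega⟩), fun h a b h2 => by
      by_cases h3 : b.val * n + a.val = j.val * n + i.val
      · rw [(key_inj h3).1, (key_inj h3).2, h]
      · exact hg a b (h2.imp_right fun h4 => ⟨h4.1, by omega⟩)⟩
  have h2 : ∀ u ∈ Pm ρ (j.val * n + i.val), ∀ v ∈ Pm ρ (j.val * n + i.val),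
      u⁻¹ * v ∈ Pm ρ (j.val * n + i.val + 1) ↔ ρ v i j * ρ u j j = ρ u i j * ρ v j j :=
    fun u hu v hv => by
      have h3 := mul_mem (inv_mem hu) hv
      have h4 := Up.mul_entry hu h3 hij le_rfl
      have h5 := Up.mul_diag hu h3 j
      rw [← map_mul, mul_inv_cancel_left] at h4 h5
      rw [h1 _ h3, h4, h5, add_mul, mul_right_comm (ρ u i j), mul_assoc (ρ u i j), add_eq_right]
      simp [pm_ne hu]
  obtain h0 | ⟨h0, hdi⟩ := hex i j hij rfl
  · rwa [le_antisymm (pm_succ_le _) fun g hg => (h1 g hg).2 (h0 g hg)]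
  choose t h3 h4 h5 using h0
  let T : TV (Pm ρ (j.val * n + i.val + 1)) (Pm ρ (j.val * n + i.val)) F :=
    { t := t
      le := pm_succ_le _
      mem := h3
      ex := fun g hg => ⟨ρ g i j / ρ g j j, (h2 _ (h3 _) g hg).2 (by
        rw [h4, h5, mul_one, div_mul_cancel₀ _ (pm_ne hg j)])⟩
      uniq := fun x y h => by simpa [h4, h5, eq_comm] using (h2 _ (h3 x) _ (h3 y)).1 h }
  have h6 : ∀ k ∈ Pm ρ (j.val * n + i.val), ∀ x y, ρ k i i * x + ρ k i j = y * ρ k j j →
      (T.t y)⁻¹ * k * T.t x ∈ Pm ρ (j.val * n + i.val + 1) := fun k hk x y h => by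
    rw [mul_assoc, h2 _ (h3 y) _ (mul_mem hk (h3 x)), map_mul, Up.mul_entry hk (h3 x) hij le_rfl,
      Up.mul_diag hk (h3 x), h4, h4, h5, h5, mul_one, mul_one, mul_one, h]
  let _ : Algebra (ZMod 2) F := ZMod.algebra F 2
  have h7 : 2 ≤ Module.finrank (ZMod 2) F := by
    by_contra h
    have h8 := Nat.pow_le_pow_right two_pos (Nat.lt_succ_iff.1 (not_le.1 h))
    rw [Module.card_eq_pow_finrank (K := ZMod 2), ZMod.card] at hF
    omega
  refine T.step_free (fun x y x' y' h8 h9 g => ?_) (fun d _ N hN => T.bal_affine 2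
    (fun _ _ => Subgroup.mem_top _) (exists_diff h7) coprime_dg (dg ρ _) (fun k hk => ?_) hN) h
  · obtain ⟨s, hs⟩ := isSquare_of_charTwo' ((y' - x') / (y - x))
    have h10 : s ≠ 0 := by
      rintro rfl
      exact div_ne_zero (sub_ne_zero.2 h9.symm) (sub_ne_zero.2 h8.symm) (hs.trans (mul_zero _))
    obtain ⟨D, h11, hD, hD'⟩ := hdi s h10
    have h12 : ∀ z z', z' = s * s * z + (x' - s * s * x) →
        (T.t z')⁻¹ * (t (x' - s * s * x) * D) * T.t z ∈ Pm ρ (j.val * n + i.val + 1) :=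
      fun z z' h => h6 _ (mul_mem (h3 _) h11) _ _ (by
        rw [map_mul, Up.mul_entry (h3 _) h11 hij le_rfl, Up.mul_diag (h3 _) h11,
          Up.mul_diag (h3 _) h11, h4, h5, h5, hD, hD', h]
        ring)
    have h13 := T.kk_move (d := 1) (h12 x x' (by ring)) (by
      simpa using h12 y y' (by
        rw [← hs]; field_simp [sub_ne_zero.2 h8.symm]; ring)) g
    simpa using h13.symm
  · have h8 : ∀ a, ρ k a a = 1 := fun a => congrArg Units.val (congrFun hk a)
    exact ⟨ρ k i j, k.2, fun x => h6 _ k.2 _ _ (by simp [h8])⟩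

theorem ct_diag (hρ : Function.Injective ρ) (h2 : CT (Pm ρ (n * n))) (Z : Subgroup G)
    (hZ : ∀ z ∈ Z, ∀ a b, a ≠ b → ρ z a b = 0) : CT Z := by
  have h3 : ∀ g ∈ Pm ρ (n * n), ρ g = diagonal fun a => ρ g a a := fun g hg => by
    ext a b
    rcases lt_trichotomy a b with h | rfl | h
    · have := Nat.mul_le_mul_right n (Nat.succ_le_of_lt b.2)
      rw [diagonal_apply_ne _ h.ne, hg a b (Or.inr ⟨h, by
        rw [Nat.succ_mul] at this; have := a.2; omega⟩)]
    · simp
    · rw [diagonal_apply_ne _ h.ne', hg a b (Or.inl h)]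
  have h4 : Function.Injective (dg ρ (n * n)) := (injective_iff_map_eq_one _).2 fun k hk =>
    Subtype.ext (hρ (by
      have h5 : ∀ a, ρ k a a = 1 := fun a => congrArg Units.val (congrFun hk a)
      rw [h3 k k.2]
      simp [h5]))
  refine ct_odd _ (Pm ρ (n * n)) rfl (Nat.coprime_two_right.1 (Nat.Coprime.coprime_dvd_left
    ((Subgroup.relIndex_dvd_card _ _).trans (Subgroup.card_dvd_of_injective _ h4)) coprime_dg)) (fun z hz a b h => hZ z hz a b
      (h.elim (fun h => h.ne') fun h => h.1.ne)) (fun L k1 k2 => ?_) h2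
  rwa [Subgroup.commutator_eq_bot_iff_le_centralizer.2 fun x hx y hy => hρ (by
    rw [map_mul, map_mul, h3 x (k2 hx), h3 y (k2 hy), diagonal_mul_diagonal, diagonal_mul_diagonal]
    simp [mul_comm]), sup_bot_eq]

theorem Sy.ct_two (S : Sy ρ ⊤) (hF : 4 ≤ Fintype.card F) (hρ : Function.Injective ρ) {m : ℕ}
    (hn : n = 2 * m) (Z : Subgroup G) (hZ : ∀ z ∈ Z, ∀ a b, a ≠ b → ρ z a b = 0) : CT Z := by
  have he : Even (Fintype.card F) := by
    obtain ⟨k, -, hk⟩ := FiniteField.card F 2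
    exact hk ▸ Nat.even_pow.2 ⟨even_two, k.ne_zero⟩
  have h1 : ∀ r, r ≤ m → CT (Kr ρ ⊤ ⊤ r) := fun r => by
    induction r with
    | zero => exact fun _ => (kr_zero (ρ := ρ) ⊤ ⊤).symm ▸ ct_top
    | succ r ih => exact fun h => S.ct_even hF he ⟨r, by omega⟩ (by simp; omega) (ih (by omega))
  have h2 : ∀ k, CT (Pm ρ k) := fun k => by
    induction k with
    | zero =>
      rw [show Pm ρ 0 = Kr ρ ⊤ ⊤ m from le_antisymm (fun g hg => ⟨trivial, fun i _ =>
        ⟨⟨Units.mk0 _ (pm_ne hg i), trivial, rfl⟩, fun a h => hg a i (Or.inl h)⟩⟩) fun g => S.tri hn]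
      exact h1 m le_rfl
    | succ k ih => exact ct_root' hF k (fun i j h e => e ▸ S.root h) ih
  exact ct_diag hρ (h2 _) Z hZ

end Pool.Agent.Lib.MP_0becda_co.Coset
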