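import Pool.Agent.Lib.MP_0becda_co.Coset.SympEven
import Pool.Agent.Lib.MP_0becda_co.Coset.LinMain

/-!
The standard alternating form.
-/

set_option linter.unusedSectionVars false

open Finset Matrix Pool.Agent.Lib.MP_0becda_co.PSL

namespace Pool.Agent.Lib.MP_0becda_co.Coset

theorem Sy.scalar {G : Type} [Group G] [Fintype G] {F : Type} [Field F] {n : ℕ}
    {ρ : G →* Matrix (Fin n) (Fin n) F} {D : Subgroup G} (S : Sy ρ D) {z : G}
    (hz : z ∈ Subgroup.center G) : ∃ c : F, ∀ v, ρ z *ᵥ v = c • v := by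
  obtain ⟨c, hc⟩ := (ρ z).mulVecLin.exists_eq_smul_id_of_forall_notLinearIndependent fun u h => by
    have h0 : u ≠ 0 := h.ne_zero 0
    obtain ⟨a, -, h1⟩ := S.exists_perp (W := ⊥) (v := u) h0
    obtain ⟨s, h2, h3⟩ := S.move_one (U := F ∙ u) (a := a) (b := a + u) (by simp)
      (by rwa [map_add, LinearMap.add_apply, S.alt, zero_add, S.skew, neg_ne_zero])
    obtain ⟨k, hk⟩ := Submodule.mem_span_singleton.1 (h2.2.2 (ρ z *ᵥ a))
    rw [← act_mul, Subgroup.mem_center_iff.1 hz, act_mul, h3, mulVec_add, add_sub_cancel_left] at hk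
    exact (LinearIndependent.pair_iff' h0).1 h k hk
  exact ⟨c, fun v => by simpa using LinearMap.congr_fun hc v⟩

theorem exists_sy {F : Type} [Field F] {m : ℕ} (H : Subgroup (GL (Fin m ⊕ Fin m) F)) [Fintype H]
    (h1 : ∀ A : GL (Fin m ⊕ Fin m) F, A.val ∈ symplecticGroup (Fin m) F → A ∈ H)
    (h2 : ∀ A ∈ H, ∃ c : F, A.valᵀ * J (Fin m) F * A.val = c • J (Fin m) F) (hm : 0 < m) :
    ∃ ρ : H →* Matrix (Fin (m + m)) (Fin (m + m)) F, Function.Injective ρ ∧ ∃ S : Sy ρ ⊤,
      ∀ A : H, A.val.val ∈ symplecticGroup (Fin m) F →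
        (ρ A).det = 1 ∧ ∀ v w, S.B (ρ A *ᵥ v) (ρ A *ᵥ w) = S.B v w := by
  let e : Fin m ⊕ Fin m ≃ Fin (m + m) :=
    (Equiv.sumCongr (Equiv.refl _) Fin.revPerm).trans finSumFinEquiv
  have he : ∀ x, (e x).rev = e x.swap := fun x => Fin.ext (by
    cases x <;> simp [e, Fin.val_rev] <;> omega)
  let ρ : H →* Matrix (Fin (m + m)) (Fin (m + m)) F :=
    (reindexAlgEquiv F F e).toMonoidHom.comp ((Units.coeHom _).comp H.subtype)
  have h3 : ∀ (A : Matrix _ _ F) v, (reindex e e A *ᵥ v) ∘ e = A *ᵥ (v ∘ e) := fun A v => by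
    rw [reindex_apply, submatrix_mulVec_equiv]
    ext x
    simp
  let B : (Fin (m + m) → F) →ₗ[F] (Fin (m + m) → F) →ₗ[F] F :=
    (toBilin' (J (Fin m) F)).compl₁₂ (LinearMap.funLeft F F e) (LinearMap.funLeft F F e)
  have h4 : ∀ v w, B v w = (v ∘ e) ⬝ᵥ J (Fin m) F *ᵥ (w ∘ e) := fun v w =>
    toBilin'_apply' (J (Fin m) F) (v ∘ e) (w ∘ e)
  have h5 : ∀ (A : Matrix _ _ F) v w, B (reindex e e A *ᵥ v) (reindex e e A *ᵥ w)
      = (v ∘ e) ⬝ᵥ (Aᵀ * J (Fin m) F * A) *ᵥ (w ∘ e) := fun A v w => by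
    rw [h4, h3, h3, ← mulVec_mulVec, ← mulVec_mulVec, dotProduct_mulVec _ Aᵀ, vecMul_transpose]
  have h6 : ∀ (u : Fin m ⊕ Fin m → F) x, (J (Fin m) F *ᵥ u) x
      = x.elim (fun _ => -1) (fun _ => 1) * u x.swap := fun u x => by
    cases x <;> simp [J, fromBlocks_mulVec, neg_mulVec]
  refine ⟨ρ, (reindexAlgEquiv F F e).injective.comp (Units.val_injective.comp Subtype.val_injective),
    { B := B
      ε := fun a => (e.symm a).elim (fun _ => -1) fun _ => 1
      ne := fun a => by cases e.symm a <;> simp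
      single := fun a v => by
        obtain ⟨x, rfl⟩ := e.surjective a
        rw [h4, show Pi.single (e x) (1 : F) ∘ e = Pi.single x 1 from funext fun y => by
          simp [Pi.single_apply], single_dotProduct, one_mul, h6, he, e.symm_apply_apply]
        rfl
      alt := fun v => by
        rw [h4, dotProduct, Fintype.sum_sum_type]
        simp [h6, mul_comm]
      sim := fun g => by
        obtain ⟨c, hc⟩ := h2 g g.2
        refine ⟨Units.mk0 c fun h => ?_, fun v w => (h5 g.val.val v w).trans (by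
          rw [hc, smul_mulVec, dotProduct_smul, h4]; rfl)⟩
        have h7 := congrArg det hc
        have : Nonempty (Fin m ⊕ Fin m) := ⟨.inl ⟨0, hm⟩⟩
        rw [h, zero_smul, det_zero, det_mul, det_mul, det_transpose] at h7
        exact mul_ne_zero (mul_ne_zero g.val.det_ne_zero (isUnit_det_J _ _).ne_zero)
          g.val.det_ne_zero h7
      ex := fun M hM => by
        obtain ⟨A, rfl⟩ := (reindex e e).surjective M
        have h7 : A ∈ symplecticGroup (Fin m) F := SymplecticGroup.mem_iff'.2 (toBilin'.injective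
          (LinearMap.ext₂ fun v w => by
            have := hM (v ∘ e.symm) (w ∘ e.symm)
            rw [h5, h4] at this
            simpa [toBilin'_apply', Function.comp_assoc] using this))
        obtain ⟨u, rfl⟩ := (isUnit_iff_isUnit_det A).2 (SymplecticGroup.symplectic_det h7)
        exact ⟨⟨u, h1 u h7⟩, trivial, rfl⟩ }, fun A hA => ⟨?_, fun v w => (h5 A.val.val v w).trans ?_⟩⟩
  · exact (det_reindex_self e _).trans (SymplecticGroup.det_eq_one hA)
  · rw [SymplecticGroup.mem_iff'.1 hA, h4]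

end Pool.Agent.Lib.MP_0becda_co.Coset
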