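import Pool.Agent.Lib.MP_0becda_co.Coset.SympTw
import Pool.Agent.Lib.MP_0becda_co.Coset.SympInst

/-!
Central quotients of symplectic groups.
-/

set_option linter.unusedSectionVars false

open Finset Matrix Pool.Agent.Lib.MP_0becda_co.PSL

namespace Pool.Agent.Lib.MP_0becda_co.Coset

variable {G : Type} [Group G] [Fintype G] {F : Type} [Field F] [Fintype F] {n : ℕ}
  {ρ : G →* Matrix (Fin n) (Fin n) F} {C : Subgroup Fˣ}

theorem Sy.ct_first (S : Sy ρ ⊤) {Z : Subgroup G} (R : Tw ρ ⊤ C Z) (hF : 5 ≤ Fintype.card F)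
    (hF2 : Odd (Fintype.card F)) (hC : ∀ u : Fˣ, ∃ k, u ^ 2 ^ k ∈ C) (hn : 2 < n) :
    CT (Kr ρ ⊤ C 1 ⊔ Z) := by
  let o : Fin n := ⟨0, by omega⟩
  let _ := Fintype.ofFinite (Kr ρ ⊤ R.M0 o ⧸ (Kr ρ ⊤ R.M0 (o + 1)).subgroupOf (Kr ρ ⊤ R.M0 o))
  let T := tvq (kr_succ_le (ρ := ρ) (D := ⊤) (C := R.M0) o)
  have h1 : Kr ρ ⊤ R.M0 (o + 1) ≤ Kr ρ ⊤ C 1 ⊔ Z := fun g hg => by
    obtain ⟨u, hu, h1⟩ := Tw.kr_eig (o := o) rfl (by simp) hg
    obtain ⟨c, hc, z, hz, rfl⟩ := R.exists_z hu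
    have h3 : g * (z⁻¹ : Z) ∈ Kr ρ ⊤ C 1 := ⟨trivial, fun j hj =>
      (rel_col _ j).1 ⟨c, hc, by
        obtain rfl : j = o := Fin.ext (by simpa using hj)
        rw [act_mul, R.act, mulVec_smul, h1, smul_smul, ← Units.val_mul, map_inv, mul_comm c,
          inv_mul_cancel_left, sub_self]
        exact zero_mem _⟩⟩
    simpa using Subgroup.mul_mem_sup h3 z.2
  let T' : TV (Kr ρ ⊤ C 1 ⊔ Z) ⊤ _ :=
    { t := T.t
      le := le_top
      mem := fun x => trivial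
      ex := fun g _ => (T.ex g ((kr_zero (ρ := ρ) ⊤ R.M0).ge trivial)).imp fun _ hx => h1 hx
      uniq := fun x y h => T.uniq x y (by
        obtain ⟨k, hk, z, h3⟩ := R.split h
        obtain ⟨c, hc, h4⟩ := Tw.kr_eig (o := o) rfl one_pos hk
        refine ⟨trivial, fun j hj => (rel_col _ j).1 ⟨c * R.ζ z, Subgroup.mul_mem_sup hc
          ⟨z, trivial, rfl⟩, ?_⟩⟩
        obtain rfl : j = o := Fin.ext (Nat.lt_one_iff.1 hj)
        rw [h3, act_mul, R.act, mulVec_smul, h4, smul_smul, Units.val_mul, mul_comm, sub_self]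
        exact zero_mem _) }
  exact S.ct_top' (C := R.M0) (i := o) hn.le T hF hF2
    (fun u => (hC u).imp fun _ h => Subgroup.mem_sup_left h) hn T' rfl h1

theorem Sy.kr_eq (S : Sy ρ ⊤) (hiso : ∀ g v w, S.B (ρ g *ᵥ v) (ρ g *ᵥ w) = S.B v w) {m : ℕ}
    (hn : n = 2 * m) : Kr ρ (Kr ρ ⊤ C m) C (n - 1) = Kr ρ ⊤ C m :=
  le_antisymm inf_le_left fun g hg => ⟨hg, fun a _ => ⟨by
    by_cases ha : a.val < m
    · exact (hg.2 a ha).1
    obtain ⟨c, hc, h1⟩ := (hg.2 a.rev (by rw [Fin.val_rev]; have := a.2; omega)).1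
    have h2 := hiso g (Pi.single a.rev 1) (Pi.single a 1)
    rw [S.single, S.B_eq, sum_eq_single a.rev (fun b _ hb => by
      simp only [mulVec_single_one, col_apply]
      rcases hb.lt_or_gt with hb | hb
      · rw [S.tri hn hg b.rev a (Or.inl (Fin.lt_rev_iff.1 hb)), mul_zero, mul_zero]
      · rw [S.tri hn hg b a.rev (Or.inl hb), zero_mul]) (by simp)] at h2
    simp only [mulVec_single_one, col_apply, Fin.rev_rev, Pi.single_eq_same, h1, mul_left_comm (c : F),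
      mul_right_inj' (S.ne _)] at h2
    exact ⟨c⁻¹, inv_mem hc, by rw [Units.val_inv_eq_inv_val]; exact eq_inv_of_mul_eq_one_right h2⟩,
    fun b h => S.tri hn hg b a (Or.inl h)⟩⟩

theorem Sy.ct_odd_card (S : Sy ρ ⊤) (hiso : ∀ g v w, S.B (ρ g *ᵥ v) (ρ g *ᵥ w) = S.B v w)
    (hdet : ∀ g, (ρ g).det = 1) (hF : 5 ≤ Fintype.card F) (ho : Odd (Fintype.card F))
    (hρ : Function.Injective ρ) {m : ℕ} (hn : n = 2 * m) (hm : 2 ≤ m) (Z : Subgroup G)
    (hZ : Z ≤ Subgroup.center G) : CT Z := by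
  classical
  let o : Fin n := ⟨0, by omega⟩
  obtain ⟨a, r, hr, h1⟩ := Nat.exists_eq_two_pow_mul_odd (n := Fintype.card F - 1) (by omega)
  let C : Subgroup Fˣ := (powMonoidHom r).ker
  have hC : ∀ u, u ∈ C ↔ u ^ r = 1 := fun u => Iff.rfl
  have h0 : (2 : F) ≠ 0 := fun h3 => by
    have h4 := FiniteField.even_card_iff_char_two.1 (CharP.ringChar_of_prime_eq_zero Nat.prime_two h3)
    obtain ⟨k, hk⟩ := ho
    omega
  have h2 : -1 ∉ C := fun h => by
    have h3 := congrArg Units.val ((hC _).1 h)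
    rw [hr.neg_one_pow, Units.val_neg, Units.val_one, neg_eq_iff_add_eq_zero, one_add_one_eq_two] at h3
    exact h0 h3
  choose c hc using fun z : Z => S.scalar (hZ z.2)
  have h3 : ∀ z w, c (z * w) = c z * c w := fun z w => Tw.eig_inj (o := o) (by
    rw [← hc, Subgroup.coe_mul, act_mul, hc, hc, smul_smul])
  have h4 : c 1 = 1 := Tw.eig_inj (o := o) (by
    rw [← hc, OneMemClass.coe_one, map_one, one_mulVec, one_smul])
  let ζ : Z →* F := ⟨⟨c, h4⟩, h3⟩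
  let R : Tw ρ ⊤ C Z :=
    { ζ := ζ.toHomUnits
      act := hc
      cen := hZ
      det := fun g => ⟨fun _ => ⟨1, one_mem _, hdet g⟩, fun _ => trivial⟩ }
  have h5 : ∀ u : Fˣ, ∃ k, u ^ 2 ^ k ∈ C := fun u => ⟨a, (hC _).2 (by
    rw [← pow_mul, ← h1, ← Fintype.card_units, pow_card_eq_one])⟩
  have h6 : ∀ u : Fˣ, u ^ 2 ∈ C → u ∈ C ∨ -u ∈ C := fun u hu => by
    have h5 := congrArg Units.val ((hC _).1 hu)
    rw [← pow_mul, mul_comm, pow_mul, pow_two, Units.val_mul, Units.val_one,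
      mul_self_eq_one_iff] at h5
    refine h5.imp (fun h => Units.ext h) fun h => (hC _).2 (Units.ext ?_)
    rw [hr.neg_pow, Units.val_neg, h, neg_neg, Units.val_one]
  have h7 : ∀ r, r + 1 ≤ m → CT (Kr ρ ⊤ C (r + 1) ⊔ Z) := fun r => by
    induction r with
    | zero => exact fun _ => S.ct_first R hF ho h5 (by omega)
    | succ r ih =>
      exact fun hr => S.ct_step R (o := o) rfl hiso hF ho h5 h2 h6 hn ⟨r + 1, by omega⟩
        (by simp) (by simp; omega) (ih (by omega))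
  refine ct_bottom (D := Kr ρ ⊤ C m) hρ h0 h2 (fun g _ => ⟨1, one_mem _, hdet g⟩) Z hZ ?_
  rw [S.kr_eq hiso hn]
  have := h7 (m - 1) (by omega)
  rwa [Nat.sub_add_cancel (by omega)] at this

theorem ter_symplectic (hF : 4 ≤ Fintype.card F) {m : ℕ} (hm : 2 ≤ m)
    (H : Subgroup (GL (Fin m ⊕ Fin m) F))
    (h1 : ∀ A : GL (Fin m ⊕ Fin m) F, A.val ∈ symplecticGroup (Fin m) F → A ∈ H)
    (h2 : ∀ A ∈ H, ∃ c : F, (Odd (Fintype.card F) → c = 1) ∧
      A.valᵀ * J (Fin m) F * A.val = c • J (Fin m) F) {Q : Type} [Group Q]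
    (f : H →* Q) (hf : Function.Surjective f) (hZ : f.ker ≤ Subgroup.center H) : Ter Q := by
  classical
  let _ := Fintype.ofFinite H
  obtain ⟨ρ, hρ, S, hS⟩ := exists_sy H h1 (fun A hA => (h2 A hA).imp fun _ h => h.2) (by omega)
  refine ter_of_equiv (QuotientGroup.quotientKerEquivOfSurjective f hf) (ter_of_ct _ ?_)
  rcases Nat.even_or_odd (Fintype.card F) with he | ho
  · have h3 : ringChar F = 2 := FiniteField.even_card_iff_char_two.2 (Nat.even_iff.1 he)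
    have : CharP F 2 := h3 ▸ ringChar.charP F
    refine S.ct_two hF hρ (two_mul m).symm _ fun z hz a b h => ?_
    obtain ⟨c, hc⟩ := S.scalar (hZ hz)
    simpa [h] using congrFun (hc (Pi.single b 1)) a
  · have h3 : ∀ A : H, A.val.val ∈ symplecticGroup (Fin m) F := fun A => by
      obtain ⟨c, k1, k2⟩ := h2 A A.2
      exact SymplecticGroup.mem_iff'.2 (by rw [k2, k1 ho, one_smul])
    exact S.ct_odd_card (fun g => (hS g (h3 g)).2) (fun g => (hS g (h3 g)).1)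
      (by obtain ⟨k, hk⟩ := ho; omega) ho hρ (two_mul m).symm hm _ hZ

end Pool.Agent.Lib.MP_0becda_co.Coset
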