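import Pool.Agent.Lib.MP_0becda_co.Coset.Three

/-!
A path through all cosets at the top of the chain.
-/

set_option linter.unusedSectionVars false

open Finset Pool.Agent.Lib.MP_0becda_co.PSL

namespace Pool.Agent.Lib.MP_0becda_co.Coset

theorem exists_head {Y : Type} [Fintype Y] [Nonempty Y] {P : Y → Y → Prop}
    (hs : ∀ x y, P x y → P y x) (hi : ∀ x, ¬ P x x) {k : ℕ} (hk : ∀ x, ∑ y, ind (P x y) = k) (j : ℕ) :
    j ≤ k → ∃ x, ∃ L : List Y, L.length = j ∧ (x :: L).Nodup ∧ List.IsChain P (x :: L) := by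
  classical
  induction j with
  | zero => exact fun _ => ⟨Classical.arbitrary Y, [], rfl, by simp, List.isChain_singleton _⟩
  | succ j ih =>
    intro hj
    obtain ⟨x, L, rfl, h1, h2⟩ := ih (by omega)
    obtain ⟨y, h3, h4⟩ := exists_not_of_lt (S := univ.filter (P x)) (p := fun y => y ∈ L) (by
      rw [← sum_ind_card, hk, sum_ind_card]
      exact lt_of_le_of_lt ((card_le_card fun y hy => List.mem_toFinset.2 (mem_filter.1 hy).2).trans
        (List.toFinset_card_le L)) hj)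
    have h5 := (mem_filter.1 h3).2
    exact ⟨y, x :: L, rfl, List.nodup_cons.2 ⟨by
      rw [List.mem_cons, not_or]; exact ⟨fun h => hi x (h ▸ h5), h4⟩, h1⟩,
      List.isChain_cons_cons.2 ⟨hs _ _ h5, h2⟩⟩

variable {G : Type} [Group G] [Fintype G]

theorem extend_strands {Y A : Type} [AddCommGroup A] [Fintype A] (H : Subgroup G) (pos : Y × A → G)
    {R : Y → Y → Prop} (wt : ℕ → G → ℕ) (hR : ∀ t t', R t t' → ∀ n, ∃ κ, ∀ (α : Equiv.Perm A) g,
      ∑ j, kk H ((pos (t, α j))⁻¹ * pos (t', α j + κ)) g = wt n g) (p : A → G) (L : List Y) :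
    ∀ (t : Y) (α : Equiv.Perm A) (Vx : A → Multiset G) (Ex : A → Multiset (Sym2 G)),
      (∀ j, Path (Vx j) (Ex j) (p j) (pos (t, α j))) → List.IsChain R (t :: L) →
      ∃ κ, ∃ (Vx' : A → Multiset G) (Ex' : A → Multiset (Sym2 G)),
        (∀ j, Path (Vx' j) (Ex' j) (p j) (pos ((t :: L).getLast (List.cons_ne_nil _ _), α j + κ))) ∧
        ∑ j, Vx' j = ∑ j, Vx j + (L.map fun s => ∑ a, ({pos (s, a)} : Multiset G)).sum ∧
        ∀ g, KE H (∑ j, Ex' j) g = KE H (∑ j, Ex j) g + ∑ i ∈ range L.length, wt i g := by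
  induction L with
  | nil => exact fun t α Vx Ex h _ => ⟨0, Vx, Ex, by simpa using h, by simp, by simp⟩
  | cons t' L ih =>
    intro t α Vx Ex h hc
    rw [List.isChain_cons_cons] at hc
    obtain ⟨κ, h1⟩ := hR t t' hc.1 L.length
    obtain ⟨κ', Vx', Ex', h2, h3, h4⟩ := ih t' (α.trans (Equiv.addRight κ)) _ _
      (fun j => (h j).append (Path.single (pos (t', α j + κ)))) hc.2
    refine ⟨κ + κ', Vx', Ex', fun j => by simpa [add_assoc] using h2 j, ?_, fun g => ?_⟩
    · rw [h3, sum_add_distrib, List.map_cons, List.sum_cons, add_assoc,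
        ← Equiv.sum_comp (α.trans (Equiv.addRight κ)) fun a => ({pos (t', a)} : Multiset G)]
      rfl
    · rw [h4, sum_add_distrib, KE_add, List.length_cons, sum_range_succ, ← h1 α g]
      simp only [Multiset.cons_zero, KE_sum, ke_mk]
      ring

theorem TV.top_three {H : Subgroup G} {X Y : Type} [Fintype X] [Fintype Y] (T : TV H ⊤ X)
    {r : ℕ} [NeZero r] (e : Y × ZMod r ≃ X) {P : Y → Y → Prop} (hs : ∀ x y, P x y → P y x)
    (hi : ∀ x, ¬ P x x) {k : ℕ} (hk : ∀ x, ∑ y, ind (P x y) = k + 1) {s : ℕ}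
    (hY : Fintype.card Y = k + 3 + 2 * s) (hs' : 2 * k + 3 ≤ s)
    (hr1 : ∀ F : ZMod r → ℕ, ∑ j, F (2 * j + 0) + ∑ j, F (2 * j + 1) = 2 * ∑ c, F c)
    (β : Equiv.Perm (ZMod r)) (c0 : ZMod r)
    (hr2 : ∀ F : ZMod r → ℕ, ∑ j ∈ range (r - 1), F (β j + (j + 1 : ℕ)) + F c0 = ∑ c, F c)
    (g0 g1 : ZMod r → G → ℕ) (gp : G → ℕ) (ω : Y → Y → ZMod r)
    (h0 : ∀ t a a' g, kk H ((T.t (e (t, a)))⁻¹ * T.t (e (t, a'))) g = g0 (a' - a) g)
    (hp : ∀ t t' a a' g, P t t' → kk H ((T.t (e (t, a)))⁻¹ * T.t (e (t', a'))) g = gp g)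
    (h1 : ∀ t t' a a' g, t ≠ t' → ¬ P t t' →
      kk H ((T.t (e (t, a)))⁻¹ * T.t (e (t', a'))) g = g1 (a + a' + ω t t') g) : CT H := by
  classical
  have : Nonempty Y := Fintype.card_pos_iff.1 (by omega)
  obtain ⟨z0, L0, k1, k2, k3⟩ := exists_head hs hi hk _ le_rfl
  obtain ⟨z1, L1, rfl⟩ := List.exists_cons_of_length_eq_add_one k1
  rw [List.isChain_cons_cons] at k3
  have k4 : (z0 :: z1 :: L1).toFinset.card = k + 2 := by
    rw [List.toFinset_card_of_nodup k2, List.length_cons, k1]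
  obtain ⟨t0, k5⟩ : (z0 :: z1 :: L1).toFinsetᶜ.Nonempty := Finset.card_pos.1 (by rw [card_compl]; omega)
  rw [mem_compl] at k5
  let z2 := (z1 :: L1).getLast (List.cons_ne_nil _ _)
  obtain ⟨z, k6, k7⟩ := exists_not_of_lt (S := (insert t0 (z0 :: z1 :: L1).toFinset)ᶜ)
    (lt_of_le_of_lt ((sum_or_le (P z0) fun y => P t0 y ∨ P z2 y).trans
      (add_le_add le_rfl (sum_or_le _ _))) (by
        rw [hk, hk, hk, card_compl, card_insert_of_notMem k5]; omega))
  rw [mem_compl] at k6
  simp only [not_or] at k7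
  have k8 : z2 ∈ (z0 :: z1 :: L1).toFinset :=
    List.mem_toFinset.2 (List.mem_cons_of_mem _ (List.getLast_mem _))
  have k9 : (insert z (insert t0 (z0 :: z1 :: L1).toFinset))ᶜ.card + 1 = 2 * s := by
    rw [card_compl, card_insert_of_notMem k6, card_insert_of_notMem k5]; omega
  obtain ⟨L2, l1, l2, l3⟩ := exists_fill hs (fun x => (hk x).le)
    (A := (insert z (insert t0 (z0 :: z1 :: L1).toFinset))ᶜ) (by omega) (x := z2) (z := z)
    (by simp only [mem_compl, not_not, mem_insert, k8, or_true]) (by simp) k7.2.2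
  have l4 : (z2 :: (L2 ++ [z])).Nodup := by
    rw [List.nodup_cons, List.nodup_append_comm, List.singleton_append, List.nodup_cons,
      List.mem_append, List.mem_singleton, ← List.mem_toFinset, ← List.mem_toFinset, l2]
    refine ⟨?_, by simp, l1⟩
    rintro (h | h)
    · exact mem_compl.1 h (mem_insert_of_mem (mem_insert_of_mem k8))
    · exact k6 (h ▸ mem_insert_of_mem k8)
  let pos : Y × ZMod r → G := fun x => T.t (e x)
  obtain ⟨κ1, V1, E1, a1, a2, a3⟩ := extend_strands H pos (fun _ g => r * gp g)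
    (fun t t' h _ => ⟨0, fun α g => by simp [pos, hp _ _ _ _ _ h]⟩) (fun j => pos (z0, j)) L1 z1 β
    _ _ (fun j => (Path.single _).append (Path.single _)) k3.2
  obtain ⟨κ2, V2, E2, b1, b2, b3⟩ := extend_strands H pos (R := fun t t' => t ≠ t' ∧ ¬ P t t')
    (fun n g => ∑ j, g1 (2 * j + (n % 2 : ℕ)) g) (fun t t' h n => ⟨(n % 2 : ℕ) - ω t t', fun α g => by
      rw [← Equiv.sum_comp α fun j => g1 (2 * j + (n % 2 : ℕ)) g]
      exact sum_congr rfl fun j _ => (h1 _ _ _ _ _ h.1 h.2).trans (by congr 1; ring)⟩)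
    (fun j => pos (z0, j)) (L2 ++ [z]) z2 (β.trans (Equiv.addRight κ1)) V1 E1 a1
    (List.isChain_iff_getElem.2 fun i hi => ⟨fun h => by
      simpa using (List.Nodup.getElem_inj_iff l4).1 h, List.isChain_iff_getElem.1 l3 i hi⟩)
  have b4 : (z2 :: (L2 ++ [z])).getLast (List.cons_ne_nil _ _) = z :=
    List.getLast_append_singleton (z2 :: L2)
  simp only [b4, Equiv.trans_apply, Equiv.coe_addRight, add_assoc] at b1
  generalize κ1 + κ2 = κ at b1
  have c1 : ∀ m : ℕ, Path (∑ i ∈ range (m + 1), V2 i) (∑ i ∈ range (m + 1), E2 i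
      + ∑ i ∈ range m, {s(pos (z, β i + κ), pos (z0, (i + 1 : ℕ)))}) (pos (z0, (0 : ℕ)))
      (pos (z, β m + κ)) := fun m => by
    induction m with
    | zero => simpa using b1 0
    | succ m ih =>
      refine (ih.append (b1 (m + 1 : ℕ))).congr (sum_range_succ _ _).symm ?_ rfl rfl
      simp only [sum_range_succ _ (m + 1), sum_range_succ (fun i : ℕ => ({s(pos (z, β i + κ),
        pos (z0, (i + 1 : ℕ)))} : Multiset (Sym2 G))), ← Multiset.singleton_add]
      abel
  obtain ⟨γ, hγ⟩ := IsCyclic.exists_ofOrder_eq_natCard (α := Multiplicative (ZMod r))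
  obtain ⟨V, E, a, b, d1, d2, d3⟩ := ter_cyc hγ rfl
  let u := c0 + ω z z0 - β (r - 1 : ℕ) - a.toAdd - ω z t0
  have n1 : z ≠ z0 := fun h => k6 (by simp [h])
  have n2 : z ≠ t0 := fun h => k6 (by simp [h])
  have c2 := c1 (r - 1)
  rw [Nat.sub_add_cancel (NeZero.pos r), ← zsum, ← zsum] at c2
  have cov : ∀ F : Y → Multiset G, ∑ t, F t
      = F z0 + F z1 + (L1.map F).sum + ((L2 ++ [z]).map F).sum + F t0 := fun F => by
    rw [← sum_compl_add_sum (insert z (insert t0 (z0 :: z1 :: L1).toFinset)), ← l2,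
      sum_insert k6, sum_insert k5, List.sum_toFinset _ l1, List.sum_toFinset _ k2]
    simp only [List.map_cons, List.sum_cons, List.map_append, List.sum_append, List.map_nil,
      List.sum_nil]
    abel
  refine ⟨_, _, _, _, c2.append (d1.map fun x => pos (t0, x.toAdd + u)), fun g => ?_, fun g => ?_⟩
  · rw [← ind_pos (Subgroup.mem_top g), ← T.sum_ind, ← CV_sum, ← e.sum_comp,
      Fintype.sum_prod_type, cov, b2, a2, sum_add_distrib, eq_univ_of_C d2,
      Equiv.sum_comp β fun a => ({pos (z1, a)} : Multiset G),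
      ← Equiv.sum_comp (Multiplicative.toAdd.trans (Equiv.addRight u))
        fun a => ({T.t (e (t0, a))} : Multiset G), ← Multiset.sum_map_singleton (Multiset.map _ _),
      Multiset.map_map]
    rfl
  have e1 : ∀ E : Multiset (Sym2 (Multiplicative (ZMod r))),
      2 * KE H (E.map (Sym2.map fun x => pos (t0, x.toAdd + u))) g = ∑ c, W E c * g0 c.toAdd g := by
    intro E
    induction E using Multiset.induction_on with
    | empty => simp [KE]
    | cons x E ih =>
      simp only [Multiset.map_cons, KE_cons, W_cons, mul_add, add_mul, sum_add_distrib, ih]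
      congr 1
      induction x using Sym2.ind with
      | _ x y =>
        simp only [Sym2.map_mk, ke_mk, wt_mk, add_mul, sum_add_distrib, ← inv_eq_iff_eq_inv,
          sum_ind_mul']
        rw [two_mul]
        nth_rewrite 2 [← kk_inv]
        simp only [_root_.mul_inv_rev, inv_inv, pos, h0]
        congr 2 <;> simp <;> ring
  have e2 := e1 E
  simp only [d3, mul_assoc, ← mul_sum] at e2
  have e3 := Nat.eq_of_mul_eq_mul_left two_pos e2
  rw [← add_sum_erase _ _ (mem_univ 1), ind_neg (by simp), zero_mul, zero_add,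
    sum_congr rfl fun c hc => by rw [ind_pos (mem_erase.1 hc).1, one_mul]] at e3
  have e4 := add_sum_erase univ (fun c : Multiplicative (ZMod r) => g0 c.toAdd g) (mem_univ 1)
  rw [← e3, Equiv.sum_comp Multiplicative.toAdd fun c => g0 c g, toAdd_one] at e4
  have e5 := row_three hi hk (f := fun x y => kk H ((pos x)⁻¹ * pos y) g) (g0 := fun c => g0 c g)
    (g := fun c => g1 c g) (fun t a a' => h0 t a a' g) (fun t t' a a' h => hp t t' a a' g h)
    (fun t t' a a' h h' => h1 t t' a a' g h h') (t0, 0)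
  rw [Equiv.sum_comp e fun y => kk H ((pos (t0, 0))⁻¹ * T.t y) g,
    ← add_sum_erase _ _ (mem_univ (e (t0, 0))), T.sum_erase, h0, sub_self, hY, ZMod.card,
    show k + 3 + 2 * s - 1 - (k + 1) = 2 * s + 1 by omega,
    ind_congr (and_iff_right (Subgroup.mem_top g))] at e5
  have e6 := hr2 fun c => g1 (c + (κ + ω z z0)) g
  rw [show ∑ c, g1 (c + (κ + ω z z0)) g = ∑ c, g1 c g from
    Equiv.sum_comp (Equiv.addRight _) fun c => g1 c g] at e6
  have e7 := hr1 fun c => g1 c g
  have e8 : L1.length = k := by simpa using k1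
  have e9 : (L2 ++ [z]).length = 2 * s := by
    rw [List.length_append, ← List.toFinset_card_of_nodup l1, l2]; exact k9
  rw [KE_add, KE_add, KE_cons, b3, a3, KE_sum, e8, e9, sum_par, ke_mk, h1 _ _ _ _ _ n2
    (mt (hs _ _) k7.2.1), sum_congr rfl (s₁ := range (r - 1))
      (g := fun j => g1 (β j + (j + 1 : ℕ) + (κ + ω z z0)) g) fun j _ => by
        rw [ke_mk, h1 _ _ _ _ _ n1 (mt (hs _ _) k7.1)]; congr 1; ring,
    show β (r - 1 : ℕ) + κ + (a.toAdd + u) + ω z t0 = c0 + (κ + ω z z0) by simp only [u]; ring]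
  simp only [zero_add, Multiset.cons_zero, KE_sum, ke_mk, pos, hp _ _ _ _ _ k3.1, sum_const,
    smul_eq_mul, card_range, card_univ, ZMod.card, Nat.mul_mod_right, Nat.mul_add_mod,
    Nat.cast_zero, Nat.one_mod, Nat.cast_one] at e4 ⊢
  rw [← mul_add, e7]
  nlinarith

end Pool.Agent.Lib.MP_0becda_co.Coset
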