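import Pool.Agent.Lib.MP_0becda_co.Coset.SympEven
import Pool.Agent.Lib.MP_0becda_co.Coset.Top

/-!
Oriented isotropic flags.
-/

set_option linter.unusedSectionVars false

open Finset Matrix Pool.Agent.Lib.MP_0becda_co.PSL

namespace Pool.Agent.Lib.MP_0becda_co.Coset

variable {G : Type} [Group G] [Fintype G] {F : Type} [Field F] {n : ℕ}
  {ρ : G →* Matrix (Fin n) (Fin n) F} {D : Subgroup G} {C : Subgroup Fˣ}

theorem exists_const {α : Type} (f : α → ℕ) (p : α → Prop) (hp : ∀ a b, p a → p b → f a = f b) :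
    ∃ c, ∀ a, p a → f a = c := by
  by_cases h : ∃ a, p a
  · exact h.elim fun a ha => ⟨_, fun x h => hp _ a h ha⟩
  · exact ⟨0, fun x h' => absurd ⟨_, h'⟩ h⟩

namespace Sy

variable (S : Sy ρ D) {X : Type} [Fintype X] {i : Fin n} (hi : 2 * i.val + 2 ≤ n)
  (T : TV (Kr ρ D C (i + 1)) (Kr ρ D C i) X)

include S hi

theorem fibre {M : Subgroup Fˣ} (hle : C ≤ M) {A : Type} [AddCommGroup A]
    (lg : M →* Multiplicative A) (hs : Function.Surjective lg) (hlg : ∀ u, lg u = 1 ↔ (u : Fˣ) ∈ C) :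
    ∃ (Y : Type) (_ : Fintype Y) (e : Y × A ≃ X),
      (∀ y (c : M) a, Rel C (Vr F n i) (((c : Fˣ) : F) • vec T (e (y, a)))
        (vec T (e (y, (lg c).toAdd + a)))) ∧
      ∀ y y' a a', Rel M (Vr F n i) (vec T (e (y, a))) (vec T (e (y', a'))) → y = y' := by
  classical
  let R : Setoid X := ⟨fun x y => Rel M (Vr F n i) (vec T x) (vec T y),
    fun _ => Rel.refl _, Rel.symm, Rel.trans⟩
  have mono : ∀ {a b}, Rel C (Vr F n i) a b → Rel M (Vr F n i) a b :=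
    fun h => h.imp fun _ h => ⟨hle h.1, h.2⟩
  choose rep hrep using fun a : A => hs (Multiplicative.ofAdd a)
  have hmem : ∀ u v : M, lg u = lg v → (u : Fˣ) * (v : Fˣ)⁻¹ ∈ C := fun u v h =>
    (hlg (u * v⁻¹)).1 (by rw [map_mul, map_inv, h, mul_inv_cancel])
  have hne : ∀ y y' : Quotient R, Rel M (Vr F n i) (vec T y.out) (vec T y'.out) → y = y' :=
    fun y y' h => by rw [← Quotient.out_eq y, ← Quotient.out_eq y']; exact Quotient.sound h
  have hu : ∀ (c : M) v, Rel M (Vr F n i) (((c : Fˣ) : F) • v) v := fun c v => ⟨c, c.2, by simp⟩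
  choose pt hpt using fun p : Quotient R × A => S.surj hi T
    (Submodule.smul_mem _ ((rep p.2 : Fˣ) : F) (S.vec_pp hi T p.1.out))
    fun h => vec_notMem T _ ((Submodule.smul_mem_iff _ (rep p.2 : Fˣ).ne_zero).1 h)
  have h0 : ∀ y y' a a', Rel M (Vr F n i) (vec T (pt (y, a))) (vec T (pt (y', a'))) → y = y' :=
    fun y y' a a' h => hne _ _ (((((hu _ _).symm.trans (mono (hpt (y, a)))).trans h).trans
      (mono (hpt (y', a'))).symm).trans (hu _ _))
  have hbij : Function.Bijective pt := ⟨fun ⟨t, a⟩ ⟨t', a'⟩ h1 => by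
    obtain rfl : t = t' := h0 _ _ a a' (h1 ▸ Rel.refl _)
    obtain ⟨c, hc, h3⟩ := (hpt (t, a)).trans (h1 ▸ (hpt (t, a')).symm)
    simp only [smul_smul, ← sub_smul] at h3
    have h4 : rep a = ⟨c, hle hc⟩ * rep a' := Subtype.ext (Units.ext (sub_eq_zero.1
      (by_contra fun h4 => vec_notMem T _ ((Submodule.smul_mem_iff _ h4).1 h3))))
    have h5 := congrArg lg h4
    rw [map_mul, (hlg ⟨c, hle hc⟩).2 hc, one_mul, hrep, hrep] at h5
    rw [show a = a' from h5], fun x => by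
    obtain ⟨c, hc, h1⟩ := Rel.symm (Quotient.mk_out (s := R) x)
    exact ⟨(Quotient.mk R x, (lg ⟨c, hc⟩).toAdd), vec_inj T ((hpt _).symm.trans
      ((rel_smul (hmem _ ⟨c, hc⟩ (hrep _)) _).trans (Rel.symm ⟨1, one_mem _, by simpa using h1⟩)))⟩⟩
  refine ⟨Quotient R, inferInstance, Equiv.ofBijective pt hbij, fun y c a =>
    ((hpt (y, a)).smul _).symm.trans (Rel.trans ?_ (hpt (y, (lg c).toAdd + a))), h0⟩
  rw [smul_smul, ← Units.val_mul]
  exact rel_smul (hmem (c * rep a) _ (by rw [map_mul, hrep, hrep]; rfl)) _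

theorem orient [Fintype F] (hF : 5 ≤ Fintype.card F) {A : Type} [AddCommGroup A]
    (lg : Fˣ →* Multiplicative A) (hs : Function.Surjective lg) (hlg : ∀ u, lg u = 1 ↔ u ∈ C) :
    ∃ (m k : ℕ) (e : Fin (m + 4) × A ≃ X) (P : Fin (m + 4) → Fin (m + 4) → Prop)
      (ω : Fin (m + 4) → Fin (m + 4) → A), (∀ x y, P x y → P y x) ∧ (∀ x, ¬ P x x) ∧
      (∀ x, ∑ y, ind (P x y) = k) ∧ m + 4 = Fintype.card F * (k + 1) + 1 ∧ (∀ t, ¬ P (t + 1) t) ∧
      (2 * i.val + 2 < n → 0 < k) ∧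
      (∀ t t', t ≠ t' → ¬ P t t' → ω t' t = ω t t' + (lg (-1)).toAdd) ∧
      ∀ f, S.Str T f → ∃ (g0 g : A → ℕ) (gp : ℕ),
        (∀ t a a', f (e (t, a)) (e (t, a')) = g0 (a' - a)) ∧
        (∀ t t' a a', P t t' → f (e (t, a)) (e (t', a')) = gp) ∧
        ∀ t t' a a', t ≠ t' → ¬ P t t' → f (e (t, a)) (e (t', a')) = g (a + a' + ω t t') := by
  classical
  choose rep hrep using fun a : A => hs (Multiplicative.ofAdd a)
  obtain ⟨Y, _, e, h1, h2⟩ := S.fibre hi T le_top (lg.comp (Subgroup.subtype ⊤))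
    (fun a => (hs a).elim fun u hu => ⟨⟨u, trivial⟩, hu⟩) fun u => hlg u
  let u : Y → Fin n → F := fun y => vec T (e (y, 0))
  have h3 : ∀ y a b, Rel C (Vr F n i) ((rep b : F) • vec T (e (y, a))) (vec T (e (y, b + a))) :=
    fun y a b => by simpa [hrep] using h1 y ⟨rep b, trivial⟩ a
  have h4 : ∀ y a, Rel C (Vr F n i) (vec T (e (y, a))) ((rep a : F) • u y) :=
    fun y a => by simpa using (h3 y 0 a).symm
  have h5 : ∀ v ∈ S.Pp (Vr F n i), v ∉ Vr F n i → ∃ y, Rel ⊤ (Vr F n i) v (u y) := fun v k1 k2 => by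
    obtain ⟨x, hx⟩ := S.surj hi T k1 k2
    obtain ⟨⟨y, a⟩, rfl⟩ := e.surjective x
    exact ⟨y, (hx.trans (h4 y a)).top.trans ⟨rep a, trivial, by simp⟩⟩
  have h6 := S.count (S.iso (by omega)) u (fun y => S.vec_pp hi T _) (fun y => vec_notMem T _)
    (fun y y' => h2 y y' 0 0) h5
  obtain ⟨x0⟩ := Fintype.card_pos_iff.1 T.card_pos
  obtain ⟨k, hk⟩ : ∃ k, ∀ x, ∑ y, ind (x ≠ y ∧ S.B (u x) (u y) = 0) = k := ⟨_, fun x =>
    Nat.succ_injective (Nat.eq_of_mul_eq_mul_left (by omega)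
      (Nat.succ_injective ((h6 x).symm.trans (h6 (e.symm x0).1))))⟩
  have h7 := h6 (e.symm x0).1
  rw [hk] at h7
  have h8 := Nat.mul_le_mul_right (k + 1) hF
  have hsy : ∀ x y, (x ≠ y ∧ S.B (u x) (u y) = 0) → y ≠ x ∧ S.B (u y) (u x) = 0 :=
    fun x y h => ⟨h.1.symm, by rw [S.skew, h.2, neg_zero]⟩
  obtain ⟨m, hm⟩ : ∃ m, Fintype.card Y = m + 4 := ⟨_, (Nat.sub_add_cancel (by omega)).symm⟩
  obtain ⟨c, hc⟩ := exists_cycle hsy (fun _ h => h.1 rfl) (fun x => (hk x).le) (by omega) hm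
  let L : F → A := fun z => if h : z = 0 then 0 else (lg (Units.mk0 z h)).toAdd
  have l1 : ∀ (a : Fˣ) z, z ≠ 0 → L (a * z) = (lg a).toAdd + L z := fun a z h => by
    simp only [L, dif_neg h, dif_neg (mul_ne_zero a.ne_zero h), ← toAdd_mul, ← map_mul]
    exact congrArg (fun x => (lg x).toAdd) (Units.ext rfl)
  have hB : ∀ y y' a a', ∃ c ∈ C, S.B (vec T (e (y, a))) (vec T (e (y', a')))
      = ((c * rep a * rep a' : Fˣ) : F) * S.B (u y) (u y') := fun y y' a a' => by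
    obtain ⟨c, k1, k2⟩ := S.rel_B (h4 y a) (h4 y' a')
      (Submodule.smul_mem _ _ (S.vec_pp hi T _)) (S.vec_pp hi T _)
    exact ⟨c, k1, by rw [k2]; simp; ring⟩
  refine ⟨m, k, (c.prodCongr (Equiv.refl A)).trans e, fun t t' => c t ≠ c t' ∧ S.B (u (c t)) (u (c t')) = 0,
    fun t t' => L (S.B (u (c t)) (u (c t'))), fun _ _ => hsy _ _, fun _ h => h.1 rfl,
    fun t => (c.sum_comp fun y => ind (c t ≠ y ∧ S.B (u (c t)) (u y) = 0)).trans (hk _),
    hm ▸ h7, fun t h => hc t (hsy _ _ h), fun h => ?_, fun t t' k1 k2 => ?_, fun f hf => ?_⟩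
  · let j : Fin n := ⟨i + 1, by omega⟩
    have k1 : ∀ a : Fin n, a.val ≤ i + 1 → Pi.single a 1 ∈ S.Pp (Vr F n i) := fun a ha =>
      S.mem_pp_vr.2 (single_mem (by omega))
    have k2 : j ≠ i := fun h => by simpa [j] using congrArg Fin.val h
    obtain ⟨y, hy⟩ := h5 _ (k1 i (by omega)) (single_notMem i)
    obtain ⟨y', hy'⟩ := h5 _ (k1 j le_rfl) fun h => by simpa using h j (by simp [j])
    obtain ⟨a, -, k3⟩ := S.rel_B hy.symm hy'.symm (k1 i (by omega)) (S.vec_pp hi T _)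
    rw [S.single, Pi.single_eq_of_ne (fun h => by
      have := congrArg Fin.val h
      simp only [j, Fin.val_rev] at this
      omega), mul_zero, mul_zero] at k3
    rw [← hk y]
    refine lt_of_lt_of_le ?_ (single_le_sum (fun _ _ => Nat.zero_le _) (mem_univ y'))
    rw [ind_pos ⟨fun h => by
      obtain ⟨b, -, k4⟩ := hy'.trans (h ▸ hy.symm)
      simpa [k2] using k4 j (by simp [j]), k3⟩]
    exact one_pos
  · have k3 : S.B (u (c t)) (u (c t')) ≠ 0 := fun h => k2 ⟨c.injective.ne k1, h⟩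
    simpa [add_comm, ← S.skew] using l1 (-1) _ k3
  obtain ⟨gp, k1⟩ := exists_const (fun p : X × X => f p.1 p.2) _ fun a b ha hb =>
    hf.2.1 b.1 b.2 a.1 a.2 (And.left hb) hb.2 (And.left ha) ha.2
  choose g k2 using fun w : A => exists_const (fun p : X × X => f p.1 p.2)
    (fun p => S.B (vec T p.1) (vec T p.2) ≠ 0 ∧ L (S.B (vec T p.1) (vec T p.2)) = w)
    fun a b ha hb => hf.2.2 b.1 b.2 a.1 a.2 hb.1 ⟨Units.mk0 _ (div_ne_zero hb.1 ha.1), by
      have k2 := l1 (Units.mk0 _ (div_ne_zero hb.1 ha.1)) _ ha.1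
      rw [Units.val_mk0, div_mul_cancel₀ _ ha.1] at k2
      exact (hlg _).1 (toAdd_eq_zero.1 (right_eq_add.1 ((ha.2.trans hb.2.symm).trans k2))), (div_mul_cancel₀ _ ha.1).symm⟩
  refine ⟨fun a => f (e (c 0, 0)) (e (c 0, a)), g, gp, fun t a a' => hf.1 (rep (a' - a)) _ _ _ _
    (by simpa using h3 (c 0) 0 (a' - a)) (by simpa using h3 (c t) a (a' - a)),
    fun t t' a a' h => k1 (e (c t, a), e (c t', a')) ⟨fun k3 => h.1 (h2 _ _ _ _ k3).symm, ?_⟩,
    fun t t' a a' k3 k4 => k2 _ (e (c t, a), e (c t', a')) ?_⟩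
  · obtain ⟨b, -, k3⟩ := hB (c t) (c t') a a'
    rw [k3, h.2, mul_zero]
  · obtain ⟨b, k5, k6⟩ := hB (c t) (c t') a a'
    have k7 : S.B (u (c t)) (u (c t')) ≠ 0 := fun h => k4 ⟨c.injective.ne k3, h⟩
    refine ⟨k6 ▸ mul_ne_zero (Units.ne_zero _) k7, ?_⟩
    rw [k6, l1 _ _ k7, map_mul lg, map_mul lg, (hlg b).2 k5, one_mul, hrep, hrep]
    rfl

theorem ct_three [D.Normal] [Fintype F] (hF : 5 ≤ Fintype.card F) (hF2 : Odd (Fintype.card F))
    {h : ℕ} [NeZero h] (lg : Fˣ →* Multiplicative (ZMod (2 * h))) (hs : Function.Surjective lg)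
    (hlg : ∀ u, lg u = 1 ↔ u ∈ C) (hC : -1 ∉ C) {H K : Subgroup G}
    (T' : TV H K X) (hT : T'.t = T.t) (hH : Kr ρ D C (i + 1) ≤ H)
    (hbal : ∀ d, ¬ (S.Gen (Vr F n i) d ∧ S.Gen (Vr F n i) d⁻¹) →
      ∀ N, N * kk K d d = 2 * cd K → T'.Bal ⊤ d N) (hK : CT K) : CT H := by
  classical
  obtain ⟨m, k, e, P, ω, h1, h2, h3, h4, h5, -, h6, h7⟩ := S.orient hi T hF lg hs hlg
  have hneg : (lg (-1)).toAdd = h := by
    have h1 : -(lg (-1)).toAdd = (lg (-1)).toAdd := by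
      rw [← toAdd_inv, ← map_inv, inv_neg, inv_one]
    rcases (ZMod.neg_eq_self_iff _).1 h1 with h2 | h2
    · exact absurd ((hlg _).1 h2) hC
    · rw [← ZMod.natCast_zmod_val (lg (-1)).toAdd, Nat.eq_of_mul_eq_mul_left two_pos h2]
  rw [hneg] at h6
  have h8 := Nat.mul_le_mul_right (k + 1) hF
  obtain ⟨r, rfl⟩ : Even k := by
    have := even_degree h1 h2 h3
    rw [Fintype.card_fin, h4] at this
    exact (Nat.even_mul.1 this).elim (fun h => by simpa [parity_simps, hF2] using h) id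
  have he : Even (m + 4) := h4 ▸ (hF2.mul (Even.add_self r).add_one).add_one
  have h0 : r = 0 → ∀ t t', ¬ P t t' := fun h t t' h' => by
    have := single_le_sum (f := fun y => ind (P t y)) (fun _ _ => Nat.zero_le _) (mem_univ t')
    rw [h3, ind_pos h'] at this
    omega
  obtain ⟨σ, hσ⟩ : ∃ σ : Equiv.Perm (Fin (m + 4) × ZMod (2 * h)),
      ∀ (f : Fin (m + 4) × ZMod (2 * h) → Fin (m + 4) × ZMod (2 * h) → ℕ) (g0 g : ZMod (2 * h) → ℕ)
      (gp : ℕ), (∀ t a a', f (t, a) (t, a') = g0 (a' - a)) →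
      (∀ t t' a a', P t t' → f (t, a) (t', a') = gp) →
      (∀ t t' a a', t ≠ t' → ¬ P t t' → f (t, a) (t', a') = g (a + a' + ω t t')) →
      Fintype.card (Fin (m + 4) × ZMod (2 * h)) * ∑ x, f x (σ x) = ∑ x, ∑ y, f x y := by
    by_cases hr : r = 0
    · exact (exists_sigma (by rw [Fintype.card_fin]; omega) ω fun t t' k => h6 t t' k (h0 hr _ _)).imp
        fun σ k f g0 g gp k1 _ k2 => k f g0 g k1 (fun t t' a a' k3 => k2 t t' a a' k3 (h0 hr _ _))
          (Or.inl (by rwa [Fintype.card_fin]))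
    · exact sigma_three h1 h2 (k := r) (fun x => (h3 x).trans (two_mul r).symm) (by omega)
        (by rwa [Fintype.card_fin]) (by rw [Fintype.card_fin]; omega) ω h6
  choose g0 g gp k3 kp k4 using fun z => h7 _ (S.str_kk hi T T' hT hH z)
  have k5 : ∀ z c, g z (c + h) = g z c := fun z c => by
    have p1 : ¬ P 1 0 := by simpa using h5 0
    have p0 : ¬ P 0 1 := mt (h1 _ _) p1
    have k6 := k4 z 0 1 (c - ω 0 1) 0 (by simp) p0
    have k7 := k4 z 1 0 0 (c - ω 0 1) (by simp) p1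
    rw [← kk_inv, _root_.mul_inv_rev, inv_inv, k6, h6 0 1 (by simp) p0] at k7
    rw [show c + h = 0 + (c - ω 0 1) + (ω 0 1 + h) by ring, ← k7]
    congr 1; ring
  have k6 : ∀ t t' a a' z, t ≠ t' → ¬ P t t' → kk H ((T'.t (e (t, a)))⁻¹ * T'.t (e (t', a'))) z
      = g z (lo (cs h a + cs h a' + cs h (ω t t'))) := fun t t' a a' z k6 k7 => by
    rw [k4 z t t' a a' k6 k7, ← map_add, ← map_add]
    rcases lo_cs (a + a' + ω t t') with h6 | h6
    · rw [← h6]
    · rw [← k5, ← k5 z (lo _), ← h6, k5]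
  refine T'.step (fun _ hh => (T'.exists_act hh).imp fun _ h => ⟨Subgroup.mem_top _, h⟩)
    (fun d _ N hN => ?_) (fun Φ _ => ?_) hK
  · by_cases hd : S.Gen (Vr F n i) d ∧ S.Gen (Vr F n i) d⁻¹
    · refine S.bal_gen hi T ((e.symm.trans σ).trans e) (fun f hf => ?_) T' hT hH hd.1 hd.2 N
      obtain ⟨k0, k, kq, k1, k2, k3⟩ := h7 f hf
      have h6 := hσ (fun p q => f (e p) (e q)) k0 k kq k1 k2 k3
      rw [Fintype.card_congr e, ← e.symm.sum_comp, ← e.symm.sum_comp fun p => ∑ q, _] at h6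
      simpa [e.sum_comp] using h6
    · exact hbal d hd N hN
  · by_cases hr : r = 0
    · exact T'.join_twin (n := m) e (fun c z => g0 z c) (fun c z => g z (lo c))
        (fun t t' => cs h (ω t t')) (fun t a a' z => k3 z t a a')
        (fun t t' a a' z ht => k6 t t' a a' z ht (h0 hr _ _)) Φ
    · exact T'.join_three (n := m) e (fun c z => g0 z c) (fun c z => g z (lo c))
        (fun t t' => cs h (ω t t')) (fun t a a' z => k3 z t a a') h1 h2 h3 (by omega) he (by omega)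
        h5 gp (fun t t' a a' z => kp z t t' a a') k6 Φ

theorem ct_top' [Fintype F] (hF : 5 ≤ Fintype.card F) (hF2 : Odd (Fintype.card F))
    (hC : ∀ u : Fˣ, ∃ k, u ^ 2 ^ k ∈ C) (hi' : 2 * i.val + 2 < n) {H : Subgroup G}
    (T' : TV H ⊤ X) (hT : T'.t = T.t) (hH : Kr ρ D C (i + 1) ≤ H) : CT H := by
  obtain ⟨r, _, lg, hs, hlg, hr1, β, c0, hr2⟩ : ∃ r : ℕ, ∃ _ : NeZero r,
      ∃ lg : Fˣ →* Multiplicative (ZMod r), Function.Surjective lg ∧ (∀ u, lg u = 1 ↔ u ∈ C) ∧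
      (∀ F : ZMod r → ℕ, ∑ j, F (2 * j + 0) + ∑ j, F (2 * j + 1) = 2 * ∑ c, F c) ∧
      ∃ (β : Equiv.Perm (ZMod r)) (c0 : ZMod r),
        ∀ F : ZMod r → ℕ, ∑ j ∈ range (r - 1), F (β j + (j + 1 : ℕ)) + F c0 = ∑ c, F c := by
    by_cases hM : C = ⊤
    · exact ⟨1, inferInstance, 1, fun a => ⟨1, Subsingleton.elim _ _⟩, fun u => by simp [hM],
        fun F => by simp [two_mul, Subsingleton.elim _ (0 : ZMod 1)], 1, 0,
        fun F => by simp [Subsingleton.elim _ (0 : ZMod 1)]⟩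
    obtain ⟨h, _, lg, h1, h2⟩ := exists_lg' hC hM
    obtain ⟨π, h3, h4⟩ := exists_near (h := h)
    refine ⟨2 * h, inferInstance, lg, h1, h2, fun F => ?_,
      ((Equiv.addRight 1).trans (Equiv.neg _)).trans π, h, fun F => ?_⟩
    · have k3 : ∀ w, ∑ a : ZMod (2 * h), F (2 * a + w) = 2 * ∑ j : ZMod h, F (2 * lo j + w) :=
        fun w => by
          rw [← sum_lo, mul_sum]
          exact sum_congr rfl fun j _ => by
            rw [mul_add, two_mul (h : ZMod (2 * h)), h_add_h, add_zero, two_mul (F _)]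
      rw [k3, k3, ← mul_add]
      simp only [add_zero]
      rw [sum_two_mul]
    · have k1 := h4 F
      obtain ⟨r, hr⟩ : ∃ r, 2 * h = r + 1 := ⟨_, (Nat.sub_add_cancel (NeZero.pos (2 * h))).symm⟩
      rw [← Equiv.sum_comp (Equiv.neg _), zsum, show range (2 * h) = range (r + 1) by rw [hr],
        sum_range_succ'] at k1
      simp only [Equiv.neg_apply, Nat.cast_zero, neg_zero, h3, sub_zero, sub_neg_eq_add] at k1
      rw [show 2 * h - 1 = r by omega]
      simp only [Equiv.trans_apply, Equiv.coe_addRight, Equiv.neg_apply, Nat.cast_add,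
        Nat.cast_one] at k1 ⊢
      omega
  obtain ⟨m, k, e, P, ω, h1, h2, h3, h4, -, h5, -, h7⟩ := S.orient hi T hF lg hs hlg
  obtain ⟨k, rfl⟩ := Nat.exists_eq_add_one.2 (h5 hi')
  obtain ⟨j, hj⟩ := hF2
  choose g0 g gp k3 kp k4 using fun z => h7 _ (S.str_kk hi T T' hT hH z)
  exact T'.top_three e h1 h2 h3 (s := j * (k + 2)) (by rw [Fintype.card_fin, h4, hj]; ring)
    (by nlinarith) hr1 β c0 hr2 (fun c z => g0 z c) (fun c z => g z c) gp ω
    (fun t a a' z => k3 z t a a') (fun t t' a a' z => kp z t t' a a')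
    fun t t' a a' z => k4 z t t' a a'

end Sy

end Pool.Agent.Lib.MP_0becda_co.Coset
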