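import Pool.Agent.Lib.MP_0becda_co.Coset.SympOdd

/-!
Oriented isotropic flags modulo the centre.
-/

set_option linter.unusedSectionVars false

open Finset Matrix Pool.Agent.Lib.MP_0becda_co.PSL

namespace Pool.Agent.Lib.MP_0becda_co.Coset

variable {G : Type} [Group G] [Fintype G] {F : Type} [Field F] {n : ℕ}
  {ρ : G →* Matrix (Fin n) (Fin n) F} {D : Subgroup G} {C : Subgroup Fˣ}

namespace Sy

variable (S : Sy ρ D)

theorem move_out {W : Submodule F (Fin n → F)} {a b : Fin n → F} (h : b - a ∈ S.Pp W) (ha : a ∉ W)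
    (hb : b ∉ W) : ∃ s ∈ S.Gu (S.Pp W), ρ s *ᵥ a = b :=
  S.move h (mt S.mem_of_perp ha) (mt S.mem_of_perp hb)

theorem neg_pair {p r v q : Fin n → F} (h1 : S.B p v = 0) (h2 : S.B r v = 0) (h3 : S.B p q = 0)
    (h4 : S.B r q = 0) (h : ∀ a b x y : F, x • p + y • r = a • v + b • q → a • v + b • q = 0) :
    ∃ s ∈ D, ρ s *ᵥ p = p ∧ ρ s *ᵥ r = r ∧ ρ s *ᵥ v = -v ∧ ρ s *ᵥ q = -q := by
  let W := Submodule.span F {p, r}
  have k1 : ∀ u, S.B p u = 0 → S.B r u = 0 → u ∈ S.Pp W := fun u a b w hw => by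
    obtain ⟨x, y, rfl⟩ := Submodule.mem_span_pair.1 hw
    simp [a, b]
  have k2 : ∀ a b : F, a • v + b • q ∈ W → a • v + b • q = 0 := fun a b hw => by
    obtain ⟨x, y, k⟩ := Submodule.mem_span_pair.1 hw
    exact h _ _ _ _ k
  suffices ∃ s ∈ Fx ρ D W, ρ s *ᵥ v = -v ∧ ρ s *ᵥ q = -q by
    obtain ⟨s, k3, k4⟩ := this
    exact ⟨s, k3.1, Fx.fix k3 (Submodule.subset_span (by simp)),
      Fx.fix k3 (Submodule.subset_span (by simp)), k4⟩
  obtain ⟨s, k3, k4⟩ : ∃ s ∈ S.Gu (S.Pp W), ρ s *ᵥ v = -v := by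
    by_cases hv : v ∈ W
    · have := k2 1 0 (by simpa using hv)
      rw [one_smul, zero_smul, add_zero] at this
      exact ⟨1, one_mem _, by simp [this]⟩
    · exact S.move_out (sub_mem (neg_mem (k1 v h1 h2)) (k1 v h1 h2)) hv (mt neg_mem_iff.1 hv)
  have k5 := S.gu_fx le_rfl k3
  by_cases hq : q ∈ W ⊔ F ∙ v
  · obtain ⟨c, hc⟩ := mem_sup_span.1 hq
    have k6 := k2 (-c) 1 (by rwa [neg_smul, one_smul, neg_add_eq_sub])
    rw [neg_smul, one_smul, neg_add_eq_sub, sub_eq_zero] at k6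
    exact ⟨s, k5, k4, by rw [k6, mulVec_smul, k4, smul_neg]⟩
  obtain ⟨s', k6, k7⟩ := S.move_out (W := W ⊔ F ∙ v) (a := ρ s *ᵥ q) (b := -q) (fun w hw => by
    obtain ⟨c, hc⟩ := mem_sup_span.1 hw
    have e1 := k1 q h3 h4 _ hc
    have e2 := k3.2.1 (w - c • v) q
    have e3 := k3.2.1 v q
    rw [Fx.fix k5 hc, e1] at e2
    rw [k4] at e3
    simp only [map_sub, map_neg, map_smul, LinearMap.sub_apply, LinearMap.smul_apply,
      LinearMap.neg_apply, smul_eq_mul] at e1 e2 e3 ⊢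
    linear_combination -e1 - e2 + c * e3)
    (act_notMem (stb_sup k5 (c := -1) (by simpa using k4)) hq) (mt neg_mem_iff.1 hq)
  have k8 := S.gu_fx le_rfl k6
  exact ⟨s' * s, mul_mem (Fx.left k8) k5, by rw [act_mul, k4, mulVec_neg, Fx.right k8],
    by rw [act_mul, k7]⟩

theorem exists_flip {p v A B : Fin n → F} (h1 : S.B p v = 0) (hv : v ∉ F ∙ p) (h2 : S.B p A = 0)
    (h3 : S.B v B = 0) : ∃ β : Fˣ, (β = 1 ∨ β = -1) ∧ ∃ s ∈ D, ρ s *ᵥ p = p ∧ ρ s *ᵥ v = (β : F) • v ∧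
      ρ s *ᵥ A + A ∈ F ∙ p ∧ ρ s *ᵥ B + (β : F) • B ∈ F ∙ v := by
  have h4 : S.B v p = 0 := by rw [S.skew, h1, neg_zero]
  have h5 : S.B B v = 0 := by rw [S.skew, h3, neg_zero]
  have ind : ∀ a x : F, a • v = x • p → a = 0 := fun a x h => by_contra fun h0 =>
    hv ((Submodule.smul_mem_iff _ h0).1 (Submodule.mem_span_singleton.2 ⟨x, h.symm⟩))
  have c2 : ∀ l m : F, S.B (B - m • v) (A - l • p) = 0 → (∀ a b x y : F,
      x • p + y • (B - m • v) = a • v + b • (A - l • p) → a • v + b • (A - l • p) = 0) →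
      ∃ β : Fˣ, (β = 1 ∨ β = -1) ∧ ∃ s ∈ D, ρ s *ᵥ p = p ∧ ρ s *ᵥ v = (β : F) • v ∧
      ρ s *ᵥ A + A ∈ F ∙ p ∧ ρ s *ᵥ B + (β : F) • B ∈ F ∙ v := fun l m k1 k2 => by
    obtain ⟨s, k3, k4, k5, k6, k7⟩ := S.neg_pair h1 (by simp [h5, S.alt]) (by simp [h2, S.alt]) k1 k2
    rw [mulVec_sub, mulVec_smul, k6, sub_eq_iff_eq_add] at k5
    rw [mulVec_sub, mulVec_smul, k4, sub_eq_iff_eq_add] at k7
    exact ⟨-1, Or.inr rfl, s, k3, k4, by simpa using k6,
      Submodule.mem_span_singleton.2 ⟨l + l, by rw [k7]; module⟩,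
      Submodule.mem_span_singleton.2 ⟨-(m + m), by rw [k5, Units.val_neg, Units.val_one]; module⟩⟩
  by_cases h6 : S.B v A = 0
  swap
  · refine c2 0 (S.B B A / S.B v A) (by simp [div_mul_cancel₀ _ h6]) fun a b x y h => ?_
    have k1 := congrArg (S.B v) h
    have k2 := congrArg (S.B · A) h
    simp [h2, h3, h4, S.alt, h6, div_mul_cancel₀ _ h6] at k1 k2
    simp [k1, k2]
  by_cases h7 : S.B p B = 0
  swap
  · have h8 : S.B B p ≠ 0 := by rwa [S.skew, neg_ne_zero]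
    refine c2 (S.B B A / S.B B p) 0 (by simp [div_mul_cancel₀ _ h8]) fun a b x y h => ?_
    have k1 := congrArg (S.B p) h
    have k2 := congrArg (S.B B) h
    simp [h1, h2, h5, S.alt, h7, h8, div_mul_cancel₀ _ h8] at k1 k2
    rw [← h]
    simp [k1, k2]
  have h8 : S.B B p = 0 := by rw [S.skew, h7, neg_zero]
  have mem : ∀ (u : Fin n → F) (c x y : F), c • u = x • p + y • v → (¬ ∃ x y : F, u = x • p + y • v) →
      c = 0 := fun u c x y h h' => by_contra fun h0 => h' ⟨c⁻¹ * x, c⁻¹ * y, by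
        rw [mul_smul, mul_smul, ← smul_add, ← h, smul_smul, inv_mul_cancel₀ h0, one_smul]⟩
  by_cases hA : ∃ x y : F, A = x • p + y • v
  · obtain ⟨l, y0, rfl⟩ := hA
    by_cases hB : ∃ x y : F, B = x • p + y • v
    · obtain ⟨x0, m, rfl⟩ := hB
      refine c2 l m (by simp [h1]) fun a b x y h => ?_
      rw [add_sub_cancel_right, add_sub_cancel_left, smul_smul, smul_smul, ← add_smul,
        ← add_smul] at h
      rw [add_sub_cancel_left, smul_smul, ← add_smul, ind _ _ h.symm, zero_smul]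
    · refine c2 l 0 (by simp [h5]) fun a b x y h => ?_
      rw [zero_smul, sub_zero, add_sub_cancel_left, smul_smul, ← add_smul] at h
      obtain rfl := mem B y (-x) (a + b * y0) (by rw [← h]; module) hB
      rw [add_sub_cancel_left, smul_smul, ← add_smul, ind (a + b * y0) x (by simpa using h.symm),
        zero_smul]
  by_cases hB : ∃ x y : F, B = x • p + y • v
  · obtain ⟨x0, m, rfl⟩ := hB
    refine c2 0 m (by simp [h2]) fun a b x y h => ?_
    rw [zero_smul, sub_zero, add_sub_cancel_right, smul_smul, ← add_smul] at h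
    obtain rfl := mem A b (x + y * x0) (-a) (by rw [h]; module) hA
    rw [ind a _ (by simpa using h.symm)]
    simp
  obtain ⟨l, m, k1⟩ : ∃ l m : F, ∀ a b x y : F,
      x • p + y • v = a • (A - l • p) + b • (B - m • v) → a • (A - l • p) + b • (B - m • v) = 0 := by
    by_cases h : ∃ c x y : F, B = c • A + x • p + y • v
    · obtain ⟨c, x0, y0, rfl⟩ := h
      have h0 : c ≠ 0 := by rintro rfl; exact hB ⟨x0, y0, by simp⟩
      have k1 : c • A + x0 • p + y0 • v - y0 • v = c • (A - (-x0 / c) • p) := by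
        rw [smul_sub, smul_smul, mul_div_cancel₀ _ h0]; module
      refine ⟨-x0 / c, y0, fun a b x y h => ?_⟩
      rw [k1, smul_smul, ← add_smul] at h ⊢
      rw [mem A (a + b * c) (x + (a + b * c) * (-x0 / c)) y (by
        rw [add_smul x, add_right_comm, h]; module) hA, zero_smul]
    · refine ⟨0, 0, fun a b x y k => ?_⟩
      simp only [zero_smul, sub_zero] at k ⊢
      obtain rfl : b = 0 := by_contra fun h0 => h ⟨-(b⁻¹ * a), b⁻¹ * x, b⁻¹ * y, by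
        rw [add_assoc, mul_smul, mul_smul, ← smul_add, k, smul_add, smul_smul, smul_smul,
          inv_mul_cancel₀ h0]; module⟩
      rw [mem A a x y (by simpa using k.symm) hA]
      simp
  obtain ⟨s, k3, k4, k5, k6, k7⟩ := S.neg_pair (by simp [h2, S.alt]) (by simp [h6, h4])
    (by simp [h7, h1]) (by simp [h3, S.alt]) k1
  rw [mulVec_sub, mulVec_smul, k4, sub_eq_iff_eq_add] at k6
  rw [mulVec_sub, mulVec_smul, k5, sub_eq_iff_eq_add] at k7
  exact ⟨1, Or.inl rfl, s, k3, k4, by simpa using k5,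
    Submodule.mem_span_singleton.2 ⟨l + l, by rw [k6]; module⟩,
    Submodule.mem_span_singleton.2 ⟨m + m, by rw [k7, Units.val_one]; module⟩⟩

variable {Z : Subgroup G} (R : Tw ρ D C Z) {o : Fin n} (ho : o.val = 0)
  (hiso : ∀ g v w, S.B (ρ g *ᵥ v) (ρ g *ᵥ w) = S.B v w)

include R ho hiso

theorem st_pair {r : ℕ} (hr : 0 < r) {d : G} (h : ∃ w ∈ Vr F n r, ρ d *ᵥ w ∉ S.Pp (Vr F n r))
    {s : G} (hs : s ∈ St (Kr ρ D C r ⊔ Z) d) : ∃ k ∈ St (Kr ρ D C r) d, ∃ z : Z, s = k * z := by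
  obtain ⟨lam, hlam⟩ := R.exists_lam ho hr
  have ha := hlam ⟨_, (mem_St.1 hs).1⟩
  have hb := hlam ⟨_, (mem_St.1 hs).2⟩
  refine R.st_split ho hr hs ha hb ?_
  obtain ⟨k, hk, k', hk', z, c, hc, k1, k2⟩ := R.nu_spec ho hr hs ha hb
  obtain ⟨w, -, -, h1, h2⟩ := exists_step (ρ := ρ) (D := D) (C := C) (Y := ⊤)
    (Y' := (S.Pp (Vr F n r)).comap (ρ d).mulVecLin) (h.imp fun w hw => ⟨hw.1, trivial, hw.2⟩)
  obtain ⟨v, h3, -, h4, h5⟩ := exists_step (ρ := ρ) (D := D) (C := C) (r := r) (Y := ⊤)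
    (Y' := LinearMap.ker (S.B (ρ d *ᵥ w))) (by
      by_contra h3
      exact h1 fun v hv => by
        rw [mulVecLin_apply, S.skew, show S.B (ρ d *ᵥ w) v = 0 from
          by_contra fun h4 => h3 ⟨v, hv, trivial, h4⟩, neg_zero])
  obtain ⟨c1, p1, q1⟩ := h2 k' hk' trivial
  obtain ⟨c2, p2, q2⟩ := h5 k hk trivial
  have q3 := S.pp_zero q1 (kr_le_stb le_rfl hk v h3)
  have q4 := hiso k (ρ d *ᵥ w) v
  rw [show ρ k *ᵥ (ρ d *ᵥ w) = (R.ζ z : F) • ρ d *ᵥ (ρ k' *ᵥ w) by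
    rw [← mulVec_smul, ← mulVec_smul, ← R.act, ← act_mul k', ← k1, ← act_mul, ← act_mul,
      ← mul_assoc, mul_inv_cancel_left]] at q4
  simp only [LinearMap.mem_ker, mulVecLin_apply, mulVec_sub, mulVec_smul, map_sub, map_smul,
    LinearMap.sub_apply, LinearMap.smul_apply, smul_eq_mul] at q2 q3 q4 h4
  have q5 : R.ζ z * (c1 * c2) = 1 := Units.ext (mul_right_cancel₀ h4 (by
    simp only [Units.val_mul, Units.val_one]
    linear_combination q4 - R.ζ z * q3 - R.ζ z * c1 * q2))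
  rw [k2, eq_inv_of_mul_eq_one_left q5]
  exact mul_mem hc (inv_mem (mul_mem p1 p2))

variable [Fintype F] (hF : 5 ≤ Fintype.card F) (hF2 : Odd (Fintype.card F))
  (hC : ∀ u : Fˣ, ∃ k, u ^ 2 ^ k ∈ C) (h2 : -1 ∉ C)

include hF hF2 hC h2

theorem bal_first [D.Normal] (hneg : -1 ∈ R.M0) {i : Fin n} (hi1 : i.val = 1) (hi : 2 * i.val + 2 ≤ n)
    {X : Type} [Fintype X] (T : TV (Kr ρ D C (i + 1)) (Kr ρ D C i) X) {d : G}
    (h0 : ρ d *ᵥ Pi.single o 1 ∉ Vr F n i) (h1 : ρ d *ᵥ Pi.single o 1 ∈ S.Pp (Vr F n i)) {N : ℕ}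
    (hN : N * kk (Kr ρ D C i ⊔ Z) d d = 2 * cd (Kr ρ D C i ⊔ Z)) :
    (R.tv ho (by omega) T).Bal ⊤ d N := by
  classical
  have m2 : ∀ u ∈ R.M0, u ∈ C ∨ -u ∈ C := fun u hu => by
    obtain ⟨c, hc, z, -, rfl⟩ := R.exists_z hu
    have := hiso z (Pi.single o 1) (Pi.single o.rev 1)
    simp only [R.act, map_smul, LinearMap.smul_apply, S.single, smul_eq_mul, Pi.smul_apply,
      Pi.single_eq_same, mul_one, ← mul_assoc] at this
    refine (mul_self_eq_one_iff.1 (mul_right_cancel₀ (S.ne o) (this.trans (one_mul _).symm))).imp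
      (fun h => ?_) fun h => ?_
    · rwa [show R.ζ z = 1 from Units.ext h, mul_one]
    · rwa [show R.ζ z = -1 from Units.ext h, mul_neg, neg_neg, mul_one]
  obtain ⟨h, _, lg, hs, hlg⟩ := exists_lg (M := R.M0) hC fun h => h2 (h hneg)
  have m3 : ∀ a : ZMod (2 * h), a = 0 ∨ a = (lg ⟨-1, hneg⟩).toAdd := fun a => by
    obtain ⟨u, hu⟩ := hs (Multiplicative.ofAdd a)
    refine (m2 u u.2).imp (fun k => ?_) fun k => ?_
    · simpa [hu] using (hlg u).2 k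
    · have k1 := (hlg (u⁻¹ * ⟨-1, hneg⟩)).2 (by simpa using inv_mem k)
      rw [map_mul, map_inv, inv_mul_eq_one, hu] at k1
      rw [← k1, toAdd_ofAdd]
  have m4 : (lg ⟨-1, hneg⟩).toAdd + (lg ⟨-1, hneg⟩).toAdd = 0 := by
    rw [← toAdd_mul, ← map_mul, (hlg _).2 (by simp [one_mem]), toAdd_one]
  have m5 : ∀ a : ZMod (2 * h), a + a = 0 := fun a => by
    rcases m3 a with k | k <;> rw [k]
    exacts [add_zero _, m4]
  obtain rfl : h = 1 := by
    have k1 := (ZMod.natCast_eq_zero_iff 2 (2 * h)).1 (by simpa [one_add_one_eq_two] using m5 1)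
    have k2 := Nat.le_of_dvd two_pos k1
    have := NeZero.pos h
    omega
  obtain ⟨Y, _, e, k1, -⟩ := S.fibre hi T (M := R.M0) le_sup_left lg hs hlg
  obtain ⟨x0, hx⟩ := S.surj hi T h1 h0
  obtain ⟨j, rfl⟩ : Fintype.card Y ∣ N := by
    refine dvd_of_count hN ?_
    rw [← (R.tv ho (by omega) T).card_mul, ← Fintype.card_congr e, Fintype.card_prod, mul_assoc]
    exact Nat.mul_dvd_mul_left _ ((R.cd_st_dvd ho (by omega) lg (fun u => (hlg u).1)
      (fun s hs a b => R.nu_mem ho (by omega) hs) (T.t x0) (Tw.fix_col ho (by omega) T hx)).trans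
        (by simp))
  rw [mul_comm]
  refine TV.Bal.mul ?_ j
  have hY : Even (Fintype.card Y) := by
    obtain ⟨h, _, lg', k3, k4⟩ := exists_lg' hC fun h => h2 (h ▸ Subgroup.mem_top _)
    obtain ⟨m, k, e', P, -, p1, p2, p3, p4, -⟩ := S.orient hi T hF lg' k3 k4
    have k5 := even_degree p1 p2 p3
    rw [Fintype.card_fin, p4] at k5
    have k7 : Even k := (Nat.even_mul.1 k5).elim (fun h => by simpa [parity_simps, hF2] using h) id
    have k6 := Fintype.card_congr (e.trans e'.symm)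
    rw [Fintype.card_prod, Fintype.card_prod, ZMod.card, ZMod.card, Fintype.card_fin,
      mul_one, mul_left_comm, mul_comm, mul_right_inj' two_ne_zero, p4] at k6
    exact k6 ▸ (hF2.mul k7.add_one).add_one.mul_right _
  refine (R.tv ho (by omega) T).bal_special e (fun _ => False) (fun _ => False) id (fun _ h => h.elim)
    (fun _ _ h => h.elim) (Or.inl hY) (fun _ _ _ _ _ h => h.elim) (fun _ _ _ _ _ h => by simp at h)
    fun x y a b c g _ _ => ?_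
  rw [two_mul c, m5, add_zero]
  rcases m3 a with rfl | rfl
  · rw [zero_add]
  have e0 : Pi.single o 1 ∈ Vr F n i := single_mem (by omega)
  have e1 := (Submodule.span_singleton_le_iff_mem _ _).2 e0
  obtain ⟨β, hβ, s, t1, t2, t3, t4, t5⟩ := S.exists_flip (h1 _ e0) (mt (e1 ·) h0)
    (S.vec_pp hi T (e (x, (lg ⟨-1, hneg⟩).toAdd)) _ e0)
    ((hiso d _ _).trans (S.vec_pp hi T (e (y, b)) _ e0))
  have t6 := R.shift ho hi1 T (d := d) (s := s) ⟨t1, fun w hw => by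
    rw [vr_one ho hi1 hw, mulVec_smul, t2]⟩ (β := β) (hβ.elim (· ▸ one_mem _) (· ▸ hneg)) t3
    ((rel_of_sub (by simpa using e1 t4)).trans (k1 x ⟨-1, hneg⟩ (lg ⟨-1, hneg⟩).toAdd)) (Rel.refl _)
    (k1 y ⟨-1, hneg⟩ b) (by simpa [mulVec_neg, -mulVec_mulVec] using t5) g
  rw [m4] at t6
  exact t6.symm

theorem bal_second {i : Fin n} (hr : 1 < i.val) (hi : 2 * i.val + 2 ≤ n) {m : ℕ} (hn : n = 2 * m)
    {X : Type} [Fintype X] (T : TV (Kr ρ D C (i + 1)) (Kr ρ D C i) X) {d : G} {l : Fin n}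
    (hl : l.val = 1) (h0 : ρ d *ᵥ Pi.single o 1 ∉ Vr F n i)
    (h1 : ρ d *ᵥ Pi.single l 1 ∉ Vr F n i ⊔ F ∙ (ρ d *ᵥ Pi.single o 1))
    (hp : ∀ v ∈ Vr F n i, ρ d *ᵥ v ∈ S.Pp (Vr F n i)) {N : ℕ}
    (hN : N * kk (Kr ρ D C i ⊔ Z) d d = 2 * cd (Kr ρ D C i ⊔ Z)) :
    (R.tv ho (by omega) T).Bal ⊤ d N := by
  let j : Fin n := ⟨i + 1, by omega⟩
  let _ := Fintype.ofFinite (Kr ρ D C j ⧸ (Kr ρ D C (j + 1)).subgroupOf (Kr ρ D C j))
  let T2 := tvq (kr_succ_le (ρ := ρ) (D := D) (C := C) j)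
  obtain ⟨h, _, lg, hs, hlg⟩ := exists_lg' hC fun h => h2 (h ▸ Subgroup.mem_top _)
  have e0 : Pi.single o 1 ∈ Vr F n i := single_mem (by omega)
  have e1 : Pi.single l 1 ∈ Vr F n i := single_mem (by omega)
  obtain ⟨w, h2', h3⟩ := S.move_out (sub_mem (hp _ e0) (S.mem_pp_vr.2 (single_mem (a := i) (by omega))))
    (single_notMem i) h0
  have h2 := S.gu_fx le_rfl h2'
  have h4 : ρ w⁻¹ *ᵥ (ρ d *ᵥ Pi.single l 1) ∉ Vr F n j := fun h4 => h1 (mem_sup_span.2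
    ⟨(ρ w⁻¹ *ᵥ (ρ d *ᵥ Pi.single l 1)) i, by
      have h5 : ρ w⁻¹ *ᵥ (ρ d *ᵥ Pi.single l 1) - (ρ w⁻¹ *ᵥ (ρ d *ᵥ Pi.single l 1)) i •
          Pi.single i 1 ∈ Vr F n i := fun a ha => by
        rcases (show i ≤ a from ha).eq_or_lt with rfl | ha
        · simp
        · rw [Pi.sub_apply, h4 a ha]; simp [ha.ne']
      have h6 := Fx.fix h2 h5
      rw [mulVec_sub, mulVec_smul, h3, ← act_mul, mul_inv_cancel, map_one, one_mulVec] at h6
      rwa [h6]⟩)
  have p4 : ρ w⁻¹ *ᵥ (ρ d *ᵥ Pi.single l 1) ∈ Vr F n (n - j) := fun a ha => by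
    by_cases h5 : a = i.rev
    · have h6 := hiso w (Pi.single i 1) (ρ w⁻¹ *ᵥ (ρ d *ᵥ Pi.single l 1))
      rw [h3, act_inv, hiso, S.iso (by omega) e1 _ e0, S.single] at h6
      exact h5 ▸ (mul_eq_zero.1 h6.symm).resolve_left (S.ne _)
    · refine S.mem_pp_vr.1 (S.act_pp (inv_mem (Fx.stb h2)) (hp _ e1)) a ?_
      have := Fin.val_ne_of_ne h5
      simp only [j, Fin.val_rev] at ha this
      omega
  have hj : 2 * j.val + 2 ≤ n := by_contra fun h5 => h4 fun a ha => p4 a (by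
    simp only [j] at h5 ha ⊢
    omega)
  obtain ⟨m, -, e, -⟩ := S.orient hj T2 hF lg hs hlg
  obtain ⟨w', h5', h6⟩ := S.move_out (sub_mem (S.mem_pp_vr.2 p4)
    (S.mem_pp_vr.2 (single_mem (a := j) (by omega)))) (single_notMem j) h4
  have h5 := S.gu_fx le_rfl h5'
  have h7 : ρ (w * w') *ᵥ Pi.single i 1 = ρ d *ᵥ Pi.single o 1 := by
    rw [act_mul, Fx.fix h5 (single_mem (by simp [j])), h3]
  have h8 : ρ (w * w') *ᵥ Pi.single j 1 = ρ d *ᵥ Pi.single l 1 := by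
    rw [act_mul, h6, ← act_mul, mul_inv_cancel, map_one, one_mulVec]
  have h9 : w * w' ∈ Kr ρ D C i := mul_mem (mem_kr_of_fix h2) (kr_succ_le _ (mem_kr_of_fix h5))
  obtain ⟨k, rfl⟩ : Fintype.card X ∣ N := by
    refine dvd_of_count hN ?_
    rw [← (R.tv ho (by omega) T).card_mul]
    refine Nat.mul_dvd_mul_left _ ((R.cd_st_dvd ho (by omega) (lg.comp (Subgroup.subtype ⊤))
      (fun u => (hlg u).1) (fun _ _ _ _ _ _ => trivial) (w * w') (H := Kr ρ D C (j + 1))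
        fun s hs => ?_).trans ?_)
    · obtain ⟨k1, k2⟩ := mem_St.1 hs
      have k3 : ∀ v, ρ s *ᵥ (ρ d *ᵥ v) = ρ d *ᵥ (ρ (d⁻¹ * s * d) *ᵥ v) := fun v => by
        rw [← act_mul, ← act_mul, ← mul_assoc, mul_inv_cancel_left]
      obtain ⟨c, hc, k4⟩ := Tw.kr_eig ho (by omega) k2
      have k5 : (w * w')⁻¹ * (s * (w * w')) ∈ Kr ρ D C j := (mem_kr_succ h9 (mul_mem k1 h9)).2
        ⟨c, hc, by rw [act_mul s, h7, k3, k4, mulVec_smul, sub_self]; exact zero_mem _⟩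
      rw [← mul_assoc] at k5
      rw [← one_mul (_ * _ * _), ← inv_one, mem_kr_succ (one_mem _) k5, map_one, one_mulVec]
      obtain ⟨c', hc', a, k7⟩ := kr_eig_one ho hl hr k2
      refine ⟨c', hc', ?_⟩
      rw [act_mul, act_mul, h8, k3, k7, mulVec_add, mulVec_smul, mulVec_smul,
        ← h7, ← h8, mulVec_add, mulVec_smul, mulVec_smul, inv_act, inv_act, add_sub_cancel_right]
      exact Submodule.smul_mem _ _ (single_mem (by simp [j]))
    · rw [← (R.tv ho (by simp [j]) T2).card_mul, ← Fintype.card_congr e, Fintype.card_prod]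
      exact Nat.mul_dvd_mul_right (by simp) _
  rw [mul_comm]
  exact (TV.bal_latin _ d).mul k

theorem ct_step [D.Normal] (hsq : ∀ u : Fˣ, u ^ 2 ∈ C → u ∈ C ∨ -u ∈ C) {m : ℕ} (hn : n = 2 * m)
    (i : Fin n) (hr : 0 < i.val) (hi : 2 * i.val + 2 ≤ n) (h : CT (Kr ρ D C i ⊔ Z)) :
    CT (Kr ρ D C (i + 1) ⊔ Z) := by
  let _ := Fintype.ofFinite (Kr ρ D C i ⧸ (Kr ρ D C (i + 1)).subgroupOf (Kr ρ D C i))
  let T := tvq (kr_succ_le (ρ := ρ) (D := D) (C := C) i)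
  let l : Fin n := ⟨1, by omega⟩
  obtain ⟨k, _, lg, h3, h4⟩ := exists_lg' hC fun h => h2 (h ▸ Subgroup.mem_top _)
  refine S.ct_three hi T hF hF2 lg h3 h4 h2 (R.tv ho hr T) rfl le_sup_left (fun d hd N hN => ?_) h
  have sp : (∀ s ∈ St (Kr ρ D C i ⊔ Z) d, ∃ k ∈ St (Kr ρ D C i) d, ∃ z : Z, s = k * z) →
      (R.tv ho hr T).Bal ⊤ d N := fun h => by
    obtain ⟨w, hw⟩ := S.exists_conj hi T hd
    refine TV.bal_fix _ w (fun s hs => ?_) hN
    obtain ⟨k, hk, z, rfl⟩ := h s hs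
    exact R.conj_mem (hw k hk) z
  by_cases hM : -1 ∈ R.M0
  swap
  · refine sp fun s hs => ?_
    obtain ⟨lam, hlam⟩ := R.exists_lam ho hr
    exact R.st_split ho hr hs (hlam ⟨_, (mem_St.1 hs).1⟩) (hlam ⟨_, (mem_St.1 hs).2⟩)
      (neg_one_mem hC hsq le_sup_left hM
        (R.nu_mem ho hr hs (hlam ⟨_, (mem_St.1 hs).1⟩) (hlam ⟨_, (mem_St.1 hs).2⟩)))
  by_cases hc : ∃ v ∈ Vr F n i, v ≠ 0 ∧ ρ d *ᵥ v ∈ Vr F n i
  · exact sp fun s => R.st_common ho hr hc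
  by_cases hp : ∃ w ∈ Vr F n i, ρ d *ᵥ w ∉ S.Pp (Vr F n i)
  · exact sp fun s => S.st_pair R ho hiso hr hp
  have hp' : ∀ v ∈ Vr F n i, ρ d *ᵥ v ∈ S.Pp (Vr F n i) := fun v hv => by_contra fun h => hp ⟨v, hv, h⟩
  have e1 : ∀ a : Fin n, a.val < i → Pi.single a 1 ∈ Vr F n i := fun a ha => single_mem ha
  have h7 : ρ d *ᵥ Pi.single o 1 ∉ Vr F n i := fun h => hc ⟨_, e1 o (by omega), by simp, h⟩
  by_cases h1 : i.val = 1
  · exact S.bal_first R ho hiso hF hF2 hC h2 hM h1 hi T h7 (hp' _ (e1 o (by omega))) hN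
  refine S.bal_second R ho hiso hF hF2 hC h2 (by omega) hi hn T (l := l) rfl h7 (fun h => ?_) hp' hN
  obtain ⟨c, h⟩ := mem_sup_span.1 h
  refine hc ⟨Pi.single l 1 - c • Pi.single o 1, sub_mem (e1 l (by simp [l]; omega))
    (Submodule.smul_mem _ _ (e1 o (by omega))), fun h => ?_, by rwa [mulVec_sub, mulVec_smul]⟩
  have : l ≠ o := fun h => by simpa [l, ho] using congrArg Fin.val h
  simpa [this] using congrFun h l

end Sy

end Pool.Agent.Lib.MP_0becda_co.Coset
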