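import Pool.Agent.Lib.MP_0becda_co.Coset.Bottom
import Pool.Agent.Lib.MP_0becda_co.Coset.Block

/-!
Oriented flags modulo a group of scalars.
-/

set_option linter.unusedSectionVars false

open Finset Matrix Pool.Agent.Lib.MP_0becda_co.PSL

namespace Pool.Agent.Lib.MP_0becda_co.Coset

variable {G : Type} [Group G] [Fintype G] {F : Type} [Field F] {n : ℕ}
  {ρ : G →* Matrix (Fin n) (Fin n) F} {D : Subgroup G} {C : Subgroup Fˣ}

theorem vr_zero {v : Fin n → F} (h : v ∈ Vr F n 0) : v = 0 := funext fun a => h a (Nat.zero_le _)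

theorem act_top {r : ℕ} {g : G} (hg : g ∈ Kr ρ D C r) {l : Fin n} (hl : l.val < r) {v : Fin n → F}
    (hv : v ∈ Vr F n (l + 1)) : (ρ g *ᵥ v) l = ρ g l l * v l :=
  sum_eq_single (s := univ) (f := fun b => ρ g l b * v b) l (fun b _ hb => by
    rcases hb.lt_or_gt with hb | hb
    · rw [(hg.2 b (lt_trans hb hl)).2 l hb, zero_mul]
    · rw [hv b hb, mul_zero]) (by simp)

theorem eig_mem {r : ℕ} {g : G} (hg : g ∈ Kr ρ D C r) {v : Fin n → F} (hv : v ∈ Vr F n r) (h0 : v ≠ 0)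
    {a : F} (h : ρ g *ᵥ v = a • v) : ∃ c ∈ C, a = (c : F) := by
  classical
  obtain ⟨l, h1, h2⟩ := exists_max_image (univ.filter fun l => v l ≠ 0) id (by
    obtain ⟨l, hl⟩ := Function.ne_iff.1 h0
    exact ⟨l, mem_filter.2 ⟨mem_univ _, hl⟩⟩)
  have h3 := (mem_filter.1 h1).2
  have h4 : l.val < r := lt_of_not_ge fun h => h3 (hv l h)
  obtain ⟨c, hc, h5⟩ := (hg.2 l h4).1
  have h6 := act_top hg h4 (v := v) fun b hb => by_contra fun h =>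
    (h2 b (mem_filter.2 ⟨mem_univ _, h⟩)).not_gt hb
  rw [h, h5] at h6
  exact ⟨c, hc, mul_right_cancel₀ h3 h6⟩

theorem exists_common {r : ℕ} {d : G} (h : ∃ v ∈ Vr F n r, v ≠ 0 ∧ ρ d *ᵥ v ∈ Vr F n r) :
    ∃ v ∈ Vr F n r, v ≠ 0 ∧ ρ d *ᵥ v ∈ Vr F n r ∧ ∀ k ∈ Kr ρ D C r,
      d * k * d⁻¹ ∈ Stb ρ (Vr F n r) → ∃ a : F, ρ k *ᵥ v = a • v := by
  classical
  have h0 : ∃ j, j ≤ r ∧ ∃ v ∈ Vr F n j, v ≠ 0 ∧ ρ d *ᵥ v ∈ Vr F n r := ⟨r, le_rfl, h⟩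
  obtain ⟨h1, v, h2, h3, h4⟩ := Nat.find_spec h0
  have h5 := fun j => Nat.find_min h0 (m := j)
  generalize Nat.find h0 = j at h1 h2 h5
  obtain _ | j := j
  · exact absurd (vr_zero h2) h3
  have h6 : j < n := by
    by_contra h6
    exact h5 j (by omega) ⟨by omega, v, fun a ha => by have := a.2; omega, h3, h4⟩
  refine ⟨v, fun a ha => h2 a (h1.trans ha), h3, h4, fun k hk h7 => ⟨ρ k ⟨j, h6⟩ ⟨j, h6⟩, ?_⟩⟩
  by_contra h8
  refine h5 j (by omega) ⟨by omega, _, fun a ha => ?_, sub_ne_zero.2 h8, ?_⟩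
  · rcases ha.eq_or_lt with ha | ha
    · obtain rfl : a = ⟨j, h6⟩ := Fin.ext ha.symm
      rw [Pi.sub_apply, act_top hk (show j < r by omega) h2]; simp
    · rw [Pi.sub_apply, kr_le_stb h1 hk v h2 a ha, Pi.smul_apply, h2 a ha]; simp
  · have := h7 _ h4
    rw [act_mul, inv_act, act_mul] at this
    rw [mulVec_sub, mulVec_smul]
    exact sub_mem this (Submodule.smul_mem _ _ h4)

/-- a central subgroup acting by scalars -/
structure Tw (ρ : G →* Matrix (Fin n) (Fin n) F) (D : Subgroup G) (C : Subgroup Fˣ)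
    (Z : Subgroup G) where
  ζ : Z →* Fˣ
  act : ∀ (z : Z) v, ρ z *ᵥ v = (ζ z : F) • v
  cen : Z ≤ Subgroup.center G
  det : ∀ g, g ∈ D ↔ ∃ c ∈ C, (ρ g).det = (c : F)

namespace Tw

variable {Z : Subgroup G} (S : Tw ρ D C Z) {o : Fin n} (ho : o.val = 0)

include S in
theorem normal : Z.Normal := ⟨fun z hz g => by
  rwa [Subgroup.mem_center_iff.1 (S.cen hz) g, mul_inv_cancel_right]⟩

include S in
theorem split {K : Subgroup G} {g : G} (h : g ∈ K ⊔ Z) : ∃ k ∈ K, ∃ z : Z, g = k * z := by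
  have := S.normal
  obtain ⟨k, hk, z, hz, rfl⟩ := Subgroup.mem_sup_of_normal_right.1 h
  exact ⟨k, hk, ⟨z, hz⟩, rfl⟩

theorem mem_iff (z : Z) : (z : G) ∈ D ↔ S.ζ z ^ n ∈ C := by
  have h1 : ρ z = (S.ζ z : F) • (1 : Matrix (Fin n) (Fin n) F) := by
    ext a b
    simpa [one_apply, Pi.single_apply] using congrFun (S.act z (Pi.single b 1)) a
  rw [S.det, h1, det_smul, det_one, mul_one, Fintype.card_fin, ← Units.val_pow_eq_pow_val]
  exact ⟨fun ⟨c, hc, h⟩ => Units.ext h ▸ hc, fun h => ⟨_, h, rfl⟩⟩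

theorem mem_kr {z : Z} (h : S.ζ z ∈ C) (r : ℕ) : (z : G) ∈ Kr ρ D C r :=
  ⟨(S.mem_iff z).2 (pow_mem h n), fun i _ => (rel_col _ i).1 ⟨_, h, by simp [S.act]⟩⟩

/-- the scalars that occur in the normal subgroup -/
def M0 : Subgroup Fˣ := C ⊔ (D.subgroupOf Z).map S.ζ

theorem exists_z {u : Fˣ} (h : u ∈ S.M0) : ∃ c ∈ C, ∃ z : Z, (z : G) ∈ D ∧ u = c * S.ζ z := by
  obtain ⟨c, hc, _, ⟨z, hz, rfl⟩, h⟩ := Subgroup.mem_sup.1 h
  exact ⟨c, hc, z, hz, h.symm⟩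

include ho in
theorem kr_eig {r : ℕ} (hr : 0 < r) {g : G} (hg : g ∈ Kr ρ D C r) :
    ∃ c ∈ C, ρ g *ᵥ Pi.single o 1 = (c : F) • Pi.single o 1 := by
  obtain ⟨c, hc, h⟩ := (rel_col g o).2 (hg.2 o (by omega))
  exact ⟨c, hc, sub_eq_zero.1 (vr_zero (ho ▸ h))⟩

theorem eig_inj {a b : F} (h : a • (Pi.single o 1 : Fin n → F) = b • Pi.single o 1) : a = b := by
  simpa using congrFun h o

include S ho in
theorem mem_of_eig {r : ℕ} (hr : 0 < r) {g : G} (hg : g ∈ Kr ρ D C r ⊔ Z) {c : Fˣ} (hc : c ∈ C)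
    (h : ρ g *ᵥ Pi.single o 1 = (c : F) • Pi.single o 1) : g ∈ Kr ρ D C r := by
  obtain ⟨k, hk, z, rfl⟩ := S.split hg
  obtain ⟨c', hc', h1⟩ := kr_eig ho hr hk
  rw [act_mul, S.act, mulVec_smul, h1, smul_smul, ← Units.val_mul] at h
  exact mul_mem hk (S.mem_kr ((C.mul_mem_cancel_right hc').1 (Units.ext (eig_inj h) ▸ hc)) r)

/-- the same transversal works modulo the scalars -/
def tv {r : ℕ} (hr : 0 < r) {X : Type} (T : TV (Kr ρ D C (r + 1)) (Kr ρ D C r) X) :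
    TV (Kr ρ D C (r + 1) ⊔ Z) (Kr ρ D C r ⊔ Z) X where
  t := T.t
  le := sup_le_sup_right T.le _
  mem x := Subgroup.mem_sup_left (T.mem x)
  ex g hg := by
    obtain ⟨k, hk, z, rfl⟩ := S.split hg
    obtain ⟨x, hx⟩ := T.ex k hk
    exact ⟨x, mul_assoc _ k _ ▸ Subgroup.mul_mem_sup hx z.2⟩
  uniq x y h := by
    obtain ⟨c, hc, h1⟩ := kr_eig ho hr (mul_mem (inv_mem (T.mem x)) (T.mem y))
    exact T.uniq x y (S.mem_of_eig ho (by omega) h hc h1)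

include S ho in
theorem st_split {r : ℕ} (hr : 0 < r) {d s : G} (hs : s ∈ St (Kr ρ D C r ⊔ Z) d) {a b : Fˣ}
    (ha : ρ s *ᵥ Pi.single o 1 = (a : F) • Pi.single o 1)
    (hb : ρ (d⁻¹ * s * d) *ᵥ Pi.single o 1 = (b : F) • Pi.single o 1) (h : b * a⁻¹ ∈ C) :
    ∃ k ∈ St (Kr ρ D C r) d, ∃ z : Z, s = k * z := by
  obtain ⟨k, hk, z, rfl⟩ := S.split (mem_St.1 hs).1
  obtain ⟨c, hc, h1⟩ := kr_eig ho hr hk
  rw [act_mul, S.act, mulVec_smul, h1, smul_smul, ← Units.val_mul] at ha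
  have h2 : d⁻¹ * k * d = d⁻¹ * (k * z) * d * (z⁻¹ : Z) := by
    rw [mul_assoc _ d, Subgroup.mem_center_iff.1 (S.cen (z⁻¹).2) d]; simp [mul_assoc]
  refine ⟨k, mem_St.2 ⟨hk, S.mem_of_eig ho hr (h2 ▸ mul_mem (mem_St.1 hs).2
    (Subgroup.mem_sup_right (z⁻¹).2)) (mul_mem h hc) ?_⟩, z, rfl⟩
  rw [h2, act_mul, S.act, mulVec_smul, hb, smul_smul, ← Units.ext (eig_inj ha), map_inv,
    ← Units.val_mul]
  congr 2
  rw [_root_.mul_inv_rev, mul_comm c⁻¹, ← mul_assoc, inv_mul_cancel_right, mul_comm]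

include S ho in
theorem exists_lam {r : ℕ} (hr : 0 < r) : ∃ lam : (Kr ρ D C r ⊔ Z : Subgroup G) →* Fˣ,
    ∀ g : (Kr ρ D C r ⊔ Z : Subgroup G), ρ g *ᵥ Pi.single o 1 = (lam g : F) • Pi.single o 1 := by
  have h1 : ∀ g : (Kr ρ D C r ⊔ Z : Subgroup G), ∃ c : Fˣ,
      ρ g *ᵥ Pi.single o 1 = (c : F) • Pi.single o 1 := fun g => by
    obtain ⟨k, hk, z, h⟩ := S.split g.2
    obtain ⟨c, hc, h1⟩ := kr_eig ho hr hk
    exact ⟨c * S.ζ z, by
      rw [h, act_mul, S.act, mulVec_smul, h1, smul_smul, Units.val_mul, mul_comm]⟩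
  choose lam h using h1
  exact ⟨MonoidHom.mk' lam fun g g' => Units.ext (eig_inj (o := o) (by
    rw [← h, Subgroup.coe_mul, act_mul, h, mulVec_smul, h, smul_smul, mul_comm]; rfl)), h⟩

include ho in
theorem nu_spec {r : ℕ} (hr : 0 < r) {d s : G} (hs : s ∈ St (Kr ρ D C r ⊔ Z) d) {a b : Fˣ}
    (ha : ρ s *ᵥ Pi.single o 1 = (a : F) • Pi.single o 1)
    (hb : ρ (d⁻¹ * s * d) *ᵥ Pi.single o 1 = (b : F) • Pi.single o 1) :
    ∃ k ∈ Kr ρ D C r, ∃ k' ∈ Kr ρ D C r, ∃ z : Z, ∃ c ∈ C,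
      d⁻¹ * k * d = k' * z ∧ b * a⁻¹ = c * S.ζ z := by
  obtain ⟨k', hk', z', h⟩ := S.split (mem_St.1 hs).2
  obtain ⟨k, hk, z, rfl⟩ := S.split (mem_St.1 hs).1
  obtain ⟨c, hc, h1⟩ := kr_eig ho hr hk
  obtain ⟨c', hc', h2⟩ := kr_eig ho hr hk'
  rw [act_mul, S.act, mulVec_smul, h1, smul_smul, ← Units.val_mul] at ha
  rw [h, act_mul, S.act, mulVec_smul, h2, smul_smul, ← Units.val_mul] at hb
  refine ⟨k, hk, k', hk', z' * z⁻¹, c' * c⁻¹, mul_mem hc' (inv_mem hc), ?_, ?_⟩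
  · rw [Subgroup.coe_mul, ← mul_assoc, ← h, mul_assoc _ d, Subgroup.mem_center_iff.1
      (S.cen (z⁻¹).2) d]
    simp [mul_assoc]
  · rw [← Units.ext (eig_inj ha), ← Units.ext (eig_inj hb), map_mul, map_inv]
    simp [mul_comm, mul_left_comm, mul_assoc]

include ho in
theorem nu_mem [hD : D.Normal] {r : ℕ} (hr : 0 < r) {d s : G} (hs : s ∈ St (Kr ρ D C r ⊔ Z) d)
    {a b : Fˣ} (ha : ρ s *ᵥ Pi.single o 1 = (a : F) • Pi.single o 1)
    (hb : ρ (d⁻¹ * s * d) *ᵥ Pi.single o 1 = (b : F) • Pi.single o 1) : b * a⁻¹ ∈ S.M0 := by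
  obtain ⟨k, hk, k', hk', z, c, hc, h1, h2⟩ := S.nu_spec ho hr hs ha hb
  exact h2 ▸ Subgroup.mul_mem_sup hc ⟨z, (D.mul_mem_cancel_left hk'.1).1
    (h1 ▸ hD.conj_mem' k hk.1 d), rfl⟩

include S in
theorem conj_mem {H : Subgroup G} {w k : G} (h : w⁻¹ * k * w ∈ H) (z : Z) :
    w⁻¹ * (k * z) * w ∈ H ⊔ Z := by
  rw [← mul_assoc, mul_assoc _ _ w, ← Subgroup.mem_center_iff.1 (S.cen z.2) w, ← mul_assoc]
  exact Subgroup.mul_mem_sup h z.2

include S ho in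
theorem cd_st_dvd {r : ℕ} (hr : 0 < r) {A : Type} [CommGroup A] [Finite A] {M : Subgroup Fˣ}
    (lg : M →* A) (hlg : ∀ u, lg u = 1 → (u : Fˣ) ∈ C) {d : G}
    (hM : ∀ s ∈ St (Kr ρ D C r ⊔ Z) d, ∀ a b : Fˣ, ρ s *ᵥ Pi.single o 1 = (a : F) • Pi.single o 1 →
      ρ (d⁻¹ * s * d) *ᵥ Pi.single o 1 = (b : F) • Pi.single o 1 → b * a⁻¹ ∈ M) (w : G)
    {H : Subgroup G} (hw : ∀ s ∈ St (Kr ρ D C r) d, w⁻¹ * s * w ∈ H) :
    cd (St (Kr ρ D C r ⊔ Z) d) ∣ Nat.card A * cd (H ⊔ Z) := by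
  obtain ⟨lam, hlam⟩ := S.exists_lam ho hr
  let c1 : St (Kr ρ D C r ⊔ Z) d →* (Kr ρ D C r ⊔ Z : Subgroup G) := Subgroup.inclusion inf_le_left
  let c2 : St (Kr ρ D C r ⊔ Z) d →* (Kr ρ D C r ⊔ Z : Subgroup G) :=
    ((MulAut.conj d⁻¹).toMonoidHom.comp (St _ d).subtype).codRestrict _
      fun s => by simpa using (mem_St.1 s.2).2
  have h0 : ∀ s : St (Kr ρ D C r ⊔ Z) d,
      ρ (d⁻¹ * s * d) *ᵥ Pi.single o 1 = (lam (c2 s) : F) • Pi.single o 1 := fun s =>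
    (congrArg (fun g => ρ g *ᵥ Pi.single o 1) (by simp [c2])).trans (hlam (c2 s))
  let ν := lg.comp ((lam.comp c2 / lam.comp c1).codRestrict M fun s => by
    simpa [div_eq_mul_inv] using hM s s.2 _ _ (hlam (c1 s)) (h0 s))
  have h1 := Subgroup.card_mul_index ν.ker
  rw [Subgroup.index_ker, ← cd_eq (St _ d), mul_comm] at h1
  rw [← h1, ← Subgroup.card_map_of_injective (K := ν.ker) (St _ d).subtype_injective,
    ← cd_eq (ν.ker.map _)]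
  refine mul_dvd_mul ν.range.card_subgroup_dvd_card (cd_dvd w ?_)
  rintro _ ⟨s, hs, rfl⟩
  obtain ⟨k, hk, z, h⟩ := S.st_split ho hr s.2 (hlam (c1 s)) (h0 s)
    (by simpa [div_eq_mul_inv] using hlg _ hs)
  rw [Subgroup.subtype_apply, h]
  exact S.conj_mem (hw k hk) z

include S ho in
theorem eig_mem' {r : ℕ} (hr : 0 < r) {g : G} (hg : g ∈ Kr ρ D C r ⊔ Z) {v : Fin n → F}
    (hv : v ∈ Vr F n r) (h0 : v ≠ 0) {a : F} (h : ρ g *ᵥ v = a • v) {b : Fˣ}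
    (hb : ρ g *ᵥ Pi.single o 1 = (b : F) • Pi.single o 1) : ∃ c ∈ C, a = c * b := by
  obtain ⟨k, hk, z, rfl⟩ := S.split hg
  obtain ⟨c, hc, h1⟩ := kr_eig ho hr hk
  rw [act_mul, S.act, mulVec_smul] at h hb
  rw [h1, smul_smul] at hb
  obtain ⟨c', hc', h2⟩ := eig_mem hk hv h0 (a := (S.ζ z : F)⁻¹ * a) (by
    rw [mul_smul, ← h, smul_smul, inv_mul_cancel₀ (S.ζ z).ne_zero, one_smul])
  refine ⟨c' * c⁻¹, mul_mem hc' (inv_mem hc), ?_⟩
  rw [← eig_inj hb, Units.val_mul, ← h2, Units.val_inv_eq_inv_val]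
  field_simp

include S ho in
theorem st_common {r : ℕ} (hr : 0 < r) {d : G}
    (h : ∃ v ∈ Vr F n r, v ≠ 0 ∧ ρ d *ᵥ v ∈ Vr F n r) {s : G} (hs : s ∈ St (Kr ρ D C r ⊔ Z) d) :
    ∃ k ∈ St (Kr ρ D C r) d, ∃ z : Z, s = k * z := by
  obtain ⟨v, h1, h2, h3, h4⟩ := exists_common (D := D) (C := C) h
  obtain ⟨lam, hlam⟩ := S.exists_lam ho hr
  obtain ⟨h5, h6⟩ := mem_St.1 hs
  have h7 : ∀ g ∈ Kr ρ D C r ⊔ Z, g ∈ Stb ρ (Vr F n r) := fun g hg =>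
    sup_le (kr_le_stb le_rfl) (fun z hz v hv => S.act ⟨z, hz⟩ v ▸ Submodule.smul_mem _ _ hv) hg
  obtain ⟨k, hk, z, h8⟩ := S.split h6
  obtain ⟨a, ha⟩ := h4 k hk (by
    rw [eq_mul_inv_of_mul_eq h8.symm, mul_assoc, mul_assoc, ← Subgroup.mem_center_iff.1
      (inv_mem (S.cen z.2)) d⁻¹]
    simpa [mul_assoc] using h7 _ (mul_mem h5 (Subgroup.mem_sup_right (inv_mem z.2))))
  have h9 : ρ (d⁻¹ * s * d) *ᵥ v = (S.ζ z * a) • v := by
    rw [h8, act_mul, S.act, mulVec_smul, ha, smul_smul]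
  obtain ⟨c, hc, k1⟩ := S.eig_mem' ho hr h6 h1 h2 h9 (hlam ⟨_, h6⟩)
  obtain ⟨c', hc', k2⟩ := S.eig_mem' ho hr h5 h3 (a := S.ζ z * a)
    (fun h => h2 (by rw [← inv_act (ρ := ρ) d v, h, mulVec_zero]))
    (by rw [← mulVec_smul, ← h9, ← act_mul, ← act_mul]; congr 2; group) (hlam ⟨_, h5⟩)
  refine S.st_split ho hr hs (hlam ⟨_, h5⟩) (hlam ⟨_, h6⟩) ?_
  have k3 : c * lam ⟨_, h6⟩ = c' * lam ⟨_, h5⟩ := Units.ext (k1.symm.trans k2)
  rw [eq_inv_mul_of_mul_eq k3, mul_assoc, mul_inv_cancel_right]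
  exact mul_mem (inv_mem hc) hc'

end Tw

theorem fibre {M : Subgroup Fˣ} (hle : C ≤ M) {A : Type} [AddGroup A]
    (hSL : ∀ M : Matrix (Fin n) (Fin n) F, M.det = 1 → ∃ g ∈ D, ρ g = M)
    (lg : M →* Multiplicative A) (hs : Function.Surjective lg) (hlg : ∀ u, lg u = 1 ↔ (u : Fˣ) ∈ C)
    {i : Fin n} (hi : i.val + 1 < n) {X : Type} [Fintype X] (T : TV (Kr ρ D C (i + 1)) (Kr ρ D C i) X) :
    ∃ (Y : Type) (_ : Fintype Y) (e : Y × A ≃ X) (u : Y → Fin n → F), (∀ y, u y ∉ Vr F n i) ∧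
      (∀ y (c : M), Rel C (Vr F n i) (((c : Fˣ) : F) • u y) (vec T (e (y, (lg c).toAdd)))) ∧
      (∀ y y', Rel M (Vr F n i) (u y) (u y') → y = y') ∧
      ∀ v ∉ Vr F n i, ∃ y, Rel M (Vr F n i) v (u y) := by
  classical
  let S : Setoid X := ⟨fun x y => Rel M (Vr F n i) (vec T x) (vec T y),
    fun _ => Rel.refl _, Rel.symm, Rel.trans⟩
  have mono : ∀ {a b}, Rel C (Vr F n i) a b → Rel M (Vr F n i) a b :=
    fun h => h.imp fun _ h => ⟨hle h.1, h.2⟩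
  choose rep hrep using fun a : A => hs (Multiplicative.ofAdd a)
  have hw : ∀ (y : Quotient S) (c : Fˣ), (c : F) • vec T y.out ∉ Vr F n i := fun y c h =>
    vec_notMem T _ ((Submodule.smul_mem_iff _ c.ne_zero).1 h)
  have hmem : ∀ u v : M, lg u = lg v → (u : Fˣ) * (v : Fˣ)⁻¹ ∈ C := fun u v h =>
    (hlg (u * v⁻¹)).1 (by rw [map_mul, map_inv, h, mul_inv_cancel])
  have hne : ∀ y y' : Quotient S, Rel M (Vr F n i) (vec T y.out) (vec T y'.out) → y = y' :=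
    fun y y' h => by rw [← Quotient.out_eq y, ← Quotient.out_eq y']; exact Quotient.sound h
  have hu : ∀ (c : M) v, Rel M (Vr F n i) (((c : Fˣ) : F) • v) v := fun c v => ⟨c, c.2, by simp⟩
  choose pt hpt using fun p : Quotient S × A => vec_surj T hSL hi (hw p.1 (rep p.2))
  have hbij : Function.Bijective pt := ⟨fun ⟨t, a⟩ ⟨t', a'⟩ h1 => by
    have h2 := (hpt (t, a)).trans (h1 ▸ (hpt (t', a')).symm)
    obtain rfl : t = t' := hne _ _ (((hu _ _).symm.trans (mono h2)).trans (hu _ _))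
    obtain ⟨c, hc, h3⟩ := h2
    simp only [smul_smul, ← sub_smul] at h3
    have h4 : rep a = ⟨c, hle hc⟩ * rep a' := Subtype.ext (Units.ext (sub_eq_zero.1
      (by_contra fun h4 => vec_notMem T _ ((Submodule.smul_mem_iff _ h4).1 h3))))
    have h5 := congrArg lg h4
    rw [map_mul, (hlg ⟨c, hle hc⟩).2 hc, one_mul, hrep, hrep] at h5
    rw [show a = a' from h5], fun x => by
    obtain ⟨c, hc, h1⟩ := Rel.symm (Quotient.mk_out (s := S) x)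
    exact ⟨(Quotient.mk S x, (lg ⟨c, hc⟩).toAdd), vec_inj T ((hpt _).symm.trans
      ((rel_smul (hmem _ ⟨c, hc⟩ (hrep _)) _).trans (Rel.symm ⟨1, one_mem _, by simpa using h1⟩)))⟩⟩
  refine ⟨Quotient S, inferInstance, Equiv.ofBijective pt hbij, fun y => vec T y.out,
    fun y => vec_notMem T _, fun y c => (rel_smul (hmem c _ (hrep _).symm) _).trans
      (hpt (y, (lg c).toAdd)), hne, fun v hv => ?_⟩
  obtain ⟨x, hx⟩ := vec_surj T hSL hi hv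
  exact ⟨Quotient.mk S x, (mono hx).trans (Quotient.mk_out (s := S) x).symm⟩

theorem finrank_sup_span (W : Submodule F (Fin n → F)) (a : Fin n → F) :
    Module.finrank F (W ⊔ F ∙ a : Submodule F (Fin n → F)) ≤ Module.finrank F W + 1 := by
  have h3 := Submodule.finrank_add_le_finrank_add_finrank W (F ∙ a)
  have h4 := finrank_span_le_card (R := F) ({a} : Set (Fin n → F))
  rw [Set.toFinset_singleton, card_singleton] at h4
  exact h3.trans (Nat.add_le_add_left h4 _)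

theorem stb_sup {W : Submodule F (Fin n → F)} {a : Fin n → F} {s : G} (h : s ∈ Fx ρ D W) {c : F}
    (h1 : ρ s *ᵥ a = c • a) : s ∈ Stb ρ (W ⊔ F ∙ a) := fun v hv => by
  obtain ⟨k, hk⟩ := mem_sup_span.1 hv
  refine mem_sup_span.2 ⟨k * c, ?_⟩
  have := Fx.fix h hk
  rw [mulVec_sub, mulVec_smul, h1, smul_smul] at this
  rwa [this]

theorem basis_tools (w : Fin n → Fin n → F) (hw : ∀ x : Fin n → F, ∑ j, x j • w j = 0 → x = 0) :
    (∀ u, ∃ x : Fin n → F, u = ∑ j, x j • w j) ∧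
    (∀ M T : Matrix (Fin n) (Fin n) F, (∀ j, M *ᵥ w j = ∑ l, T l j • w l) → M.det = T.det) ∧
    ∀ c : Fin n → F, ∃ M : Matrix (Fin n) (Fin n) F, M.det = ∏ j, c j ∧ ∀ j, M *ᵥ w j = c j • w j := by
  classical
  have h1 : ∀ x, (of w)ᵀ *ᵥ x = ∑ j, x j • w j := fun x => by
    rw [mulVec_transpose, vecMul_eq_sum]; rfl
  have h2 : (of w)ᵀ.det ≠ 0 := fun h => by
    obtain ⟨x, h3, h4⟩ := exists_mulVec_eq_zero_iff.2 h
    exact h3 (hw x (h1 x ▸ h4))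
  have h3 : ∀ j, (of w)ᵀ *ᵥ Pi.single j 1 = w j := fun j => by rw [mulVec_single_one]; rfl
  refine ⟨fun u => ⟨(of w)ᵀ⁻¹ *ᵥ u, by
    rw [← h1, mulVec_mulVec, mul_nonsing_inv _ h2.isUnit, one_mulVec]⟩, fun M T h => ?_,
    fun c => ⟨(of w)ᵀ * diagonal c * (of w)ᵀ⁻¹, ?_, fun j => ?_⟩⟩
  · have h4 : M * (of w)ᵀ = (of w)ᵀ * T := by
      ext a j
      have := congrFun (h j) a
      rw [← h1 fun l => T l j] at this
      exact this
    have h5 := congrArg det h4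
    rw [det_mul, det_mul, mul_comm] at h5
    exact mul_left_cancel₀ h2 h5
  · rw [det_conj ((isUnit_iff_isUnit_det _).2 h2.isUnit), det_diagonal]
  · rw [← h3, mulVec_mulVec, nonsing_inv_mul_cancel_right _ _ h2.isUnit, ← mulVec_mulVec,
      diagonal_mulVec_single, ← mulVec_smul, ← Pi.single_smul', smul_eq_mul]

theorem indep_four {a b c d : Fin n → F} {U V W : Submodule F (Fin n → F)} (h0 : a ≠ 0)
    (h1 : a ∈ U) (h2 : b ∉ U) (h3 : U ≤ V) (h4 : b ∈ V) (h5 : c ∉ V) (h6 : V ≤ W) (h7 : c ∈ W)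
    (h8 : d ∉ W) (x : Fin 4 → F) (h : ∑ j, x j • ![a, b, c, d] j = 0) : x = 0 := by
  have key : ∀ (k : F) (u v : Fin n → F) (W : Submodule F (Fin n → F)), u ∈ W → v ∉ W →
      u + k • v = 0 → k = 0 := fun k u v W k1 k2 k3 => by_contra fun k4 =>
    k2 ((W.smul_mem_iff k4).1 (eq_neg_of_add_eq_zero_right k3 ▸ neg_mem k1))
  rw [Fin.sum_univ_four] at h
  change x 0 • a + x 1 • b + x 2 • c + x 3 • d = 0 at h
  have k3 := key _ _ _ W (add_mem (h6 (add_mem (h3 (U.smul_mem _ h1)) (V.smul_mem _ h4)))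
    (W.smul_mem _ h7)) h8 h
  rw [k3, zero_smul, add_zero] at h
  have k2 := key _ _ _ V (add_mem (h3 (U.smul_mem _ h1)) (V.smul_mem _ h4)) h5 h
  rw [k2, zero_smul, add_zero] at h
  have k1 := key _ _ _ U (U.smul_mem _ h1) h2 h
  rw [k1, zero_smul, add_zero] at h
  funext j
  fin_cases j
  exacts [(smul_eq_zero.1 h).resolve_right h0, k1, k2, k3]

theorem vr_one {o l : Fin n} (ho : o.val = 0) (hl : l.val = 1) {v : Fin n → F} (hv : v ∈ Vr F n l) :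
    v = v o • Pi.single o 1 := funext fun a => by
  by_cases ha : a = o
  · simp [ha]
  · rw [hv a (by have := Fin.val_ne_of_ne ha; omega)]; simp [ha]

theorem single_mem {a : Fin n} {r : ℕ} (h : a.val < r) : Pi.single a 1 ∈ Vr F n r := fun b hb =>
  Pi.single_eq_of_ne (by rintro rfl; omega) _

theorem kr_eig_one {o l : Fin n} (ho : o.val = 0) (hl : l.val = 1) {r : ℕ} (hr : 1 < r) {g : G}
    (hg : g ∈ Kr ρ D C r) : ∃ c ∈ C, ∃ a : F,
      ρ g *ᵥ Pi.single l 1 = a • Pi.single o 1 + (c : F) • Pi.single l 1 := by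
  obtain ⟨c, hc, h⟩ := (rel_col g l).2 (hg.2 l (by omega))
  exact ⟨c, hc, _, eq_add_of_sub_eq (vr_one ho hl h)⟩

end Pool.Agent.Lib.MP_0becda_co.Coset
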