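import Pool.Agent.Lib.MP_0becda_co.Coset.Twist

/-!
The steps of the chain modulo a group of scalars.
-/

set_option linter.unusedSectionVars false

open Finset Matrix Pool.Agent.Lib.MP_0becda_co.PSL

namespace Pool.Agent.Lib.MP_0becda_co.Coset

variable {G : Type} [Group G] [Fintype G] {F : Type} [Field F] {n : ℕ}
  {ρ : G →* Matrix (Fin n) (Fin n) F} {D : Subgroup G} {C : Subgroup Fˣ}

namespace Tw

variable {Z : Subgroup G} (S : Tw ρ D C Z) {o : Fin n} (ho : o.val = 0)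

include S ho in
theorem shift' {i : Fin n} (hi : 0 < i.val) {X : Type} [Fintype X]
    (T : TV (Kr ρ D C (i + 1)) (Kr ρ D C i) X) {d s : G} (hs : s ∈ Kr ρ D C i) (z : Z)
    (h7 : d⁻¹ * s * d * (z⁻¹ : Z) ∈ Kr ρ D C i) {x x' y y' : X}
    (h2 : Rel C (Vr F n i) (ρ s *ᵥ vec T x) (vec T x'))
    (h3 : Rel C (Vr F n i) (ρ (d⁻¹ * s * d * (z⁻¹ : Z)) *ᵥ vec T y) (vec T y')) (g : G) :
    kk (Kr ρ D C (i + 1) ⊔ Z) ((T.t x')⁻¹ * d * T.t y') g
      = kk (Kr ρ D C (i + 1) ⊔ Z) ((T.t x)⁻¹ * d * T.t y) g := by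
  refine (S.tv ho hi T).kk_move (Subgroup.mem_sup_left ((vec_iff T hs _ _).2 h2)) ?_ g
  have h9 := Subgroup.mul_mem_sup ((vec_iff T h7 _ _).2 h3) z.2
  rwa [mul_assoc, Subgroup.mem_center_iff.1 (S.cen z.2), ← mul_assoc, mul_assoc (T.t y')⁻¹,
    Subgroup.coe_inv, inv_mul_cancel_right] at h9

theorem act_conj (d s : G) (z : Z) (v : Fin n → F) : ρ (d⁻¹ * s * d * (z⁻¹ : Z)) *ᵥ v
    = (S.ζ z : F)⁻¹ • ρ d⁻¹ *ᵥ (ρ s *ᵥ (ρ d *ᵥ v)) := by
  rw [act_mul, S.act, mulVec_smul, act_mul, act_mul, map_inv, Units.val_inv_eq_inv_val]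

include ho in
theorem shift [hD : D.Normal] {i : Fin n} (hi : i.val = 1) {X : Type} [Fintype X]
    (T : TV (Kr ρ D C (i + 1)) (Kr ρ D C i) X) {d s : G} (hs : s ∈ Fx ρ D (Vr F n i)) {β : Fˣ}
    (hβ : β ∈ S.M0) (h1 : ρ s *ᵥ (ρ d *ᵥ Pi.single o 1) = (β : F) • ρ d *ᵥ Pi.single o 1)
    {x x' y y' : X} (h2 : Rel C (Vr F n i) (ρ s *ᵥ vec T x) (vec T x')) {v w : Fin n → F}
    (h3 : Rel C (Vr F n i) v (vec T y)) (h4 : Rel C (Vr F n i) w (vec T y'))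
    (h5 : ρ s *ᵥ (ρ d *ᵥ v) - (β : F) • ρ d *ᵥ w ∈ F ∙ (ρ d *ᵥ Pi.single o 1)) (g : G) :
    kk (Kr ρ D C (i + 1) ⊔ Z) ((T.t x')⁻¹ * d * T.t y') g
      = kk (Kr ρ D C (i + 1) ⊔ Z) ((T.t x)⁻¹ * d * T.t y) g := by
  obtain ⟨c, hc, z, hz, rfl⟩ := S.exists_z hβ
  have h7 : d⁻¹ * s * d * (z⁻¹ : Z) ∈ Kr ρ D C i := ⟨D.mul_mem (hD.conj_mem' s hs.1 d) (D.inv_mem hz),
    fun j hj => (rel_col _ j).1 ⟨c, hc, by
    obtain rfl : j = o := Fin.ext (by omega)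
    rw [S.act_conj, h1, mulVec_smul, inv_act, smul_smul, Units.val_mul, mul_comm (c : F),
      inv_mul_cancel_left₀ (S.ζ z).ne_zero, sub_self]
    exact zero_mem _⟩⟩
  refine S.shift' ho (by omega) T (mem_kr_of_fix hs) z h7 h2
    (((h3.symm.act (kr_le_stb le_rfl h7)).trans ⟨c, hc, ?_⟩).trans h4) g
  obtain ⟨k, hk⟩ := Submodule.mem_span_singleton.1 h5
  rw [S.act_conj, eq_add_of_sub_eq hk.symm, mulVec_add, mulVec_smul, mulVec_smul, inv_act, inv_act,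
    smul_add, smul_smul, smul_smul, Units.val_mul, mul_comm (c : F),
    inv_mul_cancel_left₀ (S.ζ z).ne_zero, add_sub_cancel_right]
  exact Submodule.smul_mem _ _ (single_mem (by omega))

include ho in
theorem fix_col {i : Fin n} (hi : 0 < i.val) {X : Type} [Fintype X]
    (T : TV (Kr ρ D C (i + 1)) (Kr ρ D C i) X) {d : G} {x : X}
    (hx : Rel C (Vr F n i) (ρ d *ᵥ Pi.single o 1) (vec T x)) :
    ∀ s ∈ St (Kr ρ D C i) d, (T.t x)⁻¹ * s * T.t x ∈ Kr ρ D C (i + 1) := fun s hs => by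
  obtain ⟨c, hc, h5⟩ := kr_eig ho hi (mem_St.1 hs).2
  refine (vec_iff T (mem_St.1 hs).1 x x).2
    (((hx.symm.act (kr_le_stb le_rfl (mem_St.1 hs).1)).trans ⟨c, hc, ?_⟩).trans hx)
  rw [← mulVec_smul, ← h5, ← act_mul, ← act_mul, ← mul_assoc, mul_inv_cancel_left, sub_self]
  exact zero_mem _

theorem bal_one' [D.Normal] {h : ℕ} [NeZero h]
    (hSL : ∀ M : Matrix (Fin n) (Fin n) F, M.det = 1 → ∃ g ∈ D, ρ g = M) (hn : 3 < n)
    (lg : S.M0 →* Multiplicative (ZMod (2 * h)))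
    (hs : Function.Surjective lg) (hlg : ∀ u, lg u = 1 ↔ (u : Fˣ) ∈ C) {i : Fin n} (hi : i.val = 1)
    {X : Type} [Fintype X] (T : TV (Kr ρ D C (i + 1)) (Kr ρ D C i) X) {d : G}
    (hd : ρ d *ᵥ Pi.single o 1 ∉ Vr F n i) {N : ℕ}
    (hN : N * kk (Kr ρ D C i ⊔ Z) d d = 2 * cd (Kr ρ D C i ⊔ Z)) :
    (S.tv ho (by omega) T).Bal ⊤ d N := by
  classical
  obtain ⟨Y, _, e, u, h1, h2, h3, h4⟩ := fibre (M := S.M0) le_sup_left hSL lg hs hlg (by omega) T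
  obtain ⟨x0, hx⟩ := vec_surj T hSL (by omega) hd
  obtain ⟨j, rfl⟩ : Fintype.card Y ∣ N := by
    refine dvd_of_count hN ?_
    rw [← (S.tv ho (by omega) T).card_mul, ← Fintype.card_congr e, Fintype.card_prod, mul_assoc]
    exact Nat.mul_dvd_mul_left _ ((S.cd_st_dvd ho (by omega) lg (fun u => (hlg u).1)
      (fun s hs a b => S.nu_mem ho (by omega) hs) (T.t x0) (fix_col ho (by omega) T hx)).trans
        (by simp))
  rw [mul_comm]
  refine TV.Bal.mul ?_ j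
  generalize hv : ρ d *ᵥ Pi.single o 1 = v at hd
  have r1 := finrank_vr (F := F) (n := n) i
  have r2 := finrank_sup_span (Vr F n i) v
  obtain ⟨b0, hb0, -⟩ := exists_out (W := Vr F n i) (by omega) v v
  have k0 : ∀ x, u x ∈ Vr F n i ⊔ F ∙ v → u x + b0 ∉ Vr F n i ⊔ F ∙ v := fun x hx h =>
    hb0 ((Submodule.add_mem_iff_right _ hx).1 h)
  choose! jj hjj using fun x hx => h4 _ fun h => k0 x hx (Submodule.mem_sup_left h)
  have sh : ∀ (x y : Y) (β γ δ : S.M0), ∀ s ∈ Fx ρ D (Vr F n i),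
      ρ s *ᵥ v = ((β : Fˣ) : F) • v → ρ s *ᵥ u x - ((γ : Fˣ) : F) • u x ∈ Vr F n i →
      ρ s *ᵥ (ρ d *ᵥ u y) - ((β : Fˣ) * (δ : Fˣ) : F) • ρ d *ᵥ u y ∈ F ∙ v →
      ∀ (c : S.M0) g,
      kk (Kr ρ D C (i + 1) ⊔ Z) ((T.t (e (x, (lg γ).toAdd)))⁻¹ * d * T.t (e (y, (lg (δ * c)).toAdd))) g
        = kk (Kr ρ D C (i + 1) ⊔ Z) ((T.t (e (x, 0)))⁻¹ * d * T.t (e (y, (lg c).toAdd))) g :=
    fun x y β γ δ s k1 k2 k3 k4 c g => by
      have k5 := h2 x 1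
      rw [map_one, toAdd_one, OneMemClass.coe_one, Units.val_one, one_smul] at k5
      refine S.shift ho hi T k1 β.2 (hv ▸ k2) (((k5.symm.act (Fx.stb k1)).trans
        ⟨1, one_mem _, by simpa using k3⟩).trans (h2 x γ)) (h2 y c) (h2 y (δ * c)) ?_ g
      have k6 := Submodule.smul_mem _ ((c : Fˣ) : F) k4
      rw [smul_sub, smul_smul] at k6
      rw [hv, mulVec_smul, mulVec_smul, mulVec_smul, smul_smul]
      simpa [mul_comm, mul_left_comm] using k6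
  have m1 : ∀ β : Fˣ, ∃ s ∈ Fx ρ D (Vr F n i), ρ s *ᵥ v = (β : F) • v := fun β =>
    exists_move hSL (by omega) _ (fun _ => Tv.fx) hd
      fun h => hd ((Submodule.smul_mem_iff _ β.ne_zero).1 h)
  have m2 : ∀ (β : Fˣ) A A', A ∉ Vr F n i ⊔ F ∙ v → A' ∉ Vr F n i ⊔ F ∙ v →
      ∃ s ∈ Fx ρ D (Vr F n i), ρ s *ᵥ v = (β : F) • v ∧ ρ s *ᵥ A = A' := fun β A A' k1 k2 => by
    obtain ⟨s, k3, k4⟩ := m1 β
    obtain ⟨s', k5, k6⟩ := exists_move hSL (by omega) _ (fun _ => Tv.fx)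
      (act_notMem (stb_sup k3 k4) k1) k2
    refine ⟨s' * s, mul_mem (Fx.left k5) k3, ?_,
      by rw [act_mul, k6]⟩
    rw [act_mul, k4, mulVec_smul, Fx.right k5]
  have m3 : ∀ (γ : Fˣ) s, s ∈ Fx ρ D (Vr F n i) → ρ s *ᵥ v = (γ : F) • v → ∀ A ∈ Vr F n i ⊔ F ∙ v,
      ρ s *ᵥ A - (γ : F) • A ∈ Vr F n i ∧ ρ s *ᵥ A - A ∈ F ∙ v := fun γ s k1 k2 A hA => by
    obtain ⟨c, hc⟩ := mem_sup_span.1 hA
    have k3 := Fx.fix k1 hc
    rw [mulVec_sub, mulVec_smul, k2, sub_eq_iff_eq_add] at k3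
    refine ⟨?_, Submodule.mem_span_singleton.2 ⟨c * γ - c, by rw [k3]; module⟩⟩
    rw [k3, show A - c • v + c • (γ : F) • v - (γ : F) • A = (1 - γ : F) • (A - c • v) by module]
    exact Submodule.smul_mem _ _ hc
  have nz : ∀ (c : Fˣ) (W : Submodule F (Fin n → F)) A, A ∉ W → (c : F) • A ∉ W :=
    fun c W A k1 h => k1 ((Submodule.smul_mem_iff _ c.ne_zero).1 h)
  refine (S.tv ho (by omega) T).bal_special e (fun x => u x ∈ Vr F n i ⊔ F ∙ v)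
    (fun y => ρ d *ᵥ u y ∈ Vr F n i ⊔ F ∙ v) jj (fun x hx h => ?_) (fun x x' hx hx' h => ?_)
    (Or.inr ?_) (fun x y a b g hx hy => ?_) (fun x y a b g hxy => ?_) fun x y a b c g hA hB => ?_
  · obtain ⟨c, -, k1⟩ := hjj x hx
    exact k0 x hx (by simpa using add_mem (Submodule.mem_sup_left k1) (Submodule.smul_mem _ (c : F) h))
  · obtain ⟨c, -, k1⟩ := (hjj x hx).trans (h ▸ (hjj x' hx').symm)
    by_cases hc : (c : F) = 1
    · exact h3 _ _ ⟨1, one_mem _, by simpa [hc] using k1⟩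
    · refine absurd ((Submodule.smul_mem_iff _ (sub_ne_zero.2 hc)).1 ?_) hb0
      rw [show (c - 1 : F) • b0 = u x - (c : F) • u x' - (u x + b0 - (c : F) • (u x' + b0)) by module]
      exact sub_mem (sub_mem hx (Submodule.smul_mem _ _ hx')) (Submodule.mem_sup_left k1)
  · obtain ⟨x, c, -, k1⟩ := (h4 v hd).imp fun _ => Rel.symm
    exact ⟨x, mem_sup_span.2 ⟨c, k1⟩⟩
  · obtain ⟨γ, hγ⟩ := hs (Multiplicative.ofAdd a)
    obtain ⟨c, hc⟩ := hs (Multiplicative.ofAdd (a + b))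
    obtain ⟨s, k1, k2⟩ := m1 γ
    simpa [hγ, hc, Tw.tv] using sh x y γ γ γ⁻¹ s k1 k2 (m3 γ s k1 k2 _ hx).1
      (by simpa using (m3 γ s k1 k2 _ hy).2) c g
  · obtain ⟨γ, hγ⟩ := hs (Multiplicative.ofAdd a)
    obtain ⟨δ, hδ⟩ := hs (Multiplicative.ofAdd b)
    by_cases hA : u x ∈ Vr F n i ⊔ F ∙ v
    · obtain ⟨s, k1, k2, k3⟩ := m2 γ _ _ (hxy.1 hA) (nz (γ * δ) _ _ (hxy.1 hA))
      simpa [hγ, hδ, Tw.tv] using sh x y γ γ δ s k1 k2 (m3 γ s k1 k2 _ hA).1 (by simp [k3]) 1 g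
    · obtain ⟨s, k1, k2, k3⟩ := m2 (δ⁻¹ : S.M0) _ _ hA (nz γ _ _ hA)
      simpa [hγ, hδ, Tw.tv] using sh x y δ⁻¹ γ δ s k1 k2 (by simp [k3])
        (by simpa using (m3 _ s k1 k2 _ (not_not.1 (mt hxy.2 hA))).2) 1 g
  obtain ⟨γ, hγ⟩ := hs (Multiplicative.ofAdd a)
  obtain ⟨β', hβ⟩ := hs (Multiplicative.ofAdd c)
  obtain ⟨ε, hε⟩ := hs (Multiplicative.ofAdd (a + b + 2 * c))
  obtain ⟨δ, hδ⟩ : ∃ δ, δ = (β' * β' * γ)⁻¹ := ⟨_, rfl⟩
  suffices ∃ β : S.M0, ∃ s ∈ Fx ρ D (Vr F n i),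
      ρ s *ᵥ v = ((β : Fˣ) : F) • v ∧ ρ s *ᵥ u x - ((γ : Fˣ) : F) • u x ∈ Vr F n i ∧
      ρ s *ᵥ (ρ d *ᵥ u y) - ((β : Fˣ) * (δ : Fˣ) : F) • ρ d *ᵥ u y ∈ F ∙ v by
    obtain ⟨β, s, k1, k2, k3, k4⟩ := this
    have k5 : (lg (δ * ε)).toAdd = b := by simp [hδ, hγ, hβ, hε]; ring
    simpa only [hγ, hε, k5, toAdd_ofAdd, Tw.tv] using sh x y β γ δ s k1 k2 k3 k4 ε g
  generalize ρ d *ᵥ u y = B at hB ⊢
  generalize u x = A at hA ⊢
  by_cases hB' : B ∈ (Vr F n i ⊔ F ∙ v) ⊔ F ∙ A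
  · obtain ⟨c, hc⟩ := mem_sup_span.1 hB'
    obtain ⟨b, hb⟩ := mem_sup_span.1 hc
    have k0 : c ≠ 0 := by rintro rfl; exact hB (by simpa using hc)
    obtain ⟨s, k1, k2, k3⟩ := m2 (γ * δ⁻¹ : S.M0) A
      (((γ : Fˣ) : F) • A + ((((γ : Fˣ) : F) - 1) / c) • (B - c • A - b • v)) hA fun h => nz γ _ A hA
        ((Submodule.add_mem_iff_left _ (Submodule.mem_sup_left (Submodule.smul_mem _ _ hb))).1 h)
    refine ⟨_, s, k1, k2, by simpa [k3] using Submodule.smul_mem _ _ hb, ?_⟩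
    have k4 := Fx.fix k1 hb
    rw [mulVec_sub, mulVec_sub, mulVec_smul, mulVec_smul, k2, k3, sub_sub, sub_eq_iff_eq_add] at k4
    refine Submodule.mem_span_singleton.2 ⟨b * ((γ : Fˣ) * ((δ : Fˣ) : F)⁻¹) - b * (γ : Fˣ), ?_⟩
    rw [k4, smul_add, smul_smul c, smul_smul c, mul_div_cancel₀ _ k0]
    simp only [Subgroup.coe_mul, Subgroup.coe_inv, Units.val_mul, Units.val_inv_eq_inv_val,
      inv_mul_cancel_right₀ (δ : Fˣ).ne_zero]
    module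
  by_cases hn' : 4 < n
  · obtain ⟨s, k1, k2⟩ := exists_move hSL (by omega) _ (fun _ => Tv.fx) hA (nz γ _ A hA)
    have r3 := finrank_sup_span (Vr F n i ⊔ F ∙ v) A
    obtain ⟨s', k3, k4⟩ := exists_move hSL (by omega) _ (fun _ => Tv.fx)
      (act_notMem (stb_sup k1 k2) hB') (nz δ _ B hB')
    have k5 : s' * s ∈ Fx ρ D (Vr F n i ⊔ F ∙ v) := mul_mem (Fx.left k3) k1
    refine ⟨1, s' * s, Fx.left k5, by simpa using Fx.right k5, ?_, by rw [act_mul, k4]; simp⟩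
    rw [act_mul, k2, mulVec_smul, Fx.right k3, sub_self]
    exact zero_mem _
  obtain rfl : n = 4 := by omega
  obtain ⟨M, k1, k2⟩ := (basis_tools _ (indep_four (a := Pi.single o 1) (by simp)
    (single_mem (by omega)) hd le_sup_left
    (Submodule.mem_sup_right (Submodule.mem_span_singleton_self _)) hA le_sup_left
    (Submodule.mem_sup_right (Submodule.mem_span_singleton_self _)) hB')).2.2
      ![1, (β' : Fˣ), (γ : Fˣ), (β' : Fˣ) * (δ : Fˣ)]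
  obtain ⟨s, k3, rfl⟩ := hSL M (by
    rw [k1, Fin.prod_univ_four, hδ]
    simp
    field_simp)
  refine ⟨β', s, ⟨k3, fun w hw => ?_⟩, k2 1, sub_eq_zero.2 (k2 2) ▸ zero_mem _,
    sub_eq_zero.2 (k2 3) ▸ zero_mem _⟩
  rw [vr_one ho hi hw, mulVec_smul, show ρ s *ᵥ Pi.single o 1 = Pi.single o 1 by simpa using k2 0]

theorem bal_split {i : Fin n} (hr : 0 < i.val) (hi : i.val + 1 < n)
    (hSL : ∀ M : Matrix (Fin n) (Fin n) F, M.det = 1 → ∃ g ∈ D, ρ g = M)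
    {X : Type} [Fintype X] (T : TV (Kr ρ D C (i + 1)) (Kr ρ D C i) X) {d : G}
    (hd : d ∉ Stb ρ (Vr F n i))
    (h : ∀ s ∈ St (Kr ρ D C i ⊔ Z) d, ∃ k ∈ St (Kr ρ D C i) d, ∃ z : Z, s = k * z) {N : ℕ}
    (hN : N * kk (Kr ρ D C i ⊔ Z) d d = 2 * cd (Kr ρ D C i ⊔ Z)) : (S.tv ho hr T).Bal ⊤ d N := by
  obtain ⟨v, hv, h1⟩ := exists_fixed (D := D) (C := C) hd
  obtain ⟨x, hx⟩ := vec_surj T hSL hi hv
  refine TV.bal_fix _ (T.t x) (fun s hs => ?_) hN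
  obtain ⟨k, hk, z, rfl⟩ := h s hs
  exact S.conj_mem ((vec_iff T (mem_St.1 hk).1 x x).2
    (((hx.symm.act (kr_le_stb le_rfl (mem_St.1 hk).1)).trans (h1 k hk)).trans hx)) z

theorem bal_two' [Fintype F] (hF2 : Odd (Fintype.card F))
    (hSL : ∀ M : Matrix (Fin n) (Fin n) F, M.det = 1 → ∃ g ∈ D, ρ g = M) {h : ℕ} [NeZero h]
    (lg : Fˣ →* Multiplicative (ZMod (2 * h))) (hs : Function.Surjective lg)
    (hlg : ∀ u, lg u = 1 ↔ u ∈ C) (hC : -1 ∉ C) {i : Fin n} (hr : 1 < i.val) (hi : i.val + 2 < n)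
    {X : Type} [Fintype X] (T : TV (Kr ρ D C (i + 1)) (Kr ρ D C i) X) {d : G} {l : Fin n}
    (hl : l.val = 1) (h0 : ρ d *ᵥ Pi.single o 1 ∉ Vr F n i)
    (h1 : ρ d *ᵥ Pi.single l 1 ∉ Vr F n i ⊔ F ∙ (ρ d *ᵥ Pi.single o 1)) {N : ℕ}
    (hN : N * kk (Kr ρ D C i ⊔ Z) d d = 2 * cd (Kr ρ D C i ⊔ Z)) :
    (S.tv ho (by omega) T).Bal ⊤ d N := by
  let j : Fin n := ⟨i + 1, by omega⟩
  let _ := Fintype.ofFinite (Kr ρ D C j ⧸ (Kr ρ D C (j + 1)).subgroupOf (Kr ρ D C j))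
  let T2 := tvq (kr_succ_le (ρ := ρ) (D := D) (C := C) j)
  obtain ⟨m, e, -⟩ := orient hF2 hSL lg hs hlg (i := j) hi (Or.inr hC) T2
  have r1 := finrank_vr (F := F) (n := n) i
  have r2 := finrank_vr (F := F) (n := n) j
  obtain ⟨w, h2, h3⟩ := exists_move hSL (by omega) _ (fun _ => Tv.fx) (single_notMem i) h0
  have h4 : ρ w⁻¹ *ᵥ (ρ d *ᵥ Pi.single l 1) ∉ Vr F n j := fun h4 => h1 (mem_sup_span.2
    ⟨(ρ w⁻¹ *ᵥ (ρ d *ᵥ Pi.single l 1)) i, by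
      have h5 : ρ w⁻¹ *ᵥ (ρ d *ᵥ Pi.single l 1) - (ρ w⁻¹ *ᵥ (ρ d *ᵥ Pi.single l 1)) i •
          Pi.single i 1 ∈ Vr F n i := fun a ha => by
        rcases (show i ≤ a from ha).eq_or_lt with rfl | ha
        · simp
        · rw [Pi.sub_apply, h4 a ha]; simp [ha.ne']
      have h6 := Fx.fix h2 h5
      rw [mulVec_sub, mulVec_smul, h3, ← act_mul, mul_inv_cancel, map_one, one_mulVec] at h6
      rwa [h6]⟩)
  obtain ⟨w', h5, h6⟩ := exists_move hSL (lt_of_le_of_lt (Nat.succ_le_succ r2) hi) _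
    (fun _ => Tv.fx) (single_notMem j) h4
  have h7 : ρ (w * w') *ᵥ Pi.single i 1 = ρ d *ᵥ Pi.single o 1 := by
    rw [act_mul, Fx.fix h5 (single_mem (by simp [j])), h3]
  have h8 : ρ (w * w') *ᵥ Pi.single j 1 = ρ d *ᵥ Pi.single l 1 := by
    rw [act_mul, h6, ← act_mul, mul_inv_cancel, map_one, one_mulVec]
  have h9 : w * w' ∈ Kr ρ D C i := mul_mem (mem_kr_of_fix h2) (kr_succ_le _ (mem_kr_of_fix h5))
  obtain ⟨k, rfl⟩ : Fintype.card X ∣ N := by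
    refine dvd_of_count hN ?_
    rw [← (S.tv ho (by omega) T).card_mul]
    refine Nat.mul_dvd_mul_left _ ((S.cd_st_dvd ho (by omega) (lg.comp (Subgroup.subtype ⊤))
      (fun u => (hlg u).1) (fun _ _ _ _ _ _ => trivial) (w * w') (H := Kr ρ D C (j + 1)) fun s hs => ?_).trans ?_)
    · obtain ⟨k1, k2⟩ := mem_St.1 hs
      have k3 : ∀ v, ρ s *ᵥ (ρ d *ᵥ v) = ρ d *ᵥ (ρ (d⁻¹ * s * d) *ᵥ v) := fun v => by
        rw [← act_mul, ← act_mul, ← mul_assoc, mul_inv_cancel_left]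
      obtain ⟨c, hc, k4⟩ := kr_eig ho (by omega) k2
      have k5 : (w * w')⁻¹ * (s * (w * w')) ∈ Kr ρ D C j := (mem_kr_succ h9 (mul_mem k1 h9)).2
        ⟨c, hc, by rw [act_mul s, h7, k3, k4, mulVec_smul, sub_self]; exact zero_mem _⟩
      rw [← mul_assoc] at k5
      rw [← one_mul (_ * _ * _), ← inv_one, mem_kr_succ (one_mem _) k5, map_one, one_mulVec]
      obtain ⟨c', hc', a, k7⟩ := kr_eig_one ho hl hr k2
      refine ⟨c', hc', ?_⟩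
      rw [act_mul, act_mul, h8, k3, k7, mulVec_add, mulVec_smul, mulVec_smul,
        ← h7, ← h8, mulVec_add, mulVec_smul, mulVec_smul, inv_act, inv_act, add_sub_cancel_right]
      exact Submodule.smul_mem _ _ (single_mem (by simp [j]))
    · rw [← (S.tv ho (by simp [j]) T2).card_mul, ← Fintype.card_congr e, Fintype.card_prod]
      exact Nat.mul_dvd_mul_right (by simp) _
  rw [mul_comm]
  exact (TV.bal_latin _ d).mul k

theorem bal_four [hD : D.Normal] [Fintype F] (hF2 : Odd (Fintype.card F))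
    (hSL : ∀ M : Matrix (Fin n) (Fin n) F, M.det = 1 → ∃ g ∈ D, ρ g = M)
    (hC : ∀ u : Fˣ, ∃ k, u ^ 2 ^ k ∈ C) (h2 : -1 ∉ C) (hsq : ∀ u : Fˣ, u ^ 2 ∈ C → u ∈ C ∨ -u ∈ C)
    (hneg : -1 ∈ S.M0) (hn : n = 4) {i : Fin n} (hi : i.val = 2)
    {X : Type} [Fintype X] (T : TV (Kr ρ D C (i + 1)) (Kr ρ D C i) X) {d : G} {l : Fin n}
    (hl : l.val = 1) (h0 : ρ d *ᵥ Pi.single o 1 ∉ Vr F n i)
    (h1 : ρ d *ᵥ Pi.single l 1 ∉ Vr F n i ⊔ F ∙ (ρ d *ᵥ Pi.single o 1)) {N : ℕ}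
    (hN : N * kk (Kr ρ D C i ⊔ Z) d d = 2 * cd (Kr ρ D C i ⊔ Z)) :
    (S.tv ho (by omega) T).Bal ⊤ d N := by
  classical
  subst hn
  let M : Subgroup Fˣ := C ⊔ Subgroup.zpowers (-1)
  have m1 : -1 ∈ M := Subgroup.mem_sup_right (Subgroup.mem_zpowers _)
  have m2 : ∀ u ∈ M, u ∈ C ∨ -u ∈ C := fun u hu => hsq u (by
    obtain ⟨c, hc, _, ⟨k, rfl⟩, rfl⟩ := Subgroup.mem_sup.1 hu
    rw [mul_pow, ← zpow_natCast (_ ^ k), ← _root_.zpow_mul, mul_comm k, _root_.zpow_mul]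
    simpa using pow_mem hc 2)
  obtain ⟨h, _, lg, hs, hlg⟩ := exists_lg (M := M) hC fun h => h2 (h m1)
  have m3 : ∀ a : ZMod (2 * h), a = 0 ∨ a = (lg ⟨-1, m1⟩).toAdd := fun a => by
    obtain ⟨u, hu⟩ := hs (Multiplicative.ofAdd a)
    refine (m2 u u.2).imp (fun k => ?_) fun k => ?_
    · simpa [hu] using (hlg u).2 k
    · have k1 := (hlg (u⁻¹ * ⟨-1, m1⟩)).2 (by simpa using inv_mem k)
      rw [map_mul, map_inv, inv_mul_eq_one, hu] at k1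
      rw [← k1, toAdd_ofAdd]
  have m4 : (lg ⟨-1, m1⟩).toAdd + (lg ⟨-1, m1⟩).toAdd = 0 := by
    rw [← toAdd_mul, ← map_mul, (hlg _).2 (by simp [one_mem]), toAdd_one]
  have m5 : ∀ a : ZMod (2 * h), a + a = 0 := fun a => by
    rcases m3 a with k | k <;> rw [k]
    exacts [add_zero _, m4]
  obtain rfl : h = 1 := by
    have k1 := (ZMod.natCast_eq_zero_iff 2 (2 * h)).1 (by simpa [one_add_one_eq_two] using m5 1)
    have k2 := Nat.le_of_dvd two_pos k1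
    have := NeZero.pos h
    omega
  obtain ⟨Y, _, e, u, k1, k2, -, -⟩ := fibre (M := M) le_sup_left hSL lg hs hlg (by omega) T
  obtain ⟨b1, b2, b3⟩ := basis_tools _ (indep_four (a := Pi.single o 1) (U := Vr F 4 l) (V := Vr F 4 i) (by simp)
    (single_mem (by omega)) (single_notMem l) (fun v hv a ha => hv a (by omega))
    (single_mem (by omega)) h0 le_sup_left
    (Submodule.mem_sup_right (Submodule.mem_span_singleton_self _)) h1)
  obtain ⟨x0, hx⟩ := vec_surj T hSL (by omega) h0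
  obtain ⟨j, rfl⟩ : Fintype.card Y ∣ N := by
    refine dvd_of_count hN ?_
    rw [← (S.tv ho (by omega) T).card_mul, ← Fintype.card_congr e, Fintype.card_prod, mul_assoc]
    refine Nat.mul_dvd_mul_left _ ((S.cd_st_dvd ho (by omega) lg (fun u => (hlg u).1)
      (fun s hs a b ha hb => ?_) (T.t x0) (fix_col ho (by omega) T hx)).trans (by simp))
    obtain ⟨k, hk, k', hk', z, c, hc, k3, k4⟩ := S.nu_spec ho (by omega) hs ha hb
    obtain ⟨c0, p0, q0⟩ := kr_eig ho (by omega) hk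
    obtain ⟨c1, p1, a1, q1⟩ := kr_eig_one ho hl (by omega) hk
    obtain ⟨c2, p2, q2⟩ := kr_eig ho (by omega) hk'
    obtain ⟨c3, p3, a3, q3⟩ := kr_eig_one ho hl (by omega) hk'
    have k5 : ∀ v, ρ k *ᵥ (ρ d *ᵥ v) = (S.ζ z : F) • ρ d *ᵥ (ρ k' *ᵥ v) := fun v => by
      rw [← mulVec_smul, ← mulVec_smul, ← S.act, ← act_mul k', ← k3, ← act_mul, ← act_mul,
        ← mul_assoc, mul_inv_cancel_left]
    have k6 := b2 (ρ k) !![c0, a1, 0, 0; 0, c1, 0, 0; 0, 0, S.ζ z * c2, S.ζ z * a3;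
      0, 0, 0, S.ζ z * c3] fun j => by
        fin_cases j <;> simp [Fin.sum_univ_four, q0, q1, k5, q2, q3, mulVec_add, mulVec_smul,
          smul_smul, -mulVec_single, -mulVec_mulVec]
    obtain ⟨c4, p4, q4⟩ := (S.det k).1 hk.1
    have k7 : S.ζ z ^ 2 = c4 * (c0 * c1 * c2 * c3)⁻¹ := eq_mul_inv_of_mul_eq (Units.ext (by
      rw [← q4, k6, det_of_isUpperTriangular, Fin.prod_univ_four]
      · simp; ring
      · intro a b hab
        fin_cases a <;> fin_cases b <;> first | rfl | exact absurd hab (by decide)))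
    rw [k4]
    refine mul_mem (Subgroup.mem_sup_left hc) ((hsq _ (k7 ▸ mul_mem p4 (inv_mem (mul_mem (mul_mem
      (mul_mem p0 p1) p2) p3)))).elim Subgroup.mem_sup_left fun k => ?_)
    simpa using mul_mem (Subgroup.mem_sup_left k : _ ∈ M) m1
  rw [mul_comm]
  refine TV.Bal.mul ?_ j
  have hY : Even (Fintype.card Y) := by
    obtain ⟨h, _, lg', k3, k4⟩ := exists_lg' hC fun h => h2 (h ▸ Subgroup.mem_top _)
    obtain ⟨m, e', -, ⟨-, k5⟩, -⟩ := orient hF2 hSL lg' k3 k4 (by omega) (Or.inr h2) T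
    have k6 := Fintype.card_congr (e.trans e'.symm)
    rw [Fintype.card_prod, Fintype.card_prod, ZMod.card, ZMod.card, Fintype.card_fin,
      mul_one, mul_left_comm, mul_comm, mul_right_inj' two_ne_zero] at k6
    exact k6 ▸ (k5.resolve_left (by omega)).mul_right _
  obtain ⟨M', k3, k4⟩ := b3 ![1, 1, -1, -1]
  obtain ⟨s, k5, rfl⟩ := hSL M' (by rw [k3, Fin.prod_univ_four]; simp)
  have s0 : ρ s *ᵥ Pi.single o 1 = Pi.single o 1 := by simpa using k4 0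
  have s1 : ρ s *ᵥ Pi.single l 1 = Pi.single l 1 := by simpa using k4 1
  have s2 : ρ s *ᵥ (ρ d *ᵥ Pi.single o 1) = -(ρ d *ᵥ Pi.single o 1) := by simpa using k4 2
  have s3 : ρ s *ᵥ (ρ d *ᵥ Pi.single l 1) = -(ρ d *ᵥ Pi.single l 1) := by simpa using k4 3
  have e0 : Pi.single o 1 ∈ Vr F 4 i := single_mem (by omega)
  have e1 : Pi.single l 1 ∈ Vr F 4 i := single_mem (by omega)
  have hj : ∀ j : Fin 4, j.val < i → j = o ∨ j = l := fun j hj => by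
    simp only [Fin.ext_iff]; omega
  obtain ⟨c, hc, z, hz, k6⟩ := S.exists_z hneg
  have k7 : -(S.ζ z : F)⁻¹ = c := by
    have := congrArg Units.val k6
    rw [Units.val_mul] at this
    rw [(eq_mul_inv_iff_mul_eq₀ (S.ζ z).ne_zero).2 this.symm]; simp
  have k8 : s ∈ Kr ρ D C i := ⟨k5, fun j h => (rel_col _ j).1 (by
    rcases hj j h with rfl | rfl
    exacts [s0.symm ▸ Rel.refl _, s1.symm ▸ Rel.refl _])⟩
  have k9 : d⁻¹ * s * d * (z⁻¹ : Z) ∈ Kr ρ D C i :=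
    ⟨D.mul_mem (hD.conj_mem' s k5 d) (D.inv_mem hz), fun j h => (rel_col _ j).1 ⟨c, hc, by
      rcases hj j h with rfl | rfl
      · rw [S.act_conj, s2, mulVec_neg, inv_act, ← k7]; simp
      · rw [S.act_conj, s3, mulVec_neg, inv_act, ← k7]; simp⟩⟩
  have t1 : ∀ v, Rel C (Vr F 4 i) (ρ s *ᵥ v) (((-1 : Fˣ) : F) • v) := fun v => ⟨1, one_mem _, by
    obtain ⟨x, rfl⟩ := b1 v
    have : ∀ a b : F, (a + a) • Pi.single o 1 + (b + b) • Pi.single l 1 ∈ Vr F 4 i :=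
      fun a b => add_mem (Submodule.smul_mem _ _ e0) (Submodule.smul_mem _ _ e1)
    refine (congrArg (· ∈ Vr F 4 i) ?_).mp (this (x 0) (x 1))
    simp [Fin.sum_univ_four, mulVec_add, mulVec_smul, s0, s1, s2, s3, -mulVec_single,
      -mulVec_mulVec]
    module⟩
  have t2 : ∀ v, Rel C (Vr F 4 i) (ρ (d⁻¹ * s * d * (z⁻¹ : Z)) *ᵥ v) (((-1 : Fˣ) : F) • v) :=
    fun v => ⟨c, hc, by
      obtain ⟨x, hx⟩ := b1 (ρ d *ᵥ v)
      have : ∀ a b : F, (a + a) • Pi.single o 1 + (b + b) • Pi.single l 1 ∈ Vr F 4 i :=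
        fun a b => add_mem (Submodule.smul_mem _ _ e0) (Submodule.smul_mem _ _ e1)
      refine (congrArg (· ∈ Vr F 4 i) ?_).mp (Submodule.smul_mem _ (c : F) (this (x 2) (x 3)))
      rw [S.act_conj, ← inv_act (ρ := ρ) d v, ← k7, ← act_mul d, mul_inv_cancel, map_one, one_mulVec,
        hx]
      simp [Fin.sum_univ_four, mulVec_add, mulVec_smul, s0, s1, s2, s3, inv_act, mulVec_neg,
        -mulVec_single, -mulVec_mulVec]
      module⟩
  have t3 : ∀ y a, Rel C (Vr F 4 i) (((-1 : Fˣ) : F) • vec T (e (y, a)))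
      (vec T (e (y, (lg ⟨-1, m1⟩).toAdd + a))) := fun y a => by
    obtain ⟨w, hw⟩ := hs (Multiplicative.ofAdd a)
    have t3 := k2 y (⟨-1, m1⟩ * w)
    have t4 := (k2 y w).smul ((-1 : Fˣ) : F)
    rw [hw, toAdd_ofAdd, smul_smul] at t4
    rw [map_mul, hw, toAdd_mul, toAdd_ofAdd] at t3
    exact t4.symm.trans (by simpa using t3)
  refine (S.tv ho (by omega) T).bal_special e (fun _ => False) (fun _ => False) id (fun _ h => h.elim)
    (fun _ _ h => h.elim) (Or.inl hY) (fun _ _ _ _ _ h => h.elim) (fun _ _ _ _ _ h => by simp at h)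
    fun x y a b c g _ _ => ?_
  rw [two_mul c, m5, add_zero]
  rcases m3 a with rfl | rfl
  · rw [zero_add]
  · have t4 := S.shift' ho (by omega) T k8 z k9 ((t1 _).trans (t3 x (lg ⟨-1, m1⟩).toAdd))
      ((t2 _).trans (t3 y b)) g
    rw [m4] at t4
    exact t4.symm

end Tw

theorem dt_zero {i j : Fin n} (hj : j.val = i + 1) (hn : i.val + 2 = n) {a b : Fin n → F}
    (ha : a ∉ Vr F n i) (h : Dt i j a b = 0) : b ∈ Vr F n i ⊔ F ∙ a := by
  refine mem_sup_span.2 ?_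
  have h2 := mt (mem_vr_two hj hn).2 ha
  simp only [mem_vr_two hj hn, Pi.sub_apply, Pi.smul_apply, smul_eq_mul]
  rw [Dt] at h
  by_cases h3 : a i = 0
  · have h4 : a j ≠ 0 := fun h4 => h2 ⟨h3, h4⟩
    refine ⟨b j / a j, ?_, by rw [div_mul_cancel₀ _ h4, sub_self]⟩
    field_simp
    linear_combination -h
  · refine ⟨b i / a i, by rw [div_mul_cancel₀ _ h3, sub_self], ?_⟩
    field_simp
    linear_combination h

theorem neg_one_mem (hC : ∀ u : Fˣ, ∃ k, u ^ 2 ^ k ∈ C)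
    (hsq : ∀ u : Fˣ, u ^ 2 ∈ C → u ∈ C ∨ -u ∈ C) {M : Subgroup Fˣ} (h1 : C ≤ M) (h2 : -1 ∉ M) :
    M ≤ C := fun u hu => by
  obtain ⟨k, hk⟩ := hC u
  induction k with
  | zero => simpa using hk
  | succ k ih =>
    rw [pow_succ, pow_mul] at hk
    refine ih ((hsq _ hk).resolve_right fun h => h2 ?_)
    simpa using mul_mem (h1 h) (inv_mem (pow_mem hu (2 ^ k)))

theorem Tw.ct_step [D.Normal] [Fintype F] {Z : Subgroup G} (S : Tw ρ D C Z)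
    (hF2 : Odd (Fintype.card F))
    (hSL : ∀ M : Matrix (Fin n) (Fin n) F, M.det = 1 → ∃ g ∈ D, ρ g = M)
    (hC : ∀ u : Fˣ, ∃ k, u ^ 2 ^ k ∈ C) (h2 : -1 ∉ C) (hsq : ∀ u : Fˣ, u ^ 2 ∈ C → u ∈ C ∨ -u ∈ C)
    (i : Fin n) (hr : 0 < i.val) (hi : i.val + 1 < n) (h : CT (Kr ρ D C i ⊔ Z)) :
    CT (Kr ρ D C (i + 1) ⊔ Z) := by
  let _ := Fintype.ofFinite (Kr ρ D C i ⧸ (Kr ρ D C (i + 1)).subgroupOf (Kr ρ D C i))
  let T := tvq (kr_succ_le (ρ := ρ) (D := D) (C := C) i)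
  let o : Fin n := ⟨0, by omega⟩
  let l : Fin n := ⟨1, by omega⟩
  refine Coset.ct_step hF2 hSL hC hi (Or.inr (Or.inr h2)) T (S.tv (o := o) rfl hr T) rfl le_sup_left
    (fun d _ hd N hN => ?_) h
  by_cases hM : -1 ∈ S.M0
  swap
  · refine S.bal_split rfl hr hi hSL T hd (fun s hs => ?_) hN
    obtain ⟨lam, hlam⟩ := S.exists_lam (o := o) rfl hr
    exact S.st_split rfl hr hs (hlam ⟨_, (mem_St.1 hs).1⟩) (hlam ⟨_, (mem_St.1 hs).2⟩)
      (neg_one_mem hC hsq le_sup_left hM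
        (S.nu_mem rfl hr hs (hlam ⟨_, (mem_St.1 hs).1⟩) (hlam ⟨_, (mem_St.1 hs).2⟩)))
  have hn : 3 < n := by
    by_contra hn
    obtain rfl : n = 3 := by omega
    obtain ⟨c, hc, z, hz, h3⟩ := S.exists_z hM
    have h4 := mul_mem (pow_mem hc 3) ((S.mem_iff z).1 hz)
    rw [← mul_pow, ← h3] at h4
    exact h2 (by simpa [pow_succ] using h4)
  obtain ⟨k, _, lg, h3, h4⟩ := exists_lg' hC fun h => h2 (h ▸ Subgroup.mem_top _)
  obtain ⟨k', _, lg', h5, h6⟩ := exists_lg (M := S.M0) hC fun h => h2 (h hM)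
  by_cases hc : ∃ v ∈ Vr F n i, v ≠ 0 ∧ ρ d *ᵥ v ∈ Vr F n i
  · exact S.bal_split (o := o) rfl hr hi hSL T hd (fun s => S.st_common (o := o) rfl hr hc) hN
  have e1 : ∀ a : Fin n, a.val < i → Pi.single a 1 ∈ Vr F n i := fun a ha => single_mem ha
  have h7 : ρ d *ᵥ Pi.single o 1 ∉ Vr F n i := fun h => hc ⟨_, e1 o hr, by simp, h⟩
  by_cases h1 : i.val = 1
  · exact S.bal_one' rfl hSL hn lg' h5 h6 h1 T h7 hN
  have h8 : ρ d *ᵥ Pi.single l 1 ∉ Vr F n i ⊔ F ∙ (ρ d *ᵥ Pi.single o 1) := fun h => by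
    obtain ⟨c, h⟩ := mem_sup_span.1 h
    refine hc ⟨Pi.single l 1 - c • Pi.single o 1, sub_mem (e1 l (by simp [l]; omega))
      (Submodule.smul_mem _ _ (e1 o hr)), fun h => ?_, by rwa [mulVec_sub, mulVec_smul]⟩
    simpa [l, o] using congrFun h l
  by_cases h11 : n = 4
  · exact S.bal_four rfl hF2 hSL hC h2 hsq hM h11 (by omega) T rfl h7 h8 hN
  refine S.bal_two' rfl hF2 hSL lg h3 h4 h2 (by omega) (lt_of_le_of_ne hi fun h9 => ?_) T rfl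
    h7 h8 hN
  let j : Fin n := ⟨i + 1, hi⟩
  let p : Fin n := ⟨2, by omega⟩
  refine h8 (dt_zero (j := j) rfl h9 h7 (by_contra fun h10 => hc ⟨
    Dt i j (ρ d *ᵥ Pi.single l 1) (ρ d *ᵥ Pi.single p 1) • Pi.single o 1 +
    Dt i j (ρ d *ᵥ Pi.single p 1) (ρ d *ᵥ Pi.single o 1) • Pi.single l 1 +
    Dt i j (ρ d *ᵥ Pi.single o 1) (ρ d *ᵥ Pi.single l 1) • Pi.single p 1,
    add_mem (add_mem (Submodule.smul_mem _ _ (e1 o hr))
      (Submodule.smul_mem _ _ (e1 l (by simp [l]; omega))))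
      (Submodule.smul_mem _ _ (e1 p (by simp [p]; omega))), fun h => h10 ?_, ?_⟩))
  · simpa [l, o, p] using congrFun h p
  · rw [mulVec_add, mulVec_add, mulVec_smul, mulVec_smul, mulVec_smul, mem_vr_two (j := j) rfl h9]
    simp only [Dt, Pi.add_apply, Pi.smul_apply, smul_eq_mul]
    constructor <;> ring

theorem Tw.ct_first [D.Normal] [Fintype F] {Z : Subgroup G} (S : Tw ρ D C Z)
    (hF2 : Odd (Fintype.card F))
    (hSL : ∀ M : Matrix (Fin n) (Fin n) F, M.det = 1 → ∃ g ∈ D, ρ g = M)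
    (hC : ∀ u : Fˣ, ∃ k, u ^ 2 ^ k ∈ C) (hn : 1 < n) (h2 : 2 < n ∨ -1 ∉ S.M0) (h : CT (D ⊔ Z)) :
    CT (Kr ρ D C 1 ⊔ Z) := by
  let o : Fin n := ⟨0, by omega⟩
  let _ := Fintype.ofFinite (Kr ρ D S.M0 o ⧸ (Kr ρ D S.M0 (o + 1)).subgroupOf (Kr ρ D S.M0 o))
  let T := tvq (kr_succ_le (ρ := ρ) (D := D) (C := S.M0) o)
  have h1 : Kr ρ D S.M0 (o + 1) ≤ Kr ρ D C 1 ⊔ Z := fun g hg => by
    obtain ⟨u, hu, h1⟩ := kr_eig (o := o) rfl (by simp) hg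
    obtain ⟨c, hc, z, hz, rfl⟩ := S.exists_z hu
    have h3 : g * (z⁻¹ : Z) ∈ Kr ρ D C 1 := ⟨D.mul_mem hg.1 (D.inv_mem hz), fun j hj =>
      (rel_col _ j).1 ⟨c, hc, by
        obtain rfl : j = o := Fin.ext (by simpa using hj)
        rw [act_mul, S.act, mulVec_smul, h1, smul_smul, ← Units.val_mul, map_inv, mul_comm c,
          inv_mul_cancel_left, sub_self]
        exact zero_mem _⟩⟩
    simpa using Subgroup.mul_mem_sup h3 z.2
  let T' : TV (Kr ρ D C 1 ⊔ Z) (D ⊔ Z) _ :=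
    { t := T.t
      le := sup_le_sup_right inf_le_left _
      mem := fun x => Subgroup.mem_sup_left (T.mem x).1
      ex := fun g hg => by
        obtain ⟨k, hk, z, rfl⟩ := S.split hg
        obtain ⟨x, hx⟩ := T.ex k ((kr_zero (ρ := ρ) D S.M0).ge hk)
        exact ⟨x, mul_assoc _ k _ ▸ mul_mem (h1 hx) (Subgroup.mem_sup_right z.2)⟩
      uniq := fun x y h => T.uniq x y (by
        obtain ⟨k, hk, z, h3⟩ := S.split h
        obtain ⟨c, hc, h4⟩ := kr_eig (o := o) rfl one_pos hk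
        have h5 := (mul_mem (inv_mem (T.mem x)) (T.mem y)).1
        refine ⟨h5, fun j hj => (rel_col _ j).1 ⟨c * S.ζ z, Subgroup.mul_mem_sup hc
          ⟨z, (D.mul_mem_cancel_left hk.1).1 (h3 ▸ h5), rfl⟩, ?_⟩⟩
        obtain rfl : j = o := Fin.ext (Nat.lt_one_iff.1 hj)
        rw [h3, act_mul, S.act, mulVec_smul, h4, smul_smul, Units.val_mul, mul_comm, sub_self]
        exact zero_mem _) }
  exact Coset.ct_step (C := S.M0) hF2 hSL (fun u => (hC u).imp fun _ h => Subgroup.mem_sup_left h)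
    (i := o) hn (Or.inr h2) T T' rfl h1
    (fun d _ hd => absurd (fun v hv => by rw [vr_zero hv, mulVec_zero]; exact zero_mem _) hd) h

theorem Tw.ct [D.Normal] [Fintype F] {Z : Subgroup G} (S : Tw ρ D C Z)
    (hF2 : Odd (Fintype.card F)) (hρ : Function.Injective ρ)
    (hSL : ∀ M : Matrix (Fin n) (Fin n) F, M.det = 1 → ∃ g ∈ D, ρ g = M)
    (hC : ∀ u : Fˣ, ∃ k, u ^ 2 ^ k ∈ C) (h2 : -1 ∉ C) (hsq : ∀ u : Fˣ, u ^ 2 ∈ C → u ∈ C ∨ -u ∈ C)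
    (hn : n = 2 → -1 ∉ S.M0) : CT Z := by
  have := S.normal
  have h0 : CT (D ⊔ Z) := ct_det (ρ := ρ) _ fun g hg =>
    Subgroup.mem_sup_left ((S.det g).2 ⟨1, one_mem _, hg⟩)
  have h1 : ∀ r, r ≤ n - 1 → CT (Kr ρ D C r ⊔ Z) := fun r => by
    induction r with
    | zero => exact fun _ => (kr_zero (ρ := ρ) D C).symm ▸ h0
    | succ r ih =>
      intro hr
      obtain _ | r := r
      · exact S.ct_first hF2 hSL hC (by omega) (by
          by_cases h : n = 2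
          exacts [Or.inr (hn h), Or.inl (by omega)]) h0
      · exact S.ct_step hF2 hSL hC h2 hsq ⟨r + 1, by omega⟩ (by simp) (by simp; omega) (ih (by omega))
  refine ct_bottom hρ (fun h => h2 ?_) h2 (fun g => (S.det g).1) Z S.cen (h1 _ le_rfl)
  rw [show (-1 : Fˣ) = 1 from Units.ext (by
    rw [Units.val_neg, Units.val_one]; linear_combination -h)]
  exact one_mem _

end Pool.Agent.Lib.MP_0becda_co.Coset
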